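import Pool.Agent.Work.MP_859ada_lc.Std.Defs

/-!
# MP_859ada_lc: the existential theory of the reals as a complexity class
-/

set_option autoImplicit false

namespace Pool.Agent.Work.MP_859ada_lc

open Turing

/-- The class `∃ℝ`: `x ∈ L` iff there are a string `w` of polynomial length and a real point
`z = (z 0, z 1, ...)` such that the machine accepts `(x, w)`, the programs in the list `E (x, w)`
vanish at `z` and the programs in the list `P (x, w)` are positive at `z`. -/
def ManyReal (L : List Bool → Prop) : Prop :=
  ∃ (p : Polynomial ℕ) (R : List Bool × List Bool → Bool)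
    (E P : List Bool × List Bool → List (List Gate)),
    Nonempty (TM2ComputableInPolyTime encPair (fun b : Bool => [b]) R) ∧
    Nonempty (TM2ComputableInPolyTime encPair encSys E) ∧
    Nonempty (TM2ComputableInPolyTime encPair encSys P) ∧
    ∀ x, L x ↔ ∃ w : List Bool, w.length ≤ p.eval x.length ∧ R (x, w) = true ∧
      ∃ z : ℕ → ℝ, (∀ q ∈ E (x, w), value z q = 0) ∧ ∀ q ∈ P (x, w), 0 < value z q

end Pool.Agent.Work.MP_859ada_lc
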