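import Pool.Agent.Work.MP_859ada_lc.ER.ETRDefs
import Pool.Agent.Work.MP_859ada_lc.ER.MDefs
import Pool.Agent.Work.MP_859ada_lc.Main

/-!
# MP_859ada_lc: ETR is in the class `ManyReal`
-/

set_option autoImplicit false

namespace Pool.Agent.Work.MP_859ada_lc.ETR

open Pool.Agent.PT Turing Pool.Agent.Work.MP_46935e_lc

/-- a node: symbol and the two children -/
abbrev Nd := ℕ × (ℕ × ℕ)

/-- state: stack (sort, node), nodes -/
abbrev St := List (Bool × ℕ) × List Nd

/-- one step of the parser (reading from the right) -/
def step (t : ℕ) (s : St) : Option St :=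
  if t = 0 ∨ t = 1 ∨ 13 ≤ t then some ((false, s.2.length) :: s.1, s.2 ++ [(t, (0, 0))])
  else if t ≤ 9 then
    (if 2 ≤ s.1.length ∧ (s.1.getD 0 (false, 0)).1 = false ∧ (s.1.getD 1 (false, 0)).1 = false then
      some ((decide (5 ≤ t), s.2.length) :: s.1.drop 2,
        s.2 ++ [(t, ((s.1.getD 0 (false, 0)).2, (s.1.getD 1 (false, 0)).2))]) else none)
  else if t ≤ 11 then
    (if 2 ≤ s.1.length ∧ (s.1.getD 0 (false, 0)).1 = true ∧ (s.1.getD 1 (false, 0)).1 = true then
      some ((true, s.2.length) :: s.1.drop 2,
        s.2 ++ [(t, ((s.1.getD 0 (false, 0)).2, (s.1.getD 1 (false, 0)).2))]) else none)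
  else
    (if 1 ≤ s.1.length ∧ (s.1.getD 0 (false, 0)).1 = true then
      some ((true, s.2.length) :: s.1.drop 1,
        s.2 ++ [(t, ((s.1.getD 0 (false, 0)).2, (s.1.getD 0 (false, 0)).2))]) else none)

/-- the parser -/
def run (l : List ℕ) : Option St := l.foldr (fun t o => o.bind (step t)) (some ([], []))

theorem run_cons (t : ℕ) (l : List ℕ) : run (t :: l) = (run l).bind (step t) := rfl

/-- the condition given by a node -/
def Con (y v : ℕ → ℝ) (w : ℕ → Bool) (k : ℕ) (c : Nd) : Prop :=
  if c.1 = 0 then v k = 0
  else if c.1 = 1 then v k = 1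
  else if c.1 = 2 then v k = v c.2.1 + v c.2.2
  else if c.1 = 3 then v k = v c.2.1 - v c.2.2
  else if c.1 = 4 then v k = v c.2.1 * v c.2.2
  else if c.1 = 5 then (w k = true ↔ v c.2.1 < v c.2.2)
  else if c.1 = 6 then (w k = true ↔ v c.2.1 ≤ v c.2.2)
  else if c.1 = 7 then (w k = true ↔ v c.2.1 = v c.2.2)
  else if c.1 = 8 then (w k = true ↔ v c.2.1 ≥ v c.2.2)
  else if c.1 = 9 then (w k = true ↔ v c.2.1 > v c.2.2)
  else if c.1 = 10 then (w k = true ↔ w c.2.1 = true ∧ w c.2.2 = true)
  else if c.1 = 11 then (w k = true ↔ w c.2.1 = true ∨ w c.2.2 = true)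
  else if c.1 = 12 then (w k = true ↔ ¬ w c.2.1 = true)
  else v k = y (c.1 - 13)

def Sat (y v : ℕ → ℝ) (w : ℕ → Bool) (nd : List Nd) : Prop :=
  ∀ k < nd.length, Con y v w k (nd.getD k (0, (0, 0)))

theorem Sat.left {y v : ℕ → ℝ} {w : ℕ → Bool} {nd : List Nd} {c : Nd}
    (h : Sat y v w (nd ++ [c])) : Sat y v w nd := by
  intro k hk
  have := h k (by rw [List.length_append]; omega)
  rwa [List.getD_append _ _ _ _ hk] at this

theorem Sat.last {y v : ℕ → ℝ} {w : ℕ → Bool} {nd : List Nd} {c : Nd}
    (h : Sat y v w (nd ++ [c])) : Con y v w nd.length c := by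
  have := h nd.length (by rw [List.length_append, List.length_singleton]; omega)
  rwa [List.getD_append_right _ _ _ _ le_rfl, Nat.sub_self] at this

theorem sat_snoc {y v : ℕ → ℝ} {w : ℕ → Bool} {nd : List Nd} {c : Nd}
    (h : Sat y v w nd) (h1 : Con y v w nd.length c) : Sat y v w (nd ++ [c]) := by
  intro k hk
  rw [List.length_append, List.length_singleton] at hk
  by_cases h2 : k < nd.length
  · rw [List.getD_append _ _ _ _ h2]; exact h k h2
  · have : k = nd.length := by omega
    subst this
    rw [List.getD_append_right _ _ _ _ le_rfl, Nat.sub_self]; exact h1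

/-- the children come earlier -/
def Good (nd : List Nd) : Prop := ∀ k < nd.length, 2 ≤ (nd.getD k (0, (0, 0))).1 →
  (nd.getD k (0, (0, 0))).1 ≤ 12 →
  (nd.getD k (0, (0, 0))).2.1 < k ∧ (nd.getD k (0, (0, 0))).2.2 < k

theorem good_snoc {nd : List Nd} {c : Nd} (h : Good nd)
    (h1 : 2 ≤ c.1 → c.1 ≤ 12 → c.2.1 < nd.length ∧ c.2.2 < nd.length) : Good (nd ++ [c]) := by
  intro k hk
  rw [List.length_append, List.length_singleton] at hk
  by_cases h2 : k < nd.length
  · rw [List.getD_append _ _ _ _ h2]; exact h k h2
  · have : k = nd.length := by omega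
    subst this
    rw [List.getD_append_right _ _ _ _ le_rfl, Nat.sub_self]; exact h1

theorem Good.left {nd : List Nd} {c : Nd} (h : Good (nd ++ [c])) : Good nd := by
  intro k hk
  have := h k (by rw [List.length_append]; omega)
  rwa [List.getD_append _ _ _ _ hk] at this

theorem Good.last {nd : List Nd} {c : Nd} (h : Good (nd ++ [c])) :
    2 ≤ c.1 → c.1 ≤ 12 → c.2.1 < nd.length ∧ c.2.2 < nd.length := by
  have := h nd.length (by rw [List.length_append, List.length_singleton]; omega)
  rwa [List.getD_append_right _ _ _ _ le_rfl, Nat.sub_self] at this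

theorem con_congr {y v v' : ℕ → ℝ} {w w' : ℕ → Bool} {k : ℕ} {c : Nd}
    (hv : ∀ i ≤ k, v i = v' i) (hw : ∀ i ≤ k, w i = w' i)
    (hc : 2 ≤ c.1 → c.1 ≤ 12 → c.2.1 < k ∧ c.2.2 < k) (h : Con y v w k c) : Con y v' w' k c := by
  obtain ⟨t, a, b⟩ := c
  simp only at hc
  unfold Con at h ⊢
  simp only at h ⊢
  have h0 := hv k le_rfl
  have h0' := hw k le_rfl
  by_cases ht : 2 ≤ t ∧ t ≤ 12
  · obtain ⟨ha, hb⟩ := hc ht.1 ht.2
    rw [← h0, ← h0', ← hv a ha.le, ← hv b hb.le, ← hw a ha.le, ← hw b hb.le]
    exact h
  · rcases Nat.lt_or_ge t 2 with h1 | h1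
    · interval_cases t
      · rw [if_pos rfl] at h ⊢; rw [← h0]; exact h
      · rw [if_neg (by norm_num), if_pos rfl] at h ⊢; rw [← h0]; exact h
    · have h2 : 13 ≤ t := by omega
      rw [if_neg (by omega), if_neg (by omega), if_neg (by omega), if_neg (by omega),
        if_neg (by omega), if_neg (by omega), if_neg (by omega), if_neg (by omega),
        if_neg (by omega), if_neg (by omega), if_neg (by omega), if_neg (by omega),
        if_neg (by omega)] at h ⊢
      rw [← h0]; exact h

theorem con_exists (y v : ℕ → ℝ) (w : ℕ → Bool) (k : ℕ) (c : Nd)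
    (hc : 2 ≤ c.1 → c.1 ≤ 12 → c.2.1 < k ∧ c.2.2 < k) :
    ∃ (r : ℝ) (b : Bool), Con y (Function.update v k r) (Function.update w k b) k c := by
  classical
  obtain ⟨t, a, b⟩ := c
  simp only at hc
  by_cases ht : 2 ≤ t ∧ t ≤ 12
  · obtain ⟨ha, hb⟩ := hc ht.1 ht.2
    have ea : ∀ r : ℝ, Function.update v k r a = v a := fun r => Function.update_of_ne (by omega) _ _
    have eb : ∀ r : ℝ, Function.update v k r b = v b := fun r => Function.update_of_ne (by omega) _ _
    have ea' : ∀ r : Bool, Function.update w k r a = w a :=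
      fun r => Function.update_of_ne (by omega) _ _
    have eb' : ∀ r : Bool, Function.update w k r b = w b :=
      fun r => Function.update_of_ne (by omega) _ _
    have hb : ∀ P : Prop, ∃ (r : ℝ) (b : Bool), (Function.update w k b k = true ↔ P) :=
      fun P => ⟨0, decide P, by rw [Function.update_self, decide_eq_true_iff]⟩
    have hr : ∀ x : ℝ, ∃ (r : ℝ) (_b : Bool), Function.update v k r k = x :=
      fun x => ⟨x, true, by rw [Function.update_self]⟩
    unfold Con
    simp only [ea, eb, ea', eb']
    obtain ⟨h1, h2⟩ := ht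
    interval_cases t <;> simp only [OfNat.ofNat_ne_zero, OfNat.ofNat_ne_one, if_true, if_false,
      Nat.reduceEqDiff] <;> first | exact hr _ | exact hb _
  · unfold Con
    simp only
    rcases Nat.lt_or_ge t 2 with h1 | h1
    · interval_cases t
      · exact ⟨0, true, by rw [if_pos rfl, Function.update_self]⟩
      · exact ⟨1, true, by rw [if_neg (by norm_num), if_pos rfl, Function.update_self]⟩
    · have h2 : 13 ≤ t := by omega
      refine ⟨y (t - 13), true, ?_⟩
      rw [if_neg (by omega), if_neg (by omega), if_neg (by omega), if_neg (by omega),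
        if_neg (by omega), if_neg (by omega), if_neg (by omega), if_neg (by omega),
        if_neg (by omega), if_neg (by omega), if_neg (by omega), if_neg (by omega),
        if_neg (by omega), Function.update_self]

theorem sat_exists (y : ℕ → ℝ) (nd : List Nd) (h : Good nd) :
    ∃ (v : ℕ → ℝ) (w : ℕ → Bool), Sat y v w nd := by
  induction nd using List.reverseRecOn with
  | nil => exact ⟨fun _ => 0, fun _ => true, fun k hk => absurd hk (Nat.not_lt_zero _)⟩
  | append_singleton nd c ih =>
    obtain ⟨v, w, hs⟩ := ih h.left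
    obtain ⟨r, b, hc⟩ := con_exists y v w nd.length c h.last
    refine ⟨Function.update v nd.length r, Function.update w nd.length b, sat_snoc ?_ hc⟩
    intro k hk
    refine con_congr ?_ ?_ (h.left k hk) (hs k hk)
    · intro i hi
      rw [Function.update_of_ne (by omega)]
    · intro i hi
      rw [Function.update_of_ne (by omega)]

/-- the tree of a stack element -/
def Mt (nd : List Nd) (e : Bool × ℕ) (T : RTerm ⊕ RForm) : Prop :=
  e.2 < nd.length ∧ match T with
  | .inl s => e.1 = false ∧ ∀ y v w, Sat y v w nd → v e.2 = s.val y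
  | .inr f => e.1 = true ∧ ∀ y v w, Sat y v w nd → (w e.2 = true ↔ f.Holds y)

theorem Mt.mono {nd : List Nd} {c : Nd} {e : Bool × ℕ} {T : RTerm ⊕ RForm} (h : Mt nd e T) :
    Mt (nd ++ [c]) e T := by
  refine ⟨by rw [List.length_append]; have := h.1; omega, ?_⟩
  cases T with
  | inl s => exact ⟨h.2.1, fun y v w hs => h.2.2 y v w hs.left⟩
  | inr f => exact ⟨h.2.1, fun y v w hs => h.2.2 y v w hs.left⟩

def toks : RTerm ⊕ RForm → List ℕ
  | .inl s => s.toks
  | .inr f => f.toks

theorem Mt.sort_false {nd : List Nd} {i : ℕ} {T : RTerm ⊕ RForm} (h : Mt nd (false, i) T) :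
    ∃ s, T = .inl s ∧ i < nd.length ∧ ∀ y v w, Sat y v w nd → v i = s.val y := by
  cases T with
  | inl s => exact ⟨s, rfl, h.1, h.2.2⟩
  | inr f => exact absurd h.2.1 (by simp)

theorem Mt.sort_true {nd : List Nd} {i : ℕ} {T : RTerm ⊕ RForm} (h : Mt nd (true, i) T) :
    ∃ f, T = .inr f ∧ i < nd.length ∧ ∀ y v w, Sat y v w nd → (w i = true ↔ f.Holds y) := by
  cases T with
  | inl s => exact absurd h.2.1 (by simp)
  | inr f => exact ⟨f, rfl, h.1, h.2.2⟩

theorem inv (l : List ℕ) : ∀ st nd, run l = some (st, nd) → Good nd ∧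
    ∃ T : List (RTerm ⊕ RForm), List.Forall₂ (Mt nd) st T ∧ l = T.flatMap toks := by
  induction l with
  | nil =>
    intro st nd h
    have h' : (([], []) : St) = (st, nd) := Option.some.inj h
    rw [Prod.mk.injEq] at h'
    obtain ⟨rfl, rfl⟩ := h'
    exact ⟨fun k hk => absurd hk (Nat.not_lt_zero _), [], List.Forall₂.nil, rfl⟩
  | cons t l ih =>
    intro st nd h
    rw [run_cons] at h
    obtain ⟨⟨st0, nd0⟩, h0, h1⟩ := Option.bind_eq_some_iff.1 h
    obtain ⟨hg, T, hT, hl⟩ := ih st0 nd0 h0
    unfold step at h1
    simp only at h1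
    split_ifs at h1 with c1 c2 c3 c4 c5 c6
    · -- constants and variables
      have h' := Option.some.inj h1
      rw [Prod.mk.injEq] at h'
      obtain ⟨rfl, rfl⟩ := h'
      refine ⟨good_snoc hg (fun a b => by simp only at a b; omega), ?_⟩
      have key : ∀ s : RTerm, s.toks = [t] → (∀ y v w, Con y v w nd0.length (t, (0, 0)) →
          v nd0.length = s.val y) → ∃ T : List (RTerm ⊕ RForm),
          List.Forall₂ (Mt (nd0 ++ [(t, (0, 0))])) ((false, nd0.length) :: st0) T ∧
            t :: l = T.flatMap toks := by
        intro s hs hv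
        refine ⟨.inl s :: T, List.Forall₂.cons ⟨?_, rfl, ?_⟩ (hT.imp fun _ _ h => h.mono), ?_⟩
        · rw [List.length_append, List.length_singleton]; simp
        · intro y v w hsat
          exact hv y v w hsat.last
        · rw [List.flatMap_cons, ← hl]
          show _ = s.toks ++ l
          rw [hs]; rfl
      rcases c1 with rfl | rfl | c1
      · refine key .zero rfl (fun y v w hc => ?_)
        unfold Con at hc; simpa [RTerm.val] using hc
      · refine key .one rfl (fun y v w hc => ?_)
        unfold Con at hc; simpa [RTerm.val] using hc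
      · refine key (.var (t - 13)) ?_ (fun y v w hc => ?_)
        · show [13 + (t - 13)] = [t]
          congr 1; omega
        · unfold Con at hc
          simp only at hc
          rw [if_neg (by omega), if_neg (by omega), if_neg (by omega), if_neg (by omega),
            if_neg (by omega), if_neg (by omega), if_neg (by omega), if_neg (by omega),
            if_neg (by omega), if_neg (by omega), if_neg (by omega), if_neg (by omega),
            if_neg (by omega)] at hc
          exact hc
    · -- two terms
      have h' := Option.some.inj h1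
      rw [Prod.mk.injEq] at h'
      obtain ⟨rfl, rfl⟩ := h'
      obtain ⟨d1, d2, d3⟩ := c3
      match st0, hT, d1, d2, d3 with
      | (b1, i1) :: (b2, i2) :: st1, hT, d1, d2, d3 =>
        simp only [List.getD_cons_zero, List.getD_cons_succ] at d2 d3 ⊢
        subst d2 d3
        obtain ⟨T1, T', hm1, hT', rfl⟩ := List.forall₂_cons_left_iff.1 hT
        obtain ⟨T2, T'', hm2, hT'', rfl⟩ := List.forall₂_cons_left_iff.1 hT'
        obtain ⟨s1, rfl, l1, v1⟩ := hm1.sort_false
        obtain ⟨s2, rfl, l2, v2⟩ := hm2.sort_false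
        refine ⟨good_snoc hg (fun _ _ => ⟨l1, l2⟩), ?_⟩
        have hl' : l = s1.toks ++ (s2.toks ++ T''.flatMap toks) := by
          rw [hl, List.flatMap_cons, List.flatMap_cons]; rfl
        have hT3 := hT''.imp (fun _ _ h => Mt.mono (c := (t, (i1, i2))) h)
        have key1 : ∀ s : RTerm, s.toks = t :: (s1.toks ++ s2.toks) → decide (5 ≤ t) = false →
            (∀ y v w, Con y v w nd0.length (t, (i1, i2)) → v i1 = s1.val y → v i2 = s2.val y →
              v nd0.length = s.val y) → ∃ T : List (RTerm ⊕ RForm),
            List.Forall₂ (Mt (nd0 ++ [(t, (i1, i2))]))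
              ((decide (5 ≤ t), nd0.length) :: List.drop 2 ((false, i1) :: (false, i2) :: st1)) T ∧
              t :: l = T.flatMap toks := by
          intro s hs ht hv
          rw [ht]
          refine ⟨.inl s :: T'', List.Forall₂.cons ⟨?_, rfl, ?_⟩ hT3, ?_⟩
          · rw [List.length_append, List.length_singleton]; simp
          · intro y v w hsat
            exact hv y v w hsat.last (v1 y v w hsat.left) (v2 y v w hsat.left)
          · rw [List.flatMap_cons, hl']
            show _ = s.toks ++ _
            rw [hs]; simp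
        have key2 : ∀ f : RForm, f.toks = t :: (s1.toks ++ s2.toks) → decide (5 ≤ t) = true →
            (∀ y v w, Con y v w nd0.length (t, (i1, i2)) → v i1 = s1.val y → v i2 = s2.val y →
              (w nd0.length = true ↔ f.Holds y)) → ∃ T : List (RTerm ⊕ RForm),
            List.Forall₂ (Mt (nd0 ++ [(t, (i1, i2))]))
              ((decide (5 ≤ t), nd0.length) :: List.drop 2 ((false, i1) :: (false, i2) :: st1)) T ∧
              t :: l = T.flatMap toks := by
          intro s hs ht hv
          rw [ht]
          refine ⟨.inr s :: T'', List.Forall₂.cons ⟨?_, rfl, ?_⟩ hT3, ?_⟩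
          · rw [List.length_append, List.length_singleton]; simp
          · intro y v w hsat
            exact hv y v w hsat.last (v1 y v w hsat.left) (v2 y v w hsat.left)
          · rw [List.flatMap_cons, hl']
            show _ = s.toks ++ _
            rw [hs]; simp
        have ht2 : 2 ≤ t := by omega
        interval_cases t
        · refine key1 (.add s1 s2) rfl rfl (fun y v w hc e1 e2 => ?_)
          unfold Con at hc; simpa [RTerm.val, e1, e2] using hc
        · refine key1 (.sub s1 s2) rfl rfl (fun y v w hc e1 e2 => ?_)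
          unfold Con at hc; simpa [RTerm.val, e1, e2] using hc
        · refine key1 (.mul s1 s2) rfl rfl (fun y v w hc e1 e2 => ?_)
          unfold Con at hc; simpa [RTerm.val, e1, e2] using hc
        · refine key2 (.lt s1 s2) rfl rfl (fun y v w hc e1 e2 => ?_)
          unfold Con at hc; simpa [RForm.Holds, e1, e2] using hc
        · refine key2 (.le s1 s2) rfl rfl (fun y v w hc e1 e2 => ?_)
          unfold Con at hc; simpa [RForm.Holds, e1, e2] using hc
        · refine key2 (.eq s1 s2) rfl rfl (fun y v w hc e1 e2 => ?_)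
          unfold Con at hc; simpa [RForm.Holds, e1, e2] using hc
        · refine key2 (.ge s1 s2) rfl rfl (fun y v w hc e1 e2 => ?_)
          unfold Con at hc; simpa [RForm.Holds, e1, e2] using hc
        · refine key2 (.gt s1 s2) rfl rfl (fun y v w hc e1 e2 => ?_)
          unfold Con at hc; simpa [RForm.Holds, e1, e2] using hc
    · -- two formulas
      have h' := Option.some.inj h1
      rw [Prod.mk.injEq] at h'
      obtain ⟨rfl, rfl⟩ := h'
      obtain ⟨d1, d2, d3⟩ := c5
      match st0, hT, d1, d2, d3 with
      | (b1, i1) :: (b2, i2) :: st1, hT, d1, d2, d3 =>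
        simp only [List.getD_cons_zero, List.getD_cons_succ] at d2 d3 ⊢
        subst d2 d3
        obtain ⟨T1, T', hm1, hT', rfl⟩ := List.forall₂_cons_left_iff.1 hT
        obtain ⟨T2, T'', hm2, hT'', rfl⟩ := List.forall₂_cons_left_iff.1 hT'
        obtain ⟨s1, rfl, l1, v1⟩ := hm1.sort_true
        obtain ⟨s2, rfl, l2, v2⟩ := hm2.sort_true
        refine ⟨good_snoc hg (fun _ _ => ⟨l1, l2⟩), ?_⟩
        have hl' : l = s1.toks ++ (s2.toks ++ T''.flatMap toks) := by
          rw [hl, List.flatMap_cons, List.flatMap_cons]; rfl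
        have hT3 := hT''.imp (fun _ _ h => Mt.mono (c := (t, (i1, i2))) h)
        have key2 : ∀ f : RForm, f.toks = t :: (s1.toks ++ s2.toks) →
            (∀ y v w, Con y v w nd0.length (t, (i1, i2)) → (w i1 = true ↔ s1.Holds y) →
              (w i2 = true ↔ s2.Holds y) →
              (w nd0.length = true ↔ f.Holds y)) → ∃ T : List (RTerm ⊕ RForm),
            List.Forall₂ (Mt (nd0 ++ [(t, (i1, i2))]))
              ((true, nd0.length) :: List.drop 2 ((true, i1) :: (true, i2) :: st1)) T ∧
              t :: l = T.flatMap toks := by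
          intro s hs hv
          refine ⟨.inr s :: T'', List.Forall₂.cons ⟨?_, rfl, ?_⟩ hT3, ?_⟩
          · rw [List.length_append, List.length_singleton]; simp
          · intro y v w hsat
            exact hv y v w hsat.last (v1 y v w hsat.left) (v2 y v w hsat.left)
          · rw [List.flatMap_cons, hl']
            show _ = s.toks ++ _
            rw [hs]; simp
        have ht2 : 10 ≤ t := by omega
        interval_cases t
        · refine key2 (.and s1 s2) rfl (fun y v w hc e1 e2 => ?_)
          unfold Con at hc; simpa [RForm.Holds, e1, e2] using hc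
        · refine key2 (.or s1 s2) rfl (fun y v w hc e1 e2 => ?_)
          unfold Con at hc; simpa [RForm.Holds, e1, e2] using hc
    · -- negation
      have h' := Option.some.inj h1
      rw [Prod.mk.injEq] at h'
      obtain ⟨rfl, rfl⟩ := h'
      obtain ⟨d1, d2⟩ := c6
      have ht : t = 12 := by omega
      subst ht
      match st0, hT, d1, d2 with
      | (b1, i1) :: st1, hT, d1, d2 =>
        simp only [List.getD_cons_zero] at d2 ⊢
        subst d2
        obtain ⟨T1, T', hm1, hT', rfl⟩ := List.forall₂_cons_left_iff.1 hT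
        obtain ⟨s1, rfl, l1, v1⟩ := hm1.sort_true
        refine ⟨good_snoc hg (fun _ _ => ⟨l1, l1⟩), .inr (.not s1) :: T',
          List.Forall₂.cons ⟨?_, rfl, ?_⟩
            (hT'.imp (fun _ _ h => Mt.mono (c := (12, (i1, i1))) h)), ?_⟩
        · rw [List.length_append, List.length_singleton]; simp
        · intro y v w hsat
          have hc := hsat.last
          have e1 := v1 y v w hsat.left
          unfold Con at hc; simpa [RForm.Holds, e1] using hc
        · rw [List.flatMap_cons, hl, List.flatMap_cons]
          rfl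

theorem run_term (s : RTerm) : ∀ l st nd, run l = some (st, nd) →
    ∃ i nd', run (s.toks ++ l) = some ((false, i) :: st, nd') := by
  have leaf : ∀ t : ℕ, (t = 0 ∨ t = 1 ∨ 13 ≤ t) → ∀ l st nd, run l = some (st, nd) →
      ∃ i nd', run ([t] ++ l) = some ((false, i) :: st, nd') := by
    intro t ht l st nd h
    refine ⟨nd.length, nd ++ [(t, (0, 0))], ?_⟩
    rw [List.singleton_append, run_cons, h, Option.bind_some]
    unfold step
    rw [if_pos ht]
  have node : ∀ t : ℕ, (t = 2 ∨ t = 3 ∨ t = 4) → ∀ s1 s2 : RTerm,
      (∀ l st nd, run l = some (st, nd) →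
        ∃ i nd', run (s1.toks ++ l) = some ((false, i) :: st, nd')) →
      (∀ l st nd, run l = some (st, nd) →
        ∃ i nd', run (s2.toks ++ l) = some ((false, i) :: st, nd')) →
      ∀ l st nd, run l = some (st, nd) →
        ∃ i nd', run (t :: (s1.toks ++ s2.toks) ++ l) = some ((false, i) :: st, nd') := by
    intro t ht s1 s2 h1 h2 l st nd h
    obtain ⟨i2, nd2, e2⟩ := h2 l st nd h
    obtain ⟨i1, nd1, e1⟩ := h1 _ _ _ e2
    refine ⟨nd1.length, nd1 ++ [(t, (i1, i2))], ?_⟩
    rw [List.cons_append, List.append_assoc, run_cons, e1, Option.bind_some]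
    unfold step
    rw [if_neg (by omega), if_pos (by omega), if_pos (by simp)]
    have : decide (5 ≤ t) = false := by
      rw [decide_eq_false_iff_not]; omega
    rw [this]
    rfl
  induction s with
  | zero => exact leaf 0 (Or.inl rfl)
  | one => exact leaf 1 (Or.inr (Or.inl rfl))
  | var i => exact leaf (13 + i) (Or.inr (Or.inr (by omega)))
  | add s1 s2 h1 h2 => exact node 2 (by omega) s1 s2 h1 h2
  | sub s1 s2 h1 h2 => exact node 3 (by omega) s1 s2 h1 h2
  | mul s1 s2 h1 h2 => exact node 4 (by omega) s1 s2 h1 h2

theorem run_form (f : RForm) : ∀ l st nd, run l = some (st, nd) →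
    ∃ i nd', run (f.toks ++ l) = some ((true, i) :: st, nd') := by
  have atom : ∀ t : ℕ, 5 ≤ t → t ≤ 9 → ∀ s1 s2 : RTerm,
      ∀ l st nd, run l = some (st, nd) →
        ∃ i nd', run (t :: (s1.toks ++ s2.toks) ++ l) = some ((true, i) :: st, nd') := by
    intro t ht1 ht2 s1 s2 l st nd h
    obtain ⟨i2, nd2, e2⟩ := run_term s2 l st nd h
    obtain ⟨i1, nd1, e1⟩ := run_term s1 _ _ _ e2
    refine ⟨nd1.length, nd1 ++ [(t, (i1, i2))], ?_⟩
    rw [List.cons_append, List.append_assoc, run_cons, e1, Option.bind_some]
    unfold step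
    rw [if_neg (by omega), if_pos (by omega), if_pos (by simp)]
    have : decide (5 ≤ t) = true := by
      rw [decide_eq_true_iff]; omega
    rw [this]
    rfl
  have node : ∀ t : ℕ, (t = 10 ∨ t = 11) → ∀ s1 s2 : RForm,
      (∀ l st nd, run l = some (st, nd) →
        ∃ i nd', run (s1.toks ++ l) = some ((true, i) :: st, nd')) →
      (∀ l st nd, run l = some (st, nd) →
        ∃ i nd', run (s2.toks ++ l) = some ((true, i) :: st, nd')) →
      ∀ l st nd, run l = some (st, nd) →
        ∃ i nd', run (t :: (s1.toks ++ s2.toks) ++ l) = some ((true, i) :: st, nd') := by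
    intro t ht s1 s2 h1 h2 l st nd h
    obtain ⟨i2, nd2, e2⟩ := h2 l st nd h
    obtain ⟨i1, nd1, e1⟩ := h1 _ _ _ e2
    refine ⟨nd1.length, nd1 ++ [(t, (i1, i2))], ?_⟩
    rw [List.cons_append, List.append_assoc, run_cons, e1, Option.bind_some]
    unfold step
    rw [if_neg (by omega), if_neg (by omega), if_pos (by omega), if_pos (by simp)]
    rfl
  induction f with
  | lt s t => exact atom 5 (by omega) (by omega) s t
  | le s t => exact atom 6 (by omega) (by omega) s t
  | eq s t => exact atom 7 (by omega) (by omega) s t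
  | ge s t => exact atom 8 (by omega) (by omega) s t
  | gt s t => exact atom 9 (by omega) (by omega) s t
  | and f g h1 h2 => exact node 10 (by omega) f g h1 h2
  | or f g h1 h2 => exact node 11 (by omega) f g h1 h2
  | not f h1 =>
    intro l st nd h
    obtain ⟨i1, nd1, e1⟩ := h1 _ _ _ h
    refine ⟨nd1.length, nd1 ++ [(12, (i1, i1))], ?_⟩
    show run (12 :: (f.toks ++ l)) = _
    rw [run_cons, e1, Option.bind_some]
    unfold step
    rw [if_neg (by omega), if_neg (by omega), if_neg (by omega), if_pos (by simp)]
    rfl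

/-! ### The programs -/

/-- equations -/
def eE (w : ℕ → Bool) (k : ℕ) (c : Nd) : List (List Gate) :=
  if c.1 = 0 then [[.var (3 * k + 1)]]
  else if c.1 = 1 then [[.var (3 * k + 1), .one, .sub 0 1]]
  else if c.1 = 2 then [[.var (3 * k + 1), .var (3 * c.2.1 + 1), .var (3 * c.2.2 + 1),
    .add 1 2, .sub 0 3]]
  else if c.1 = 3 then [[.var (3 * k + 1), .var (3 * c.2.1 + 1), .var (3 * c.2.2 + 1),
    .sub 1 2, .sub 0 3]]
  else if c.1 = 4 then [[.var (3 * k + 1), .var (3 * c.2.1 + 1), .var (3 * c.2.2 + 1),
    .mul 1 2, .sub 0 3]]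
  else if c.1 = 5 then (if w k = true then [] else
    [[.var (3 * c.2.1 + 1), .var (3 * c.2.2 + 1), .sub 0 1, .var (3 * k + 2), .mul 3 3, .sub 2 4]])
  else if c.1 = 6 then (if w k = true then
    [[.var (3 * c.2.2 + 1), .var (3 * c.2.1 + 1), .sub 0 1, .var (3 * k + 2), .mul 3 3, .sub 2 4]]
    else [])
  else if c.1 = 7 then (if w k = true then
    [[.var (3 * c.2.1 + 1), .var (3 * c.2.2 + 1), .sub 0 1]] else
    [[.var (3 * c.2.1 + 1), .var (3 * c.2.2 + 1), .sub 0 1, .var (3 * k + 2), .mul 2 3, .one,
      .sub 4 5]])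
  else if c.1 = 8 then (if w k = true then
    [[.var (3 * c.2.1 + 1), .var (3 * c.2.2 + 1), .sub 0 1, .var (3 * k + 2), .mul 3 3, .sub 2 4]]
    else [])
  else if c.1 = 9 then (if w k = true then [] else
    [[.var (3 * c.2.2 + 1), .var (3 * c.2.1 + 1), .sub 0 1, .var (3 * k + 2), .mul 3 3, .sub 2 4]])
  else if c.1 ≤ 12 then []
  else [[.var (3 * k + 1), .var (3 * (c.1 - 13)), .sub 0 1]]

/-- strict inequalities -/
def eP (w : ℕ → Bool) (k : ℕ) (c : Nd) : List (List Gate) :=
  if c.1 = 5 then (if w k = true then
    [[.var (3 * c.2.2 + 1), .var (3 * c.2.1 + 1), .sub 0 1]] else [])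
  else if c.1 = 6 then (if w k = true then [] else
    [[.var (3 * c.2.1 + 1), .var (3 * c.2.2 + 1), .sub 0 1]])
  else if c.1 = 8 then (if w k = true then [] else
    [[.var (3 * c.2.2 + 1), .var (3 * c.2.1 + 1), .sub 0 1]])
  else if c.1 = 9 then (if w k = true then
    [[.var (3 * c.2.1 + 1), .var (3 * c.2.2 + 1), .sub 0 1]] else [])
  else []

/-- the Boolean conditions -/
def cB (w : ℕ → Bool) (k : ℕ) (c : Nd) : Bool :=
  if c.1 = 10 then w k == (w c.2.1 && w c.2.2)
  else if c.1 = 11 then w k == (w c.2.1 || w c.2.2)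
  else if c.1 = 12 then w k == !(w c.2.1)
  else true

theorem bool_iff (a : Bool) (P : Prop) : (a = true ↔ P) ↔ (if a = true then P else ¬ P) := by
  cases a <;> simp

theorem con_of {z : ℕ → ℝ} {w : ℕ → Bool} {k : ℕ} {c : Nd}
    (hE : ∀ q ∈ eE w k c, value z q = 0) (hP : ∀ q ∈ eP w k c, 0 < value z q)
    (hB : cB w k c = true) : Con (fun j => z (3 * j)) (fun j => z (3 * j + 1)) w k c := by
  obtain ⟨t, a, b⟩ := c
  by_cases ht : t ≤ 12
  · unfold Con
    unfold eE at hE
    unfold eP at hP
    unfold cB at hB
    simp only at hE hP hB ⊢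
    interval_cases t <;> simp only [OfNat.ofNat_ne_zero, OfNat.ofNat_ne_one, if_true, if_false,
      Nat.reduceEqDiff] at hE hP hB ⊢
    · simpa [value, vals, Gate.val] using hE
    · have := hE _ (List.mem_singleton.2 rfl)
      simp [value, vals, Gate.val] at this
      linarith
    · have := hE _ (List.mem_singleton.2 rfl)
      simp [value, vals, Gate.val] at this
      linarith
    · have := hE _ (List.mem_singleton.2 rfl)
      simp [value, vals, Gate.val] at this
      linarith
    · have := hE _ (List.mem_singleton.2 rfl)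
      simp [value, vals, Gate.val] at this
      linarith
    · rw [bool_iff]
      split_ifs with hw
      · rw [if_pos hw] at hP
        have := hP _ (List.mem_singleton.2 rfl)
        simp [value, vals, Gate.val] at this
        linarith
      · rw [if_neg hw] at hE
        have := hE _ (List.mem_singleton.2 rfl)
        simp [value, vals, Gate.val] at this
        nlinarith [mul_self_nonneg (z (3 * k + 2))]
    · rw [bool_iff]
      split_ifs with hw
      · rw [if_pos hw] at hE
        have := hE _ (List.mem_singleton.2 rfl)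
        simp [value, vals, Gate.val] at this
        nlinarith [mul_self_nonneg (z (3 * k + 2))]
      · rw [if_neg hw] at hP
        have := hP _ (List.mem_singleton.2 rfl)
        simp [value, vals, Gate.val] at this
        linarith
    · rw [bool_iff]
      split_ifs with hw
      · rw [if_pos hw] at hE
        have := hE _ (List.mem_singleton.2 rfl)
        simp [value, vals, Gate.val] at this
        linarith
      · rw [if_neg hw] at hE
        have := hE _ (List.mem_singleton.2 rfl)
        simp [value, vals, Gate.val] at this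
        intro h
        rw [h, sub_self, zero_mul, zero_sub] at this
        norm_num at this
    · rw [bool_iff]
      split_ifs with hw
      · rw [if_pos hw] at hE
        have := hE _ (List.mem_singleton.2 rfl)
        simp [value, vals, Gate.val] at this
        nlinarith [mul_self_nonneg (z (3 * k + 2))]
      · rw [if_neg hw] at hP
        have := hP _ (List.mem_singleton.2 rfl)
        simp [value, vals, Gate.val] at this
        linarith
    · rw [bool_iff]
      split_ifs with hw
      · rw [if_pos hw] at hP
        have := hP _ (List.mem_singleton.2 rfl)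
        simp [value, vals, Gate.val] at this
        linarith
      · rw [if_neg hw] at hE
        have := hE _ (List.mem_singleton.2 rfl)
        simp [value, vals, Gate.val] at this
        nlinarith [mul_self_nonneg (z (3 * k + 2))]
    · rw [beq_iff_eq] at hB
      rw [hB, Bool.and_eq_true]
    · rw [beq_iff_eq] at hB
      rw [hB, Bool.or_eq_true]
    · rw [beq_iff_eq] at hB
      rw [hB]
      cases w a <;> simp
  · unfold Con
    unfold eE at hE
    simp only at hE ⊢
    rw [if_neg (by omega), if_neg (by omega), if_neg (by omega), if_neg (by omega),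
      if_neg (by omega), if_neg (by omega), if_neg (by omega), if_neg (by omega),
      if_neg (by omega), if_neg (by omega), if_neg (by omega)] at hE
    rw [if_neg (by omega), if_neg (by omega), if_neg (by omega), if_neg (by omega),
      if_neg (by omega), if_neg (by omega), if_neg (by omega), if_neg (by omega),
      if_neg (by omega), if_neg (by omega), if_neg (by omega), if_neg (by omega),
      if_neg (by omega)]
    have := hE _ (List.mem_singleton.2 rfl)
    simp [value, vals, Gate.val] at this
    linarith

theorem of_con {y v : ℕ → ℝ} {w : ℕ → Bool} {k : ℕ} {c : Nd} (h : Con y v w k c) :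
    cB w k c = true ∧ ∃ u : ℝ, ∀ z : ℕ → ℝ, (∀ j, z (3 * j) = y j) → (∀ j, z (3 * j + 1) = v j) →
      z (3 * k + 2) = u → (∀ q ∈ eE w k c, value z q = 0) ∧ ∀ q ∈ eP w k c, 0 < value z q := by
  obtain ⟨t, a, b⟩ := c
  have sq1 : v b ≤ v a → √|v a - v b| * √|v a - v b| = v a - v b := fun h => by
    rw [Real.mul_self_sqrt (abs_nonneg _), abs_of_nonneg (by linarith)]
  have sq2 : v a ≤ v b → √|v a - v b| * √|v a - v b| = v b - v a := fun h => by
    rw [Real.mul_self_sqrt (abs_nonneg _), abs_of_nonpos (by linarith)]; ring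
  by_cases ht : t ≤ 12
  · unfold Con at h
    unfold eE eP cB
    simp only at h ⊢
    interval_cases t <;> simp only [OfNat.ofNat_ne_zero, OfNat.ofNat_ne_one, if_true, if_false,
      Nat.reduceEqDiff, Nat.reduceLeDiff] at h ⊢
    · refine ⟨trivial, 0, fun z h1 h2 _ => ⟨?_, by simp⟩⟩
      simp [value, vals, Gate.val, h2, h]
    · refine ⟨trivial, 0, fun z h1 h2 _ => ⟨?_, by simp⟩⟩
      simp [value, vals, Gate.val, h2, h]
    · refine ⟨trivial, 0, fun z h1 h2 _ => ⟨?_, by simp⟩⟩
      simp [value, vals, Gate.val, h2, h]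
    · refine ⟨trivial, 0, fun z h1 h2 _ => ⟨?_, by simp⟩⟩
      simp [value, vals, Gate.val, h2, h]
    · refine ⟨trivial, 0, fun z h1 h2 _ => ⟨?_, by simp⟩⟩
      simp [value, vals, Gate.val, h2, h]
    · refine ⟨trivial, √|v a - v b|, fun z h1 h2 h3 => ?_⟩
      rw [bool_iff] at h
      split_ifs at h ⊢ with hw
      · refine ⟨by simp, ?_⟩
        simp [value, vals, Gate.val, h2, h]
      · refine ⟨?_, by simp⟩
        simp [value, vals, Gate.val, h2, h3, sq1 (not_lt.1 h)]
    · refine ⟨trivial, √|v a - v b|, fun z h1 h2 h3 => ?_⟩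
      rw [bool_iff] at h
      split_ifs at h ⊢ with hw
      · refine ⟨?_, by simp⟩
        simp [value, vals, Gate.val, h2, h3, sq2 h]
      · refine ⟨by simp, ?_⟩
        simp [value, vals, Gate.val, h2, not_le.1 h]
    · refine ⟨trivial, (v a - v b)⁻¹, fun z h1 h2 h3 => ?_⟩
      rw [bool_iff] at h
      split_ifs at h ⊢ with hw
      · refine ⟨?_, by simp⟩
        simp [value, vals, Gate.val, h2, h]
      · refine ⟨?_, by simp⟩
        have h4 : v a - v b ≠ 0 := sub_ne_zero.2 h
        simp [value, vals, Gate.val, h2, h3, mul_inv_cancel₀ h4]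
    · refine ⟨trivial, √|v a - v b|, fun z h1 h2 h3 => ?_⟩
      rw [bool_iff] at h
      split_ifs at h ⊢ with hw
      · refine ⟨?_, by simp⟩
        simp [value, vals, Gate.val, h2, h3, sq1 h]
      · refine ⟨by simp, ?_⟩
        simp [value, vals, Gate.val, h2, not_le.1 h]
    · refine ⟨trivial, √|v a - v b|, fun z h1 h2 h3 => ?_⟩
      rw [bool_iff] at h
      split_ifs at h ⊢ with hw
      · refine ⟨by simp, ?_⟩
        have h4 : v b < v a := h
        simp [value, vals, Gate.val, h2, h4]
      · refine ⟨?_, by simp⟩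
        simp [value, vals, Gate.val, h2, h3, sq2 (not_lt.1 h)]
    · refine ⟨?_, 0, fun z h1 h2 _ => ⟨by simp, by simp⟩⟩
      rw [beq_iff_eq, Bool.eq_iff_iff, h, Bool.and_eq_true]
    · refine ⟨?_, 0, fun z h1 h2 _ => ⟨by simp, by simp⟩⟩
      rw [beq_iff_eq, Bool.eq_iff_iff, h, Bool.or_eq_true]
    · refine ⟨?_, 0, fun z h1 h2 _ => ⟨by simp, by simp⟩⟩
      rw [beq_iff_eq, Bool.eq_iff_iff, h]
      cases w a <;> simp
  · unfold Con at h
    unfold eE eP cB
    simp only at h ⊢
    rw [if_neg (by omega), if_neg (by omega), if_neg (by omega), if_neg (by omega),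
      if_neg (by omega), if_neg (by omega), if_neg (by omega), if_neg (by omega),
      if_neg (by omega), if_neg (by omega), if_neg (by omega), if_neg (by omega),
      if_neg (by omega)] at h
    rw [if_neg (show ¬ t = 10 by omega), if_neg (show ¬ t = 11 by omega),
      if_neg (show ¬ t = 12 by omega)]
    refine ⟨rfl, 0, fun z h1 h2 _ => ?_⟩
    rw [if_neg (by omega), if_neg (by omega), if_neg (by omega), if_neg (by omega),
      if_neg (by omega), if_neg (by omega), if_neg (by omega), if_neg (by omega),
      if_neg (by omega), if_neg (by omega), if_neg (by omega), if_neg (by omega),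
      if_neg (by omega), if_neg (by omega), if_neg (by omega)]
    refine ⟨?_, by simp⟩
    simp [value, vals, Gate.val, h1, h2, h]

/-- the nodes of the instance -/
def nodes (x : List Bool) : List Nd := ((run (decNums x)).getD ([], [])).2

/-- the stack of the instance -/
def stk (x : List Bool) : List (Bool × ℕ) := ((run (decNums x)).getD ([], [])).1

def bit (w : List Bool) (k : ℕ) : Bool := w.getD k false

def chk (p : List Bool × List Bool) : Bool :=
  decide (encNums (decNums p.1) = p.1 ∧ (stk p.1).length = 1 ∧
    ((stk p.1).getD 0 (false, 0)).1 = true) && (bit p.2 ((stk p.1).getD 0 (false, 0)).2 &&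
      (List.range (nodes p.1).length).all fun k => cB (bit p.2) k ((nodes p.1).getD k (0, (0, 0))))

def EE (p : List Bool × List Bool) : List (List Gate) :=
  (List.range (nodes p.1).length).flatMap fun k => eE (bit p.2) k ((nodes p.1).getD k (0, (0, 0)))

def PP (p : List Bool × List Bool) : List (List Gate) :=
  (List.range (nodes p.1).length).flatMap fun k => eP (bit p.2) k ((nodes p.1).getD k (0, (0, 0)))

theorem run_length (l : List ℕ) : ∀ st nd, run l = some (st, nd) → nd.length = l.length := by
  induction l with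
  | nil =>
    intro st nd h
    have h' : (([], []) : St) = (st, nd) := Option.some.inj h
    rw [Prod.mk.injEq] at h'
    obtain ⟨rfl, rfl⟩ := h'
    rfl
  | cons t l ih =>
    intro st nd h
    rw [run_cons] at h
    obtain ⟨⟨st0, nd0⟩, h0, h1⟩ := Option.bind_eq_some_iff.1 h
    have h2 := ih st0 nd0 h0
    unfold step at h1
    simp only at h1
    split_ifs at h1 <;>
    · have h' := Option.some.inj h1
      rw [Prod.mk.injEq] at h'
      obtain ⟨rfl, rfl⟩ := h'
      rw [List.length_append, List.length_singleton, List.length_cons, h2]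

theorem length_encNums (l : List ℕ) : l.length ≤ (encNums l).length := by
  unfold encNums
  induction l with
  | nil => simp
  | cons a l ih =>
    rw [List.flatMap_cons, List.length_append, List.length_append, List.length_singleton,
      List.length_cons]
    omega

theorem RTerm_inj (s : RTerm) : ∀ (s' : RTerm) (l l' : List ℕ), s.toks ++ l = s'.toks ++ l' →
    s = s' ∧ l = l' := by
  induction s with
  | zero =>
    intro s' l l' h
    cases s' <;> simp only [RTerm.toks, List.cons_append, List.nil_append, List.cons.injEq] at h <;>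
      first | exact ⟨rfl, h.2⟩ | (exfalso; omega)
  | one =>
    intro s' l l' h
    cases s' <;> simp only [RTerm.toks, List.cons_append, List.nil_append, List.cons.injEq] at h <;>
      first | exact ⟨rfl, h.2⟩ | (exfalso; omega)
  | var i =>
    intro s' l l' h
    cases s' <;> simp only [RTerm.toks, List.cons_append, List.nil_append, List.cons.injEq] at h <;>
      first | (exfalso; omega) | exact ⟨congrArg RTerm.var (Nat.add_left_cancel h.1), h.2⟩
  | add a b ha hb =>
    intro s' l l' h
    cases s' <;> simp only [RTerm.toks, List.cons_append, List.nil_append, List.cons.injEq] at h <;>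
      first
      | (exfalso; omega)
      | (obtain ⟨_, h⟩ := h
         rw [List.append_assoc, List.append_assoc] at h
         obtain ⟨e1, h1⟩ := ha _ _ _ h
         obtain ⟨e2, h2⟩ := hb _ _ _ h1
         exact ⟨by rw [e1, e2], h2⟩)
  | sub a b ha hb =>
    intro s' l l' h
    cases s' <;> simp only [RTerm.toks, List.cons_append, List.nil_append, List.cons.injEq] at h <;>
      first
      | (exfalso; omega)
      | (obtain ⟨_, h⟩ := h
         rw [List.append_assoc, List.append_assoc] at h
         obtain ⟨e1, h1⟩ := ha _ _ _ h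
         obtain ⟨e2, h2⟩ := hb _ _ _ h1
         exact ⟨by rw [e1, e2], h2⟩)
  | mul a b ha hb =>
    intro s' l l' h
    cases s' <;> simp only [RTerm.toks, List.cons_append, List.nil_append, List.cons.injEq] at h <;>
      first
      | (exfalso; omega)
      | (obtain ⟨_, h⟩ := h
         rw [List.append_assoc, List.append_assoc] at h
         obtain ⟨e1, h1⟩ := ha _ _ _ h
         obtain ⟨e2, h2⟩ := hb _ _ _ h1
         exact ⟨by rw [e1, e2], h2⟩)

theorem RForm_inj (s : RForm) : ∀ (s' : RForm) (l l' : List ℕ), s.toks ++ l = s'.toks ++ l' →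
    s = s' ∧ l = l' := by
  induction s with
  | not a ha =>
    intro s' l l' h
    cases s' <;> simp only [RForm.toks, List.cons_append, List.nil_append, List.cons.injEq] at h <;>
      first
      | (exfalso; omega)
      | (obtain ⟨_, h⟩ := h
         obtain ⟨e1, h1⟩ := ha _ _ _ h
         exact ⟨by rw [e1], h1⟩)
  | and a b ha hb =>
    intro s' l l' h
    cases s' <;> simp only [RForm.toks, List.cons_append, List.nil_append, List.cons.injEq] at h <;>
      first
      | (exfalso; omega)
      | (obtain ⟨_, h⟩ := h
         rw [List.append_assoc, List.append_assoc] at h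
         obtain ⟨e1, h1⟩ := ha _ _ _ h
         obtain ⟨e2, h2⟩ := hb _ _ _ h1
         exact ⟨by rw [e1, e2], h2⟩)
  | or a b ha hb =>
    intro s' l l' h
    cases s' <;> simp only [RForm.toks, List.cons_append, List.nil_append, List.cons.injEq] at h <;>
      first
      | (exfalso; omega)
      | (obtain ⟨_, h⟩ := h
         rw [List.append_assoc, List.append_assoc] at h
         obtain ⟨e1, h1⟩ := ha _ _ _ h
         obtain ⟨e2, h2⟩ := hb _ _ _ h1
         exact ⟨by rw [e1, e2], h2⟩)
  | lt a b =>
    intro s' l l' h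
    cases s' <;> simp only [RForm.toks, List.cons_append, List.nil_append, List.cons.injEq] at h <;>
      first
      | (exfalso; omega)
      | (obtain ⟨_, h⟩ := h
         rw [List.append_assoc, List.append_assoc] at h
         obtain ⟨e1, h1⟩ := RTerm_inj _ _ _ _ h
         obtain ⟨e2, h2⟩ := RTerm_inj _ _ _ _ h1
         exact ⟨by rw [e1, e2], h2⟩)
  | le a b =>
    intro s' l l' h
    cases s' <;> simp only [RForm.toks, List.cons_append, List.nil_append, List.cons.injEq] at h <;>
      first
      | (exfalso; omega)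
      | (obtain ⟨_, h⟩ := h
         rw [List.append_assoc, List.append_assoc] at h
         obtain ⟨e1, h1⟩ := RTerm_inj _ _ _ _ h
         obtain ⟨e2, h2⟩ := RTerm_inj _ _ _ _ h1
         exact ⟨by rw [e1, e2], h2⟩)
  | eq a b =>
    intro s' l l' h
    cases s' <;> simp only [RForm.toks, List.cons_append, List.nil_append, List.cons.injEq] at h <;>
      first
      | (exfalso; omega)
      | (obtain ⟨_, h⟩ := h
         rw [List.append_assoc, List.append_assoc] at h
         obtain ⟨e1, h1⟩ := RTerm_inj _ _ _ _ h
         obtain ⟨e2, h2⟩ := RTerm_inj _ _ _ _ h1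
         exact ⟨by rw [e1, e2], h2⟩)
  | ge a b =>
    intro s' l l' h
    cases s' <;> simp only [RForm.toks, List.cons_append, List.nil_append, List.cons.injEq] at h <;>
      first
      | (exfalso; omega)
      | (obtain ⟨_, h⟩ := h
         rw [List.append_assoc, List.append_assoc] at h
         obtain ⟨e1, h1⟩ := RTerm_inj _ _ _ _ h
         obtain ⟨e2, h2⟩ := RTerm_inj _ _ _ _ h1
         exact ⟨by rw [e1, e2], h2⟩)
  | gt a b =>
    intro s' l l' h
    cases s' <;> simp only [RForm.toks, List.cons_append, List.nil_append, List.cons.injEq] at h <;>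
      first
      | (exfalso; omega)
      | (obtain ⟨_, h⟩ := h
         rw [List.append_assoc, List.append_assoc] at h
         obtain ⟨e1, h1⟩ := RTerm_inj _ _ _ _ h
         obtain ⟨e2, h2⟩ := RTerm_inj _ _ _ _ h1
         exact ⟨by rw [e1, e2], h2⟩)

theorem etr_iff (x : List Bool) : ETRL x ↔ ∃ w : List Bool, w.length ≤ x.length ∧
    chk (x, w) = true ∧ ∃ z : ℕ → ℝ, (∀ q ∈ EE (x, w), value z q = 0) ∧
      ∀ q ∈ PP (x, w), 0 < value z q := by
  constructor
  · rintro ⟨f, rfl, y, hy⟩
    obtain ⟨i, nd, hr⟩ := run_form f [] [] [] rfl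
    rw [List.append_nil] at hr
    obtain ⟨hg, T, hT, hl⟩ := inv _ _ _ hr
    obtain ⟨v, w, hs⟩ := sat_exists y nd hg
    have hn : nodes (encNums f.toks) = nd := by
      unfold nodes; rw [decNums_encNums, hr]; rfl
    have hst : stk (encNums f.toks) = [(true, i)] := by
      unfold stk; rw [decNums_encNums, hr]; rfl
    have hlen := run_length _ _ _ hr
    obtain ⟨T1, T', hm1, hT', rfl⟩ := List.forall₂_cons_left_iff.1 hT
    rw [List.forall₂_nil_left_iff] at hT'
    subst hT'
    obtain ⟨g, rfl, hi, hv⟩ := hm1.sort_true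
    have hfg : f = g := by
      refine (RForm_inj f g [] [] ?_).1
      rw [List.append_nil, List.append_nil, hl]
      simp [toks]
    subst hfg
    have hw : w i = true := (hv y v w hs).2 hy
    have hbit : ∀ k < nd.length, bit ((List.range nd.length).map w) k = w k := by
      intro k hk
      unfold bit
      rw [List.getD_eq_getElem _ _ (by simpa using hk)]
      simp
    have hcong : ∀ k < nd.length, Con y v (bit ((List.range nd.length).map w)) k
        (nd.getD k (0, (0, 0))) := by
      intro k hk
      refine con_congr (fun _ _ => rfl) (fun i hi => (hbit i (by omega)).symm) (hg k hk) (hs k hk)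
    have hall := fun k hk => of_con (hcong k hk)
    choose! hB u hu using hall
    refine ⟨(List.range nd.length).map w, ?_, ?_, ?_⟩
    · rw [List.length_map, List.length_range, hlen]
      exact length_encNums _
    · unfold chk
      simp only [hn, hst, decNums_encNums]
      simp only [List.length_cons, List.length_nil, List.getD_cons_zero, Bool.and_eq_true,
        decide_eq_true_eq, List.all_eq_true, List.mem_range]
      refine ⟨⟨trivial, trivial, trivial⟩, ?_, hB⟩
      rw [hbit i hi, hw]
    · refine ⟨fun n => if n % 3 = 0 then y (n / 3) else if n % 3 = 1 then v (n / 3)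
        else u (n / 3), ?_, ?_⟩
      · intro q hq
        unfold EE at hq
        simp only [hn, List.mem_flatMap, List.mem_range] at hq
        obtain ⟨k, hk, hq⟩ := hq
        refine (hu k hk _ ?_ ?_ ?_).1 q hq
        · intro j
          rw [if_pos (by omega), show 3 * j / 3 = j by omega]
        · intro j
          rw [if_neg (by omega), if_pos (by omega), show (3 * j + 1) / 3 = j by omega]
        · rw [if_neg (by omega), if_neg (by omega), show (3 * k + 2) / 3 = k by omega]
      · intro q hq
        unfold PP at hq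
        simp only [hn, List.mem_flatMap, List.mem_range] at hq
        obtain ⟨k, hk, hq⟩ := hq
        refine (hu k hk _ ?_ ?_ ?_).2 q hq
        · intro j
          rw [if_pos (by omega), show 3 * j / 3 = j by omega]
        · intro j
          rw [if_neg (by omega), if_pos (by omega), show (3 * j + 1) / 3 = j by omega]
        · rw [if_neg (by omega), if_neg (by omega), show (3 * k + 2) / 3 = k by omega]
  · rintro ⟨w, -, hc, z, hE, hP⟩
    unfold chk at hc
    simp only [Bool.and_eq_true, decide_eq_true_eq, List.all_eq_true, List.mem_range] at hc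
    obtain ⟨⟨h1, h2, h3⟩, h4, h5⟩ := hc
    cases hr : run (decNums x) with
    | none =>
      exfalso
      unfold stk at h2
      rw [hr] at h2
      simp at h2
    | some s =>
      obtain ⟨st, nd⟩ := s
      have hn : nodes x = nd := by unfold nodes; rw [hr]; rfl
      have hst : stk x = st := by unfold stk; rw [hr]; rfl
      rw [hst] at h2 h3 h4
      rw [hn] at h5
      obtain ⟨hg, T, hT, hl⟩ := inv _ _ _ hr
      obtain ⟨⟨b, i⟩, rfl⟩ := List.length_eq_one_iff.1 h2
      simp only [List.getD_cons_zero] at h3 h4
      subst h3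
      obtain ⟨T1, T', hm1, hT', rfl⟩ := List.forall₂_cons_left_iff.1 hT
      rw [List.forall₂_nil_left_iff] at hT'
      subst hT'
      obtain ⟨f, rfl, hi, hv⟩ := hm1.sort_true
      have hl' : decNums x = f.toks := by
        rw [hl]; simp [toks]
      refine ⟨f, ?_, fun j => z (3 * j), ?_⟩
      · show x = encNums f.toks
        rw [← hl', h1]
      refine (hv (fun j => z (3 * j)) (fun j => z (3 * j + 1)) (bit w) ?_).1 h4
      intro k hk
      refine con_of (fun q hq => hE q ?_) (fun q hq => hP q ?_) (h5 k hk)
      · unfold EE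
        rw [List.mem_flatMap]
        exact ⟨k, by rw [List.mem_range]; simp only [hn]; exact hk, by simp only [hn]; exact hq⟩
      · unfold PP
        rw [List.mem_flatMap]
        exact ⟨k, by rw [List.mem_range]; simp only [hn]; exact hk, by simp only [hn]; exact hq⟩

/-! ### Polynomial time -/

theorem sz_list_le {α : Type} [Enc α] (l : List α) (M : ℕ) (h : ∀ a ∈ l, sz a ≤ M) :
    sz l ≤ l.length * (M + 1) + 1 := by
  induction l with
  | nil => rw [sz_nil]; omega
  | cons a l ih =>
    have h1 := ih (fun b hb => h b (List.mem_cons_of_mem _ hb))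
    have h2 := h a List.mem_cons_self
    rw [sz_cons, List.length_cons, Nat.succ_mul]
    omega

theorem getD_le {n : ℕ} {st : List (Bool × ℕ)} (h : ∀ e ∈ st, e.2 ≤ n) (i : ℕ) :
    (st.getD i (false, 0)).2 ≤ n := by
  by_cases hi : i < st.length
  · rw [List.getD_eq_getElem _ _ hi]
    exact h _ (List.getElem_mem _)
  · rw [List.getD_eq_default _ _ (by omega)]
    exact Nat.zero_le _

theorem run_bounds (l : List ℕ) : ∀ st nd, run l = some (st, nd) →
    st.length ≤ l.length ∧ (∀ e ∈ st, e.2 ≤ l.length) ∧ nd.length = l.length ∧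
      ∀ c ∈ nd, c.1 ≤ l.sum ∧ c.2.1 ≤ l.length ∧ c.2.2 ≤ l.length := by
  induction l with
  | nil =>
    intro st nd h
    have h' : (([], []) : St) = (st, nd) := Option.some.inj h
    rw [Prod.mk.injEq] at h'
    obtain ⟨rfl, rfl⟩ := h'
    simp
  | cons t l ih =>
    intro st nd h
    rw [run_cons] at h
    obtain ⟨⟨st0, nd0⟩, h0, h1⟩ := Option.bind_eq_some_iff.1 h
    obtain ⟨g1, g2, g3, g4⟩ := ih st0 nd0 h0
    have p0 := getD_le g2 0
    have p1 := getD_le g2 1
    unfold step at h1
    simp only at h1
    rw [List.length_cons, List.sum_cons]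
    have hnd : ∀ c : Nd, c.1 = t → c.2.1 ≤ l.length → c.2.2 ≤ l.length → ∀ c' ∈ nd0 ++ [c],
        c'.1 ≤ t + l.sum ∧ c'.2.1 ≤ l.length + 1 ∧ c'.2.2 ≤ l.length + 1 := by
      intro c e1 e2 e3 c' hc'
      rw [List.mem_append, List.mem_singleton] at hc'
      rcases hc' with hc' | rfl
      · obtain ⟨q1, q2, q3⟩ := g4 c' hc'
        exact ⟨by omega, by omega, by omega⟩
      · exact ⟨by omega, by omega, by omega⟩
    have hst : ∀ b : Bool, ∀ j : ℕ, ∀ e ∈ (b, nd0.length) :: st0.drop j, e.2 ≤ l.length + 1 := by
      intro b j e he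
      rcases List.mem_cons.1 he with rfl | he
      · simp only; omega
      · have := g2 e (List.mem_of_mem_drop he); omega
    split_ifs at h1 with c1 c2 c3 c4 c5 c6
    · have h' := Option.some.inj h1
      rw [Prod.mk.injEq] at h'
      obtain ⟨rfl, rfl⟩ := h'
      refine ⟨?_, hst false 0, ?_, hnd _ rfl (Nat.zero_le _) (Nat.zero_le _)⟩
      · rw [List.length_cons]; omega
      · rw [List.length_append, List.length_singleton, g3]
    · have h' := Option.some.inj h1
      rw [Prod.mk.injEq] at h'
      obtain ⟨rfl, rfl⟩ := h'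
      refine ⟨?_, hst _ 2, ?_, hnd _ rfl p0 p1⟩
      · rw [List.length_cons, List.length_drop]; omega
      · rw [List.length_append, List.length_singleton, g3]
    · have h' := Option.some.inj h1
      rw [Prod.mk.injEq] at h'
      obtain ⟨rfl, rfl⟩ := h'
      refine ⟨?_, hst _ 2, ?_, hnd _ rfl p0 p1⟩
      · rw [List.length_cons, List.length_drop]; omega
      · rw [List.length_append, List.length_singleton, g3]
    · have h' := Option.some.inj h1
      rw [Prod.mk.injEq] at h'
      obtain ⟨rfl, rfl⟩ := h'
      refine ⟨?_, hst _ 1, ?_, hnd _ rfl p0 p0⟩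
      · rw [List.length_cons, List.length_drop]; omega
      · rw [List.length_append, List.length_singleton, g3]

theorem sum_le_sz (l : List ℕ) : l.sum ≤ sz l := by
  induction l with
  | nil => simp
  | cons a l ih => rw [List.sum_cons, sz_cons, sz_nat]; omega

theorem sz_run_le (l : List ℕ) (N : ℕ) (h : sz l ≤ N) : sz (run l) ≤ 20 * (N + 1) * (N + 1) := by
  cases hr : run l with
  | none => rw [sz_none]; nlinarith
  | some s =>
    obtain ⟨st, nd⟩ := s
    obtain ⟨h1, h2, h3, h4⟩ := run_bounds l st nd hr
    have h5 := length_le_sz l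
    have h6 := sum_le_sz l
    have e1 : sz st ≤ st.length * (2 * N + 5 + 1) + 1 := by
      refine sz_list_le st _ (fun e he => ?_)
      obtain ⟨b, i⟩ := e
      have := h2 _ he
      have hb := sz_bool b
      simp only at this
      rw [sz_pair, sz_nat]; omega
    have e2 : sz nd ≤ nd.length * (6 * N + 5 + 1) + 1 := by
      refine sz_list_le nd _ (fun c hc => ?_)
      obtain ⟨t, a, b⟩ := c
      obtain ⟨q1, q2, q3⟩ := h4 _ hc
      simp only at q1 q2 q3
      rw [sz_pair, sz_pair, sz_nat, sz_nat, sz_nat]; omega
    have e3 : st.length * (2 * N + 5 + 1) ≤ N * (2 * N + 5 + 1) :=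
      Nat.mul_le_mul_right _ (by omega)
    have e4 : nd.length * (6 * N + 5 + 1) ≤ N * (6 * N + 5 + 1) :=
      Nat.mul_le_mul_right _ (by omega)
    rw [sz_some, sz_pair]
    nlinarith

theorem ptf_step : PTF (fun p : ℕ × St => step p.1 p.2) := by
  unfold step
  fun_prop

theorem ptf_run : PTF (fun l : List ℕ => run l) := by
  have h := PTF.foldl (l := fun l : List ℕ => l.reverse)
    (init := fun _ : List ℕ => (some ([], []) : Option St))
    (step := fun p : List ℕ × (Option St × ℕ) => p.2.1.bind (step p.2.2))
    PTF.id.reverse (PTF.const _)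
    (PTF.optionBind' (f := fun (p : List ℕ × (Option St × ℕ)) (s : St) => step p.2.2 s)
      (o := fun p : List ℕ × (Option St × ℕ) => p.2.1)
      (ptf_step.comp ((PTF.snd.comp (PTF.snd.comp PTF.fst)).pair PTF.snd))
      (PTF.fst.comp PTF.snd))
    (fun l => 20 * (sz l + 1) * (sz l + 1))
    (((PB.const 20).mul (PB.sz.add (PB.const 1))).mul (PB.sz.add (PB.const 1)))
    (fun a l1 l2 e => by
      have e1 : (l1.foldl (fun s b => s.bind (step b)) (some ([], []) : Option St)) =
          run l1.reverse := by
        unfold run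
        rw [List.foldr_reverse]
      show sz (l1.foldl (fun s b => s.bind (step b)) (some ([], []) : Option St)) ≤ _
      rw [e1]
      refine sz_run_le _ _ ?_
      have e2 : a = l2.reverse ++ l1.reverse := by
        rw [← List.reverse_append, ← e, List.reverse_reverse]
      have e3 := sz_append l2.reverse l1.reverse
      rw [← e2] at e3
      have e4 := sz_pos l2.reverse
      omega)
  refine h.congr (fun l => ?_)
  show (l.reverse.foldl (fun s b => s.bind (step b)) (some ([], []) : Option St)) = run l
  unfold run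
  rw [List.foldl_reverse]

@[fun_prop]
theorem ptf_nodes {α : Type} [Enc α] {x : α → List Bool} (hx : PTF x) :
    PTF (fun a => nodes (x a)) := by
  unfold nodes
  exact PTF.snd.comp (PTF.optionGetD (ptf_run.comp (PTF.decNums hx)) (PTF.const ([], [])))

@[fun_prop]
theorem ptf_stk {α : Type} [Enc α] {x : α → List Bool} (hx : PTF x) :
    PTF (fun a => stk (x a)) := by
  unfold stk
  exact PTF.fst.comp (PTF.optionGetD (ptf_run.comp (PTF.decNums hx)) (PTF.const ([], [])))

theorem ptf_chk : PTF chk := by
  unfold chk bit cB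
  fun_prop

theorem ptf_EE : PTF EE := by
  unfold EE bit eE
  fun_prop

theorem ptf_PP : PTF PP := by
  unfold PP bit eP
  fun_prop

/-- ETR is in the class `∃ℝ`. -/
theorem manyReal_ETRL : ManyReal ETRL := by
  refine ⟨Polynomial.X, chk, EE, PP, R_of_ptf ptf_chk, E_of_ptf ptf_EE, E_of_ptf ptf_PP,
    fun x => ?_⟩
  rw [etr_iff, Polynomial.eval_X]

end Pool.Agent.Work.MP_859ada_lc.ETR
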