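import Pool.Agent.Work.MP_859ada_lc.ER.SDefs

set_option autoImplicit false

namespace Pool.Agent.Work.MP_859ada_lc.ER

open Pool.Agent.PT Pool.Agent.Work.MP_46935e_lc

theorem fin_aux {Q : List Bool → Prop} {k : ℕ} (hk : CLevel k Q)
    {S : List (List Gate) → List (List Gate) → List Bool}
    (hS : PTF (fun z : List (List Gate) × List (List Gate) => S z.1 z.2))
    (hsem : ∀ E P, Q (S E P) ↔ ∃ z : ℕ → ℝ, (∀ q ∈ E, value z q = 0) ∧ ∀ q ∈ P, 0 < value z q)
    (hEXW : SEXW) : ∃ l : ℕ, ∀ L : List Bool → Prop, ManyReal L → CLevel l L := by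
  refine ⟨k + 1 + 1, fun L hL => ?_⟩
  obtain ⟨p, R, E, P, hR, hE, hP, hx⟩ := hL
  have hR' := ptf_of_R hR
  have hE' := ptf_of_E hE
  have hP' := ptf_of_E hP
  have hd : PTF (fun z : List Bool => dec2 z) := ptf_dec2 PTF.id
  have hf : PTF (fun z : List Bool => S (E (dec2 z)) (P (dec2 z))) :=
    PTF.comp (f := fun z : List (List Gate) × List (List Gate) => S z.1 z.2)
      (g := fun z : List Bool => (E (dec2 z), P (dec2 z))) hS
      (PTF.pair (PTF.comp (f := E) hE' hd) (PTF.comp (f := P) hP' hd))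
  have h1 : CLevel k (fun z => Q (S (E (dec2 z)) (P (dec2 z)))) := hk.red hf
  have h2 : CLevel k (fun z => R (dec2 z) = true) :=
    CLevel.ofP (PTF.comp (f := R) hR' hd)
  refine (hEXW (k + 1) _ p (h2.inter h1)).congr fun x => ?_
  rw [hx]
  simp only [dec2_encPair, hsem]

theorem A_FIN (hQS : SQS) (hSEM : SSEM) (hENV : SENV) (hPTF : SPTF) (hEXW : SEXW) : SFIN := by
  obtain ⟨k, hk⟩ := inCH_of_CH hQS
  exact fin_aux hk hPTF (fun E P => (hENV E P).trans (hSEM E P)) hEXW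

end Pool.Agent.Work.MP_859ada_lc.ER
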