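import Pool.Agent.Work.MP_859ada_lc.ER.CDefs

set_option autoImplicit false

namespace Pool.Agent.Work.MP_859ada_lc.ER

open RootCH

/-- the bound for the number of linear forms -/
def uu (u : ℕ) : ℕ := (Nat.size u + 1) * nN u + 1

theorem prod_dd (n : ℕ) : ∏ i, dd n i = 6 * 5 ^ n := by
  rw [Fin.prod_univ_succ]
  have : ∀ i : Fin n, dd n i.succ = 5 := fun i => by
    unfold dd; rw [if_neg (Fin.succ_ne_zero i)]
  simp only [this, Finset.prod_const, Finset.card_univ, Fintype.card_fin]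
  rfl

theorem A_QS (hMUL : SMUL) (hGD : SGD) (hRED : SRED) (hPRJ : SPRJ) (hFP0 : SFP0) (hGEN : SGEN)
    (hFX : SFX) (hFN : SFN) (hCX : SCX) (hBD : SBD) : SQS := by
  classical
  have hdeg : ∀ (u c : ℕ) (i : Fin (Nat.size u + 1)),
      (GG (fp u c) (h0 (Nat.size u) : ℤ) (c0 (Nat.size u) : ℤ) i).totalDegree <
        dd (Nat.size u) i := fun u c => hGD ℤ _ _ _ _ (hFP0 u c).1
  choose M hM using fun u c : ℕ => hMUL ℤ _ (dd (Nat.size u)) _ (hdeg u c)
  have key : ∀ u c : ℕ, QS u c ↔ ∀ t < uu u, ∃ x : ℝ,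
      Polynomial.aeval x (M u c (lin (t : ℤ))).charpoly = 0 := by
    intro u c
    obtain ⟨h1, h2, h3, h4⟩ := hFP0 u c
    rw [← h4, hRED (Nat.size u) (fp u c) h1 h2 h3]
    refine hPRJ _ _ _ (M u c) (uu u) (hM u c) ?_
    rw [prod_dd]
    unfold uu nN
    omega
  have hN : Fn fun v => nN (v 0) := hFN.2.2.1
  have hU : Fn fun v => uu (v 0) :=
    ((((Fn.var 0).size).add Fn.one).mul hN).add Fn.one
  have hroot : CH fun w => ∃ x : ℝ,
      Polynomial.aeval x (M (w 1) (w 2) (lin (w 0 : ℤ))).charpoly = 0 := by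
    refine hGEN (fun w => 20 * Nat.size (w 1) + Nat.size (w 0) + 100) (fun w => aA (w 1))
      (fun w => (M (w 1) (w 2) (lin (w 0 : ℤ))).charpoly)
      (fun w x p => eX (w 1) (w 2) (w 0) x p) ?_ ?_ ?_ ?_ ?_ ?_ ?_
    · exact (((Fn.const 20).mul (Fn.var 1).size).add (Fn.var 0).size).add (Fn.const 100)
    · exact (((PolyB.const 20).mul (PolyB.size_var 1)).add (PolyB.size_var 0)).add
        (PolyB.const 100)
    · exact Fn.comp1 (f := aA) hFN.2.2.2.2.1 (Fn.var 1)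
    · exact Fn.comp5 (f := eX) hFX.2 (Fn.var 3) (Fn.var 4) (Fn.var 2) (Fn.var 0) (Fn.var 1)
    · exact fun w => (hBD (w 1) (w 2) (w 0) _ (hM _ _)).1
    · exact fun w => (hBD (w 1) (w 2) (w 0) _ (hM _ _)).2
    · intro w x p hp hA
      have := Fact.mk hp
      exact hCX (w 1) (w 2) (w 0) x p _ (hM _ _) hA
  have hall : CH fun v => ∀ t < uu (v 0), ∃ x : ℝ,
      Polynomial.aeval x (M (v 0) (v 1) (lin (t : ℤ))).charpoly = 0 :=
    CH.allB (R := fun t v => ∃ x : ℝ,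
      Polynomial.aeval x (M (v 0) (v 1) (lin (t : ℤ))).charpoly = 0) hU hroot
  exact hall.congr fun v => (key _ _).symm

end Pool.Agent.Work.MP_859ada_lc.ER
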