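import Pool.Agent.Work.MP_859ada_lc.ER.CDefs

set_option autoImplicit false

namespace Pool.Agent.Work.MP_859ada_lc.ER

namespace BD

open MvPolynomial

theorem l1_eq {n : ℕ} (g : MvPolynomial (Fin n) ℤ) (S : Finset (Fin n →₀ ℕ))
    (h : g.support ⊆ S) : l1 g = ∑ m ∈ S, (g.coeff m).natAbs := by
  unfold l1
  refine Finset.sum_subset h fun m _ hm => ?_
  rw [notMem_support_iff.1 hm, Int.natAbs_zero]

theorem l1_add {n : ℕ} (g g' : MvPolynomial (Fin n) ℤ) : l1 (g + g') ≤ l1 g + l1 g' := by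
  classical
  rw [l1_eq (g + g') (g.support ∪ g'.support) support_add,
    l1_eq g (g.support ∪ g'.support) Finset.subset_union_left,
    l1_eq g' (g.support ∪ g'.support) Finset.subset_union_right, ← Finset.sum_add_distrib]
  refine Finset.sum_le_sum fun m _ => ?_
  rw [coeff_add]
  exact Int.natAbs_add_le _ _

theorem l1_zero {n : ℕ} : l1 (0 : MvPolynomial (Fin n) ℤ) = 0 := by simp [l1]

theorem l1_neg {n : ℕ} (g : MvPolynomial (Fin n) ℤ) : l1 (-g) = l1 g := by
  unfold l1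
  rw [support_neg]
  refine Finset.sum_congr rfl fun m _ => ?_
  rw [coeff_neg, Int.natAbs_neg]

theorem l1_sub {n : ℕ} (g g' : MvPolynomial (Fin n) ℤ) : l1 (g - g') ≤ l1 g + l1 g' := by
  rw [sub_eq_add_neg]
  refine (l1_add _ _).trans ?_
  rw [l1_neg]

theorem l1_sum {n : ℕ} {ι : Type} (s : Finset ι)
    (g : ι → MvPolynomial (Fin n) ℤ) : l1 (∑ i ∈ s, g i) ≤ ∑ i ∈ s, l1 (g i) := by
  classical
  induction s using Finset.induction_on with
  | empty => simp [l1_zero]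
  | insert a s ha ih =>
    rw [Finset.sum_insert ha, Finset.sum_insert ha]
    exact (l1_add _ _).trans (by omega)

theorem l1_C_mul {n : ℕ} (k : ℤ) (f : MvPolynomial (Fin n) ℤ) :
    l1 (C k * f) ≤ k.natAbs * l1 f := by
  have hs : (C k * f).support ⊆ f.support := by
    intro m hm
    rw [mem_support_iff, coeff_C_mul] at hm
    rw [mem_support_iff]
    exact right_ne_zero_of_mul hm
  rw [l1_eq _ _ hs]
  unfold l1
  rw [Finset.mul_sum]
  refine Finset.sum_le_sum fun m _ => ?_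
  rw [coeff_C_mul, Int.natAbs_mul]

theorem l1_C {n : ℕ} (k : ℤ) : l1 (C k : MvPolynomial (Fin n) ℤ) ≤ k.natAbs := by
  classical
  have hs : (C k : MvPolynomial (Fin n) ℤ).support ⊆ {0} := by
    rw [← monomial_zero']
    exact support_monomial_subset
  rw [l1_eq _ _ hs, Finset.sum_singleton, coeff_zero_C]

theorem l1_X_mul {n : ℕ} (i : Fin n) (f : MvPolynomial (Fin n) ℤ) :
    l1 (X i * f) ≤ l1 f := by
  classical
  have hinj : Function.Injective (fun m : Fin n →₀ ℕ => Finsupp.single i 1 + m) :=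
    fun a b h => add_left_cancel h
  have hs : (X i * f).support ⊆ f.support.map ⟨_, hinj⟩ := by
    rw [support_X_mul]
    intro m hm
    rw [Finset.mem_map] at hm ⊢
    obtain ⟨a, ha, rfl⟩ := hm
    exact ⟨a, ha, rfl⟩
  rw [l1_eq _ _ hs, Finset.sum_map]
  unfold l1
  refine Finset.sum_le_sum fun m _ => ?_
  show (coeff (Finsupp.single i 1 + m) (X i * f)).natAbs ≤ _
  rw [coeff_X_mul]

theorem sum_le_totalDegree {n : ℕ} {f : MvPolynomial (Fin n) ℤ} {m : Fin n →₀ ℕ}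
    (h : coeff m f ≠ 0) : ∑ j, m j ≤ f.totalDegree := by
  have := le_totalDegree (mem_support_iff.2 h)
  rwa [Finsupp.sum_fintype _ _ (fun _ => rfl)] at this

theorem l1_pderiv {n : ℕ} (f : MvPolynomial (Fin n) ℤ) (D : ℕ) (hf : f.totalDegree ≤ D)
    (i : Fin n) : l1 (pderiv i f) ≤ D * l1 f := by
  classical
  unfold l1
  rw [Finset.mul_sum]
  have hinj : Function.Injective (fun m : Fin n →₀ ℕ => m + Finsupp.single i 1) :=
    fun a b h => add_right_cancel h
  calc ∑ m ∈ (pderiv i f).support, ((pderiv i f).coeff m).natAbs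
      ≤ ∑ m ∈ (pderiv i f).support, D * (f.coeff (m + Finsupp.single i 1)).natAbs := by
        refine Finset.sum_le_sum fun m hm => ?_
        rw [mem_support_iff, coeff_pderiv] at hm
        rw [coeff_pderiv, Int.natAbs_mul, mul_comm]
        refine Nat.mul_le_mul_right _ ?_
        have h1 : coeff (m + Finsupp.single i 1) f ≠ 0 := left_ne_zero_of_mul hm
        have h2 := sum_le_totalDegree h1
        have h3 : (m + Finsupp.single i 1 : Fin n →₀ ℕ) i ≤
            ∑ j, (m + Finsupp.single i 1 : Fin n →₀ ℕ) j :=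
          Finset.single_le_sum (f := fun j => (m + Finsupp.single i 1 : Fin n →₀ ℕ) j)
            (fun _ _ => Nat.zero_le _) (Finset.mem_univ i)
        rw [Finsupp.add_apply, Finsupp.single_eq_same] at h3
        have h4 : ((m i : ℤ) + 1).natAbs = m i + 1 := by omega
        rw [h4]
        omega
    _ = ∑ m ∈ (pderiv i f).support.map ⟨_, hinj⟩, D * (f.coeff m).natAbs := by
        rw [Finset.sum_map]; rfl
    _ ≤ ∑ m ∈ f.support, D * (f.coeff m).natAbs := by
        refine Finset.sum_le_sum_of_subset fun m hm => ?_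
        rw [Finset.mem_map] at hm
        obtain ⟨m', hm', rfl⟩ := hm
        rw [mem_support_iff, coeff_pderiv] at hm'
        rw [mem_support_iff]
        exact left_ne_zero_of_mul hm'

theorem prod_dd (n : ℕ) : ∏ i, dd n i = 6 * 5 ^ n := by
  rw [Fin.prod_univ_succ]
  have : ∀ i : Fin n, dd n i.succ = 5 := fun i => by
    unfold dd; rw [if_neg (Fin.succ_ne_zero i)]
  simp only [this, Finset.prod_const, Finset.card_univ, Fintype.card_fin]
  rfl

theorem sum_dd (n : ℕ) : ∑ i, dd n i = 6 + 5 * n := by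
  rw [Fin.sum_univ_succ]
  have : ∀ i : Fin n, dd n i.succ = 5 := fun i => by
    unfold dd; rw [if_neg (Fin.succ_ne_zero i)]
  simp only [this, Finset.sum_const, Finset.card_univ, Fintype.card_fin, smul_eq_mul]
  unfold dd
  rw [if_pos rfl]
  ring

theorem prod_dd_le (n : ℕ) : ∏ i, dd n i ≤ 2 ^ (3 * n + 3) := by
  rw [prod_dd, pow_add, pow_mul]
  have h : 5 ^ n ≤ (2 ^ 3) ^ n := Nat.pow_le_pow_left (by norm_num) n
  omega

theorem lt_two_pow' (n : ℕ) : n + 1 ≤ 2 ^ n := Nat.lt_two_pow_self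

/-- bound for the right hand sides -/
theorem l1_GG (n : ℕ) (f : MvPolynomial (Fin (n + 1)) ℤ) (hf : f.totalDegree ≤ 4)
    (hl : l1 f ≤ 9 * (n + 1)) (h c : ℕ) (hc : c ≤ h) (i : Fin (n + 1)) :
    l1 (GG f (h : ℤ) (c : ℤ) i) ≤ h * (1 + 54 * (n + 1) + 36 * (n + 1) ^ 2) := by
  have hp : ∀ j, l1 (pderiv j f) ≤ 36 * (n + 1) := fun j =>
    (l1_pderiv f 4 hf j).trans (by omega)
  unfold GG
  split_ifs with hi
  · refine (l1_sub _ _).trans ?_
    have h1 : l1 (C (c : ℤ) : MvPolynomial (Fin (n + 1)) ℤ) ≤ c := by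
      refine (l1_C _).trans ?_
      rw [Int.natAbs_natCast]
    have h2 : l1 (6 * f) ≤ 6 * (9 * (n + 1)) := by
      have h3 : (6 : MvPolynomial (Fin (n + 1)) ℤ) = C 6 := by
        rw [← map_ofNat C 6]
      rw [h3]
      refine (l1_C_mul _ _).trans ?_
      exact Nat.mul_le_mul_left 6 hl
    have h4 : l1 (∑ j : Fin (n + 1), if j = 0 then 0 else X j * pderiv j f) ≤
        (n + 1) * (36 * (n + 1)) := by
      refine (l1_sum _ _).trans ?_
      refine (Finset.sum_le_card_nsmul _ _ (36 * (n + 1)) fun j _ => ?_).trans ?_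
      · split_ifs with hj
        · rw [l1_zero]
          exact Nat.zero_le _
        · exact (l1_X_mul _ _).trans (hp j)
      · rw [Finset.card_univ, Fintype.card_fin, smul_eq_mul]
    have h5 : l1 (C (h : ℤ) * (6 * f - ∑ j : Fin (n + 1), if j = 0 then 0 else
        X j * pderiv j f)) ≤ h * (6 * (9 * (n + 1)) + (n + 1) * (36 * (n + 1))) := by
      refine (l1_C_mul _ _).trans ?_
      rw [Int.natAbs_natCast]
      exact Nat.mul_le_mul_left h ((l1_sub _ _).trans (Nat.add_le_add h2 h4))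
    calc l1 (C (c : ℤ)) + l1 (C (h : ℤ) * (6 * f - ∑ j : Fin (n + 1), if j = 0 then 0 else
        X j * pderiv j f)) ≤ h + h * (6 * (9 * (n + 1)) + (n + 1) * (36 * (n + 1))) :=
          Nat.add_le_add (h1.trans hc) h5
      _ = h * (1 + 54 * (n + 1) + 36 * (n + 1) ^ 2) := by ring
  · rw [l1_neg]
    refine (l1_C_mul _ _).trans ?_
    rw [Int.natAbs_natCast]
    refine Nat.mul_le_mul_left h ((hp i).trans ?_)
    nlinarith

theorem poly_le (n : ℕ) : 1 + 54 * (n + 1) + 36 * (n + 1) ^ 2 ≤ 2 ^ (2 * n + 7) := by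
  have h1 := lt_two_pow' n
  have h2 : 2 ^ (2 * n + 7) = 128 * (2 ^ n) ^ 2 := by
    rw [pow_add, mul_comm 2 n, pow_mul]
    ring
  rw [h2]
  have h3 : (n + 1) ^ 2 ≤ (2 ^ n) ^ 2 := Nat.pow_le_pow_left h1 2
  nlinarith

theorem totalDegree_lin {n : ℕ} (t : ℤ) : (lin t : MvPolynomial (Fin n) ℤ).totalDegree ≤ 1 := by
  unfold lin
  refine (totalDegree_finsetSum _ _).trans ?_
  refine Finset.sup_le fun i _ => ?_
  refine (totalDegree_mul _ _).trans ?_
  rw [totalDegree_C, totalDegree_X, zero_add]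

theorem l1_lin (n t : ℕ) : l1 (lin (t : ℤ) : MvPolynomial (Fin (n + 1)) ℤ) ≤
    2 ^ (n + n * Nat.size t) := by
  unfold lin
  refine (l1_sum _ _).trans ?_
  have h1 : t ≤ 2 ^ Nat.size t := (Nat.lt_size_self t).le
  refine (Finset.sum_le_card_nsmul _ _ (2 ^ (n * Nat.size t)) fun j _ => ?_).trans ?_
  · refine (l1_C_mul _ _).trans ?_
    have h2 : l1 (X j : MvPolynomial (Fin (n + 1)) ℤ) ≤ 1 := by
      have h3 := l1_X_mul j (C 1 : MvPolynomial (Fin (n + 1)) ℤ)
      rw [C_1, mul_one] at h3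
      refine h3.trans ?_
      rw [← C_1]
      exact (l1_C 1)
    have h4 : (((t : ℤ) ^ (j : ℕ)).natAbs) = t ^ (j : ℕ) := by
      rw [Int.natAbs_pow, Int.natAbs_natCast]
    rw [h4]
    calc t ^ (j : ℕ) * l1 (X j) ≤ t ^ (j : ℕ) * 1 := Nat.mul_le_mul_left _ h2
      _ = t ^ (j : ℕ) := mul_one _
      _ ≤ (2 ^ Nat.size t) ^ (j : ℕ) := Nat.pow_le_pow_left h1 _
      _ ≤ (2 ^ Nat.size t) ^ n := Nat.pow_le_pow_right (by positivity) (by omega)
      _ = 2 ^ (n * Nat.size t) := by rw [← pow_mul, mul_comm]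
  · rw [Finset.card_univ, Fintype.card_fin, smul_eq_mul, pow_add]
    exact Nat.mul_le_mul_right _ (lt_two_pow' n)

theorem exp_le (n s : ℕ) : n + n * s + (2 ^ (12 * n + 50) + (2 * n + 7)) * (5 * n + 7) + 1 ≤
    2 ^ (17 * n + s + 97) := by
  have h1 := lt_two_pow' n
  have h2 := lt_two_pow' s
  have h3 : 2 * n + 7 ≤ 2 ^ (12 * n + 50) := by
    calc 2 * n + 7 ≤ 2 ^ n * 2 ^ 3 := by omega
      _ = 2 ^ (n + 3) := by rw [pow_add]
      _ ≤ 2 ^ (12 * n + 50) := Nat.pow_le_pow_right (by norm_num) (by omega)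
  have h4 : 5 * n + 7 ≤ 2 ^ (n + 3) := by
    rw [pow_add]
    omega
  have h5 : (2 ^ (12 * n + 50) + (2 * n + 7)) * (5 * n + 7) ≤ 2 ^ (13 * n + 54) := by
    calc (2 ^ (12 * n + 50) + (2 * n + 7)) * (5 * n + 7)
        ≤ (2 ^ (12 * n + 50) * 2) * 2 ^ (n + 3) := Nat.mul_le_mul (by omega) h4
      _ = 2 ^ (13 * n + 54) := by
          have h6 : 12 * n + 50 + 1 + (n + 3) = 13 * n + 54 := by omega
          rw [← pow_succ, ← pow_add, h6]
  have h6 : n + n * s + 1 ≤ 2 ^ (n + s) := by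
    rw [pow_add]
    nlinarith
  have h7 : 2 ^ (n + s) ≤ 2 ^ (17 * n + s + 96) := Nat.pow_le_pow_right (by norm_num) (by omega)
  have h8 : 2 ^ (13 * n + 54) ≤ 2 ^ (17 * n + s + 96) :=
    Nat.pow_le_pow_right (by norm_num) (by omega)
  have h9 : 2 ^ (17 * n + s + 97) = 2 ^ (17 * n + s + 96) * 2 := by rw [← pow_succ]
  omega

theorem main (hNB : SNB) (n : ℕ) (f : MvPolynomial (Fin (n + 1)) ℤ) (hf : f.totalDegree ≤ 4)
    (hl : l1 f ≤ 9 * (n + 1)) (t : ℕ)
    (M : MvPolynomial (Fin (n + 1)) ℤ →ₐ[ℤ] Matrix (Box (dd n)) (Box (dd n)) ℤ)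
    (hM : IsMul (dd n) (GG f (h0 n : ℤ) (c0 n : ℤ)) M) :
    (M (lin (t : ℤ))).charpoly.natDegree ≤ 2 ^ (20 * n + Nat.size t + 100) ∧
    RootCH.nrm (M (lin (t : ℤ))).charpoly ≤ 2 ^ 2 ^ (20 * n + Nat.size t + 100) := by
  constructor
  · rw [Matrix.charpoly_natDegree_eq_dim, Fintype.card_pi]
    simp only [Fintype.card_fin]
    exact (prod_dd_le n).trans (Nat.pow_le_pow_right (by norm_num) (by omega))
  · set s := Nat.size t with hs
    set E : ℕ := 2 ^ (12 * n + 50) + (2 * n + 7) with hE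
    have hc : c0 n ≤ h0 n := by
      unfold c0 h0
      exact Nat.pow_le_pow_right (by norm_num) (Nat.pow_le_pow_right (by norm_num) (by omega))
    have hκ : ∀ i, l1 (GG f (h0 n : ℤ) (c0 n : ℤ) i) ≤ 2 ^ E := by
      intro i
      refine (l1_GG n f hf hl (h0 n) (c0 n) hc i).trans ?_
      rw [hE, pow_add]
      exact Nat.mul_le_mul_left _ (poly_le n)
    refine (hNB (n + 1) (dd n) _ M (2 ^ E) hM (Nat.one_le_two_pow) hκ (lin (t : ℤ))).trans ?_
    have h1 : (2 ^ E) ^ ((lin (t : ℤ) : MvPolynomial (Fin (n + 1)) ℤ).totalDegree +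
        ∑ i, dd n i) ≤ 2 ^ (E * (5 * n + 7)) := by
      rw [← pow_mul, sum_dd]
      refine Nat.pow_le_pow_right (by norm_num) (Nat.mul_le_mul_left _ ?_)
      have h2 := totalDegree_lin (n := n + 1) (t : ℤ)
      omega
    have h2 : 1 + l1 (lin (t : ℤ) : MvPolynomial (Fin (n + 1)) ℤ) *
        (2 ^ E) ^ ((lin (t : ℤ) : MvPolynomial (Fin (n + 1)) ℤ).totalDegree + ∑ i, dd n i) ≤
        2 ^ (n + n * s + E * (5 * n + 7) + 1) := by
      have h3 : l1 (lin (t : ℤ) : MvPolynomial (Fin (n + 1)) ℤ) *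
        (2 ^ E) ^ ((lin (t : ℤ) : MvPolynomial (Fin (n + 1)) ℤ).totalDegree + ∑ i, dd n i) ≤
        2 ^ (n + n * s + E * (5 * n + 7)) := by
        rw [pow_add 2 (n + n * s)]
        exact Nat.mul_le_mul (l1_lin n t) h1
      have h4 : 1 ≤ 2 ^ (n + n * s + E * (5 * n + 7)) := Nat.one_le_two_pow
      rw [pow_succ 2 (n + n * s + E * (5 * n + 7))]
      omega
    calc _ ≤ (2 ^ (n + n * s + E * (5 * n + 7) + 1)) ^ (∏ i, dd n i) :=
          Nat.pow_le_pow_left h2 _
      _ ≤ (2 ^ (n + n * s + E * (5 * n + 7) + 1)) ^ (2 ^ (3 * n + 3)) :=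
          Nat.pow_le_pow_right (by positivity) (prod_dd_le n)
      _ = 2 ^ ((n + n * s + E * (5 * n + 7) + 1) * 2 ^ (3 * n + 3)) := by rw [← pow_mul]
      _ ≤ 2 ^ (2 ^ (17 * n + s + 97) * 2 ^ (3 * n + 3)) :=
          Nat.pow_le_pow_right (by norm_num) (Nat.mul_le_mul_right _ (exp_le n s))
      _ = 2 ^ 2 ^ (20 * n + s + 100) := by
          have h5 : 17 * n + s + 97 + (3 * n + 3) = 20 * n + s + 100 := by omega
          rw [← pow_add, h5]

end BD

theorem I_BD (hNB : SNB) (hFP0 : SFP0) : SBD := by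
  intro u c t M hM
  obtain ⟨hdeg, hl1, -, -⟩ := hFP0 u c
  have h1 := BD.main hNB (Nat.size u) (fp u c) hdeg hl1 t M
  have h2 := h1 hM
  exact ⟨h2.1, h2.2⟩

end Pool.Agent.Work.MP_859ada_lc.ER
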