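import Pool.Agent.Work.MP_859ada_lc.ER.Base

set_option autoImplicit false

namespace Pool.Agent.Work.MP_859ada_lc.ER

open MvPolynomial

namespace BEZ

variable {R : Type} [CommRing R] {n : ℕ}

theorem jd_zero (m : ℕ) : Jd m (0 : MvPolynomial (Fin n) (MvPolynomial (Fin n) R)) := by
  intro b hb
  exact absurd (coeff_zero b) hb

theorem jd_mono {m m' : ℕ} {a : MvPolynomial (Fin n) (MvPolynomial (Fin n) R)}
    (h : Jd m a) (hm : m ≤ m') : Jd m' a := fun b hb => (h b hb).trans hm

theorem jd_add {m : ℕ} {a b : MvPolynomial (Fin n) (MvPolynomial (Fin n) R)}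
    (ha : Jd m a) (hb : Jd m b) : Jd m (a + b) := by
  intro c hc
  rw [coeff_add] at hc ⊢
  have h1 := totalDegree_add (coeff c a) (coeff c b)
  by_cases h0 : coeff c a = 0
  · rw [h0, zero_add] at hc ⊢
    exact hb c hc
  · by_cases h2 : coeff c b = 0
    · rw [h2, add_zero]
      exact ha c h0
    · have h3 := ha c h0
      have h4 := hb c h2
      rcases le_max_iff.1 h1 with h5 | h5 <;> omega

theorem jd_sum {α : Type} {m : ℕ} (s : Finset α)
    (f : α → MvPolynomial (Fin n) (MvPolynomial (Fin n) R)) (h : ∀ i ∈ s, Jd m (f i)) :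
    Jd m (∑ i ∈ s, f i) :=
  Finset.sum_induction f (Jd m) (fun _ _ ha hb => jd_add ha hb) (jd_zero m) h

theorem jd_C {k : ℕ} {h : MvPolynomial (Fin n) R} (hk : h.totalDegree ≤ k) :
    Jd k (C h : MvPolynomial (Fin n) (MvPolynomial (Fin n) R)) := by
  classical
  intro b hb
  rw [coeff_C] at hb ⊢
  split_ifs at hb ⊢ with h0
  · subst h0
    simpa using hk
  · exact absurd rfl hb

theorem jd_Cmul {k : ℕ} (r : R) {a : MvPolynomial (Fin n) (MvPolynomial (Fin n) R)}
    (h : Jd k a) : Jd k (C (C r) * a) := by
  intro b hb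
  rw [coeff_C_mul] at hb ⊢
  have h0 : coeff b a ≠ 0 := fun h0 => hb (by rw [h0, mul_zero])
  have h1 := h b h0
  have h2 := totalDegree_mul (C r) (coeff b a)
  rw [totalDegree_C] at h2
  omega

theorem jd_mulX {k : ℕ} (i : Fin n) {a : MvPolynomial (Fin n) (MvPolynomial (Fin n) R)}
    (h : Jd k a) : Jd (k + 1) (a * X i) := by
  classical
  intro b hb
  rw [coeff_mul_X'] at hb ⊢
  split_ifs at hb ⊢ with h0
  · have h1 := h _ hb
    have hbi : b i ≠ 0 := Finsupp.mem_support_iff.1 h0
    have e : b = Finsupp.single i 1 + (b - Finsupp.single i 1) := by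
      ext j
      simp only [Finsupp.add_apply, Finsupp.tsub_apply, Finsupp.single_apply]
      split_ifs with hj
      · subst hj; omega
      · omega
    have e2 : ∑ j, b j = 1 + ∑ j, (b - Finsupp.single i 1 : Fin n →₀ ℕ) j := by
      conv_lhs => rw [e]
      exact sum_single_add i 1 _
    rw [e2]
    omega
  · exact absurd rfl hb

theorem step_sum {T : Type} [CommRing T] (a y : Fin n → T) (i : Fin n) (x c : T) :
    ∑ j, (a j * x + if j = i then c else 0) * y j = (∑ j, a j * y j) * x + c * y i := by
  classical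
  simp only [add_mul, ite_mul, zero_mul]
  rw [Finset.sum_add_distrib, Finset.sum_ite_eq' Finset.univ i, if_pos (Finset.mem_univ i),
    Finset.sum_mul]
  congr 1
  exact Finset.sum_congr rfl fun j _ => by ring

theorem step_alg {T : Type} [CommRing T] (p c x z : T) :
    p * x - c * z = (p - c) * x + c * (x - z) := by ring

/-- The statement for one polynomial, with an explicit degree. -/
def Good (k : ℕ) (h : MvPolynomial (Fin n) R)
    (a : Fin n → MvPolynomial (Fin n) (MvPolynomial (Fin n) R)) : Prop :=
  map C h - C h = ∑ j, a j * (X j - C (X j)) ∧ (∀ j, eval X (a j) = pderiv j h) ∧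
    ∀ j, Jd (k - 1) (a j) ∧ (k = 0 → a j = 0)

theorem mono (k : ℕ) : ∀ m : Fin n →₀ ℕ, ∑ j, m j = k →
    ∃ a, Good k (monomial m 1 : MvPolynomial (Fin n) R) a := by
  classical
  induction k with
  | zero =>
    intro m hm
    have hm0 : m = 0 := by
      ext j
      exact (Finset.sum_eq_zero_iff.1 hm) j (Finset.mem_univ j)
    subst hm0
    refine ⟨fun _ => 0, ?_, ?_, ?_⟩
    · have e : (monomial (0 : Fin n →₀ ℕ) (1 : R)) = 1 := rfl
      rw [e, RingHom.map_one, RingHom.map_one]
      simp
    · intro j
      have e : (monomial (0 : Fin n →₀ ℕ) (1 : R)) = 1 := rfl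
      rw [e, RingHom.map_zero, Derivation.map_one_eq_zero]
    · intro j
      exact ⟨jd_zero _, fun _ => rfl⟩
  | succ k ih =>
    intro m hm
    obtain ⟨i, hi⟩ : ∃ i, m i ≠ 0 := by
      by_contra hcon
      push Not at hcon
      rw [Finset.sum_eq_zero (fun j _ => hcon j)] at hm
      omega
    have e : m = Finsupp.single i 1 + (m - Finsupp.single i 1) := by
      ext j
      simp only [Finsupp.add_apply, Finsupp.tsub_apply, Finsupp.single_apply]
      split_ifs with hj
      · subst hj; omega
      · omega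
    generalize hm' : m - Finsupp.single i 1 = m' at e
    subst e
    rw [sum_single_add] at hm
    have hmk : ∑ j, m' j = k := by omega
    obtain ⟨a, h1, h2, h3⟩ := ih m' hmk
    have hmon : (monomial (Finsupp.single i 1 + m') 1 : MvPolynomial (Fin n) R) =
        monomial m' 1 * X i := by
      rw [monomial_single_add, pow_one, mul_comm]
    rw [hmon]
    refine ⟨fun j => a j * X i + if j = i then C (monomial m' 1) else 0, ?_, ?_, ?_⟩
    · rw [step_sum a (fun j => X j - C (X j)) i (X i) (C (monomial m' 1)), ← h1, RingHom.map_mul,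
        map_X, RingHom.map_mul]
      exact step_alg _ _ _ _
    · intro j
      rw [RingHom.map_add, RingHom.map_mul, eval_X, h2 j, Derivation.leibniz, pderiv_X,
        smul_eq_mul, smul_eq_mul]
      by_cases hj : j = i
      · subst hj
        rw [if_pos rfl, eval_C, Pi.single_eq_same]
        ring
      · rw [if_neg hj, RingHom.map_zero, Pi.single_eq_of_ne (Ne.symm hj)]
        ring
    · intro j
      refine ⟨?_, fun h0 => absurd h0 (Nat.succ_ne_zero k)⟩
      rw [Nat.add_sub_cancel]
      have hdeg : (monomial m' (1 : R)).totalDegree ≤ k :=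
        (totalDegree_monomial_le' m' 1).trans hmk.le
      refine jd_add ?_ ?_
      · rcases Nat.eq_zero_or_pos k with h0 | h0
        · rw [(h3 j).2 h0, zero_mul]
          exact jd_zero _
        · have := jd_mulX i (h3 j).1
          rwa [Nat.sub_add_cancel h0] at this
      · split_ifs
        · exact jd_C hdeg
        · exact jd_zero _

end BEZ

theorem I_BEZ : SBEZ := by
  classical
  intro R _ n h
  choose A hA using fun m : Fin n →₀ ℕ => BEZ.mono (R := R) (∑ j, m j) m rfl
  have hs : h = ∑ m ∈ h.support, C (coeff m h) * monomial m 1 := by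
    conv_lhs => rw [MvPolynomial.as_sum h]
    exact Finset.sum_congr rfl fun m _ => by rw [C_mul_monomial, mul_one]
  refine ⟨fun j => ∑ m ∈ h.support, C (C (coeff m h)) * A m j, ?_, ?_, ?_⟩
  · have e1 : map C h - C h = ∑ m ∈ h.support, C (C (coeff m h)) *
        (map C (monomial m 1) - C (monomial m 1)) := by
      conv_lhs => rw [hs]
      rw [map_sum, map_sum, ← Finset.sum_sub_distrib]
      refine Finset.sum_congr rfl fun m _ => ?_
      rw [RingHom.map_mul, RingHom.map_mul, map_C, mul_sub]
    rw [e1]
    simp only [Finset.sum_mul]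
    rw [Finset.sum_comm]
    refine Finset.sum_congr rfl fun m _ => ?_
    rw [(hA m).1, Finset.mul_sum]
    exact Finset.sum_congr rfl fun j _ => by ring
  · intro j
    conv_rhs => rw [hs]
    rw [map_sum, map_sum]
    refine Finset.sum_congr rfl fun m _ => ?_
    rw [RingHom.map_mul, eval_C, (hA m).2.1 j, pderiv_C_mul]
  · intro j
    refine ⟨?_, ?_⟩
    · refine BEZ.jd_sum _ _ fun m hm => BEZ.jd_Cmul _ ?_
      have h1 := sum_le_totalDegree (mem_support_iff.1 hm)
      exact BEZ.jd_mono ((hA m).2.2 j).1 (by omega)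
    · intro h0
      refine Finset.sum_eq_zero fun m hm => ?_
      have h1 := sum_le_totalDegree (mem_support_iff.1 hm)
      rw [((hA m).2.2 j).2 (by omega), mul_zero]

end Pool.Agent.Work.MP_859ada_lc.ER
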