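import Pool.Agent.Work.MP_859ada_lc.ER.SDefs

/-!
# MP_859ada_lc, project ER, item BLK: the equations of a block force the values
-/

set_option autoImplicit false

namespace Pool.Agent.Work.MP_859ada_lc.ER.BLK

/-- the values of the gates are forced -/
theorem forced (q : List Gate) (b : Bool) (o W : ℕ) (y : ℕ → ℝ) (hW : q.length + 3 ≤ W)
    (h0 : y 0 = 0) (h1 : y 1 = 1) (hh : ∀ s < W, hold (blkEq b o s q) y) :
    ∀ s < q.length, y (o + s) = (vals (fun k => y (2 + k)) q).getD s 0 := by
  intro s
  induction s using Nat.strong_induction_on with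
  | _ s ih =>
    intro hs
    have hrf : ∀ i, y (rf o s i) = (vals (fun k => y (2 + k)) (q.take s)).getD i 0 := by
      intro i
      rw [vals_getD_take, rf]
      split_ifs with hi
      · exact ih i hi (by omega)
      · exact h0
    have hq := hh s (by omega)
    rw [blkEq, if_pos hs, List.getD_eq_getElem _ _ hs] at hq
    rw [vals_getD_eq _ _ hs]
    cases hg : q[s] with
    | one =>
      rw [hg] at hq
      simp only [gateEq, hold, if_true] at hq
      simpa only [Gate.val] using hq
    | var k =>
      rw [hg] at hq
      simp only [gateEq, hold, one_ne_zero, if_false, if_true, h0, zero_add] at hq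
      simpa only [Gate.val] using hq.symm
    | add i j =>
      rw [hg] at hq
      simp only [gateEq, hold, one_ne_zero, if_false, if_true, hrf] at hq
      simpa only [Gate.val] using hq.symm
    | sub i j =>
      rw [hg] at hq
      simp only [gateEq, hold, one_ne_zero, if_false, if_true, hrf] at hq
      simp only [Gate.val]
      linarith
    | mul i j =>
      rw [hg] at hq
      simp only [gateEq, hold, show ¬ (2 : ℕ) = 0 by norm_num, show ¬ (2 : ℕ) = 1 by norm_num,
        if_false, hrf] at hq
      simpa only [Gate.val] using hq.symm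

/-- the last variable of a block has the value of the program -/
theorem last (q : List Gate) (o : ℕ) (y : ℕ → ℝ) (h0 : y 0 = 0)
    (h : ∀ s < q.length, y (o + s) = (vals (fun k => y (2 + k)) q).getD s 0) :
    y (lastv o q.length) = value (fun k => y (2 + k)) q := by
  rw [value_eq_getD, lastv]
  split_ifs with hl
  · rw [List.getD_eq_default _ _ (by rw [length_vals]; omega), h0]
  · exact h _ (by omega)

end Pool.Agent.Work.MP_859ada_lc.ER.BLK

namespace Pool.Agent.Work.MP_859ada_lc.ER

theorem I_BLK : SBLK := by
  intro q b o W y hW h0 h1 hh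
  have hf := BLK.forced q b o W y hW h0 h1 hh
  have hl := BLK.last q o y h0 hf
  refine ⟨hf, ?_, ?_⟩
  · intro hb
    have hq := hh q.length (by omega)
    rw [blkEq, if_neg (lt_irrefl _), if_pos rfl, if_pos hb] at hq
    simp only [hold, one_ne_zero, if_false, if_true, h0, hl, add_zero] at hq
    exact hq
  · intro hb
    have hq1 := hh (q.length + 1) (by omega)
    rw [blkEq, if_neg (by omega), if_neg (by omega), if_neg (by simp [hb]), if_pos rfl] at hq1
    have hq2 := hh (q.length + 2) (by omega)
    rw [blkEq, if_neg (by omega), if_neg (by omega), if_neg (by simp [hb]), if_neg (by omega),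
      if_pos rfl] at hq2
    simp only [hold, show ¬ (2 : ℕ) = 0 by norm_num, show ¬ (2 : ℕ) = 1 by norm_num,
      if_false] at hq1 hq2
    rw [hl, h1, ← hq1] at hq2
    by_contra hneg
    have hv : value (fun k => y (2 + k)) q ≤ 0 := not_lt.1 hneg
    have h3 : value (fun k => y (2 + k)) q * (y (o + q.length) * y (o + q.length)) ≤ 0 :=
      mul_nonpos_of_nonpos_of_nonneg hv (mul_self_nonneg _)
    rw [hq2] at h3
    linarith

end Pool.Agent.Work.MP_859ada_lc.ER
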