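import Pool.Agent.Work.MP_859ada_lc.ER.SDefs

/-!
# MP_859ada_lc, project ER, item BLK2: the values solve the equations of a block
-/

set_option autoImplicit false

namespace Pool.Agent.Work.MP_859ada_lc.ER.BLK2

/-- the auxiliary root -/
noncomputable def rt (b : Bool) (v : ℝ) : ℝ := if b = true then 0 else 1 / Real.sqrt v

theorem rt_mul {v : ℝ} (hv : 0 < v) : v * (rt false v * rt false v) = 1 := by
  have h := Real.mul_self_sqrt hv.le
  have h2 : Real.sqrt v ≠ 0 := (Real.sqrt_pos.2 hv).ne'
  simp only [rt, Bool.false_eq_true, if_false]
  rw [one_div_mul_one_div, h, mul_one_div, div_self hv.ne']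

/-- the values -/
noncomputable def av (q : List Gate) (b : Bool) (z : ℕ → ℝ) (s : ℕ) : ℝ :=
  if s < q.length then (vals z q).getD s 0
  else if s = q.length then rt b (value z q)
  else if s = q.length + 1 then rt b (value z q) * rt b (value z q)
  else 0

end Pool.Agent.Work.MP_859ada_lc.ER.BLK2

namespace Pool.Agent.Work.MP_859ada_lc.ER

open BLK2 in
theorem I_BLK2 : SBLK2 := by
  intro q b o W z hW hb hp
  refine ⟨av q b z, ?_⟩
  intro y h0 h1 hz hy s hs
  have hval : ∀ i < q.length, y (o + i) = (vals z q).getD i 0 := by
    intro i hi
    rw [hy i (by omega), av, if_pos hi]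
  have hl : y (lastv o q.length) = value z q := by
    rw [value_eq_getD, lastv]
    split_ifs with hl
    · rw [List.getD_eq_default _ _ (by rw [length_vals]; omega), h0]
    · exact hval _ (by omega)
  by_cases hsl : s < q.length
  · rw [blkEq, if_pos hsl, List.getD_eq_getElem _ _ hsl]
    have hrf : ∀ i, y (rf o s i) = (vals z (q.take s)).getD i 0 := by
      intro i
      rw [vals_getD_take, rf]
      split_ifs with hi
      · exact hval i (by omega)
      · exact h0
    have hys : y (o + s) = (q[s]).val z (vals z (q.take s)) := by
      rw [hval s hsl, vals_getD_eq _ _ hsl]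
    cases hg : q[s] with
    | one =>
      rw [hg] at hys
      simp only [gateEq, hold, if_true]
      simpa only [Gate.val] using hys
    | var k =>
      rw [hg] at hys
      simp only [gateEq, hold, one_ne_zero, if_false, if_true, h0, zero_add]
      rw [hys, hz _ (List.getElem_mem hsl) k hg]
      simp only [Gate.val]
    | add i j =>
      rw [hg] at hys
      simp only [gateEq, hold, one_ne_zero, if_false, if_true, hrf]
      simpa only [Gate.val] using hys.symm
    | sub i j =>
      rw [hg] at hys
      simp only [gateEq, hold, one_ne_zero, if_false, if_true, hrf]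
      simp only [Gate.val] at hys
      linarith
    | mul i j =>
      rw [hg] at hys
      simp only [gateEq, hold, show ¬ (2 : ℕ) = 0 by norm_num, show ¬ (2 : ℕ) = 1 by norm_num,
        if_false, hrf]
      simpa only [Gate.val] using hys.symm
  · rw [blkEq, if_neg hsl]
    cases b with
    | true =>
      by_cases hs2 : s = q.length
      · rw [if_pos hs2]
        simp only [hold, one_ne_zero, if_false, if_true, h0, hl, add_zero]
        exact hb rfl
      · rw [if_neg hs2]
        simp only [hold, one_ne_zero, if_false, if_true, h0, add_zero]
    | false =>
      have hv : 0 < value z q := hp rfl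
      by_cases hs2 : s = q.length
      · rw [if_pos hs2]
        simp only [hold, one_ne_zero, Bool.false_eq_true, if_false, if_true, h0, add_zero]
      · rw [if_neg hs2, if_neg (by simp)]
        have e0 : y (o + q.length) = rt false (value z q) := by
          rw [hy _ (by omega), av, if_neg (lt_irrefl _), if_pos rfl]
        have e1 : y (o + q.length + 1) = rt false (value z q) * rt false (value z q) := by
          rw [add_assoc, hy _ (by omega), av, if_neg (by omega), if_neg (by omega), if_pos rfl]
        by_cases hs3 : s = q.length + 1
        · rw [if_pos hs3]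
          simp only [hold, show ¬ (2 : ℕ) = 0 by norm_num, show ¬ (2 : ℕ) = 1 by norm_num,
            if_false]
          rw [e0, e1]
        · rw [if_neg hs3]
          by_cases hs4 : s = q.length + 2
          · rw [if_pos hs4]
            simp only [hold, show ¬ (2 : ℕ) = 0 by norm_num, show ¬ (2 : ℕ) = 1 by norm_num,
              if_false]
            rw [e1, hl, h1]
            exact rt_mul hv
          · rw [if_neg hs4]
            simp only [hold, one_ne_zero, if_false, if_true, h0, add_zero]

end Pool.Agent.Work.MP_859ada_lc.ER
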