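import Pool.Agent.Work.MP_859ada_lc.ER.CDefs

/-!
# MP_859ada_lc, item CG: correctness of `G` and `J` modulo `p`
-/

set_option autoImplicit false

namespace Pool.Agent.Work.MP_859ada_lc.ER

open RootCH

namespace CG

lemma rd_GG (p : ℕ) {n : ℕ} (f : MvPolynomial (Fin (n + 1)) ℤ) (h c : ℤ) (i : Fin (n + 1)) :
    rd p (GG f h c i) = GG (rd p f) (h : ZMod p) (c : ZMod p) i := by
  have hC : ∀ z : ℤ, MvPolynomial.map (Int.castRingHom (ZMod p))
      (MvPolynomial.C z : MvPolynomial (Fin (n + 1)) ℤ) = MvPolynomial.C (z : ZMod p) :=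
    fun z => by rw [MvPolynomial.map_C]; rfl
  unfold rd GG
  split_ifs with hi
  · simp only [map_sub, map_mul, hC, map_sum, apply_ite, map_zero,
      MvPolynomial.pderiv_map, MvPolynomial.map_X, map_ofNat]
  · simp only [map_neg, map_mul, hC, MvPolynomial.pderiv_map]

lemma sum_nv {R : Type} [AddCommMonoid R] (u : ℕ) (g : ℕ → R) :
    ∑ k ∈ Finset.range (nv u), g k = ∑ j : Fin (Nat.size u + 1), g (j : ℕ) := by
  unfold nv
  exact Finset.sum_range g

lemma fin_val_eq_zero {n : ℕ} (i : Fin (n + 1)) : ((i : ℕ) = 0) ↔ i = 0 := by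
  constructor
  · intro h; exact Fin.ext (by simpa using h)
  · intro h; rw [h]; rfl

lemma eval_GG {R : Type} [CommRing R] {n : ℕ} (f : MvPolynomial (Fin (n + 1)) R) (h c : R)
    (y : Fin (n + 1) → R) (i : Fin (n + 1)) :
    MvPolynomial.eval y (GG f h c i) = if i = 0 then
      c - h * (6 * MvPolynomial.eval y f - ∑ j : Fin (n + 1), if j = 0 then 0 else
        y j * MvPolynomial.eval y (MvPolynomial.pderiv j f))
      else - (h * MvPolynomial.eval y (MvPolynomial.pderiv i f)) := by
  unfold GG
  split_ifs with hi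
  · simp only [map_sub, map_mul, MvPolynomial.eval_C, map_sum, apply_ite, map_zero,
      MvPolynomial.eval_X, map_ofNat]
  · simp only [map_neg, map_mul, MvPolynomial.eval_C]

lemma pd_C_mul {R : Type} [CommRing R] {n : ℕ} (a : R) (g : MvPolynomial (Fin (n + 1)) R)
    (j : Fin (n + 1)) : MvPolynomial.pderiv j (MvPolynomial.C a * g) =
      MvPolynomial.C a * MvPolynomial.pderiv j g := by
  rw [MvPolynomial.pderiv_C_mul]

lemma eval_pderiv_GG {R : Type} [CommRing R] {n : ℕ} (f : MvPolynomial (Fin (n + 1)) R) (h c : R)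
    (y : Fin (n + 1) → R) (i j : Fin (n + 1)) :
    MvPolynomial.eval y (MvPolynomial.pderiv j (GG f h c i)) = if i = 0 then
      - (h * (6 * MvPolynomial.eval y (MvPolynomial.pderiv j f) -
        ((if j = 0 then 0 else MvPolynomial.eval y (MvPolynomial.pderiv j f)) +
        ∑ l : Fin (n + 1), if l = 0 then 0 else
        y l * MvPolynomial.eval y (MvPolynomial.pderiv j (MvPolynomial.pderiv l f)))))
      else - (h * MvPolynomial.eval y (MvPolynomial.pderiv j (MvPolynomial.pderiv i f))) := by
  have h6 : (6 : MvPolynomial (Fin (n + 1)) R) = MvPolynomial.C 6 := by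
    rw [map_ofNat]
  have hX : ∀ l : Fin (n + 1), MvPolynomial.eval y (MvPolynomial.pderiv j
      (if l = 0 then 0 else MvPolynomial.X l * MvPolynomial.pderiv l f)) =
      (if l = j then (if j = 0 then 0 else MvPolynomial.eval y (MvPolynomial.pderiv j f)) else 0)
      + if l = 0 then 0 else
        y l * MvPolynomial.eval y (MvPolynomial.pderiv j (MvPolynomial.pderiv l f)) := by
    intro l
    by_cases hl : l = 0
    · subst hl
      by_cases hj : j = 0
      · subst hj; simp
      · have : (0 : Fin (n + 1)) ≠ j := fun h => hj h.symm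
        simp [this]
    · rw [if_neg hl, if_neg hl, MvPolynomial.pderiv_mul, map_add, map_mul, map_mul,
        MvPolynomial.eval_X, MvPolynomial.pderiv_X]
      by_cases hj : l = j
      · subst hj
        rw [if_pos rfl, if_neg hl, Pi.single_eq_same, map_one, one_mul]
      · rw [if_neg hj, Pi.single_eq_of_ne (fun h => hj h), map_zero, zero_mul]
  unfold GG
  by_cases hi : i = 0
  · rw [if_pos hi, if_pos hi, map_sub, MvPolynomial.pderiv_C, zero_sub, pd_C_mul, map_sub, h6,
      pd_C_mul, map_sum, map_neg, map_mul, MvPolynomial.eval_C, map_sub, map_mul,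
      MvPolynomial.eval_C, map_sum, Finset.sum_congr rfl fun l _ => hX l,
      Finset.sum_add_distrib, Finset.sum_ite_eq' Finset.univ j, if_pos (Finset.mem_univ _)]
  · rw [if_neg hi, if_neg hi, map_neg, pd_C_mul, map_neg, map_mul, MvPolynomial.eval_C]

lemma eval_pderiv_X_pow {R : Type} [CommRing R] {n : ℕ} (y : Fin (n + 1) → R)
    (i j : Fin (n + 1)) (m : ℕ) :
    MvPolynomial.eval y (MvPolynomial.pderiv j (MvPolynomial.X i ^ m)) =
      if i = j then (m : R) * y i ^ (m - 1) else 0 := by
  rw [MvPolynomial.pderiv_pow, map_mul, map_mul, map_pow, MvPolynomial.eval_X, map_natCast,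
    MvPolynomial.pderiv_X]
  by_cases h : i = j
  · subst h
    rw [Pi.single_eq_same, map_one, mul_one, if_pos rfl]
  · rw [Pi.single_eq_of_ne (fun h' => h h'), map_zero, mul_zero, if_neg h]

lemma eF2_symm (u c i j s p : ℕ) : eF2 u c i j s p = eF2 u c j i s p := by
  unfold eF2
  congr 1
  funext k
  have : eQ2 u c k i j = eQ2 u c k j i := by
    unfold eQ2
    split_ifs <;> ring
  rw [this]
  ring

lemma cast_dl {R : Type} [CommRing R] {n : ℕ} (i j : Fin (n + 1)) :
    ((dl i j : ℕ) : R) = if i = j then 1 else 0 := by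
  unfold dl
  by_cases h : i = j
  · subst h; simp
  · have : (i : ℕ) ≠ (j : ℕ) := fun h' => h (Fin.ext h')
    simp [h, this]

lemma cast_hM (u p : ℕ) (hp : p ≠ 0) :
    ((hM u p : ℕ) : ZMod p) = (((h0 (Nat.size u) : ℕ) : ℤ) : ZMod p) := by
  unfold hM
  rw [cast_md _ hp, Int.cast_natCast]
  rfl

lemma cast_cM (u p : ℕ) (hp : p ≠ 0) :
    ((cM u p : ℕ) : ZMod p) = (((c0 (Nat.size u) : ℕ) : ℤ) : ZMod p) := by
  unfold cM
  rw [cast_md _ hp, Int.cast_natCast]
  rfl

end CG

theorem I_CG (hCF : SCF) : SCG := by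
  intro u c s p hprime
  obtain ⟨hF, hF1, hF2⟩ := hCF u c s p
  have hp : p ≠ 0 := hprime.out.ne_zero
  have hF2' : ∀ l j : Fin (Nat.size u + 1), ((eF2 u c l j s p : ℕ) : ZMod p) =
      MvPolynomial.eval (py u p s)
      (MvPolynomial.pderiv j (MvPolynomial.pderiv l (rd p (fp u c)))) := by
    intro l j
    rw [CG.eF2_symm]
    exact hF2 j l
  have hy : ∀ j : Fin (Nat.size u + 1), ((pt p s j : ℕ) : ZMod p) = py u p s j := fun j => rfl
  constructor
  · intro i
    rw [CG.rd_GG, CG.eval_GG]
    unfold eG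
    by_cases hi : i = 0
    · rw [if_pos ((CG.fin_val_eq_zero i).2 hi), if_pos hi]
      have hs : ∑ k ∈ Finset.range (nv u),
          ((if k = 0 then 0 else pt p s k * eF1 u c k s p : ℕ) : ZMod p) =
          ∑ j : Fin (Nat.size u + 1), if j = 0 then 0 else py u p s j *
            MvPolynomial.eval (py u p s) (MvPolynomial.pderiv j (rd p (fp u c))) := by
        rw [CG.sum_nv]
        refine Finset.sum_congr rfl fun j _ => ?_
        by_cases hj : j = 0
        · rw [if_pos ((CG.fin_val_eq_zero j).2 hj), if_pos hj, Nat.cast_zero]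
        · rw [if_neg (fun h => hj ((CG.fin_val_eq_zero j).1 h)), if_neg hj, Nat.cast_mul,
            hy, hF1]
      rw [Nat.cast_add, Nat.cast_mul, Nat.cast_mul, Nat.cast_add, Nat.cast_mul, Nat.cast_mul,
        cast_sM hp, hs, cast_pred hp, hF, CG.cast_hM u p hp, CG.cast_cM u p hp]
      push_cast
      ring
    · rw [if_neg (fun h => hi ((CG.fin_val_eq_zero i).1 h)), if_neg hi, Nat.cast_mul,
        Nat.cast_mul, cast_pred hp, hF1, CG.cast_hM u p hp]
      ring
  · intro i j
    rw [CG.rd_GG, map_sub, map_sub, CG.eval_pderiv_GG, CG.eval_pderiv_X_pow]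
    unfold eJ dd
    by_cases hi : i = 0
    · rw [if_pos ((CG.fin_val_eq_zero i).2 hi), if_pos hi, if_pos hi]
      have hs : ∑ k ∈ Finset.range (nv u),
          ((if k = 0 then 0 else pt p s k * eF2 u c k j s p : ℕ) : ZMod p) =
          ∑ l : Fin (Nat.size u + 1), if l = 0 then 0 else py u p s l *
            MvPolynomial.eval (py u p s)
              (MvPolynomial.pderiv j (MvPolynomial.pderiv l (rd p (fp u c)))) := by
        rw [CG.sum_nv]
        refine Finset.sum_congr rfl fun l _ => ?_
        by_cases hl : l = 0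
        · rw [if_pos ((CG.fin_val_eq_zero l).2 hl), if_pos hl, Nat.cast_zero]
        · rw [if_neg (fun h => hl ((CG.fin_val_eq_zero l).1 h)), if_neg hl, Nat.cast_mul,
            hy, hF2']
      have hj1 : ((if (j : ℕ) = 0 then 0 else eF1 u c j s p : ℕ) : ZMod p) =
          if j = 0 then 0 else
            MvPolynomial.eval (py u p s) (MvPolynomial.pderiv j (rd p (fp u c))) := by
        by_cases hj : j = 0
        · rw [if_pos ((CG.fin_val_eq_zero j).2 hj), if_pos hj, Nat.cast_zero]
        · rw [if_neg (fun h => hj ((CG.fin_val_eq_zero j).1 h)), if_neg hj, hF1]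
      rw [Nat.cast_add, Nat.cast_mul, Nat.cast_mul, Nat.cast_mul, Nat.cast_add, Nat.cast_mul,
        Nat.cast_mul, Nat.cast_add, cast_sM hp, hs, hj1, cast_pred hp, hF1,
        CG.cast_hM u p hp, CG.cast_dl, cast_md _ hp, Nat.cast_pow, hy]
      by_cases hij : i = j
      · subst hij
        rw [if_pos rfl, if_pos rfl]
        push_cast
        ring
      · rw [if_neg hij, if_neg hij]
        push_cast
        ring
    · rw [if_neg (fun h => hi ((CG.fin_val_eq_zero i).1 h)), if_neg hi, if_neg hi,
        Nat.cast_add, Nat.cast_mul, Nat.cast_mul, Nat.cast_mul, hF2', CG.cast_hM u p hp,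
        CG.cast_dl, cast_md _ hp, Nat.cast_pow, hy]
      by_cases hij : i = j
      · subst hij
        rw [if_pos rfl, if_pos rfl]
        push_cast
        ring
      · rw [if_neg hij, if_neg hij]
        push_cast
        ring

end Pool.Agent.Work.MP_859ada_lc.ER
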