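import Pool.Agent.Work.MP_859ada_lc.ER.Base

/-!
# MP_859ada_lc, project ER, item CHP: characteristic polynomials of matrices over `ℤ[h]`
-/

set_option autoImplicit false

namespace Pool.Agent.Work.MP_859ada_lc.ER

namespace CHP

open Finset Polynomial

/-- sum of the norms of the coefficients -/
noncomputable def N2 (P : ℤ[X][X]) : ℕ := ∑ i ∈ P.support, RootCH.nrm (P.coeff i)

lemma nrm_zero : RootCH.nrm 0 = 0 := by
  unfold RootCH.nrm
  simp

lemma nrm_one : RootCH.nrm 1 = 1 := by
  rw [← C_1, RootCH.nrm_C]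
  simp

lemma nrm_sum_le {α : Type} (s : Finset α) (f : α → ℤ[X]) :
    RootCH.nrm (∑ x ∈ s, f x) ≤ ∑ x ∈ s, RootCH.nrm (f x) := by
  classical
  induction s using Finset.induction_on with
  | empty => simp [nrm_zero]
  | insert a s ha ih =>
    rw [Finset.sum_insert ha, Finset.sum_insert ha]
    exact (RootCH.nrm_add_le _ _).trans (Nat.add_le_add_left ih _)

lemma N2_eq_range {P : ℤ[X][X]} {n : ℕ} (h : P.natDegree < n) :
    N2 P = ∑ i ∈ range n, RootCH.nrm (P.coeff i) := by
  unfold N2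
  refine Finset.sum_subset (fun i hi => ?_) fun i _ hi => ?_
  · rw [mem_range]
    exact lt_of_le_of_lt (le_natDegree_of_mem_supp i hi) h
  · rw [notMem_support_iff.1 hi, nrm_zero]

lemma N2_zero : N2 0 = 0 := by
  unfold N2
  simp

lemma N2_C (a : ℤ[X]) : N2 (C a) = RootCH.nrm a := by
  rw [N2_eq_range (n := 1) (by simp)]; simp

lemma N2_one : N2 1 = 1 := by
  rw [← C_1, N2_C, nrm_one]

lemma N2_X : N2 X = 1 := by
  rw [N2_eq_range (n := 2) (by rw [natDegree_X]; norm_num)]
  simp [Finset.sum_range_succ, coeff_X, nrm_zero, nrm_one]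

lemma N2_add_le (P Q : ℤ[X][X]) : N2 (P + Q) ≤ N2 P + N2 Q := by
  set n := P.natDegree + Q.natDegree + 1 with hn
  have h1 : (P + Q).natDegree < n := by
    have := natDegree_add_le P Q; omega
  rw [N2_eq_range h1, N2_eq_range (P := P) (n := n) (by omega),
    N2_eq_range (P := Q) (n := n) (by omega), ← Finset.sum_add_distrib]
  refine Finset.sum_le_sum fun i _ => ?_
  rw [coeff_add]; exact RootCH.nrm_add_le _ _

lemma N2_neg (P : ℤ[X][X]) : N2 (-P) = N2 P := by
  unfold N2; rw [support_neg]; simp [RootCH.nrm_neg]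

lemma N2_sub_le (P Q : ℤ[X][X]) : N2 (P - Q) ≤ N2 P + N2 Q := by
  rw [sub_eq_add_neg, ← N2_neg Q]; exact N2_add_le _ _

lemma N2_mul_le (P Q : ℤ[X][X]) : N2 (P * Q) ≤ N2 P * N2 Q := by
  classical
  set n := P.natDegree + Q.natDegree + 1 with hn
  have h1 : (P * Q).natDegree < n := by
    have := natDegree_mul_le (p := P) (q := Q); omega
  rw [N2_eq_range h1]
  calc ∑ i ∈ range n, RootCH.nrm ((P * Q).coeff i)
      ≤ ∑ i ∈ range n, ∑ x ∈ antidiagonal i,
          RootCH.nrm (P.coeff x.1) * RootCH.nrm (Q.coeff x.2) := by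
        refine Finset.sum_le_sum fun i _ => ?_
        rw [coeff_mul]
        exact (nrm_sum_le _ _).trans (Finset.sum_le_sum fun x _ => RootCH.nrm_mul_le _ _)
    _ ≤ ∑ x ∈ range n ×ˢ range n, RootCH.nrm (P.coeff x.1) * RootCH.nrm (Q.coeff x.2) := by
        rw [← Finset.sum_biUnion]
        · refine Finset.sum_le_sum_of_subset fun x hx => ?_
          simp only [mem_biUnion, HasAntidiagonal.mem_antidiagonal, mem_range, mem_product] at hx ⊢
          obtain ⟨i, hi, h⟩ := hx
          omega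
        · intro i _ j _ hij
          rw [Function.onFun, Finset.disjoint_left]
          intro x h1 h2
          rw [HasAntidiagonal.mem_antidiagonal] at h1 h2
          exact hij (h1.symm.trans h2)
    _ = N2 P * N2 Q := by
        rw [N2_eq_range (P := P) (n := n) (by omega), N2_eq_range (P := Q) (n := n) (by omega),
          Finset.sum_mul_sum, Finset.sum_product]

lemma N2_sum_le {α : Type} (s : Finset α) (f : α → ℤ[X][X]) :
    N2 (∑ x ∈ s, f x) ≤ ∑ x ∈ s, N2 (f x) := by
  classical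
  induction s using Finset.induction_on with
  | empty => simp [N2_zero]
  | insert a s ha ih =>
    rw [Finset.sum_insert ha, Finset.sum_insert ha]
    exact (N2_add_le _ _).trans (Nat.add_le_add_left ih _)

lemma N2_prod_le {α : Type} (s : Finset α) (f : α → ℤ[X][X]) :
    N2 (∏ x ∈ s, f x) ≤ ∏ x ∈ s, N2 (f x) := by
  classical
  induction s using Finset.induction_on with
  | empty => simp [N2_one]
  | insert a s ha ih =>
    rw [Finset.prod_insert ha, Finset.prod_insert ha]
    exact (N2_mul_le _ _).trans (Nat.mul_le_mul_left _ ih)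

lemma nrm_coeff_le (P : ℤ[X][X]) (j : ℕ) : RootCH.nrm (P.coeff j) ≤ N2 P := by
  by_cases h : j ∈ P.support
  · exact Finset.single_le_sum (f := fun i => RootCH.nrm (P.coeff i)) (fun _ _ => Nat.zero_le _) h
  · rw [notMem_support_iff.1 h, nrm_zero]; exact Nat.zero_le _

variable {ι : Type} [Fintype ι] [DecidableEq ι]

lemma N2_sign (σ : Equiv.Perm ι) (P : ℤ[X][X]) :
    N2 (((Equiv.Perm.sign σ : ℤ) : ℤ[X][X]) * P) = N2 P := by
  rcases Int.units_eq_one_or (Equiv.Perm.sign σ) with h | h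
  · rw [h]; simp
  · have e : ((Equiv.Perm.sign σ : ℤ) : ℤ[X][X]) * P = -P := by
      rw [h]
      push_cast
      ring
    rw [e, N2_neg]

lemma N2_det_le (C : Matrix ι ι ℤ[X][X]) : N2 C.det ≤ ∏ b, ∑ a, N2 (C a b) := by
  rw [Matrix.det_apply']
  calc N2 (∑ σ : Equiv.Perm ι, ((Equiv.Perm.sign σ : ℤ) : ℤ[X][X]) * ∏ i, C (σ i) i)
      ≤ ∑ σ : Equiv.Perm ι, ∏ b, N2 (C (σ b) b) := by
        refine (N2_sum_le _ _).trans (Finset.sum_le_sum fun σ _ => ?_)
        rw [N2_sign]
        exact N2_prod_le _ _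
    _ = ∑ f ∈ (Finset.univ : Finset (Equiv.Perm ι)).image (fun σ : Equiv.Perm ι => (⇑σ : ι → ι)),
          ∏ b, N2 (C (f b) b) := by
        rw [Finset.sum_image]
        intro σ _ τ _ h
        exact DFunLike.coe_injective h
    _ ≤ ∑ f : ι → ι, ∏ b, N2 (C (f b) b) :=
        Finset.sum_le_sum_of_subset (Finset.subset_univ _)
    _ = ∏ b, ∑ a, N2 (C a b) := by
        rw [Finset.prod_univ_sum]
        refine Finset.sum_congr ?_ (fun _ _ => rfl)
        ext f
        simp

/-- all coefficients have degree at most `k` -/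
def Wd (k : ℕ) (P : ℤ[X][X]) : Prop := ∀ j, (P.coeff j).natDegree ≤ k

lemma Wd.mul {k l : ℕ} {P Q : ℤ[X][X]} (hP : Wd k P) (hQ : Wd l Q) : Wd (k + l) (P * Q) := by
  intro j
  rw [coeff_mul]
  refine natDegree_sum_le_of_forall_le _ _ fun x _ => ?_
  exact natDegree_mul_le.trans (Nat.add_le_add (hP _) (hQ _))

lemma Wd.sum {α : Type} {k : ℕ} (s : Finset α) (f : α → ℤ[X][X]) (h : ∀ x ∈ s, Wd k (f x)) :
    Wd k (∑ x ∈ s, f x) := by
  intro j
  rw [finsetSum_coeff]
  exact natDegree_sum_le_of_forall_le _ _ fun x hx => h x hx j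

lemma Wd.prod {α : Type} {k : ℕ} (s : Finset α) (f : α → ℤ[X][X]) (h : ∀ x ∈ s, Wd k (f x)) :
    Wd (k * s.card) (∏ x ∈ s, f x) := by
  classical
  induction s using Finset.induction_on with
  | empty =>
    intro j
    rw [Finset.prod_empty, coeff_one]
    split_ifs <;> simp
  | insert a s ha ih =>
    rw [Finset.prod_insert ha, Finset.card_insert_of_notMem ha]
    have h1 := (h a (Finset.mem_insert_self a s)).mul
      (ih (fun x hx => h x (Finset.mem_insert_of_mem hx)))
    have e : k + k * s.card = k * (s.card + 1) := by ring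
    rwa [e] at h1

lemma Wd.sign {k : ℕ} (σ : Equiv.Perm ι) {P : ℤ[X][X]} (h : Wd k P) :
    Wd k (((Equiv.Perm.sign σ : ℤ) : ℤ[X][X]) * P) := by
  rcases Int.units_eq_one_or (Equiv.Perm.sign σ) with h1 | h1
  · rw [h1]; simpa using h
  · rw [h1]
    intro j
    have e : ((-1 : ℤˣ) : ℤ) * P = -P := by
      push_cast
      ring
    rw [e, coeff_neg, natDegree_neg]
    exact h j

lemma Wd.det {k : ℕ} (C : Matrix ι ι ℤ[X][X]) (h : ∀ a b, Wd k (C a b)) :
    Wd (k * Fintype.card ι) C.det := by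
  rw [Matrix.det_apply']
  refine Wd.sum _ _ fun σ _ => Wd.sign σ ?_
  exact Wd.prod _ _ fun b _ => h _ _

lemma Wd_char (A : Matrix ι ι ℤ[X]) (E : ℕ) (h : ∀ a b, (A a b).natDegree ≤ E) (a b : ι) :
    Wd E (A.charmatrix a b) := by
  intro j
  rw [Matrix.charmatrix_apply, coeff_sub]
  refine (natDegree_sub_le _ _).trans (max_le ?_ ?_)
  · rw [Matrix.diagonal_apply]
    split_ifs
    · rw [coeff_X]
      split_ifs <;> simp
    · simp
  · rw [coeff_C]
    split_ifs
    · exact h a b
    · simp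

lemma N2_char (A : Matrix ι ι ℤ[X]) (B : ℕ) (h : ∀ b, ∑ a, RootCH.nrm (A a b) ≤ B) (b : ι) :
    ∑ a, N2 (A.charmatrix a b) ≤ 1 + B := by
  calc ∑ a, N2 (A.charmatrix a b)
      ≤ ∑ a, ((if a = b then 1 else 0) + RootCH.nrm (A a b)) := by
        refine Finset.sum_le_sum fun a _ => ?_
        rw [Matrix.charmatrix_apply]
        refine (N2_sub_le _ _).trans ?_
        rw [N2_C, Matrix.diagonal_apply]
        split_ifs
        · rw [N2_X]
        · rw [N2_zero]
    _ = 1 + ∑ a, RootCH.nrm (A a b) := by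
        rw [Finset.sum_add_distrib]
        simp
    _ ≤ 1 + B := Nat.add_le_add_left (h b) _

end CHP

theorem I_CHP : SCH := by
  intro ι _ _ A B E hB hE i j
  constructor
  · have h1 : CHP.N2 A.charpoly ≤ (1 + B) ^ Fintype.card ι := by
      rw [Matrix.charpoly]
      refine (CHP.N2_det_le _).trans ?_
      refine (Finset.prod_le_prod' (fun b _ => CHP.N2_char A B hB b)).trans ?_
      rw [Finset.prod_const, Finset.card_univ]
    exact ((RootCH.natAbs_coeff_le _ i).trans (CHP.nrm_coeff_le _ j)).trans h1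
  · rw [Matrix.charpoly]
    exact CHP.Wd.det _ (fun a b => CHP.Wd_char A E hE a b) j

end Pool.Agent.Work.MP_859ada_lc.ER
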