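import Pool.Agent.Work.MP_859ada_lc.ER.CDefs

set_option autoImplicit false

namespace Pool.Agent.Work.MP_859ada_lc.ER

open RootCH

theorem I_CODE : SCODE := by
  intro K _ w m b F hb hF
  classical
  rw [← Finset.sum_filter]
  refine Finset.sum_bij (fun s hs => fun i : Fin m => (⟨dig w s i, by
    rw [Finset.mem_filter] at hs
    exact hs.2 i i.isLt⟩ : Fin b)) ?_ ?_ ?_ ?_
  · intro s hs
    exact Finset.mem_univ _
  · intro s hs s' hs' h
    rw [Finset.mem_filter, Finset.mem_range] at hs hs'
    have h1 : ∀ i < m, dig w s i = dig w s' i := by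
      intro i hi
      have := congrFun h ⟨i, hi⟩
      simpa using this
    have h2 := mod_eq_sum_dig w s m
    have h3 := mod_eq_sum_dig w s' m
    rw [Nat.mod_eq_of_lt hs.1] at h2
    rw [Nat.mod_eq_of_lt hs'.1] at h3
    rw [h2, h3]
    refine Finset.sum_congr rfl fun i hi => ?_
    rw [h1 i (Finset.mem_range.1 hi)]
  · intro g _
    obtain ⟨s, hs, hd⟩ := exists_dig w m (fun i => if h : i < m then (g ⟨i, h⟩ : ℕ) else 0)
      (by
        intro i hi
        simp only [hi, dif_pos]
        exact lt_of_lt_of_le (g ⟨i, hi⟩).isLt hb)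
    have hd' : ∀ i : Fin m, dig w s i = (g i : ℕ) := by
      intro i
      rw [hd i i.isLt]
      simp
    refine ⟨s, ?_, ?_⟩
    · rw [Finset.mem_filter, Finset.mem_range]
      refine ⟨hs, fun i hi => ?_⟩
      rw [hd' ⟨i, hi⟩]
      exact (g ⟨i, hi⟩).isLt
    · funext i
      exact Fin.ext (hd' i)
  · intro s hs
    apply hF
    intro i hi
    simp [hi]

end Pool.Agent.Work.MP_859ada_lc.ER
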