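import Pool.Agent.Work.MP_859ada_lc.ER.Base

set_option autoImplicit false

namespace Pool.Agent.Work.MP_859ada_lc.ER

open MvPolynomial

theorem I_COL : SCOL := by
  intro R _ n d G M hM z hz g a b
  have hcol : ∀ c, M (monomial (bx b) 1) c z = if c = b then 1 else 0 :=
    fun c => hM.col z hz c b
  rw [map_mul, Matrix.mul_apply]
  simp only [hcol]
  simp

end Pool.Agent.Work.MP_859ada_lc.ER
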