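import Pool.Agent.Work.MP_859ada_lc.ER.CDefs

set_option autoImplicit false

namespace Pool.Agent.Work.MP_859ada_lc.ER

open RootCH

namespace CPS

/-- the summand as a function of the point -/
noncomputable def Phi (u c t x m p : ℕ) [Fact p.Prime] (Z : Fin (Nat.size u + 1) → ZMod p) : ZMod p :=
  ((x : ZMod p) - MvPolynomial.eval Z (rd p (lin (t : ℤ)))) ^ m *
    Matrix.det (Matrix.of fun i j : Fin (Nat.size u + 1) =>
      MvPolynomial.eval Z (MvPolynomial.pderiv j
        (MvPolynomial.X i ^ dd (Nat.size u) i -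
          rd p (GG (fp u c) (h0 (Nat.size u) : ℤ) (c0 (Nat.size u) : ℤ) i)))) *
    ∏ i, ∑ k ∈ Finset.range (kK u + 1), MvPolynomial.eval Z
      (rd p (GG (fp u c) (h0 (Nat.size u) : ℤ) (c0 (Nat.size u) : ℤ) i)) ^ k *
      (Z i)⁻¹ ^ (dd (Nat.size u) i * (k + 1) - 1)

theorem natCast_ne {p : ℕ} [Fact p.Prime] (k : ℕ) (hk : k < p - 1) : ((k + 1 : ℕ) : ZMod p) ≠ 0 := by
  intro h
  rw [ZMod.natCast_eq_zero_iff] at h
  have := Nat.le_of_dvd (Nat.succ_pos k) h
  omega

/-- the nonzero residues -/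
noncomputable def un (p : ℕ) [Fact p.Prime] (k : Fin (p - 1)) : (ZMod p)ˣ :=
  Units.mk0 (((k : ℕ) + 1 : ℕ) : ZMod p) (natCast_ne k k.2)

theorem un_bij (p : ℕ) [hp : Fact p.Prime] : Function.Bijective (un p) := by
  rw [Fintype.bijective_iff_injective_and_card]
  refine ⟨?_, ?_⟩
  · intro a b h
    have h1 := congrArg (fun y : (ZMod p)ˣ => (y : ZMod p)) h
    simp only [un, Units.val_mk0] at h1
    rw [ZMod.natCast_eq_natCast_iff'] at h1
    have ha := a.2
    have hb := b.2
    rw [Nat.mod_eq_of_lt (by omega), Nat.mod_eq_of_lt (by omega)] at h1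
    exact Fin.ext (by omega)
  · rw [Fintype.card_fin, ZMod.card_units_eq_totient, Nat.totient_prime hp.out]

theorem eval_lin (u t s p : ℕ) [hp : Fact p.Prime] : ((eL u t s p : ℕ) : ZMod p) =
    MvPolynomial.eval (py u p s) (rd p (lin (t : ℤ))) := by
  have hp0 : p ≠ 0 := hp.out.ne_zero
  unfold eL rd lin
  rw [cast_sM hp0, map_sum, map_sum, nv, Finset.sum_range]
  refine Finset.sum_congr rfl fun i _ => ?_
  rw [Nat.cast_mul, cast_md _ hp0]
  simp [py]

theorem term (u c t x m p s : ℕ) [hp : Fact p.Prime] (hDTC : SDTC) (hCG : SCG)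
    (hs : ∀ i < nv u, dig (Nat.size p) s i < p - 1) :
    ((md ((x + (p - 1) * eL u t s p) ^ m) p * detM (nv u) p (fun i j => eJ u c i j s p) *
        (if p.Prime then md (∏ i ∈ Finset.range (nv u), eS u c i s p) p else 0) : ℕ) : ZMod p) =
      Phi u c t x m p (py u p s) := by
  have hp0 : p ≠ 0 := hp.out.ne_zero
  rw [if_pos hp.out]
  unfold Phi
  rw [Nat.cast_mul, Nat.cast_mul, cast_md _ hp0, cast_md _ hp0]
  congr 1
  · congr 1
    · rw [Nat.cast_pow, Nat.cast_add, Nat.cast_mul, cast_pred hp0, eval_lin]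
      ring
    · rw [hDTC]
      congr 1
      ext i j
      exact (hCG u c s p).2 i j
  · rw [nv, Nat.cast_prod, Finset.prod_range]
    refine Finset.prod_congr rfl fun i _ => ?_
    unfold eS
    rw [cast_sM hp0]
    refine Finset.sum_congr rfl fun k _ => ?_
    have hne : ((pt p s i : ℕ) : ZMod p) ≠ 0 := natCast_ne _ (hs i i.2)
    rw [Nat.cast_mul, cast_md _ hp0, cast_md _ hp0, Nat.cast_pow, Nat.cast_pow,
      (hCG u c s p).1 i, cast_invM hp.out hne]
    have h1 : dI (i : ℕ) = dd (Nat.size u) i := by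
      unfold dI dd
      by_cases h : i = 0
      · subst h; simp
      · have h2 : (i : ℕ) ≠ 0 := fun h2 => h (Fin.ext h2)
        rw [if_neg h2, if_neg h]
    rw [h1]
    rfl

end CPS

theorem I_CPS (hCODE : SCODE) (hDTC : SDTC) (hCG : SCG) : SCPS := by
  intro u c t x m p hp
  have hp0 : p ≠ 0 := hp.out.ne_zero
  have hb : p - 1 ≤ 2 ^ Nat.size p := by
    have := Nat.lt_size_self p
    omega
  have h1 := hCODE (ZMod p) (Nat.size p) (nv u) (p - 1)
    (fun a => CPS.Phi u c t x m p (fun i => ((a i + 1 : ℕ) : ZMod p))) hb (by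
      intro a a' h
      have : (fun i : Fin (Nat.size u + 1) => ((a i + 1 : ℕ) : ZMod p)) =
          fun i : Fin (Nat.size u + 1) => ((a' i + 1 : ℕ) : ZMod p) := by
        funext i
        rw [h i i.2]
      simp only [this])
  have h2 : ((ePS u c t x m p : ℕ) : ZMod p) = (-1) ^ (Nat.size u + 1) *
      ∑ s ∈ Finset.range (2 ^ (Nat.size p * nv u)),
        (if ∀ i < nv u, dig (Nat.size p) s i < p - 1 then
          CPS.Phi u c t x m p (fun i => ((dig (Nat.size p) s i + 1 : ℕ) : ZMod p)) else 0) := by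
    unfold ePS
    rw [Nat.cast_mul, cast_md _ hp0, Nat.cast_pow, cast_pred hp0, cast_sM hp0]
    congr 1
    refine Finset.sum_congr rfl fun s _ => ?_
    by_cases h : ∀ i < nv u, dig (Nat.size p) s i < p - 1
    · rw [if_pos h, if_pos h]
      exact CPS.term u c t x m p s hDTC hCG h
    · rw [if_neg h, if_neg h, Nat.cast_zero]
  rw [h2, h1]
  congr 1
  have h3 : ∀ y : Fin (Nat.size u + 1) → (ZMod p)ˣ,
      CPS.Phi u c t x m p (fun i => (y i : ZMod p)) =
      ((x : ZMod p) - MvPolynomial.eval (fun i => (y i : ZMod p)) (rd p (lin (t : ℤ)))) ^ m *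
    Matrix.det (Matrix.of fun i j : Fin (Nat.size u + 1) =>
      MvPolynomial.eval (fun i => (y i : ZMod p)) (MvPolynomial.pderiv j
        (MvPolynomial.X i ^ dd (Nat.size u) i -
          rd p (GG (fp u c) (h0 (Nat.size u) : ℤ) (c0 (Nat.size u) : ℤ) i)))) *
    ∏ i, ∑ k ∈ Finset.range (kK u + 1), MvPolynomial.eval (fun i => (y i : ZMod p))
      (rd p (GG (fp u c) (h0 (Nat.size u) : ℤ) (c0 (Nat.size u) : ℤ) i)) ^ k *
      (((y i)⁻¹ : (ZMod p)ˣ) : ZMod p) ^ (dd (Nat.size u) i * (k + 1) - 1) := by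
    intro y
    unfold CPS.Phi
    simp only [Units.val_inv_eq_inv_val]
  rw [← Finset.sum_congr rfl fun y _ => h3 y]
  refine Fintype.sum_equiv (Equiv.piCongrRight fun _ => Equiv.ofBijective _ (CPS.un_bij p)) _ _ ?_
  intro g
  congr 1
  funext i
  have hi : (i : ℕ) < nv u := i.2
  simp only [dif_pos hi]
  rfl

end Pool.Agent.Work.MP_859ada_lc.ER
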