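import Pool.Agent.Work.MP_859ada_lc.ER.CDefs

set_option autoImplicit false

namespace Pool.Agent.Work.MP_859ada_lc.ER

open RootCH

namespace CX

theorem prod_dd (n : ℕ) : ∏ i, dd n i = 6 * 5 ^ n := by
  rw [Fin.prod_univ_succ]
  have : ∀ i : Fin n, dd n i.succ = 5 := fun i => by
    unfold dd; rw [if_neg (Fin.succ_ne_zero i)]
  simp only [this, Finset.prod_const, Finset.card_univ, Fintype.card_fin]
  rfl

theorem sum_dd (n : ℕ) : ∑ i, dd n i = 6 + 5 * n := by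
  rw [Fin.sum_univ_succ]
  have : ∀ i : Fin n, dd n i.succ = 5 := fun i => by
    unfold dd; rw [if_neg (Fin.succ_ne_zero i)]
  simp only [this, Finset.sum_const, Finset.card_univ, Fintype.card_fin, smul_eq_mul]
  show 6 + n * 5 = _
  ring

theorem lin_deg {n : ℕ} (t : ℤ) : (lin t : MvPolynomial (Fin n) ℤ).totalDegree ≤ 1 := by
  unfold lin
  refine MvPolynomial.totalDegree_finsetSum_le fun i _ => ?_
  refine (MvPolynomial.totalDegree_mul _ _).trans ?_
  rw [MvPolynomial.totalDegree_C, MvPolynomial.totalDegree_X]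

theorem lin_le (n : ℕ) : 5 * n + 7 ≤ 2 ^ (n + 3) := by
  induction n with
  | zero => norm_num
  | succ n ih =>
    have h : 2 ^ (n + 1 + 3) = 2 * 2 ^ (n + 3) := by rw [← pow_succ']
    omega

theorem nN_le (n : ℕ) : 6 * 5 ^ n ≤ 2 ^ (3 * n + 3) := by
  calc 6 * 5 ^ n ≤ 8 * 8 ^ n := Nat.mul_le_mul (by norm_num) (Nat.pow_le_pow_left (by norm_num) _)
    _ = 2 ^ (3 * n + 3) := by rw [pow_add, pow_mul]; norm_num [mul_comm]

end CX

theorem CX.nums (u p : ℕ) (hA : aA u < p) : 1 ≤ nN u ∧ nN u * nN u < p - 1 ∧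
    nN u + ∑ i, dd (Nat.size u) i ≤ kK u ∧
    kK u + (kK u + 1) * ∑ i, dd (Nat.size u) i < p - 1 := by
  set n := Nat.size u with hn
  have hN1 : nN u ≤ 2 ^ (3 * n + 3) := CX.nN_le n
  have hNpos : 1 ≤ nN u := by
    unfold nN
    have : 1 ≤ 5 ^ Nat.size u := Nat.one_le_pow _ _ (by norm_num)
    omega
  have hA' : 2 ^ (7 * n + 50) < p := hA
  have hNN : nN u * nN u < p - 1 := by
    have h1 : nN u * nN u ≤ 2 ^ (3 * n + 3) * 2 ^ (3 * n + 3) := Nat.mul_le_mul hN1 hN1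
    rw [← pow_add] at h1
    have h2 : 2 ^ (3 * n + 3 + (3 * n + 3)) < 2 ^ (7 * n + 50) :=
      Nat.pow_lt_pow_right (by norm_num) (by omega)
    omega
  have hlin := CX.lin_le n
  have hK1 : nN u + ∑ i, dd n i ≤ kK u := by
    rw [CX.sum_dd]
    have h1 : 2 ^ (n + 3) ≤ 2 ^ (3 * n + 3) := Nat.pow_le_pow_right (by norm_num) (by omega)
    have h2 : kK u = 2 ^ 7 * 2 ^ (3 * n + 3) := by
      unfold kK; rw [← pow_add]; congr 1; omega
    rw [h2]
    omega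
  have hK2 : kK u + (kK u + 1) * ∑ i, dd n i < p - 1 := by
    rw [CX.sum_dd]
    have h0 : 1 ≤ kK u := Nat.one_le_two_pow
    have h1 : kK u + (kK u + 1) * (6 + 5 * n) ≤ 2 * kK u * (5 * n + 7) := by
      nlinarith
    have h2 : 2 * kK u * (5 * n + 7) ≤ 2 * kK u * 2 ^ (n + 3) := Nat.mul_le_mul_left _ hlin
    have h3 : 2 * kK u * 2 ^ (n + 3) = 2 ^ (4 * n + 14) := by
      unfold kK
      rw [← pow_succ', ← pow_add]
      congr 1
      omega
    have h4 : 2 ^ (4 * n + 14) < 2 ^ (7 * n + 50) := Nat.pow_lt_pow_right (by norm_num) (by omega)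
    omega
  exact ⟨hNpos, hNN, hK1, hK2⟩

theorem I_CX (hVAL : SVAL) (hCPS : SCPS) (hNWC : SNWC) : SCX := by
  intro u c t x p hp M hM hA
  obtain ⟨hNpos, hNN, hK1, hK2⟩ := CX.nums u p hA
  have hN : nN u = ∏ i, dd (Nat.size u) i := (CX.prod_dd _).symm
  have h := hVAL (Nat.size u + 1) (dd (Nat.size u))
    (GG (fp u c) (h0 (Nat.size u) : ℤ) (c0 (Nat.size u) : ℤ)) M (lin (t : ℤ)) (x : ℤ) p
    (nN u) (kK u) hM (CX.lin_deg _) hN hK1 hK2
  rw [Int.cast_natCast] at h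
  rw [h]
  unfold eX
  rw [hNWC (nN u) p _ hNpos hNN]
  congr 3
  funext m
  rw [hCPS u c t x m p]
  rfl

end Pool.Agent.Work.MP_859ada_lc.ER
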