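import Pool.Agent.Work.MP_859ada_lc.ER.Base

set_option autoImplicit false

/-! # MP_859ada_lc, ER, item DEL: the Bezoutian -/

namespace Pool.Agent.Work.MP_859ada_lc.ER

open MvPolynomial

namespace DEL

section
variable {R : Type} [CommRing R] {n : ℕ}

/-- every term has joint degree at most `m - p` -/
def J3 (p m : ℕ) (a : MvPolynomial (Fin n) (MvPolynomial (Fin n) R)) : Prop :=
  ∀ b, coeff b a ≠ 0 → (coeff b a).totalDegree + ∑ i, b i + p ≤ m

theorem J3.zero (p m : ℕ) : J3 p m (0 : MvPolynomial (Fin n) (MvPolynomial (Fin n) R)) := by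
  intro b hb
  simp at hb

theorem J3.add {p m : ℕ} {a c : MvPolynomial (Fin n) (MvPolynomial (Fin n) R)}
    (ha : J3 p m a) (hc : J3 p m c) : J3 p m (a + c) := by
  intro b hb
  rw [coeff_add] at hb ⊢
  by_cases h1 : coeff b a = 0
  · rw [h1, zero_add] at hb ⊢
    exact hc b hb
  by_cases h2 : coeff b c = 0
  · rw [h2, add_zero] at hb ⊢
    exact ha b hb
  have h3 := ha b h1
  have h4 := hc b h2
  have h5 := totalDegree_add (coeff b a) (coeff b c)
  rcases le_total (coeff b a).totalDegree (coeff b c).totalDegree with h | h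
  · rw [max_eq_right h] at h5; omega
  · rw [max_eq_left h] at h5; omega

theorem J3.neg {p m : ℕ} {a : MvPolynomial (Fin n) (MvPolynomial (Fin n) R)}
    (ha : J3 p m a) : J3 p m (-a) := by
  intro b hb
  rw [coeff_neg] at hb ⊢
  rw [totalDegree_neg]
  exact ha b (fun h => hb (by rw [h, neg_zero]))

theorem J3.sum {p m : ℕ} {ι : Type} (s : Finset ι)
    (f : ι → MvPolynomial (Fin n) (MvPolynomial (Fin n) R))
    (h : ∀ i ∈ s, J3 p m (f i)) : J3 p m (∑ i ∈ s, f i) :=
  Finset.sum_induction f (J3 p m) (fun _ _ h1 h2 => h1.add h2) (J3.zero p m) h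

theorem J3.mul {p q m k : ℕ} {a c : MvPolynomial (Fin n) (MvPolynomial (Fin n) R)}
    (ha : J3 p m a) (hc : J3 q k c) : J3 (p + q) (m + k) (a * c) := by
  classical
  intro b hb
  rw [coeff_mul] at hb ⊢
  have hsum : ∀ x ∈ Finset.HasAntidiagonal.antidiagonal b, ∑ i, x.1 i + ∑ i, x.2 i = ∑ i, b i := by
    intro x hx
    rw [← Finset.sum_add_distrib]
    refine Finset.sum_congr rfl fun i _ => ?_
    rw [← Finset.HasAntidiagonal.mem_antidiagonal.1 hx]
    rfl
  have key : ∀ x ∈ Finset.HasAntidiagonal.antidiagonal b, coeff x.1 a * coeff x.2 c ≠ 0 →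
      (coeff x.1 a * coeff x.2 c).totalDegree + ∑ i, b i + (p + q) ≤ m + k := by
    intro x hx h
    have h1 := ha x.1 (left_ne_zero_of_mul h)
    have h2 := hc x.2 (right_ne_zero_of_mul h)
    have h3 := totalDegree_mul (coeff x.1 a) (coeff x.2 c)
    have h4 := hsum x hx
    omega
  obtain ⟨x, hx, hx0⟩ := Finset.exists_ne_zero_of_sum_ne_zero hb
  have h5 := key x hx hx0
  have htd : (∑ x ∈ Finset.HasAntidiagonal.antidiagonal b, coeff x.1 a * coeff x.2 c).totalDegree ≤
      m + k - (p + q) - ∑ i, b i := by
    refine totalDegree_finsetSum_le fun x hx => ?_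
    by_cases h : coeff x.1 a * coeff x.2 c = 0
    · rw [h]; simp
    · have := key x hx h
      omega
  omega

theorem J3_one : J3 0 0 (1 : MvPolynomial (Fin n) (MvPolynomial (Fin n) R)) := by
  classical
  intro b hb
  rw [coeff_one] at hb ⊢
  split_ifs at hb ⊢ with h
  · subst h; simp
  · exact absurd rfl hb

theorem J3_monomial (u : Fin n →₀ ℕ) (c : MvPolynomial (Fin n) R) :
    J3 0 (c.totalDegree + ∑ i, u i) (monomial u c) := by
  classical
  intro b hb
  rw [coeff_monomial] at hb ⊢
  split_ifs at hb ⊢ with h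
  · subst h; simp
  · exact absurd rfl hb

theorem J3.mono {p m k : ℕ} {a : MvPolynomial (Fin n) (MvPolynomial (Fin n) R)}
    (ha : J3 p m a) (h : m ≤ k) : J3 p k a := fun b hb => (ha b hb).trans h

/-- two products of factors which are equal up to lower terms -/
theorem prod_lower (e : Fin n → ℕ) (u v : Fin n → MvPolynomial (Fin n) (MvPolynomial (Fin n) R))
    (hu : ∀ i, J3 0 (e i) (u i)) (hv : ∀ i, J3 0 (e i) (v i))
    (h : ∀ i, J3 1 (e i) (u i - v i)) (T : Finset (Fin n)) :
    J3 0 (∑ i ∈ T, e i) (∏ i ∈ T, u i) ∧ J3 0 (∑ i ∈ T, e i) (∏ i ∈ T, v i) ∧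
      J3 1 (∑ i ∈ T, e i) (∏ i ∈ T, u i - ∏ i ∈ T, v i) := by
  classical
  induction T using Finset.induction_on with
  | empty =>
    refine ⟨by simpa using J3_one, by simpa using J3_one, ?_⟩
    simpa using J3.zero _ _
  | insert i T hi ih =>
    obtain ⟨h1, h2, h3⟩ := ih
    rw [Finset.prod_insert hi, Finset.prod_insert hi, Finset.sum_insert hi]
    refine ⟨(hu i).mul h1, (hv i).mul h2, ?_⟩
    have h4 : u i * ∏ x ∈ T, u x - v i * ∏ x ∈ T, v x =
        u i * (∏ x ∈ T, u x - ∏ x ∈ T, v x) + (u i - v i) * ∏ x ∈ T, v x := by ring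
    rw [h4]
    exact ((hu i).mul h3).add ((h i).mul h2)

end

section tau
variable {R : Type} [CommRing R] {n : ℕ} (d : Fin n → ℕ) (G : Fin n → MvPolynomial (Fin n) R)
  (K : ℕ)

theorem tau_add (q r : MvPolynomial (Fin n) R) :
    tau d G K (q + r) = tau d G K q + tau d G K r := by
  simp only [tau, add_mul, coeff_add, Finset.sum_add_distrib]

theorem tau_zero : tau d G K 0 = 0 := by
  simp only [tau, zero_mul, coeff_zero, Finset.sum_const_zero]

theorem tau_C_mul (c : R) (q : MvPolynomial (Fin n) R) :
    tau d G K (C c * q) = c * tau d G K q := by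
  simp only [tau, mul_assoc, coeff_C_mul, Finset.mul_sum]

theorem tau_sum {ι : Type} (s : Finset ι) (f : ι → MvPolynomial (Fin n) R) :
    tau d G K (∑ i ∈ s, f i) = ∑ i ∈ s, tau d G K (f i) := by
  classical
  induction s using Finset.induction_on with
  | empty => simp [tau_zero]
  | insert i s hi ih => rw [Finset.sum_insert hi, Finset.sum_insert hi, tau_add, ih]

theorem tau_eq (q : MvPolynomial (Fin n) R) :
    tau d G K q = ∑ b ∈ q.support, coeff b q * tau d G K (monomial b 1) := by
  conv_lhs => rw [MvPolynomial.as_sum q]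
  rw [tau_sum]
  refine Finset.sum_congr rfl fun b _ => ?_
  rw [← tau_C_mul, C_mul_monomial, mul_one]

end tau

end DEL

open DEL in
theorem I_DEL (hBEZ : SBEZ) (hTK : STK) : SDEL := by
  classical
  intro R _ n d G hG
  choose b hb1 hb2 hb3 using fun i => hBEZ R n (G i)
  -- the diagonal part
  let A : Fin n → MvPolynomial (Fin n) (MvPolynomial (Fin n) R) := fun i =>
    ∑ t ∈ Finset.range (d i), X i ^ t * C (X i) ^ (d i - 1 - t)
  let Q : Matrix (Fin n) (Fin n) (MvPolynomial (Fin n) (MvPolynomial (Fin n) R)) :=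
    Matrix.of fun i j => (if i = j then A i else 0) - b i j
  have hQij : ∀ i j, Q i j = (if i = j then A i else 0) - b i j := fun _ _ => rfl
  have hA : ∀ i, A i * (X i - C (X i)) = X i ^ d i - C (X i) ^ d i := fun i =>
    geom_sum₂_mul _ _ _
  have hQ : ∀ i, (Q.mulVec fun j => X j - C (X j)) i =
      map C (X i ^ d i - G i) - C (X i ^ d i - G i) := by
    intro i
    have h1 : (Q.mulVec fun j => X j - C (X j)) i =
        ∑ j, ((if i = j then A i else 0) - b i j) * (X j - C (X j)) := rfl
    rw [h1]
    simp only [sub_mul, Finset.sum_sub_distrib, ite_mul, zero_mul, Finset.sum_ite_eq,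
      Finset.mem_univ, if_true]
    rw [← hb1 i, hA i]
    simp only [map_sub, map_pow, map_X]
    ring
  refine ⟨Q.det, ?_, ?_, ?_⟩
  · intro j
    have h1 : Q.det • (fun j => X j - C (X j) : Fin n → MvPolynomial (Fin n) (MvPolynomial (Fin n) R))
        = Q.adjugate.mulVec (Q.mulVec fun j => X j - C (X j)) := by
      rw [Matrix.mulVec_mulVec, Matrix.adjugate_mul, Matrix.smul_mulVec, Matrix.one_mulVec]
    have h2 := congrFun h1 j
    rw [Pi.smul_apply, smul_eq_mul, mul_comm] at h2
    rw [h2]
    have h3 : Q.adjugate.mulVec (Q.mulVec fun j => X j - C (X j)) j =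
        ∑ i, Q.adjugate j i * (Q.mulVec fun j => X j - C (X j)) i := rfl
    rw [h3]
    refine Ideal.sum_mem _ fun i _ => Ideal.mul_mem_left _ _ ?_
    rw [hQ i]
    refine Ideal.sub_mem _ (Ideal.subset_span (Or.inl ⟨i, rfl⟩))
      (Ideal.subset_span (Or.inr ⟨i, rfl⟩))
  · rw [RingHom.map_det, jac]
    congr 1
    refine Matrix.ext fun i j => ?_
    rw [RingHom.mapMatrix_apply, Matrix.map_apply, Matrix.of_apply, hQij i j, map_sub,
      hb2 i j, map_sub, Derivation.leibniz_pow, pderiv_X]
    congr 1
    by_cases hij : i = j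
    · subst hij
      rw [if_pos rfl, Pi.single_eq_same]
      simp only [A, map_sum, map_mul, map_pow, eval_X, eval_C]
      rw [Finset.sum_congr rfl (g := fun _ => (X i : MvPolynomial (Fin n) R) ^ (d i - 1))]
      · rw [Finset.sum_const, Finset.card_range]
        simp
      · intro t ht
        rw [← pow_add]
        congr 1
        have := Finset.mem_range.1 ht
        omega
    · rw [if_neg hij, map_zero, Pi.single_eq_of_ne hij]
      simp
  · intro K
    have hG' : ∀ i, (map (C : R →+* MvPolynomial (Fin n) R) (G i)).totalDegree < d i := fun i =>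
      (Finset.sup_mono (support_map_subset _ _)).trans_lt (hG i)
    obtain ⟨-, hT2, hT3⟩ := hTK (MvPolynomial (Fin n) R) n d (fun i => map C (G i)) hG'
    have hd : ∀ i, 1 ≤ d i := fun i => by have := hG i; omega
    -- the parts
    have hbL : ∀ i j, J3 1 (d i - 1) (b i j) := by
      intro i j c hc
      rcases Nat.eq_zero_or_pos (G i).totalDegree with h0 | h0
      · rw [(hb3 i j).2 h0] at hc
        simp at hc
      · have h1 := (hb3 i j).1 c hc
        have h2 := hG i
        omega
    have hsg : ∀ (i : Fin n) (k : ℕ), ∑ j, (Finsupp.single i k) j = k := fun i k => by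
      simp [Finsupp.single_apply]
    have hAJ : ∀ i, J3 0 (d i - 1) (A i) := by
      intro i
      refine J3.sum _ _ fun t ht => ?_
      have ht' := Finset.mem_range.1 ht
      have h1 : X i ^ t * C (X i) ^ (d i - 1 - t) =
          monomial (Finsupp.single i t) ((X i : MvPolynomial (Fin n) R) ^ (d i - 1 - t)) := by
        rw [X_pow_eq_monomial, ← C_pow, mul_comm, C_mul_monomial, mul_one]
      rw [h1]
      refine (J3_monomial _ _).mono ?_
      have h2 : ((X i : MvPolynomial (Fin n) R) ^ (d i - 1 - t)).totalDegree ≤ d i - 1 - t := by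
        rw [X_pow_eq_monomial]
        refine (totalDegree_monomial_le' _ _).trans ?_
        rw [hsg]
      have h3 : ∑ j, (Finsupp.single i t) j = t := hsg i t
      omega
    have hDP : J3 1 (∑ i, (d i - 1)) (Q.det - ∏ i, A i) := by
      have h1 : ∏ i, A i = (Matrix.diagonal A).det := (Matrix.det_diagonal).symm
      rw [h1, Matrix.det_apply, Matrix.det_apply, ← Finset.sum_sub_distrib]
      refine J3.sum _ _ fun σ _ => ?_
      have h2 : J3 1 (∑ i, (d i - 1)) (∏ i, Q (σ i) i - ∏ i, Matrix.diagonal A (σ i) i) := by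
        have h3 : ∑ i, (d i - 1) = ∑ i, (d (σ i) - 1) :=
          (Equiv.sum_comp σ fun i => d i - 1).symm
        rw [h3]
        have h5 : ∀ i, J3 0 (d (σ i) - 1) (Matrix.diagonal A (σ i) i) := by
          intro i
          rw [Matrix.diagonal_apply]
          split_ifs with h
          · exact hAJ _
          · exact J3.zero _ _
        have h6 : ∀ i, J3 1 (d (σ i) - 1) (Q (σ i) i - Matrix.diagonal A (σ i) i) := by
          intro i
          have h7 : Q (σ i) i - Matrix.diagonal A (σ i) i = - b (σ i) i := by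
            rw [Matrix.diagonal_apply, hQij]
            by_cases hs : σ i = i
            · rw [if_pos hs]; ring
            · rw [if_neg hs]; ring
          rw [h7]
          exact (hbL _ _).neg
        have h4 : ∀ i, J3 0 (d (σ i) - 1) (Q (σ i) i) := by
          intro i
          have h8 : J3 0 (d (σ i) - 1) (Q (σ i) i - Matrix.diagonal A (σ i) i) := fun c hc =>
            (Nat.le_succ _).trans (h6 i c hc)
          have h9 := h8.add (h5 i)
          rwa [sub_add_cancel] at h9
        exact (prod_lower (fun i => d (σ i) - 1) (fun i => Q (σ i) i)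
          (fun i => Matrix.diagonal A (σ i) i) h4 h5 h6 Finset.univ).2.2
      rcases Int.units_eq_one_or (Equiv.Perm.sign σ) with h | h
      · rw [h, one_smul, one_smul]; exact h2
      · rw [h, Units.neg_smul, Units.neg_smul, one_smul, one_smul]
        have h10 := h2.neg
        rwa [neg_sub, ← neg_sub_neg] at h10
    have hE : tau d (fun i => map C (G i)) K (Q.det - ∏ i, A i) = 0 := by
      rw [tau_eq]
      refine Finset.sum_eq_zero fun c hc => ?_
      have h1 := hDP c (mem_support_iff.1 hc)
      rw [hT2 K c (Or.inl (by omega)), mul_zero]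
    have hP : tau d (fun i => map C (G i)) K (∏ i, A i) = 1 := by
      simp only [A]
      rw [Finset.prod_univ_sum, tau_sum]
      have h1 : ∀ p : Fin n → ℕ, ∏ i, ((X i : MvPolynomial (Fin n) (MvPolynomial (Fin n) R)) ^ p i *
          C (X i) ^ (d i - 1 - p i)) =
          C (∏ i, (X i : MvPolynomial (Fin n) R) ^ (d i - 1 - p i)) * monomial (ex p) 1 := by
        intro p
        rw [Finset.prod_mul_distrib, mul_comm]
        congr 1
        · rw [map_prod]
          refine Finset.prod_congr rfl fun i _ => ?_
          rw [map_pow]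
        · rw [monomial_eq, Finsupp.prod_fintype _ _ (fun i => pow_zero _)]
          simp
      rw [Finset.sum_eq_single (fun i => d i - 1)]
      · rw [h1, tau_C_mul, hT3]
        simp
      · intro p hp hne
        rw [h1, tau_C_mul, hT2 K (ex p), mul_zero]
        have hp' : ∀ i, p i < d i := fun i => by
          simpa using (Fintype.mem_piFinset.1 hp) i
        have hle : ∑ i, ex p i ≤ ∑ i, (d i - 1) := by
          refine Finset.sum_le_sum fun i _ => ?_
          have := hp' i
          rw [ex_apply]
          omega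
        rcases hle.lt_or_eq with h | h
        · exact Or.inl h
        · refine Or.inr ⟨h, ?_⟩
          by_contra hcon
          push Not at hcon
          exact hne (funext fun i => hcon i)
      · intro h
        exact absurd (Fintype.mem_piFinset.2 fun i => Finset.mem_range.2
          (by have := hd i; omega)) h
    have h10 := tau_add d (fun i => map C (G i)) K (Q.det - ∏ i, A i) (∏ i, A i)
    rw [sub_add_cancel, hE, hP, zero_add] at h10
    exact h10

end Pool.Agent.Work.MP_859ada_lc.ER
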