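import Pool.Agent.Work.MP_859ada_lc.ER.CDefs

set_option autoImplicit false

namespace Pool.Agent.Work.MP_859ada_lc.ER

open RootCH

namespace DTC

/-- the sign of a comparison -/
def cmp (p : ℕ) (x y : ℕ) : ZMod p := if x < y then 1 else if y < x then -1 else 0

theorem cmp_anti (p x y : ℕ) : cmp p x y = - cmp p y x := by
  unfold cmp
  rcases lt_trichotomy x y with h | h | h
  · rw [if_pos h, if_neg (by omega), if_pos h, neg_neg]
  · subst h
    simp
  · rw [if_neg (by omega), if_pos h, if_pos h]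

/-- the sign part of the digits -/
def sp (m p : ℕ) (a : ℕ → ℕ) : ZMod p :=
  ∏ q ∈ Finset.range (m * m), if q / m < q % m then cmp p (a (q / m)) (a (q % m)) else 1

theorem sp_eq (m p : ℕ) (a : ℕ → ℕ) : sp m p a =
    ∏ i : Fin m, ∏ j ∈ Finset.Ioi i, cmp p (a i) (a j) := by
  unfold sp
  rw [Finset.prod_range]
  have h1 := Equiv.prod_comp (finProdFinEquiv (m := m) (n := m)).symm
    (fun x : Fin m × Fin m => if (x.1 : ℕ) < x.2 then cmp p (a x.1) (a x.2) else 1)
  have h2 : ∏ q : Fin (m * m), (if (q : ℕ) / m < (q : ℕ) % m then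
      cmp p (a ((q : ℕ) / m)) (a ((q : ℕ) % m)) else 1) =
      ∏ x : Fin m × Fin m, (if (x.1 : ℕ) < x.2 then cmp p (a x.1) (a x.2) else 1) := h1
  rw [h2, Fintype.prod_prod_type]
  refine Finset.prod_congr rfl fun i _ => ?_
  have h3 : Finset.Ioi i = Finset.univ.filter (fun j : Fin m => (i : ℕ) < j) := by
    ext j
    rw [Finset.mem_Ioi, Finset.mem_filter, Fin.lt_def]
    exact ⟨fun h => ⟨Finset.mem_univ _, h⟩, fun h => h.2⟩
  rw [h3, Finset.prod_filter]

theorem sp_perm (m p : ℕ) (σ : Equiv.Perm (Fin m)) (a : ℕ → ℕ)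
    (ha : ∀ i : Fin m, a i = (σ i : ℕ)) :
    sp m p a = ((Equiv.Perm.sign σ : ℤˣ) : ℤ) := by
  rw [sp_eq]
  have h1 := Equiv.Perm.prod_Ioi_comp_eq_sign_mul_prod (R := ZMod p) σ
    (f := fun i j : Fin m => cmp p i j) (fun i j => cmp_anti p i j)
  have h2 : ∏ i : Fin m, ∏ j ∈ Finset.Ioi i, cmp p i j = 1 := by
    refine Finset.prod_eq_one fun i _ => Finset.prod_eq_one fun j hj => ?_
    rw [Finset.mem_Ioi, Fin.lt_def] at hj
    unfold cmp
    rw [if_pos hj]
  rw [h2, mul_one] at h1
  rw [← h1]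
  refine Finset.prod_congr rfl fun i _ => Finset.prod_congr rfl fun j _ => ?_
  rw [ha i, ha j]

theorem sp_zero (m p : ℕ) (g : Fin m → Fin m) (a : ℕ → ℕ) (ha : ∀ i : Fin m, a i = (g i : ℕ))
    (hg : ¬ Function.Injective g) : sp m p a = 0 := by
  rw [sp_eq]
  obtain ⟨i, j, hij, hne⟩ : ∃ i j, g i = g j ∧ i ≠ j := by
    unfold Function.Injective at hg
    push Not at hg
    exact hg
  have key : ∀ i j : Fin m, i < j → g i = g j →
      ∏ i : Fin m, ∏ j ∈ Finset.Ioi i, cmp p (a i) (a j) = 0 := by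
    intro i j hlt hij
    refine Finset.prod_eq_zero (Finset.mem_univ i) ?_
    refine Finset.prod_eq_zero (Finset.mem_Ioi.2 hlt) ?_
    rw [ha i, ha j, hij]
    unfold cmp
    simp
  rcases lt_or_gt_of_ne hne with h | h
  · exact key i j h hij
  · exact key j i h hij.symm

theorem sum_perm {K : Type} [AddCommMonoid K] (m : ℕ) (H : (Fin m → Fin m) → K)
    (hH : ∀ g, ¬ Function.Injective g → H g = 0) :
    ∑ g : Fin m → Fin m, H g = ∑ σ : Equiv.Perm (Fin m), H (fun i => σ i) := by
  classical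
  have hinj : Set.InjOn (fun (σ : Equiv.Perm (Fin m)) (i : Fin m) => σ i)
      ((Finset.univ : Finset (Equiv.Perm (Fin m))) : Set (Equiv.Perm (Fin m))) := by
    intro σ _ τ _ h
    exact Equiv.ext fun i => congrFun h i
  rw [← Finset.sum_image (f := H) hinj]
  symm
  apply Finset.sum_subset (Finset.subset_univ _)
  intro g _ hg
  apply hH
  intro hi
  apply hg
  rw [Finset.mem_image]
  exact ⟨Equiv.ofBijective g (Finite.injective_iff_bijective.1 hi), Finset.mem_univ _, rfl⟩

theorem cast_sgM (m p g : ℕ) [Fact p.Prime] :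
    ((sgM m p g : ℕ) : ZMod p) = sp m p (fun i => dig m g i) := by
  have hp : p.Prime := Fact.out
  unfold sgM sp
  rw [if_pos hp, cast_md _ hp.ne_zero, Nat.cast_prod]
  refine Finset.prod_congr rfl fun q _ => ?_
  unfold cmp
  by_cases h1 : q / m < q % m
  · rw [if_pos h1, if_pos h1]
    by_cases h2 : dig m g (q / m) < dig m g (q % m)
    · rw [if_pos h2, if_pos h2, Nat.cast_one]
    · rw [if_neg h2, if_neg h2]
      by_cases h3 : dig m g (q % m) < dig m g (q / m)
      · rw [if_pos h3, if_pos h3, cast_pred hp.ne_zero]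
      · rw [if_neg h3, if_neg h3, Nat.cast_zero]
  · rw [if_neg h1, if_neg h1, Nat.cast_one]

end DTC

theorem I_DTC (hCODE : SCODE) : SDTC := by
  intro m p hpf A
  have hp : p.Prime := Fact.out
  unfold detM
  rw [cast_sM hp.ne_zero]
  have h1 := hCODE (ZMod p) m m m
    (fun a => DTC.sp m p a * ∏ i ∈ Finset.range m, ((A (a i) i : ℕ) : ZMod p))
    Nat.lt_two_pow_self.le (by
      intro a a' haa
      have e1 : DTC.sp m p a = DTC.sp m p a' := by
        unfold DTC.sp
        refine Finset.prod_congr rfl fun q hq => ?_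
        rw [Finset.mem_range] at hq
        have hm : 0 < m := by
          rcases Nat.eq_zero_or_pos m with h | h
          · subst h
            simp at hq
          · exact h
        rw [haa (q / m) (Nat.div_lt_of_lt_mul hq), haa (q % m) (Nat.mod_lt _ hm)]
      show DTC.sp m p a * _ = DTC.sp m p a' * _
      rw [e1]
      congr 1
      refine Finset.prod_congr rfl fun i hi => ?_
      rw [haa i (Finset.mem_range.1 hi)])
  have h2 : ∑ g ∈ Finset.range (2 ^ (m * m)), (((if ∀ i < m, dig m g i < m then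
      sgM m p g * (if p.Prime then md (∏ i ∈ Finset.range m, A (dig m g i) i) p else 0)
      else 0 : ℕ)) : ZMod p) =
      ∑ s ∈ Finset.range (2 ^ (m * m)), (if ∀ i < m, dig m s i < m then
        (fun a : ℕ → ℕ => DTC.sp m p a * ∏ i ∈ Finset.range m, ((A (a i) i : ℕ) : ZMod p))
          (fun i => dig m s i) else 0) := by
    refine Finset.sum_congr rfl fun g _ => ?_
    by_cases h : ∀ i < m, dig m g i < m
    · rw [if_pos h, if_pos h, if_pos hp, Nat.cast_mul, DTC.cast_sgM, cast_md _ hp.ne_zero,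
        Nat.cast_prod]
    · rw [if_neg h, if_neg h, Nat.cast_zero]
  rw [h2, h1]
  have h3 := DTC.sum_perm m (fun g : Fin m → Fin m =>
    (fun a : ℕ → ℕ => DTC.sp m p a * ∏ i ∈ Finset.range m, ((A (a i) i : ℕ) : ZMod p))
      (fun i => if h : i < m then (g ⟨i, h⟩ : ℕ) else 0)) (by
      intro g hg
      show DTC.sp m p _ * _ = 0
      rw [DTC.sp_zero m p g _ (fun i => by simp) hg, zero_mul])
  rw [h3, Matrix.det_apply']
  refine Finset.sum_congr rfl fun σ _ => ?_
  show DTC.sp m p _ * _ = _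
  rw [DTC.sp_perm m p σ _ (fun i => by simp), Finset.prod_range]
  congr 1
  refine Finset.prod_congr rfl fun i _ => ?_
  simp

end Pool.Agent.Work.MP_859ada_lc.ER
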