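import Pool.Agent.Work.MP_859ada_lc.ER.CDefs

/-!
Item DTF: definability of small determinants.
-/

set_option autoImplicit false

namespace Pool.Agent.Work.MP_859ada_lc.ER

open RootCH

namespace DTF

theorem fn_sgM {M P G : (ℕ → ℕ) → ℕ} (hM : Fn M) (bM : PolyB M) (hP : Fn P) (hG : Fn G) :
    Fn fun v => sgM (M v) (P v) (G v) := by
  have d1 : Fn fun w => dig (M (tail w)) (G (tail w)) (w 0 / M (tail w)) :=
    Fn.dig' hM.shift hG.shift ((Fn.var 0).div hM.shift) bM.shift
  have d2 : Fn fun w => dig (M (tail w)) (G (tail w)) (w 0 % M (tail w)) :=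
    Fn.dig' hM.shift hG.shift ((Fn.var 0).mod hM.shift) bM.shift
  have hg : Fn fun w => if w 0 / M (tail w) < w 0 % M (tail w) then
      (if dig (M (tail w)) (G (tail w)) (w 0 / M (tail w)) <
          dig (M (tail w)) (G (tail w)) (w 0 % M (tail w)) then 1
        else if dig (M (tail w)) (G (tail w)) (w 0 % M (tail w)) <
          dig (M (tail w)) (G (tail w)) (w 0 / M (tail w)) then P (tail w) - 1 else 0) else 1 :=
    Fn.ite (CH.lt ((Fn.var 0).div hM.shift) ((Fn.var 0).mod hM.shift))
      (Fn.ite (CH.lt d1 d2) Fn.one (Fn.ite (CH.lt d2 d1) (hP.shift.sub Fn.one) Fn.zero)) Fn.one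
  exact Fn.prodMod (T := fun v => M v * M v) (P := P)
    (g := fun q v => if q / M v < q % M v then
      (if dig (M v) (G v) (q / M v) < dig (M v) (G v) (q % M v) then 1
        else if dig (M v) (G v) (q % M v) < dig (M v) (G v) (q / M v) then P v - 1 else 0) else 1)
    (hM.mul hM) hP hg

/-- insert a place after the first two -/
def ins : ℕ → ℕ
  | 0 => 0
  | 1 => 1
  | k + 2 => k + 3

theorem fn_entry {m : (ℕ → ℕ) → ℕ} {A : ℕ → ℕ → (ℕ → ℕ) → ℕ} (hm : Fn m) (bm : PolyB m)
    (hA : Fn fun v => A (v 0) (v 1) (tail (tail v))) :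
    Fn fun u => A (dig (m (tail (tail u))) (u 1) (u 0)) (u 0) (tail (tail u)) := by
  have hD : Fn fun u => dig (m (tail (tail u))) (u 1) (u 0) :=
    Fn.dig' hm.shift.shift (Fn.var 1) (Fn.var 0) bm.shift.shift
  have h1 : Fn fun v => A (v 0) (v 1) (tail (tail (tail v))) := hA.rename ins
  exact h1.subst hD

end DTF

theorem I_DTF : SDTF := by
  intro m p A hm bm hp hA
  have hcond : CH fun w => ∀ i < m (tail w), dig (m (tail w)) (w 0) i < m (tail w) :=
    CH.allB (B := fun w => m (tail w))
      (R := fun i w => dig (m (tail w)) (w 0) i < m (tail w)) hm.shift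
      (CH.lt (Fn.dig' hm.shift.shift (Fn.var 1) (Fn.var 0) bm.shift.shift) hm.shift.shift)
  have hprod : Fn fun w => if (p (tail w)).Prime then
      md (∏ i ∈ Finset.range (m (tail w)), A (dig (m (tail w)) (w 0) i) i (tail w)) (p (tail w))
      else 0 :=
    Fn.prodMod (T := fun w => m (tail w)) (P := fun w => p (tail w))
      (g := fun i w => A (dig (m (tail w)) (w 0) i) i (tail w)) hm.shift hp.shift
      (DTF.fn_entry hm bm hA)
  have hg : Fn fun w => if ∀ i < m (tail w), dig (m (tail w)) (w 0) i < m (tail w) then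
      sgM (m (tail w)) (p (tail w)) (w 0) * (if (p (tail w)).Prime then
      md (∏ i ∈ Finset.range (m (tail w)), A (dig (m (tail w)) (w 0) i) i (tail w)) (p (tail w))
      else 0) else 0 :=
    Fn.ite hcond ((DTF.fn_sgM hm.shift bm.shift hp.shift (Fn.var 0)).mul hprod) Fn.zero
  exact Fn.sM (T := fun v => 2 ^ (m v * m v)) (P := p)
    (g := fun g v => if ∀ i < m v, dig (m v) g i < m v then
      sgM (m v) (p v) g * (if (p v).Prime then
      md (∏ i ∈ Finset.range (m v), A (dig (m v) g i) i v) (p v) else 0) else 0)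
    (Fn.two_pow (hm.mul hm) (bm.mul bm)) hp hg

end Pool.Agent.Work.MP_859ada_lc.ER
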