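import Pool.Agent.Work.MP_859ada_lc.ER.SDefs

/-!
# MP_859ada_lc, project ER, item ENT: size of the entries
-/

set_option autoImplicit false

namespace Pool.Agent.Work.MP_859ada_lc.ER

namespace ENT

/-- the entries of an equation are small -/
def Sm (N : ℕ) (e : ℕ × ℕ × ℕ × ℕ) : Prop :=
  e.1 ≤ 2 ∧ e.2.1 < N ∧ e.2.2.1 < N ∧ e.2.2.2 < N

theorem sm_mk {N a b c e : ℕ} (h1 : a ≤ 2) (h2 : b < N) (h3 : c < N) (h4 : e < N) :
    Sm N (a, b, c, e) := ⟨h1, h2, h3, h4⟩

theorem rf_lt {o s N : ℕ} (h : o + s < N) (i : ℕ) : rf o s i < N := by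
  unfold rf
  split_ifs <;> omega

theorem lastv_lt {o l W N : ℕ} (hl : l + 3 ≤ W) (h : o + W ≤ N) : lastv o l < N := by
  unfold lastv
  split_ifs <;> omega

theorem gate_sm {o s N K : ℕ} (h : o + s < N) (hK : 2 + K ≤ N) (g : Gate)
    (hg : g.code.2.1 < K) : Sm N (gateEq o s g) := by
  cases g with
  | one => exact sm_mk (by omega) h (by omega) (by omega)
  | var k =>
    have hk : k < K := hg
    exact sm_mk (by omega) (by omega) (by omega) h
  | add i j => exact sm_mk (by omega) (rf_lt h i) (rf_lt h j) h
  | sub i j => exact sm_mk (by omega) h (rf_lt h j) (rf_lt h i)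
  | mul i j => exact sm_mk (by omega) (rf_lt h i) (rf_lt h j) h

theorem blk_sm {b : Bool} {o s W N K : ℕ} {q : List Gate} (hq : q.length + 3 ≤ W)
    (hs : s < W) (h : o + W ≤ N) (hK : 2 + K ≤ N) (hg : ∀ g ∈ q, g.code.2.1 < K) :
    Sm N (blkEq b o s q) := by
  have hl := lastv_lt hq h
  unfold blkEq
  by_cases h1 : s < q.length
  · rw [if_pos h1]
    refine gate_sm (by omega) hK _ (hg _ ?_)
    rw [List.getD_eq_getElem _ _ h1]
    exact List.getElem_mem h1
  · rw [if_neg h1]
    split_ifs
    · exact sm_mk (by omega) hl (by omega) (by omega)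
    · exact sm_mk (by omega) (by omega) (by omega) (by omega)
    · exact sm_mk (by omega) (by omega) (by omega) (by omega)
    · exact sm_mk (by omega) (by omega) (by omega) (by omega)
    · exact sm_mk (by omega) hl (by omega) (by omega)
    · exact sm_mk (by omega) (by omega) (by omega) (by omega)

theorem le_sum_map {α : Type} (l : List α) (f : α → ℕ) {a : α} (ha : a ∈ l) :
    f a ≤ (l.map f).sum := List.le_sum_of_mem (List.mem_map_of_mem ha)

end ENT

open ENT in
theorem I_ENT : SENT := by
  intro E P m hm
  have hN : nQ E P = 2 + inK E P + (E ++ P).length * blW E P := rfl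
  have hW : 3 ≤ blW E P := by unfold blW; omega
  have hI : 1 ≤ inK E P := by unfold inK; omega
  show Sm (nQ E P) (eqn E P m)
  unfold eqn
  split_ifs with h0 h1 h2
  · exact sm_mk (by omega) (by omega) (by omega) (by omega)
  · exact sm_mk (by omega) (by omega) (by omega) (by omega)
  · exact sm_mk (by omega) (by omega) (by omega) (by omega)
  · set W := blW E P with hWd
    set r := (m - (2 + inK E P)) / W with hr
    have hr1 : r < (E ++ P).length := by
      rw [hr, Nat.div_lt_iff_lt_mul (by omega)]
      omega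
    have hq : (E ++ P).getD r [] ∈ E ++ P := by
      rw [List.getD_eq_getElem _ _ hr1]
      exact List.getElem_mem hr1
    refine blk_sm (W := W) (K := inK E P) ?_ (Nat.mod_lt _ (by omega)) ?_ (by omega) ?_
    · have := le_sum_map (E ++ P) (fun q : List Gate => q.length) hq
      rw [hWd]
      unfold blW
      omega
    · have h3 : (r + 1) * W ≤ (E ++ P).length * W := Nat.mul_le_mul_right _ hr1
      rw [add_mul, one_mul] at h3
      omega
    · intro g hg
      have h3 := le_sum_map (E ++ P) (fun q : List Gate => (q.map fun g => g.code.2.1).sum) hq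
      have h4 := le_sum_map _ (fun g : Gate => g.code.2.1) hg
      unfold inK
      omega

end Pool.Agent.Work.MP_859ada_lc.ER
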