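import Pool.Agent.Work.MP_859ada_lc.ER.SDefs

set_option autoImplicit false

namespace Pool.Agent.Work.MP_859ada_lc.ER

open Pool.Agent.PT Pool.Agent.Work.MP_46935e_lc

namespace ENV

theorem val_ones (n : ℕ) : val (List.replicate n true) = 2 ^ n - 1 := by
  induction n with
  | zero => rfl
  | succ n ih =>
    rw [List.replicate_succ, val, ih, pow_succ]
    have : 1 ≤ 2 ^ n := Nat.one_le_two_pow
    simp only [Bool.toNat_true]
    omega

theorem size_ones (n : ℕ) : Nat.size (2 ^ n - 1) = n := by
  apply le_antisymm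
  · rw [Nat.size_le]
    have : 1 ≤ 2 ^ n := Nat.one_le_two_pow
    omega
  · cases n with
    | zero => simp
    | succ n =>
      rw [Nat.succ_le_iff, Nat.lt_size, pow_succ]
      have : 1 ≤ 2 ^ n := Nat.one_le_two_pow
      omega

/-- the entries of an equation -/
def four (e : ℕ × ℕ × ℕ × ℕ) : List ℕ := [e.1, e.2.1, e.2.2.1, e.2.2.2]

/-- the list of all entries -/
def nl (E P : List (List Gate)) : List ℕ :=
  (List.range (nQ E P)).flatMap fun m => four (eqn E P m)

theorem sbits_eq (E P : List (List Gate)) :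
    sbits E P = (nl E P).flatMap (fun e => toB (nQ E P) e) := by
  unfold sbits nl
  rw [List.flatMap_assoc]
  congr 1
  funext m
  simp [four, List.append_assoc]

theorem length_nl (E P : List (List Gate)) : (nl E P).length = nQ E P * 4 := by
  unfold nl
  rw [length_flatMap' (W := 4) (fun _ => rfl), List.length_range]

theorem getD_nl (E P : List (List Gate)) (m a : ℕ) (hm : m < nQ E P) (ha : a < 4) :
    (nl E P).getD (m * 4 + a) 0 = (four (eqn E P m)).getD a 0 := by
  unfold nl
  rw [getD_flatMap (W := 4) (f := fun m => four (eqn E P m)) (fun _ => rfl) _ _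
    (by rw [List.length_range]; exact hm) ha, List.getElem_range]

theorem nQ_ge (E P : List (List Gate)) : 3 ≤ nQ E P := by
  unfold nQ inK
  omega

theorem four_lt (hENT : SENT) (E P : List (List Gate)) (m a : ℕ) (hm : m < nQ E P) (ha : a < 4) :
    (four (eqn E P m)).getD a 0 < nQ E P := by
  obtain ⟨h1, h2, h3, h4⟩ := hENT E P m hm
  have h5 := nQ_ge E P
  have : a = 0 ∨ a = 1 ∨ a = 2 ∨ a = 3 := by omega
  rcases this with rfl | rfl | rfl | rfl
  · show (eqn E P m).1 < _
    omega
  · exact h2
  · exact h3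
  · exact h4

theorem nl_lt (hENT : SENT) (E P : List (List Gate)) (i : ℕ) (hi : i < (nl E P).length) :
    (nl E P).getD i 0 < 2 ^ nQ E P := by
  rw [length_nl] at hi
  have e : i = (i / 4) * 4 + i % 4 := by omega
  rw [e, getD_nl E P _ _ (by omega) (by omega)]
  exact (four_lt hENT E P _ _ (by omega) (by omega)).trans Nat.lt_two_pow_self

theorem env0 (E P : List (List Gate)) : env (senv E P) 0 = 2 ^ (nQ E P - 1) - 1 := by
  unfold senv
  rw [env_pair, RootCH.cons_zero, val_ones]

theorem env1 (E P : List (List Gate)) : env (senv E P) 1 = val (sbits E P) := by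
  unfold senv
  rw [env_pair, RootCH.cons_succ, env_pair, RootCH.cons_zero]

theorem nv_env (E P : List (List Gate)) : nv (env (senv E P) 0) = nQ E P := by
  have h := nQ_ge E P
  rw [env0]
  unfold nv
  rw [size_ones]
  omega

theorem ent_env (hENT : SENT) (E P : List (List Gate)) (m a : ℕ) (hm : m < nQ E P) (ha : a < 4) :
    ent (env (senv E P) 0) (env (senv E P) 1) m a = (four (eqn E P m)).getD a 0 := by
  unfold ent
  rw [nv_env, env1, sbits_eq, val_flatMap _ _ (nl_lt hENT E P),
    RootCH.dig_sum _ _ (fun i => (nl E P).getD i 0) (nl_lt hENT E P) _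
      (by rw [length_nl]; omega), mul_comm 4 m]
  exact getD_nl E P m a hm ha

theorem vi_env (hENT : SENT) (E P : List (List Gate)) (m a : ℕ) (hm : m < nQ E P) (ha : a < 4) :
    vi (env (senv E P) 0) (env (senv E P) 1) m a = (four (eqn E P m)).getD a 0 := by
  unfold vi
  rw [ent_env hENT E P m a hm ha, nv_env, Nat.mod_eq_of_lt (four_lt hENT E P m a hm ha)]

theorem eqn_env (hENT : SENT) (E P : List (List Gate)) (m : ℕ) (hm : m < nQ E P) (y : ℕ → ℝ) :
    Eqn (env (senv E P) 0) (env (senv E P) 1) m y ↔ hold (eqn E P m) y := by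
  unfold Eqn hold
  rw [ent_env hENT E P m 0 hm (by norm_num), vi_env hENT E P m 1 hm (by norm_num),
    vi_env hENT E P m 2 hm (by norm_num), vi_env hENT E P m 3 hm (by norm_num)]
  rfl

end ENV

theorem I_ENV (hENT : SENT) : SENV := by
  intro E P
  unfold QS
  rw [ENV.nv_env]
  refine exists_congr fun y => forall₂_congr fun m hm => ENV.eqn_env hENT E P m hm y

end Pool.Agent.Work.MP_859ada_lc.ER
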