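import Pool.Agent.Work.MP_859ada_lc.ER.Base

set_option autoImplicit false

namespace Pool.Agent.Work.MP_859ada_lc.ER

open MvPolynomial

namespace EVL

theorem eval_box {R S : Type} [CommRing R] [CommRing S] (φ : R →+* S) {n : ℕ} {d : Fin n → ℕ}
    (y : Fin n → S) (b : Box d) :
    eval₂ φ y (monomial (bx b) 1 : MvPolynomial (Fin n) R) = ∏ i, y i ^ (b i : ℕ) := by
  rw [eval₂_monomial, map_one, one_mul, Finsupp.prod_fintype _ _ (fun i => pow_zero _)]
  rfl

theorem key {R S : Type} [CommRing R] [CommRing S] (φ : R →+* S) {n : ℕ} {d : Fin n → ℕ}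
    {G : Fin n → MvPolynomial (Fin n) R}
    {M : MvPolynomial (Fin n) R →ₐ[R] Matrix (Box d) (Box d) R} (y : Fin n → S)
    (hM : IsMul d G M) (hy : ∀ i, y i ^ d i = eval₂ φ y (G i)) (z : Box d)
    (hz : ∀ i, (z i : ℕ) = 0) (f : MvPolynomial (Fin n) R) :
    ∑ a : Box d, (∏ i, y i ^ (a i : ℕ)) * φ (M f a z) = eval₂ φ y f := by
  classical
  refine red_induction G hM.deg (fun f =>
    ∑ a : Box d, (∏ i, y i ^ (a i : ℕ)) * φ (M f a z) = eval₂ φ y f) ?_ ?_ ?_ ?_ ?_ f
  · simp
  · intro f g hf hg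
    simp only [map_add, Matrix.add_apply, mul_add, Finset.sum_add_distrib, eval₂_add]
    rw [hf, hg]
  · intro c f hf
    rw [eval₂_mul, eval₂_C, ← hf, Finset.mul_sum]
    refine Finset.sum_congr rfl fun a _ => ?_
    rw [C_mul', map_smul, Matrix.smul_apply, smul_eq_mul, map_mul]
    ring
  · intro b
    rw [eval_box]
    simp only [hM.col z hz]
    rw [Finset.sum_eq_single b]
    · simp
    · intro a _ hab
      simp [hab]
    · intro h
      exact absurd (Finset.mem_univ b) h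
  · intro i m hm
    have h1 : M (X i ^ d i * monomial m 1) = M (G i * monomial m 1) := by
      rw [map_mul, hM.rel i, ← map_mul]
    rw [h1, hm, eval₂_mul, eval₂_mul, eval₂_pow, eval₂_X, hy i]

end EVL

theorem I_EVL (hCOL : SCOL) : SEVL := by
  intro R S _ _ φ n d G M y hM hy g b
  have hpos : ∀ i, 0 < d i := fun i => lt_of_le_of_lt (Nat.zero_le _) (hM.deg i)
  have h := EVL.key φ y hM hy (fun i => ⟨0, hpos i⟩) (fun i => rfl) (g * monomial (bx b) 1)
  rw [eval₂_mul, EVL.eval_box] at h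
  rw [← h]
  refine Finset.sum_congr rfl fun a _ => ?_
  rw [hCOL R n d G M hM (fun i => ⟨0, hpos i⟩) (fun i => rfl) g a b]

end Pool.Agent.Work.MP_859ada_lc.ER
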