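import Pool.Agent.Work.MP_859ada_lc.ER.SDefs

/-!
# MP_859ada_lc, project ER: item EXW, polynomially bounded existential quantification
-/

set_option autoImplicit false

namespace Pool.Agent.Work.MP_859ada_lc.ER

open Polynomial Pool.Agent.PT Turing Pool.Agent.Work.MP_46935e_lc

namespace EXW

/-- decoding a string of length at most `m` -/
def D (m : ℕ) (y : List Bool) : List Bool := (y.take m).take ((y.drop m).count true)

theorem length_D (m : ℕ) (y : List Bool) : (D m y).length ≤ m := by
  unfold D
  rw [List.length_take, List.length_take]
  omega

theorem D_surj (m : ℕ) (w : List Bool) (h : w.length ≤ m) :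
    ∃ y : List Bool, y.length = m + m ∧ D m y = w := by
  have hl : (w ++ List.replicate (m - w.length) false).length = m := by
    rw [List.length_append, List.length_replicate]; omega
  have hr : (List.replicate w.length true ++ List.replicate (m - w.length) false).length = m := by
    rw [List.length_append, List.length_replicate, List.length_replicate]; omega
  refine ⟨(w ++ List.replicate (m - w.length) false) ++
    (List.replicate w.length true ++ List.replicate (m - w.length) false), ?_, ?_⟩
  · rw [List.length_append, hl, hr]
  · unfold D
    rw [List.take_left' hl, List.drop_left' hl]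
    have hc : (List.replicate w.length true ++
        List.replicate (m - w.length) false).count true = w.length := by
      rw [List.count_append, List.count_replicate_self, List.count_replicate]
      simp
    rw [hc, List.take_left' rfl]

end EXW

open EXW in
theorem I_EXW : SEXW := by
  intro k A p hA
  have hm : PTF (fun x : List Bool => p.eval x.length) := ptf_eval p PTF.id.length
  have hD : PTF (fun z : List Bool =>
      encPair ((dec2 z).1, D (p.eval (dec2 z).1.length) (dec2 z).2)) :=
    ptf_encPair.comp (ptf_d1.pair ((ptf_d2.take (hm.comp ptf_d1)).take
      (PTF.count (PTF.const true) (ptf_d2.drop (hm.comp ptf_d1)))))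
  refine ((hA.red hD).thr (m := fun x => p.eval x.length + p.eval x.length) (hm.add hm)
    (PTF.const [])).congr fun x => ?_
  simp only [val, dec2_encPair]
  rw [Set.ncard_pos (finite_len _ _)]
  constructor
  · rintro ⟨y, _, h2⟩
    exact ⟨_, length_D _ y, h2⟩
  · rintro ⟨w, h1, h2⟩
    obtain ⟨y, hy, e⟩ := D_surj _ w h1
    exact ⟨y, hy, by rw [e]; exact h2⟩

end Pool.Agent.Work.MP_859ada_lc.ER
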