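import Pool.Agent.Work.MP_859ada_lc.ER.CDefs

/-!
# MP_859ada_lc, project ER, item FE: definability of the entries
-/

set_option autoImplicit false

namespace Pool.Agent.Work.MP_859ada_lc.ER

open RootCH

namespace FE

theorem fnNv {U : (ℕ → ℕ) → ℕ} (hU : Fn U) : Fn fun v => nv (U v) := by
  unfold nv
  exact hU.size.add Fn.one

theorem bNv (i : ℕ) : PolyB fun v => nv (v i) := by
  unfold nv
  exact (PolyB.size_var i).add (PolyB.const 1)

theorem fnEnt : Fn (fun v => ent (v 0) (v 1) (v 2) (v 3)) := by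
  unfold ent
  exact Fn.dig' (fnNv (Fn.var 0)) (Fn.var 1) (((Fn.const 4).mul (Fn.var 2)).add (Fn.var 3)) (bNv 0)

theorem fnVi : Fn (fun v => vi (v 0) (v 1) (v 2) (v 3)) := by
  unfold vi
  exact fnEnt.mod (fnNv (Fn.var 0))

theorem fnPt : Fn (fun v => pt (v 0) (v 1) (v 2)) := by
  unfold pt
  exact (Fn.dig' (Fn.var 0).size (Fn.var 1) (Fn.var 2) (PolyB.size_var 0)).add Fn.one

theorem fnDl : Fn (fun v => dl (v 0) (v 1)) := by
  unfold dl
  exact Fn.ite (CH.eq (Fn.var 0) (Fn.var 1)) Fn.one Fn.zero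

theorem fnE0 : Fn (fun v => ent (v 0) (v 1) (v 2) 0) :=
  Fn.comp4 (f := ent) fnEnt (Fn.var 0) (Fn.var 1) (Fn.var 2) Fn.zero

theorem fnV (a : ℕ) : Fn (fun v => vi (v 0) (v 1) (v 2) a) :=
  Fn.comp4 (f := vi) fnVi (Fn.var 0) (Fn.var 1) (Fn.var 2) (Fn.const a)

end FE

open FE in
theorem I_FE : SFE := by
  refine ⟨fnEnt, fnVi, fnPt, fnDl, ?_, ?_, ?_⟩
  · have P : ∀ a, Fn (fun v => pt (v 4) (v 3) (vi (v 0) (v 1) (v 2) a)) := fun a =>
      Fn.comp3 (f := pt) fnPt (Fn.var 4) (Fn.var 3) (fnV a)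
    have p1 : Fn (fun v => v 4 - 1) := (Fn.var 4).sub Fn.one
    unfold eQ
    exact Fn.ite (CH.eq fnE0 Fn.zero) ((P 1).add p1)
      (Fn.ite (CH.eq fnE0 Fn.one) (((P 1).add (P 2)).add (p1.mul (P 3)))
        (((P 1).mul (P 2)).add (p1.mul (P 3))))
  · have P : ∀ a, Fn (fun v => pt (v 5) (v 4) (vi (v 0) (v 1) (v 2) a)) := fun a =>
      Fn.comp3 (f := pt) fnPt (Fn.var 5) (Fn.var 4) (fnV a)
    have D : ∀ a, Fn (fun v => dl (vi (v 0) (v 1) (v 2) a) (v 3)) := fun a =>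
      Fn.comp2 (f := dl) fnDl (fnV a) (Fn.var 3)
    have p1 : Fn (fun v => v 5 - 1) := (Fn.var 5).sub Fn.one
    unfold eQ1
    exact Fn.ite (CH.eq fnE0 Fn.zero) (D 1)
      (Fn.ite (CH.eq fnE0 Fn.one) (((D 1).add (D 2)).add (p1.mul (D 3)))
        ((((D 1).mul (P 2)).add ((P 1).mul (D 2))).add (p1.mul (D 3))))
  · have D : ∀ a b, Fn (fun v => dl (vi (v 0) (v 1) (v 2) a) (v b)) := fun a b =>
      Fn.comp2 (f := dl) fnDl (fnV a) (Fn.var b)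
    unfold eQ2
    exact Fn.ite (CH.eq fnE0 Fn.zero) Fn.zero
      (Fn.ite (CH.eq fnE0 Fn.one) Fn.zero
        (((D 1 3).mul (D 2 4)).add ((D 1 4).mul (D 2 3))))

end Pool.Agent.Work.MP_859ada_lc.ER
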