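import Pool.Agent.Work.MP_859ada_lc.ER.CDefs

set_option autoImplicit false

namespace Pool.Agent.Work.MP_859ada_lc.ER

open RootCH

namespace FF

theorem nvF {A : (ℕ → ℕ) → ℕ} (hA : Fn A) : Fn fun v => nv (A v) :=
  hA.size.add Fn.one

end FF

theorem I_FF (hFE : SFE) : SFF := by
  obtain ⟨_, _, _, _, hQ, hQ1, hQ2⟩ := hFE
  refine ⟨?_, ?_, ?_⟩
  · have hq : Fn fun v => eQ (v 1) (v 2) (v 0) (v 3) (v 4) :=
      Fn.comp5 hQ (Fn.var 1) (Fn.var 2) (Fn.var 0) (Fn.var 3) (Fn.var 4)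
    exact Fn.sM (T := fun v => nv (v 0)) (P := fun v => v 3)
      (g := fun k v => eQ (v 0) (v 1) k (v 2) (v 3) * eQ (v 0) (v 1) k (v 2) (v 3))
      (FF.nvF (Fn.var 0)) (Fn.var 3) (hq.mul hq)
  · have hq : Fn fun v => eQ (v 1) (v 2) (v 0) (v 4) (v 5) :=
      Fn.comp5 hQ (Fn.var 1) (Fn.var 2) (Fn.var 0) (Fn.var 4) (Fn.var 5)
    have hq1 : Fn fun v => eQ1 (v 1) (v 2) (v 0) (v 3) (v 4) (v 5) :=
      Fn.comp6 hQ1 (Fn.var 1) (Fn.var 2) (Fn.var 0) (Fn.var 3) (Fn.var 4) (Fn.var 5)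
    exact Fn.sM (T := fun v => nv (v 0)) (P := fun v => v 4)
      (g := fun k v => 2 * (eQ (v 0) (v 1) k (v 3) (v 4) * eQ1 (v 0) (v 1) k (v 2) (v 3) (v 4)))
      (FF.nvF (Fn.var 0)) (Fn.var 4) ((Fn.const 2).mul (hq.mul hq1))
  · have hq : Fn fun v => eQ (v 1) (v 2) (v 0) (v 5) (v 6) :=
      Fn.comp5 hQ (Fn.var 1) (Fn.var 2) (Fn.var 0) (Fn.var 5) (Fn.var 6)
    have hqi : Fn fun v => eQ1 (v 1) (v 2) (v 0) (v 3) (v 5) (v 6) :=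
      Fn.comp6 hQ1 (Fn.var 1) (Fn.var 2) (Fn.var 0) (Fn.var 3) (Fn.var 5) (Fn.var 6)
    have hqj : Fn fun v => eQ1 (v 1) (v 2) (v 0) (v 4) (v 5) (v 6) :=
      Fn.comp6 hQ1 (Fn.var 1) (Fn.var 2) (Fn.var 0) (Fn.var 4) (Fn.var 5) (Fn.var 6)
    have hq2 : Fn fun v => eQ2 (v 1) (v 2) (v 0) (v 3) (v 4) :=
      Fn.comp5 hQ2 (Fn.var 1) (Fn.var 2) (Fn.var 0) (Fn.var 3) (Fn.var 4)
    exact Fn.sM (T := fun v => nv (v 0)) (P := fun v => v 5)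
      (g := fun k v => 2 * (eQ1 (v 0) (v 1) k (v 2) (v 4) (v 5) *
        eQ1 (v 0) (v 1) k (v 3) (v 4) (v 5) +
        eQ (v 0) (v 1) k (v 4) (v 5) * eQ2 (v 0) (v 1) k (v 2) (v 3)))
      (FF.nvF (Fn.var 0)) (Fn.var 5) ((Fn.const 2).mul ((hqi.mul hqj).add (hq.mul hq2)))

end Pool.Agent.Work.MP_859ada_lc.ER
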