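import Pool.Agent.Work.MP_859ada_lc.ER.CDefs

/-!
# MP_859ada_lc, project ER, item FG: definability of the right hand sides, of the Jacobian and of
the geometric series
-/

set_option autoImplicit false

namespace Pool.Agent.Work.MP_859ada_lc.ER

open RootCH

namespace FG

theorem fnNv {U : (ℕ → ℕ) → ℕ} (hU : Fn U) : Fn fun v => nv (U v) := by
  unfold nv
  exact hU.size.add Fn.one

theorem fnG (hpt : Fn (fun v => pt (v 0) (v 1) (v 2)))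
    (hF : Fn (fun v => eF (v 0) (v 1) (v 2) (v 3)))
    (hF1 : Fn (fun v => eF1 (v 0) (v 1) (v 2) (v 3) (v 4)))
    (hh : Fn (fun v => hM (v 0) (v 1))) (hc : Fn (fun v => cM (v 0) (v 1))) :
    Fn (fun v => eG (v 0) (v 1) (v 2) (v 3) (v 4)) := by
  have p1 : Fn (fun v => v 4 - 1) := (Fn.var 4).sub Fn.one
  have h' : Fn (fun v => hM (v 0) (v 4)) := Fn.comp2 (f := hM) hh (Fn.var 0) (Fn.var 4)
  have c' : Fn (fun v => cM (v 0) (v 4)) := Fn.comp2 (f := cM) hc (Fn.var 0) (Fn.var 4)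
  have f' : Fn (fun v => eF (v 0) (v 1) (v 3) (v 4)) :=
    Fn.comp4 (f := eF) hF (Fn.var 0) (Fn.var 1) (Fn.var 3) (Fn.var 4)
  have s' : Fn (fun v => sM (nv (v 0)) (v 4) fun j => if j = 0 then 0 else
      pt (v 4) (v 3) j * eF1 (v 0) (v 1) j (v 3) (v 4)) := by
    refine Fn.sM (g := fun j v => if j = 0 then 0 else
      pt (v 4) (v 3) j * eF1 (v 0) (v 1) j (v 3) (v 4)) (fnNv (Fn.var 0)) (Fn.var 4) ?_
    exact Fn.ite (CH.eq (Fn.var 0) Fn.zero) Fn.zero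
      ((Fn.comp3 (f := pt) hpt (Fn.var 5) (Fn.var 4) (Fn.var 0)).mul
        (Fn.comp5 (f := eF1) hF1 (Fn.var 1) (Fn.var 2) (Fn.var 0) (Fn.var 4) (Fn.var 5)))
  unfold eG
  exact Fn.ite (CH.eq (Fn.var 2) Fn.zero)
    (c'.add (p1.mul (h'.mul (((Fn.const 6).mul f').add (p1.mul s'))))) (p1.mul (h'.mul hF1))

theorem fnJ (hpt : Fn (fun v => pt (v 0) (v 1) (v 2))) (hdl : Fn (fun v => dl (v 0) (v 1)))
    (hF1 : Fn (fun v => eF1 (v 0) (v 1) (v 2) (v 3) (v 4)))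
    (hF2 : Fn (fun v => eF2 (v 0) (v 1) (v 2) (v 3) (v 4) (v 5)))
    (hh : Fn (fun v => hM (v 0) (v 1))) :
    Fn (fun v => eJ (v 0) (v 1) (v 2) (v 3) (v 4) (v 5)) := by
  have p1 : Fn (fun v => v 5 - 1) := (Fn.var 5).sub Fn.one
  have h' : Fn (fun v => hM (v 0) (v 5)) := Fn.comp2 (f := hM) hh (Fn.var 0) (Fn.var 5)
  have d' : Fn (fun v => dl (v 2) (v 3)) := Fn.comp2 (f := dl) hdl (Fn.var 2) (Fn.var 3)
  have f1 : Fn (fun v => eF1 (v 0) (v 1) (v 3) (v 4) (v 5)) :=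
    Fn.comp5 (f := eF1) hF1 (Fn.var 0) (Fn.var 1) (Fn.var 3) (Fn.var 4) (Fn.var 5)
  have q' : Fn (fun v => pt (v 5) (v 4) (v 3)) :=
    Fn.comp3 (f := pt) hpt (Fn.var 5) (Fn.var 4) (Fn.var 3)
  have q5 : ∀ e, Fn (fun v => md (pt (v 5) (v 4) (v 3) ^ e) (v 5)) := fun e =>
    Fn.powM q' (Fn.const e) (Fn.var 5)
  have s' : Fn (fun v => sM (nv (v 0)) (v 5) fun l => if l = 0 then 0 else
      pt (v 5) (v 4) l * eF2 (v 0) (v 1) l (v 3) (v 4) (v 5)) := by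
    refine Fn.sM (g := fun l v => if l = 0 then 0 else
      pt (v 5) (v 4) l * eF2 (v 0) (v 1) l (v 3) (v 4) (v 5)) (fnNv (Fn.var 0)) (Fn.var 5) ?_
    exact Fn.ite (CH.eq (Fn.var 0) Fn.zero) Fn.zero
      ((Fn.comp3 (f := pt) hpt (Fn.var 6) (Fn.var 5) (Fn.var 0)).mul
        (Fn.comp6 (f := eF2) hF2 (Fn.var 1) (Fn.var 2) (Fn.var 0) (Fn.var 4) (Fn.var 5)
          (Fn.var 6)))
  unfold eJ
  exact Fn.ite (CH.eq (Fn.var 2) Fn.zero)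
    ((d'.mul ((Fn.const 6).mul (q5 5))).add (h'.mul (((Fn.const 6).mul f1).add
      (p1.mul ((Fn.ite (CH.eq (Fn.var 3) Fn.zero) Fn.zero f1).add s')))))
    ((d'.mul ((Fn.const 5).mul (q5 4))).add (h'.mul hF2))

theorem fnS (hpt : Fn (fun v => pt (v 0) (v 1) (v 2)))
    (hG : Fn (fun v => eG (v 0) (v 1) (v 2) (v 3) (v 4)))
    (hk : Fn (fun v => kK (v 0))) (hd : Fn (fun v => dI (v 0))) :
    Fn (fun v => eS (v 0) (v 1) (v 2) (v 3) (v 4)) := by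
  unfold eS
  refine Fn.sM (g := fun k v => md (eG (v 0) (v 1) (v 2) (v 3) (v 4) ^ k) (v 4) *
    md (invM (pt (v 4) (v 3) (v 2)) (v 4) ^ (dI (v 2) * (k + 1) - 1)) (v 4))
    (hk.add Fn.one) (Fn.var 4) ?_
  have g' : Fn (fun v => eG (v 1) (v 2) (v 3) (v 4) (v 5)) :=
    Fn.comp5 (f := eG) hG (Fn.var 1) (Fn.var 2) (Fn.var 3) (Fn.var 4) (Fn.var 5)
  have q' : Fn (fun v => pt (v 5) (v 4) (v 3)) :=
    Fn.comp3 (f := pt) hpt (Fn.var 5) (Fn.var 4) (Fn.var 3)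
  have i' : Fn (fun v => invM (pt (v 5) (v 4) (v 3)) (v 5)) := Fn.invM q' (Fn.var 5)
  have d' : Fn (fun v => dI (v 3)) := Fn.comp1 (f := dI) hd (Fn.var 3)
  exact (Fn.powM g' (Fn.var 0) (Fn.var 5)).mul
    (Fn.powM i' ((d'.mul ((Fn.var 0).add Fn.one)).sub Fn.one) (Fn.var 5))

end FG

open FG in
theorem I_FG (hFE : SFE) (hFF : SFF) (hFN : SFN) : SFG := by
  obtain ⟨-, -, hpt, hdl, -, -, -⟩ := hFE
  obtain ⟨hF, hF1, hF2⟩ := hFF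
  obtain ⟨hh, hc, -, hk, -, hd, -⟩ := hFN
  have hG := fnG hpt hF hF1 hh hc
  exact ⟨hG, fnJ hpt hdl hF1 hF2 hh, fnS hpt hG hk hd⟩

end Pool.Agent.Work.MP_859ada_lc.ER
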