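import Pool.Agent.Work.MP_859ada_lc.ER.CDefs

set_option autoImplicit false

namespace Pool.Agent.Work.MP_859ada_lc.ER

open RootCH

namespace FN

theorem rec_eq (n : ℕ) : (Nat.rec (motive := fun _ => ℕ) 1 (fun _ r => 5 * r) n) = 5 ^ n := by
  induction n with
  | zero => rfl
  | succ n ih =>
    show 5 * (Nat.rec (motive := fun _ => ℕ) 1 (fun _ r => 5 * r) n) = 5 ^ (n + 1)
    rw [ih, pow_succ, mul_comm]

theorem pow5 : Fn fun v => 5 ^ Nat.size (v 0) := by
  have h := Fn.natRec (m := fun v => Nat.size (v 0)) (w := fun v => 3 * Nat.size (v 0) + 1)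
    (b := fun _ => 1) (h := fun _ r _ => 5 * r) (Fn.var 0).size (PolyB.size_var 0)
    (((Fn.const 3).mul (Fn.var 0).size).add Fn.one)
    (((PolyB.const 3).mul (PolyB.size_var 0)).add (PolyB.const 1)) Fn.one
    ((Fn.const 5).mul (Fn.var 1)) (by
      intro v i hi
      rw [rec_eq]
      have hi' : i ≤ Nat.size (v 0) := hi
      have h1 : (5 : ℕ) ^ i ≤ 2 ^ (3 * i) := by
        rw [pow_mul]
        exact Nat.pow_le_pow_left (by norm_num) i
      have h2 : (2 : ℕ) ^ (3 * i) < 2 ^ (3 * Nat.size (v 0) + 1) :=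
        Nat.pow_lt_pow_right (by norm_num) (by omega)
      exact lt_of_le_of_lt h1 h2)
  exact h.congr fun v => rec_eq _

theorem exp2 (a b : ℕ) : Fn fun v => 2 ^ (a * Nat.size (v 0) + b) :=
  Fn.two_pow (F := fun v => a * Nat.size (v 0) + b)
    (((Fn.const a).mul (Fn.var 0).size).add (Fn.const b))
    (((PolyB.const a).mul (PolyB.size_var 0)).add (PolyB.const b))

end FN

theorem I_FN (hFE : SFE) : SFN := by
  obtain ⟨-, -, hpt, -⟩ := hFE
  refine ⟨?_, ?_, ?_, ?_, ?_, ?_, ?_⟩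
  · exact Fn.powM (Fn.const 2) (FN.exp2 12 50) (Fn.var 1)
  · exact Fn.powM (Fn.const 2) (FN.exp2 8 30) (Fn.var 1)
  · exact (Fn.const 6).mul FN.pow5
  · exact FN.exp2 3 10
  · exact FN.exp2 7 50
  · exact Fn.ite (CH.eq (Fn.var 0) Fn.zero) (Fn.const 6) (Fn.const 5)
  · exact Fn.sM (T := fun v => nv (v 0)) (P := fun v => v 3)
      (g := fun i v => md (v 1 ^ i) (v 3) * pt (v 3) (v 2) i)
      ((Fn.var 0).size.add Fn.one) (Fn.var 3)
      ((Fn.powM (Fn.var 2) (Fn.var 0) (Fn.var 4)).mul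
        (Fn.comp3 (f := pt) hpt (Fn.var 4) (Fn.var 3) (Fn.var 0)))

end Pool.Agent.Work.MP_859ada_lc.ER
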