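import Pool.Agent.Work.MP_859ada_lc.ER.Base

set_option autoImplicit false

namespace Pool.Agent.Work.MP_859ada_lc.ER

open MvPolynomial

namespace FP

theorem unit_sum (p : ℕ) [Fact p.Prime] (m e : ℕ) (hm : m < p - 1) (he : e < p - 1) :
    ∑ u : (ZMod p)ˣ, (u : ZMod p) ^ m * ((u⁻¹ : (ZMod p)ˣ) : ZMod p) ^ e =
      if m = e then -1 else 0 := by
  have h1 : ∀ u : (ZMod p)ˣ, (u : ZMod p) ^ m * ((u⁻¹ : (ZMod p)ˣ) : ZMod p) ^ e =
      ((u ^ (m + (p - 1 - e)) : (ZMod p)ˣ) : ZMod p) := by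
    intro u
    have h2 : (u⁻¹) ^ e = u ^ (p - 1 - e) := by
      have h3 : u ^ (p - 1 - e) * u ^ e = 1 := by
        rw [← pow_add, Nat.sub_add_cancel he.le, ZMod.units_pow_card_sub_one_eq_one]
      rw [inv_pow]
      exact (eq_inv_of_mul_eq_one_left h3).symm
    rw [pow_add, ← h2]
    push_cast
    rfl
  rw [Finset.sum_congr rfl fun u _ => h1 u]
  have h4 := FiniteField.sum_pow_units (ZMod p) (m + (p - 1 - e))
  rw [ZMod.card] at h4
  have h5 : (p - 1 ∣ m + (p - 1 - e)) ↔ m = e := by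
    constructor
    · intro h
      obtain ⟨c, hc⟩ := h
      have hc1 : c = 1 := by
        rcases Nat.lt_or_ge c 1 with h | h
        · interval_cases c
          omega
        · rcases Nat.lt_or_ge c 2 with h' | h'
          · omega
          · have : (p - 1) * 2 ≤ (p - 1) * c := Nat.mul_le_mul_left _ h'
            omega
      subst hc1
      omega
    · intro h
      subst h
      rw [show m + (p - 1 - m) = p - 1 by omega]
  simp only [h5] at h4
  push_cast
  exact h4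

theorem coeff_sum (p : ℕ) [Fact p.Prime] (n : ℕ) (e : Fin n → ℕ)
    (Q : MvPolynomial (Fin n) (ZMod p)) (he : ∀ i, e i < p - 1) (hQ : Q.totalDegree < p - 1) :
    ∑ y : Fin n → (ZMod p)ˣ, eval (fun i => (y i : ZMod p)) Q *
      ∏ i, (((y i)⁻¹ : (ZMod p)ˣ) : ZMod p) ^ e i = (-1) ^ n * coeff (ex e) Q := by
  classical
  have h1 : ∀ y : Fin n → (ZMod p)ˣ, eval (fun i => (y i : ZMod p)) Q *
      ∏ i, (((y i)⁻¹ : (ZMod p)ˣ) : ZMod p) ^ e i =
      ∑ m ∈ Q.support, coeff m Q * ∏ i, ((y i : ZMod p) ^ m i *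
        (((y i)⁻¹ : (ZMod p)ˣ) : ZMod p) ^ e i) := by
    intro y
    rw [eval_eq', Finset.sum_mul]
    refine Finset.sum_congr rfl fun m _ => ?_
    rw [Finset.prod_mul_distrib, mul_assoc]
  rw [Finset.sum_congr rfl fun y _ => h1 y, Finset.sum_comm]
  have h2 : ∀ m ∈ Q.support, ∑ y : Fin n → (ZMod p)ˣ, coeff m Q * ∏ i, ((y i : ZMod p) ^ m i *
        (((y i)⁻¹ : (ZMod p)ˣ) : ZMod p) ^ e i) =
      if m = ex e then (-1) ^ n * coeff (ex e) Q else 0 := by
    intro m hm
    rw [← Finset.mul_sum]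
    have h3 : ∑ y : Fin n → (ZMod p)ˣ, ∏ i, ((y i : ZMod p) ^ m i *
        (((y i)⁻¹ : (ZMod p)ˣ) : ZMod p) ^ e i) = ∏ i, ∑ u : (ZMod p)ˣ, (u : ZMod p) ^ m i *
          ((u⁻¹ : (ZMod p)ˣ) : ZMod p) ^ e i := by
      rw [Finset.prod_univ_sum, Fintype.piFinset_univ]
    rw [h3]
    have h4 : ∀ i, ∑ u : (ZMod p)ˣ, (u : ZMod p) ^ m i * ((u⁻¹ : (ZMod p)ˣ) : ZMod p) ^ e i =
        if m i = e i then -1 else 0 := by
      intro i
      refine unit_sum p _ _ ?_ (he i)
      have h5 := sum_le_totalDegree (mem_support_iff.1 hm)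
      have h6 : m i ≤ ∑ j, m j := Finset.single_le_sum (fun _ _ => Nat.zero_le _) (Finset.mem_univ i)
      omega
    rw [Finset.prod_congr rfl fun i _ => h4 i, Finset.prod_ite_zero]
    by_cases hme : m = ex e
    · subst hme
      simp [mul_comm]
    · have : ¬ ∀ i ∈ (Finset.univ : Finset (Fin n)), m i = e i := by
        intro h
        exact hme (Finsupp.ext fun i => h i (Finset.mem_univ i))
      rw [if_neg this, if_neg hme, mul_zero]
  rw [Finset.sum_congr rfl h2, Finset.sum_ite_eq']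
  by_cases hs : ex e ∈ Q.support
  · rw [if_pos hs]
  · rw [if_neg hs, notMem_support_iff.1 hs, mul_zero]

end FP

theorem I_FP : SFP := by
  classical
  intro p _ n d G K q hG hK
  unfold tau
  have h1 : ∀ y : Fin n → (ZMod p)ˣ, eval (fun i => (y i : ZMod p)) q *
    ∏ i, ∑ k ∈ Finset.range (K + 1), eval (fun i => (y i : ZMod p)) (G i) ^ k *
      (((y i)⁻¹ : (ZMod p)ˣ) : ZMod p) ^ (d i * (k + 1) - 1) =
      ∑ k ∈ Fintype.piFinset (fun _ : Fin n => Finset.range (K + 1)),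
        eval (fun i => (y i : ZMod p)) (q * ∏ i, G i ^ k i) *
          ∏ i, (((y i)⁻¹ : (ZMod p)ˣ) : ZMod p) ^ (d i * (k i + 1) - 1) := by
    intro y
    rw [Finset.prod_univ_sum, Finset.mul_sum]
    refine Finset.sum_congr rfl fun k _ => ?_
    rw [Finset.prod_mul_distrib, map_mul, map_prod, mul_assoc]
    simp only [map_pow]
  rw [Finset.sum_congr rfl fun y _ => h1 y, Finset.sum_comm, Finset.mul_sum]
  refine Finset.sum_congr rfl fun k hk => ?_
  have hk' : ∀ i, k i ≤ K := by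
    intro i
    have := (Fintype.mem_piFinset.1 hk) i
    rw [Finset.mem_range] at this
    omega
  have hd : ∀ i, d i ≤ ∑ j, d j := fun i =>
    Finset.single_le_sum (fun _ _ => Nat.zero_le _) (Finset.mem_univ i)
  rw [FP.coeff_sum p n (fun i => d i * (k i + 1) - 1) (q * ∏ i, G i ^ k i)]
  · rw [← mul_assoc, ← pow_add, ← two_mul, pow_mul]
    simp
  · intro i
    have h2 : d i * (k i + 1) ≤ (K + 1) * ∑ j, d j := by
      calc d i * (k i + 1) ≤ (∑ j, d j) * (K + 1) :=
            Nat.mul_le_mul (hd i) (Nat.succ_le_succ (hk' i))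
        _ = _ := mul_comm _ _
    omega
  · have h3 : (∏ i, G i ^ k i).totalDegree ≤ ∑ i, K * d i := by
      refine (totalDegree_finsetProd _ _).trans (Finset.sum_le_sum fun i _ => ?_)
      refine (totalDegree_pow _ _).trans (Nat.mul_le_mul (hk' i) (hG i).le)
    rw [← Finset.mul_sum] at h3
    have h4 := totalDegree_mul q (∏ i, G i ^ k i)
    have h5 : K * ∑ i, d i ≤ (K + 1) * ∑ i, d i := Nat.mul_le_mul_right _ (Nat.le_succ K)
    omega

end Pool.Agent.Work.MP_859ada_lc.ER
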