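import Pool.Agent.Work.MP_859ada_lc.ER.CDefs

/-!
# MP_859ada_lc, project ER, item FP0: the sum of squares of the equations
-/

set_option autoImplicit false

namespace Pool.Agent.Work.MP_859ada_lc.ER

open RootCH

namespace FP0

open MvPolynomial

variable {n : ℕ}

theorem l1_eq (g : MvPolynomial (Fin n) ℤ) (s : Finset (Fin n →₀ ℕ)) (h : g.support ⊆ s) :
    l1 g = ∑ m ∈ s, (g.coeff m).natAbs := by
  unfold l1
  refine Finset.sum_subset h (fun m _ hm => ?_)
  rw [notMem_support_iff.1 hm]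
  rfl

theorem l1_add (f g : MvPolynomial (Fin n) ℤ) : l1 (f + g) ≤ l1 f + l1 g := by
  classical
  rw [l1_eq (f + g) (f.support ∪ g.support) support_add,
    l1_eq f (f.support ∪ g.support) Finset.subset_union_left,
    l1_eq g (f.support ∪ g.support) Finset.subset_union_right, ← Finset.sum_add_distrib]
  refine Finset.sum_le_sum (fun m _ => ?_)
  rw [coeff_add]
  exact Int.natAbs_add_le _ _

theorem l1_neg (f : MvPolynomial (Fin n) ℤ) : l1 (-f) = l1 f := by
  have h : (-f).support ⊆ f.support := by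
    intro m hm
    rw [mem_support_iff] at hm ⊢
    rw [coeff_neg] at hm
    intro h0
    exact hm (by rw [h0, neg_zero])
  rw [l1_eq (-f) f.support h]
  unfold l1
  refine Finset.sum_congr rfl (fun m _ => ?_)
  rw [coeff_neg, Int.natAbs_neg]

theorem l1_sub (f g : MvPolynomial (Fin n) ℤ) : l1 (f - g) ≤ l1 f + l1 g := by
  rw [sub_eq_add_neg]
  exact (l1_add _ _).trans (by rw [l1_neg])

theorem l1_zero : l1 (0 : MvPolynomial (Fin n) ℤ) = 0 := by
  unfold l1
  rw [support_zero, Finset.sum_empty]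

theorem l1_sum {α : Type} (s : Finset α) (f : α → MvPolynomial (Fin n) ℤ) :
    l1 (∑ a ∈ s, f a) ≤ ∑ a ∈ s, l1 (f a) := by
  classical
  induction s using Finset.induction_on with
  | empty => simp [l1_zero]
  | insert a s ha ih =>
    rw [Finset.sum_insert ha, Finset.sum_insert ha]
    exact (l1_add _ _).trans (Nat.add_le_add_left ih _)

theorem l1_monomial (m : Fin n →₀ ℕ) (a : ℤ) : l1 (monomial m a) = a.natAbs := by
  rw [l1_eq (monomial m a) {m} support_monomial_subset, Finset.sum_singleton, coeff_monomial,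
    if_pos rfl]

theorem l1_X (i : Fin n) : l1 (X i : MvPolynomial (Fin n) ℤ) = 1 := by
  unfold X
  rw [l1_monomial]
  rfl

theorem l1_one : l1 (1 : MvPolynomial (Fin n) ℤ) = 1 := by
  have : (1 : MvPolynomial (Fin n) ℤ) = monomial 0 1 := rfl
  rw [this, l1_monomial]
  rfl

theorem l1_monomial_mul (m : Fin n →₀ ℕ) (a : ℤ) (g : MvPolynomial (Fin n) ℤ) :
    l1 (monomial m a * g) = a.natAbs * l1 g := by
  classical
  have h : (monomial m a * g).support ⊆ g.support.map (addLeftEmbedding m) := by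
    intro k hk
    rw [mem_support_iff, coeff_monomial_mul'] at hk
    by_cases hmk : m ≤ k
    · rw [if_pos hmk] at hk
      rw [Finset.mem_map]
      refine ⟨k - m, ?_, ?_⟩
      · rw [mem_support_iff]
        intro h0
        exact hk (by rw [h0, mul_zero])
      · exact add_tsub_cancel_of_le hmk
    · rw [if_neg hmk] at hk
      exact absurd rfl hk
  rw [l1_eq _ _ h, Finset.sum_map]
  unfold l1
  rw [Finset.mul_sum]
  refine Finset.sum_congr rfl (fun k _ => ?_)
  rw [addLeftEmbedding_apply, coeff_monomial_mul, Int.natAbs_mul]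

theorem l1_mul (f g : MvPolynomial (Fin n) ℤ) : l1 (f * g) ≤ l1 f * l1 g := by
  have h : f * g = ∑ m ∈ f.support, monomial m (f.coeff m) * g := by
    rw [← Finset.sum_mul, support_sum_monomial_coeff]
  rw [h]
  refine (l1_sum _ _).trans (le_of_eq ?_)
  unfold l1
  rw [Finset.sum_mul]
  refine Finset.sum_congr rfl (fun m _ => ?_)
  exact l1_monomial_mul m _ g

theorem l1_xv (u c k a : ℕ) : l1 (xv u c k a) = 1 := l1_X _

theorem l1_qp (u c k : ℕ) : l1 (qp u c k) ≤ 3 := by
  unfold qp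
  split_ifs
  · exact (l1_sub _ _).trans (by rw [l1_xv, l1_one]; norm_num)
  · exact (l1_sub _ _).trans ((Nat.add_le_add_right (l1_add _ _) _).trans
      (by rw [l1_xv, l1_xv, l1_xv]))
  · exact (l1_sub _ _).trans ((Nat.add_le_add_right (l1_mul _ _) _).trans
      (by rw [l1_xv, l1_xv, l1_xv]; norm_num))

theorem deg_xv (u c k a : ℕ) : (xv u c k a).totalDegree = 1 := totalDegree_X _

theorem deg_qp (u c k : ℕ) : (qp u c k).totalDegree ≤ 2 := by
  unfold qp
  split_ifs
  · refine (totalDegree_sub _ _).trans ?_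
    rw [deg_xv, totalDegree_one]
    norm_num
  · refine (totalDegree_sub _ _).trans (max_le ?_ ?_)
    · refine (totalDegree_add _ _).trans ?_
      rw [deg_xv, deg_xv]
      norm_num
    · rw [deg_xv]; norm_num
  · refine (totalDegree_sub _ _).trans (max_le ?_ ?_)
    · refine (totalDegree_mul _ _).trans ?_
      rw [deg_xv, deg_xv]
    · rw [deg_xv]; norm_num

theorem deg_fp (u c : ℕ) : (fp u c).totalDegree ≤ 4 := by
  unfold fp
  refine (totalDegree_finset_sum _ _).trans (Finset.sup_le (fun k _ => ?_))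
  refine (totalDegree_pow _ _).trans ?_
  have := deg_qp u c k
  omega

theorem l1_fp (u c : ℕ) : l1 (fp u c) ≤ 9 * (Nat.size u + 1) := by
  unfold fp
  refine (l1_sum _ _).trans ?_
  have h : ∀ k ∈ Finset.range (nv u), l1 (qp u c k ^ 2) ≤ 9 := by
    intro k _
    rw [pow_two]
    refine (l1_mul _ _).trans ?_
    have := l1_qp u c k
    calc l1 (qp u c k) * l1 (qp u c k) ≤ 3 * 3 := Nat.mul_le_mul this this
      _ = 9 := by norm_num
  refine (Finset.sum_le_card_nsmul _ _ _ h).trans (le_of_eq ?_)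
  rw [Finset.card_range, smul_eq_mul]
  unfold nv
  ring

theorem ev_xv (u c k a : ℕ) (y : ℕ → ℝ) :
    eval₂ (Int.castRingHom ℝ) (fun i : Fin (Nat.size u + 1) => y i) (xv u c k a) =
      y (vi u c k a) := by
  unfold xv
  rw [eval₂_X]

theorem ev_qp (u c k : ℕ) (y : ℕ → ℝ) :
    eval₂ (Int.castRingHom ℝ) (fun i : Fin (Nat.size u + 1) => y i) (qp u c k) = 0 ↔
      Eqn u c k y := by
  unfold qp Eqn
  split_ifs
  · rw [eval₂_sub, ev_xv, eval₂_one, sub_eq_zero]
  · rw [eval₂_sub, eval₂_add, ev_xv, ev_xv, ev_xv, sub_eq_zero]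
  · rw [eval₂_sub, eval₂_mul, ev_xv, ev_xv, ev_xv, sub_eq_zero]

theorem ev_fp (u c : ℕ) (y : Fin (Nat.size u + 1) → ℝ) :
    eval₂ (Int.castRingHom ℝ) y (fp u c) =
      ∑ k ∈ Finset.range (nv u), (eval₂ (Int.castRingHom ℝ) y (qp u c k)) ^ 2 := by
  unfold fp
  rw [eval₂_sum]
  exact Finset.sum_congr rfl (fun k _ => eval₂_pow _ _)

theorem ev_fp_zero (u c : ℕ) (y : ℕ → ℝ) :
    eval₂ (Int.castRingHom ℝ) (fun i : Fin (Nat.size u + 1) => y i) (fp u c) = 0 ↔
      ∀ k < nv u, Eqn u c k y := by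
  rw [ev_fp, Finset.sum_eq_zero_iff_of_nonneg (fun k _ => sq_nonneg _)]
  constructor
  · intro h k hk
    exact (ev_qp u c k y).1 (pow_eq_zero_iff two_ne_zero |>.1 (h k (Finset.mem_range.2 hk)))
  · intro h k hk
    rw [(ev_qp u c k y).2 (h k (Finset.mem_range.1 hk))]
    norm_num

end FP0

open FP0 in
theorem I_FP0 : SFP0 := by
  intro u c
  refine ⟨deg_fp u c, l1_fp u c, ?_, ?_⟩
  · intro y
    rw [ev_fp]
    exact Finset.sum_nonneg (fun k _ => sq_nonneg _)
  · constructor
    · rintro ⟨y, hy⟩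
      refine ⟨fun i => if h : i < Nat.size u + 1 then y ⟨i, h⟩ else 0, ?_⟩
      rw [← ev_fp_zero]
      have e : (fun i : Fin (Nat.size u + 1) =>
          (fun i : ℕ => if h : i < Nat.size u + 1 then y ⟨i, h⟩ else 0) (i : ℕ)) = y := by
        funext i
        simp only [i.isLt, dif_pos]
      rw [e]
      exact hy
    · rintro ⟨y, hy⟩
      exact ⟨fun i => y i, (ev_fp_zero u c y).2 hy⟩

end Pool.Agent.Work.MP_859ada_lc.ER
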