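import Pool.Agent.Work.MP_859ada_lc.ER.CDefs

set_option autoImplicit false

namespace Pool.Agent.Work.MP_859ada_lc.ER

open RootCH

theorem I_FX (hFE : SFE) (hFN : SFN) (hFG : SFG) (hDTF : SDTF) (hNWF : SNWF) : SFX := by
  classical
  have hnv : ∀ i, Fn fun v => nv (v i) := fun i => ((Fn.var i).size).add Fn.one
  have bnv : ∀ i, PolyB fun v => nv (v i) := fun i => (PolyB.size_var i).add (PolyB.const 1)
  have hPS : Fn (fun v => ePS (v 0) (v 1) (v 2) (v 3) (v 4) (v 5)) := by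
    unfold ePS
    refine (Fn.powM ((Fn.var 5).sub Fn.one) (hnv 0) (Fn.var 5)).mul ?_
    refine Fn.sM (T := fun v => 2 ^ (Nat.size (v 5) * nv (v 0))) (P := fun v => v 5)
      (g := fun s v => if ∀ i < nv (v 0), dig (Nat.size (v 5)) s i < v 5 - 1 then
        md ((v 3 + (v 5 - 1) * eL (v 0) (v 2) s (v 5)) ^ v 4) (v 5) *
          detM (nv (v 0)) (v 5) (fun i j => eJ (v 0) (v 1) i j s (v 5)) *
          (if (v 5).Prime then md (∏ i ∈ Finset.range (nv (v 0)), eS (v 0) (v 1) i s (v 5))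
            (v 5) else 0)
        else 0) ?_ (Fn.var 5) ?_
    · exact Fn.two_pow ((Fn.var 5).size.mul (hnv 0)) ((PolyB.size_var 5).mul (bnv 0))
    · -- environment s, u, c, t, x, m, p
      refine Fn.ite (R := fun w => ∀ i < nv (w 1), dig (Nat.size (w 6)) (w 0) i < w 6 - 1) ?_ ?_
        Fn.zero
      · refine CH.allB (B := fun w => nv (w 1))
          (R := fun i w => dig (Nat.size (w 6)) (w 0) i < w 6 - 1) (hnv 1) ?_
        exact CH.lt (Fn.dig' (Fn.var 7).size (Fn.var 1) (Fn.var 0) (PolyB.size_var 7))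
          ((Fn.var 7).sub Fn.one)
      · refine (Fn.mul ?_ ?_).mul ?_
        · refine Fn.powM ((Fn.var 4).add (((Fn.var 6).sub Fn.one).mul ?_)) (Fn.var 5) (Fn.var 6)
          exact Fn.comp4 (f := eL) hFN.2.2.2.2.2.2 (Fn.var 1) (Fn.var 3) (Fn.var 0) (Fn.var 6)
        · refine hDTF (fun w => nv (w 1)) (fun w => w 6)
            (fun i j w => eJ (w 1) (w 2) i j (w 0) (w 6)) (hnv 1) (bnv 1) (Fn.var 6) ?_
          exact Fn.comp6 (f := eJ) hFG.2.1 (Fn.var 3) (Fn.var 4) (Fn.var 0) (Fn.var 1)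
            (Fn.var 2) (Fn.var 8)
        · refine Fn.prodMod (T := fun w => nv (w 1)) (P := fun w => w 6)
            (g := fun i w => eS (w 1) (w 2) i (w 0) (w 6)) (hnv 1) (Fn.var 6) ?_
          exact Fn.comp5 (f := eS) hFG.2.2 (Fn.var 2) (Fn.var 3) (Fn.var 0) (Fn.var 1) (Fn.var 7)
  refine ⟨hPS, ?_⟩
  unfold eX
  refine hNWF (fun v => nN (v 0)) (fun v => v 4)
    (fun m v => ePS (v 0) (v 1) (v 2) (v 3) m (v 4)) ?_ (Fn.var 4) ?_
  · exact hFN.2.2.1
  · exact Fn.comp6 (f := ePS) hPS (Fn.var 1) (Fn.var 2) (Fn.var 3) (Fn.var 4) (Fn.var 0)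
      (Fn.var 5)

end Pool.Agent.Work.MP_859ada_lc.ER
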