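import Pool.Agent.Work.MP_859ada_lc.ER.Base

/-!
# MP_859ada_lc, project ER, item GAP: the gap theorem
-/

set_option autoImplicit false

namespace Pool.Agent.Work.MP_859ada_lc.ER.GAP

open MvPolynomial

/-- derivative of a polynomial along a coordinate -/
theorem hasDerivAt_eval {m : ℕ} (f : MvPolynomial (Fin m) ℝ) (y : Fin m → ℝ) (i : Fin m) (s : ℝ) :
    HasDerivAt (fun t => eval (Function.update y i t) f)
      (eval (Function.update y i s) (pderiv i f)) s := by
  induction f using MvPolynomial.induction_on with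
  | C a => simpa using hasDerivAt_const s a
  | add p q hp hq =>
    simp only [map_add]
    exact hp.add hq
  | mul_X p j hp =>
    have hX : HasDerivAt (fun t => (Function.update y i t) j) (if j = i then 1 else 0) s := by
      by_cases h : j = i
      · subst h
        simpa using hasDerivAt_id' s
      · simpa [Function.update_of_ne h, h] using hasDerivAt_const s (y j)
    have h1 := hp.mul hX
    have h2 : (fun t => eval (Function.update y i t) (p * X j)) =
        (fun t => eval (Function.update y i t) p) * fun t => (Function.update y i t) j := by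
      funext t; simp
    rw [h2]
    refine h1.congr_deriv ?_
    rw [Derivation.leibniz, smul_eq_mul, smul_eq_mul, map_add, map_mul, map_mul, eval_X]
    by_cases h : j = i
    · subst h; rw [pderiv_X_self]; simp; ring
    · rw [pderiv_X_of_ne h]; simp [h]; ring

/-- the functional -/
noncomputable def g {m : ℕ} (f : MvPolynomial (Fin m) ℝ) (h : ℝ) (y : Fin m → ℝ) : ℝ :=
  6 * h * eval y f + ∑ i, y i ^ 6

theorem continuous_g {m : ℕ} (f : MvPolynomial (Fin m) ℝ) (h : ℝ) : Continuous (g f h) := by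
  unfold g
  have := MvPolynomial.continuous_eval f
  fun_prop

theorem compact_ball {m : ℕ} (c : ℝ) : IsCompact {y : Fin m → ℝ | ∑ i, y i ^ 6 ≤ c} := by
  have hcl : IsClosed {y : Fin m → ℝ | ∑ i, y i ^ 6 ≤ c} :=
    isClosed_le (by fun_prop) continuous_const
  refine IsCompact.of_isClosed_subset
    (isCompact_univ_pi (fun _ : Fin m => isCompact_Icc (a := -(c + 1)) (b := c + 1))) hcl ?_
  intro y hy i _
  have h1 : y i ^ 6 ≤ ∑ i, y i ^ 6 :=
    Finset.single_le_sum (f := fun i => y i ^ 6) (fun j _ => by positivity) (Finset.mem_univ i)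
  have h2 : y i ^ 6 ≤ c := h1.trans hy
  have h3 : (0 : ℝ) ≤ c := le_trans (by positivity) h2
  have h4 : |y i| ≤ c + 1 := by
    by_contra hcon
    push Not at hcon
    have h5 : |y i| ^ 1 ≤ |y i| ^ 6 := pow_le_pow_right₀ (by linarith) (by norm_num)
    have h6 : |y i| ^ 6 = y i ^ 6 := by
      rw [← abs_pow]; exact abs_of_nonneg (by positivity)
    rw [h6, pow_one] at h5
    linarith
  exact abs_le.1 h4

theorem exists_min {m : ℕ} (f : MvPolynomial (Fin m) ℝ) (h : ℝ) (hh : 0 < h)
    (hf : ∀ y, 0 ≤ eval y f) : ∃ y, ∀ z, g f h y ≤ g f h z := by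
  have h0 : (0 : Fin m → ℝ) ∈ {y : Fin m → ℝ | ∑ i, y i ^ 6 ≤ g f h 0} := by
    simp only [Set.mem_ofPred_eq, g]
    have := hf 0
    have : 0 ≤ 6 * h * eval 0 f := by positivity
    linarith
  obtain ⟨y, hy, hmin⟩ := (compact_ball (m := m) (g f h 0)).exists_isMinOn ⟨0, h0⟩
    (continuous_g f h).continuousOn
  refine ⟨y, fun z => ?_⟩
  by_cases hz : z ∈ {y : Fin m → ℝ | ∑ i, y i ^ 6 ≤ g f h 0}
  · exact hmin hz
  · have h1 : g f h y ≤ g f h 0 := hmin h0
    simp only [Set.mem_ofPred_eq, not_le] at hz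
    have h2 : ∑ i, z i ^ 6 ≤ g f h z := by
      have := hf z
      have : 0 ≤ 6 * h * eval z f := by positivity
      simp only [g]; linarith
    linarith

theorem crit {m : ℕ} (f : MvPolynomial (Fin m) ℝ) (h : ℝ) (y : Fin m → ℝ)
    (hy : ∀ z, g f h y ≤ g f h z) (i : Fin m) : y i ^ 5 + h * eval y (pderiv i f) = 0 := by
  have h1 := hasDerivAt_eval (C (6 * h) * f + ∑ j, X j ^ 6) y i (y i)
  have h2 : (fun t => eval (Function.update y i t) (C (6 * h) * f + ∑ j, X j ^ 6)) =
      fun t => g f h (Function.update y i t) := by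
    funext t; simp [g]
  rw [h2] at h1
  have h3 : IsLocalMin (fun t => g f h (Function.update y i t)) (y i) := by
    refine Filter.Eventually.of_forall fun t => ?_
    simp only [Function.update_eq_self]
    exact hy _
  have h4 := h3.hasDerivAt_eq_zero h1
  have h5 : pderiv i (C (6 * h) * f + ∑ j, X j ^ 6 : MvPolynomial (Fin m) ℝ) =
      C (6 * h) * pderiv i f + 6 * X i ^ 5 := by
    rw [map_add, map_sum, pderiv_C_mul]
    rw [Finset.sum_eq_single i]
    · simp [Derivation.leibniz_pow]
    · intro j _ hj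
      simp [Derivation.leibniz_pow, pderiv_X_of_ne hj]
    · intro hi; exact absurd (Finset.mem_univ i) hi
  rw [h5, Function.update_eq_self] at h4
  simp only [map_add, map_mul, eval_C, eval_pow, eval_X, map_ofNat] at h4
  linarith

/-- geometric bound -/
theorem geom_bound (B v : ℝ) (hv : 2 * B + 1 ≤ v) (hv0 : 0 ≤ v) (D : ℕ) :
    ∑ j ∈ Finset.range D, B * v ^ j ≤ (v ^ D - 1) / 2 := by
  induction D with
  | zero => simp
  | succ D ih =>
    rw [Finset.sum_range_succ, pow_succ]
    have h1 : 0 ≤ v ^ D := by positivity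
    nlinarith

/-- an integer polynomial with coefficients bounded by `B` at a point `v ≥ 2 B + 1` -/
theorem half_le (B : ℕ) (v : ℝ) (hv : 2 * B + 1 ≤ v) (N : ℕ) (a : ℕ → ℤ)
    (ha : ∀ j, (a j).natAbs ≤ B) (hne : ∃ j, j ≤ N ∧ a j ≠ 0) :
    1 / 2 ≤ |∑ j ∈ Finset.range (N + 1), (a j : ℝ) * v ^ j| := by
  classical
  have hB : (0 : ℝ) ≤ B := Nat.cast_nonneg B
  have hv1 : 1 ≤ v := by linarith
  have hab : ∀ j, |(a j : ℝ)| ≤ B := by
    intro j
    have := ha j
    rw [← Int.cast_abs, Int.abs_eq_natAbs]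
    exact_mod_cast this
  induction N with
  | zero =>
    obtain ⟨j, hj, hne⟩ := hne
    obtain rfl : j = 0 := by omega
    have h1 : (1 : ℝ) ≤ |(a 0 : ℝ)| := by
      rw [← Int.cast_abs]; exact_mod_cast Int.one_le_abs hne
    simp only [zero_add, Finset.range_one, Finset.sum_singleton, pow_zero, mul_one]
    linarith
  | succ N ih =>
    by_cases h0 : a (N + 1) = 0
    · rw [Finset.sum_range_succ, h0]
      simp only [Int.cast_zero, zero_mul, add_zero]
      apply ih
      obtain ⟨j, hj, hne⟩ := hne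
      refine ⟨j, ?_, hne⟩
      rcases Nat.lt_or_ge N j with h | h
      · obtain rfl : j = N + 1 := by omega
        exact absurd h0 hne
      · exact h
    · rw [Finset.sum_range_succ]
      have h1 : (1 : ℝ) ≤ |(a (N + 1) : ℝ)| := by
        rw [← Int.cast_abs]; exact_mod_cast Int.one_le_abs h0
      have h2 : |∑ j ∈ Finset.range (N + 1), (a j : ℝ) * v ^ j| ≤ (v ^ (N + 1) - 1) / 2 := by
        refine (Finset.abs_sum_le_sum_abs _ _).trans
          (le_trans (Finset.sum_le_sum fun j _ => ?_) (geom_bound B v hv (by linarith) (N + 1)))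
        rw [abs_mul, abs_of_nonneg (by positivity : (0 : ℝ) ≤ v ^ j)]
        exact mul_le_mul_of_nonneg_right (hab j) (by positivity)
      have h3 : v ^ (N + 1) ≤ |(a (N + 1) : ℝ) * v ^ (N + 1)| := by
        rw [abs_mul, abs_of_nonneg (by positivity : (0 : ℝ) ≤ v ^ (N + 1))]
        nlinarith [show (0 : ℝ) ≤ v ^ (N + 1) by positivity]
      have h4 : (1 : ℝ) ≤ v ^ (N + 1) := one_le_pow₀ hv1
      have h5 := abs_sub_abs_le_abs_sub ((a (N + 1) : ℝ) * v ^ (N + 1))
        (-(∑ j ∈ Finset.range (N + 1), (a j : ℝ) * v ^ j))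
      rw [abs_neg, sub_neg_eq_add, add_comm ((a (N + 1) : ℝ) * v ^ (N + 1))] at h5
      linarith

/-- dominance of the leading term -/
theorem dominance (x A : ℝ) (hx : 1 ≤ x) (hA : 0 ≤ A) (E : ℕ) (b : ℕ → ℝ)
    (hb : ∀ i, |b i| ≤ A) (hE : 2 * E * A < x) (e : ℕ) (he : e ≤ E)
    (hbe : 1 / 2 ≤ |b e|) (hz : ∀ i, e < i → b i = 0) :
    ∑ i ∈ Finset.range (E + 1), b i * x ^ i ≠ 0 := by
  have h1 : ∑ i ∈ Finset.range (E + 1), b i * x ^ i = ∑ i ∈ Finset.range (e + 1), b i * x ^ i := by
    symm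
    apply Finset.sum_subset
    · intro i hi
      simp only [Finset.mem_range] at hi ⊢
      omega
    · intro i _ hi
      simp only [Finset.mem_range, not_lt] at hi
      rw [hz i (by omega), zero_mul]
  rw [h1, Finset.sum_range_succ]
  intro h0
  have h2 : |b e * x ^ e| = |∑ i ∈ Finset.range e, b i * x ^ i| := by
    rw [← abs_neg (∑ i ∈ Finset.range e, b i * x ^ i)]
    congr 1
    linarith
  have h3 : x ^ e / 2 ≤ |b e * x ^ e| := by
    rw [abs_mul, abs_of_nonneg (by positivity : (0 : ℝ) ≤ x ^ e)]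
    nlinarith [show (0 : ℝ) ≤ x ^ e by positivity]
  rcases Nat.eq_zero_or_pos e with rfl | hepos
  · simp only [Finset.range_zero, Finset.sum_empty, abs_zero] at h2
    rw [h2] at h3
    norm_num at h3
  · obtain ⟨e', rfl⟩ : ∃ e', e = e' + 1 := ⟨e - 1, by omega⟩
    have h4 : |∑ i ∈ Finset.range (e' + 1), b i * x ^ i| ≤ (e' + 1 : ℕ) * (A * x ^ e') := by
      refine (Finset.abs_sum_le_sum_abs _ _).trans ?_
      have := Finset.sum_le_card_nsmul (Finset.range (e' + 1)) (fun i => |b i * x ^ i|)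
        (A * x ^ e') (fun i hi => by
          simp only [Finset.mem_range] at hi
          rw [abs_mul, abs_of_nonneg (by positivity : (0 : ℝ) ≤ x ^ i)]
          exact mul_le_mul (hb i) (pow_le_pow_right₀ hx (by omega)) (by positivity) hA)
      simpa [nsmul_eq_mul] using this
    have h5 : ((e' + 1 : ℕ) : ℝ) ≤ E := by exact_mod_cast he
    have h6 : (0 : ℝ) < x ^ e' := by positivity
    have h7 : 2 * ((e' + 1 : ℕ) : ℝ) * A < x := lt_of_le_of_lt
      (mul_le_mul_of_nonneg_right (mul_le_mul_of_nonneg_left h5 (by norm_num)) hA) hE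
    have h8 : ((e' + 1 : ℕ) : ℝ) * (A * x ^ e') < x ^ (e' + 1) / 2 := by
      rw [pow_succ]
      nlinarith
    linarith

/-- rearrangement -/
theorem eval_eq (P : Polynomial (Polynomial ℤ)) (N E : ℕ) (hN : P.natDegree = N)
    (hE : ∀ j, (P.coeff j).natDegree ≤ E) (h v : ℝ) :
    (P.map (Polynomial.eval₂RingHom (Int.castRingHom ℝ) h)).eval v =
      ∑ i ∈ Finset.range (E + 1),
        (∑ j ∈ Finset.range (N + 1), (((P.coeff j).coeff i : ℤ) : ℝ) * v ^ j) * h ^ i := by
  rw [Polynomial.eval_map, Polynomial.eval₂_eq_sum_range, hN]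
  have h1 : ∀ j, (Polynomial.eval₂RingHom (Int.castRingHom ℝ) h) (P.coeff j) =
      ∑ i ∈ Finset.range (E + 1), (((P.coeff j).coeff i : ℤ) : ℝ) * h ^ i := by
    intro j
    rw [Polynomial.coe_eval₂RingHom,
      Polynomial.eval₂_eq_sum_range' (Int.castRingHom ℝ) (n := E + 1)
        (Nat.lt_succ_of_le (hE j))]
    simp
  simp only [h1, Finset.sum_mul]
  rw [Finset.sum_comm]
  refine Finset.sum_congr rfl fun i _ => Finset.sum_congr rfl fun j _ => by ring

theorem ne_zero (B E N : ℕ) (P : Polynomial (Polynomial ℤ)) (h v : ℝ)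
    (hP : P.Monic) (hN : P.natDegree = N)
    (hc : ∀ i j, ((P.coeff j).coeff i).natAbs ≤ B) (hE : ∀ j, (P.coeff j).natDegree ≤ E)
    (hv : 2 * B + 1 ≤ v) (hh1 : 1 ≤ h) (hh : 2 * E * (B * (N + 1) * v ^ N) < h) :
    (P.map (Polynomial.eval₂RingHom (Int.castRingHom ℝ) h)).eval v ≠ 0 := by
  classical
  rw [eval_eq P N E hN hE]
  have hB : (0 : ℝ) ≤ B := Nat.cast_nonneg B
  have hv1 : 1 ≤ v := by linarith
  -- the largest index
  let S : Finset ℕ := (Finset.range (E + 1)).filter fun i => ∃ j, j ≤ N ∧ (P.coeff j).coeff i ≠ 0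
  have hS : S.Nonempty := by
    refine ⟨0, ?_⟩
    simp only [S, Finset.mem_filter, Finset.mem_range]
    refine ⟨by omega, N, le_rfl, ?_⟩
    have : P.coeff N = 1 := by rw [← hN]; exact hP
    rw [this]
    simp
  have hmem := Finset.max'_mem S hS
  set e := S.max' hS with he
  simp only [S, Finset.mem_filter, Finset.mem_range] at hmem
  refine dominance h (B * (N + 1) * v ^ N) hh1 (by positivity) E _ ?_ hh e (by omega) ?_ ?_
  · intro i
    refine (Finset.abs_sum_le_sum_abs _ _).trans ?_
    have := Finset.sum_le_card_nsmul (Finset.range (N + 1))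
      (fun j => |(((P.coeff j).coeff i : ℤ) : ℝ) * v ^ j|) (B * v ^ N) (fun j hj => by
        simp only [Finset.mem_range] at hj
        rw [abs_mul, abs_of_nonneg (by positivity : (0 : ℝ) ≤ v ^ j)]
        refine mul_le_mul ?_ (pow_le_pow_right₀ hv1 (by omega)) (by positivity) hB
        rw [← Int.cast_abs, Int.abs_eq_natAbs]
        exact_mod_cast hc i j)
    simp only [Finset.card_range, nsmul_eq_mul] at this
    refine this.trans (le_of_eq ?_)
    push_cast
    ring
  · exact half_le B v hv N (fun j => (P.coeff j).coeff e) (fun j => hc e j) hmem.2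
  · intro i hi
    apply Finset.sum_eq_zero
    intro j hj
    simp only [Finset.mem_range] at hj
    have : (P.coeff j).coeff i = 0 := by
      by_contra hcon
      have hiE : i < E + 1 := by
        by_contra hlt
        apply hcon
        apply Polynomial.coeff_eq_zero_of_natDegree_lt
        have := hE j
        omega
      have hiS : i ∈ S := by
        simp only [S, Finset.mem_filter, Finset.mem_range]
        exact ⟨hiE, j, by omega, hcon⟩
      have := Finset.le_max' S i hiS
      omega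
    rw [this]
    simp

theorem g_mono {m : ℕ} (f : MvPolynomial (Fin m) ℝ) (hf : ∀ y, 0 ≤ eval y f) {h h' : ℝ}
    (hh : h ≤ h') (y : Fin m → ℝ) : g f h y ≤ g f h' y := by
  unfold g
  have := hf y
  nlinarith

end Pool.Agent.Work.MP_859ada_lc.ER.GAP

namespace Pool.Agent.Work.MP_859ada_lc.ER

open MvPolynomial GAP

theorem I_GAP : SGAP := by
  intro n B E N f P h c _ hf hP hN hB hE hc hdeg hcrit hcB hh
  have hB' : (1 : ℝ) ≤ B := by exact_mod_cast hB
  have hE' : (1 : ℝ) ≤ E := by exact_mod_cast hE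
  have hN' : (0 : ℝ) ≤ N := Nat.cast_nonneg N
  have hc1 : 1 ≤ c := by linarith
  have hh1 : 1 ≤ h := by
    have h1 : (1 : ℝ) ≤ (2 * c) ^ N := one_le_pow₀ (by linarith)
    have h2 : (1 : ℝ) ≤ 2 * E * B * (N + 1) := by
      have h3 : (1 : ℝ) ≤ E * B := by nlinarith
      nlinarith
    nlinarith
  have hA : ∀ h' : ℝ, 0 < h' → ∀ y, (∀ z, g f h' y ≤ g f h' z) →
      (P.map (Polynomial.eval₂RingHom (Int.castRingHom ℝ) h')).eval (g f h' y) = 0 := by
    intro h' hpos y hy
    exact hcrit h' y hpos (fun i => crit f h' y hy i)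
  have hgap : ∀ h' v : ℝ, h ≤ h' → c ≤ v → v ≤ 2 * c →
      (P.map (Polynomial.eval₂RingHom (Int.castRingHom ℝ) h')).eval v ≠ 0 := by
    intro h' v hh' hcv hv2
    refine ne_zero B E N P h' v hP hN hc hdeg (by linarith) (by linarith) ?_
    have h1 : v ^ N ≤ (2 * c) ^ N := pow_le_pow_left₀ (by linarith) hv2 N
    have h2 : 2 * E * (B * (N + 1) * v ^ N) ≤ 2 * E * B * (N + 1) * (2 * c) ^ N := by
      have : (0 : ℝ) ≤ 2 * E * B * (N + 1) := by positivity
      nlinarith
    linarith
  constructor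
  · rintro ⟨ys, hys⟩
    obtain ⟨y, hy⟩ := exists_min f h (by linarith) hf
    by_cases hle : g f h y ≤ c
    · exact ⟨y, hle⟩
    · exfalso
      push Not at hle
      set s : ℝ := ∑ i, ys i ^ 6 with hs
      have hs0 : 0 ≤ s := Finset.sum_nonneg fun i _ => by positivity
      set h' : ℝ := max h (2 * E * (B * (N + 1) * s ^ N) + 1) with hh'
      have hhh' : h ≤ h' := le_max_left _ _
      obtain ⟨y', hy'⟩ := exists_min f h' (by linarith) hf
      have h1 : g f h y ≤ g f h' y' := (hy y').trans (g_mono f hf hhh' y')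
      have h2 : g f h' y' ≤ s := by
        refine (hy' ys).trans (le_of_eq ?_)
        simp [g, hys, hs]
      refine ne_zero B E N P h' (g f h' y') hP hN hc hdeg (by linarith) (by linarith) ?_
        (hA h' (by linarith) y' hy')
      have h3 : 2 * E * (B * (N + 1) * s ^ N) + 1 ≤ h' := le_max_right _ _
      have h4 : (g f h' y') ^ N ≤ s ^ N := pow_le_pow_left₀ (by linarith) h2 N
      have h5 : 2 * E * (B * (N + 1) * (g f h' y') ^ N) ≤ 2 * E * (B * (N + 1) * s ^ N) := by
        have : (0 : ℝ) ≤ 2 * E * B * (N + 1) := by positivity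
        nlinarith
      linarith
  · rintro ⟨y0, hy0⟩
    have key : ∀ k : ℕ, ∃ y, g f (2 ^ k * h) y ≤ c := by
      intro k
      induction k with
      | zero => exact ⟨y0, by simpa [g] using hy0⟩
      | succ k ih =>
        obtain ⟨y, hy⟩ := ih
        have hk : (1 : ℝ) ≤ 2 ^ k := one_le_pow₀ (by norm_num)
        have hk1 : h ≤ 2 ^ (k + 1) * h := by
          rw [pow_succ]; nlinarith
        obtain ⟨y', hy'⟩ := exists_min f (2 ^ (k + 1) * h) (by linarith) hf
        refine ⟨y', ?_⟩
        by_contra hcon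
        push Not at hcon
        have h1 : g f (2 ^ (k + 1) * h) y ≤ 2 * g f (2 ^ k * h) y := by
          have h2 : 0 ≤ ∑ i, y i ^ 6 := Finset.sum_nonneg fun i _ => by positivity
          have h3 : (2 : ℝ) ^ (k + 1) = 2 * 2 ^ k := by ring
          simp only [g, h3]
          nlinarith
        refine hgap (2 ^ (k + 1) * h) (g f (2 ^ (k + 1) * h) y') hk1 hcon.le ?_
          (hA _ (by linarith) y' hy')
        have := hy' y
        linarith
    have h0 : (0 : Fin (n + 1) → ℝ) ∈ {y : Fin (n + 1) → ℝ | ∑ i, y i ^ 6 ≤ c} := by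
      simp only [Set.mem_ofPred_eq, Pi.zero_apply]
      simp
      linarith
    obtain ⟨ym, hym, hmin⟩ := (compact_ball (m := n + 1) c).exists_isMinOn ⟨0, h0⟩
      (MvPolynomial.continuous_eval f).continuousOn
    refine ⟨ym, le_antisymm ?_ (hf ym)⟩
    by_contra hcon
    push Not at hcon
    obtain ⟨k, hk⟩ := pow_unbounded_of_one_lt (c / (6 * h * eval ym f)) (one_lt_two)
    obtain ⟨y, hy⟩ := key k
    have hfy := hf y
    have hk0 : (0 : ℝ) < 2 ^ k := by positivity
    have h6 : 0 ≤ ∑ i, y i ^ 6 := Finset.sum_nonneg fun i _ => by positivity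
    have h7 : 0 ≤ 6 * (2 ^ k * h) * eval y f := by positivity
    simp only [g] at hy
    have hyK : y ∈ {y : Fin (n + 1) → ℝ | ∑ i, y i ^ 6 ≤ c} := by
      simp only [Set.mem_ofPred_eq]; linarith
    have h8 : eval ym f ≤ eval y f := hmin hyK
    rw [div_lt_iff₀ (by positivity)] at hk
    have h9 : 6 * (2 ^ k * h) * eval ym f ≤ 6 * (2 ^ k * h) * eval y f :=
      mul_le_mul_of_nonneg_left h8 (by positivity)
    nlinarith

end Pool.Agent.Work.MP_859ada_lc.ER
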