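import Pool.Agent.Work.MP_859ada_lc.ER.Base

set_option autoImplicit false

namespace Pool.Agent.Work.MP_859ada_lc.ER

open MvPolynomial

namespace GD

section
variable {R : Type} [CommRing R] {n : ℕ}

theorem pd_mono (i : Fin n) (m : Fin n →₀ ℕ) (a : R) (k : ℕ) (hm : ∑ j, m j ≤ k + 1) :
    (pderiv i (monomial m a)).totalDegree ≤ k := by
  rw [pderiv_monomial]
  by_cases h : m i = 0
  · simp [h]
  · refine (totalDegree_monomial_le' _ _).trans ?_
    have h1 : m = Finsupp.single i 1 + (m - Finsupp.single i 1) := by
      ext j
      simp only [Finsupp.add_apply, Finsupp.tsub_apply, Finsupp.single_apply]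
      split_ifs with hj
      · subst hj; omega
      · omega
    have h2 := sum_single_add i 1 (m - Finsupp.single i 1)
    rw [← h1] at h2
    omega

theorem pd_le (i : Fin n) (f : MvPolynomial (Fin n) R) (k : ℕ) (hf : f.totalDegree ≤ k + 1) :
    (pderiv i f).totalDegree ≤ k := by
  conv_lhs => rw [MvPolynomial.as_sum f, map_sum]
  refine totalDegree_finsetSum_le fun m hm => ?_
  exact pd_mono i m _ k ((sum_le_totalDegree (mem_support_iff.1 hm)).trans hf)

theorem X_le (i : Fin n) : (X i : MvPolynomial (Fin n) R).totalDegree ≤ 1 := by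
  have := totalDegree_monomial_le' (R := R) (Finsupp.single i 1) 1
  refine this.trans (le_of_eq ?_)
  simp [Finsupp.single_apply]

end

end GD

theorem I_GD : SGD := by
  intro R _ n f h c hf i
  unfold GG dd
  by_cases hi : i = 0
  · simp only [hi, if_true]
    refine lt_of_le_of_lt (totalDegree_sub _ _) (max_lt ?_ ?_)
    · rw [totalDegree_C]; norm_num
    refine lt_of_le_of_lt (totalDegree_mul _ _) ?_
    rw [totalDegree_C, zero_add]
    refine lt_of_le_of_lt (totalDegree_sub _ _) (max_lt ?_ ?_)
    · refine lt_of_le_of_lt (totalDegree_mul _ _) ?_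
      have : (6 : MvPolynomial (Fin (n + 1)) R) = C (6 : R) := by
        rw [map_ofNat]
      rw [this, totalDegree_C]
      omega
    · refine lt_of_le_of_lt (totalDegree_finsetSum_le (d := 4) fun j _ => ?_) (by norm_num)
      by_cases hj : j = 0
      · simp [hj]
      · simp only [hj, if_false]
        refine (totalDegree_mul _ _).trans ?_
        have h1 := GD.X_le (R := R) j
        have h2 := GD.pd_le j f 3 hf
        omega
  · simp only [hi, if_false]
    rw [totalDegree_neg]
    refine lt_of_le_of_lt (totalDegree_mul _ _) ?_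
    rw [totalDegree_C, zero_add]
    have h2 := GD.pd_le i f 3 hf
    omega

end Pool.Agent.Work.MP_859ada_lc.ER
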