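import Pool.Agent.Work.MP_859ada_lc.ER.CDefs

/-!
# MP_859ada_lc, project ER: root existence for definable polynomials

The argument of `CH/Resid.lean`, `CH/Resid2.lean`, `CH/RBound.lean`, `CH/Final.lean` for an
arbitrary definable polynomial in the place of the polynomial of a straight-line program.
-/

set_option autoImplicit false

namespace Pool.Agent.Work.MP_859ada_lc.ER

open RootCH Finset Polynomial

namespace GEN

/-! ## Definability of families of functions of two variables -/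

def DE (e : (ℕ → ℕ) → ℕ → ℕ → ℕ) : Prop :=
  Fn fun w => e (RootCH.tail (RootCH.tail w)) (w 0) (w 1)

lemma DE.shift {e : (ℕ → ℕ) → ℕ → ℕ → ℕ} (h : DE e) : DE fun v => e (RootCH.tail v) := by
  unfold DE at h ⊢
  exact (Fn.rename h (fun k => match k with | 0 => 0 | 1 => 1 | k + 2 => k + 3)).congr
    fun v => rfl

lemma DE.app {e : (ℕ → ℕ) → ℕ → ℕ → ℕ} (h : DE e) {A B : (ℕ → ℕ) → ℕ} (hA : Fn A)
    (hB : Fn B) : Fn fun v => e v (A v) (B v) := by
  unfold DE at h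
  exact ((Fn.subst h hA.shift).subst hB).congr fun v => rfl

def FL (L : (ℕ → ℕ) → ℕ) : Prop := Fn L ∧ PolyB L

lemma FL.shift {L : (ℕ → ℕ) → ℕ} (h : FL L) : FL fun v => L (RootCH.tail v) :=
  ⟨h.1.shift, h.2.shift⟩

/-! ## The constants -/

/-- the degree of `F` -/
def NL (L : ℕ) : ℕ := 2 ^ (L + 2)

/-- the width of the digits in the certificates -/
def wL (L : ℕ) : ℕ := 5 * L + 14

lemma fnN {L : (ℕ → ℕ) → ℕ} (hL : FL L) : Fn fun v => NL (L v) :=
  (hL.1.add (Fn.const 2)).two_pow (hL.2.add (PolyB.const 2))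

lemma fnM {L : (ℕ → ℕ) → ℕ} (hL : FL L) : Fn fun v => bigM (L v) :=
  (((Fn.const 3).mul hL.1).add (Fn.const 4)).two_pow
    (((PolyB.const 3).mul hL.2).add (PolyB.const 4))

lemma fnE {L : (ℕ → ℕ) → ℕ} (hL : FL L) : Fn fun v => bigE (L v) :=
  (((Fn.const 5).mul hL.1).add (Fn.const 11)).two_pow
    (((PolyB.const 5).mul hL.2).add (PolyB.const 11))

lemma fnW {L : (ℕ → ℕ) → ℕ} (hL : FL L) : Fn fun v => wL (L v) :=
  ((Fn.const 5).mul hL.1).add (Fn.const 14)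

lemma pbW {L : (ℕ → ℕ) → ℕ} (hL : FL L) : PolyB fun v => wL (L v) :=
  ((PolyB.const 5).mul hL.2).add (PolyB.const 14)

lemma one_le_NL (L : ℕ) : 1 ≤ NL L := Nat.one_le_two_pow

/-! ## The polynomial `F` modulo `p` -/

/-- `F a` modulo `p` -/
def xF (L : ℕ) (e : ℕ → ℕ → ℕ) (a p : ℕ) : ℕ :=
  md (md (a ^ NL L) p + md (2 ^ (3 * bigM L)) p * (e a p * e a p) +
    (p - 1) * md (2 ^ bigM L) p) p

lemma fnF {L : (ℕ → ℕ) → ℕ} (hL : FL L) {e : (ℕ → ℕ) → ℕ → ℕ → ℕ} (he : DE e)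
    {A P : (ℕ → ℕ) → ℕ} (hA : Fn A) (hP : Fn P) :
    Fn fun v => xF (L v) (e v) (A v) (P v) :=
  (((Fn.powM hA (fnN hL) hP).add ((Fn.powM (Fn.const 2) ((Fn.const 3).mul (fnM hL)) hP).mul
    ((he.app hA hP).mul (he.app hA hP)))).add
    ((hP.sub Fn.one).mul (Fn.powM (Fn.const 2) (fnM hL) hP))).md hP

/-- the polynomial `F` modulo `p` -/
noncomputable def FqL (f : ℤ[X]) (L p : ℕ) : (ZMod p)[X] :=
  (Fp f L).map (Int.castRingHom (ZMod p))

/-- `e` gives the values of `f` modulo `p` -/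
def Vals (f : ℤ[X]) (e : ℕ → ℕ → ℕ) (p : ℕ) : Prop :=
  ∀ x : ℕ, ((e x p : ℕ) : ZMod p) = (f.map (Int.castRingHom (ZMod p))).eval (x : ZMod p)

lemma cast_xF {p : ℕ} (hp : p ≠ 0) {f : ℤ[X]} {e : ℕ → ℕ → ℕ} (he : Vals f e p) (L a : ℕ) :
    ((xF L e a p : ℕ) : ZMod p) = (FqL f L p).eval (a : ZMod p) := by
  unfold xF FqL Fp NL
  rw [cast_md _ hp]
  push_cast
  rw [cast_md _ hp, cast_md _ hp, cast_md _ hp, he a, cast_pred hp]
  simp only [Polynomial.map_sub, Polynomial.map_add, Polynomial.map_mul, Polynomial.map_pow,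
    map_X, eval_sub, eval_add, eval_mul, eval_pow, eval_X, map_pow, map_ofNat,
    eval_ofNat, Polynomial.map_ofNat]
  push_cast
  ring

lemma FqL_monic {f : ℤ[X]} {L : ℕ} (hd : f.natDegree ≤ 2 ^ L) (p : ℕ) : (FqL f L p).Monic :=
  (Fp_monic hd).map _

lemma FqL_natDegree {f : ℤ[X]} {L : ℕ} (hd : f.natDegree ≤ 2 ^ L) (p : ℕ)
    [Nontrivial (ZMod p)] : (FqL f L p).natDegree = NL L := by
  unfold FqL
  rw [(Fp_monic hd).natDegree_map, Fp_natDegree hd]
  rfl

/-- Hasse derivatives of `F` modulo `p` -/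
def xD (L : ℕ) (e : ℕ → ℕ → ℕ) (k a p : ℕ) : ℕ :=
  md ((p - 1) * sM (p - 1) p fun b => xF L e (a + (b + 1)) p *
    md ((b + 1) ^ (p - 1 - k)) p) p

lemma fnD {L : (ℕ → ℕ) → ℕ} (hL : FL L) {e : (ℕ → ℕ) → ℕ → ℕ → ℕ} (he : DE e)
    {K A P : (ℕ → ℕ) → ℕ} (hK : Fn K) (hA : Fn A) (hP : Fn P) :
    Fn fun v => xD (L v) (e v) (K v) (A v) (P v) := by
  unfold xD
  refine ((hP.sub Fn.one).mul (Fn.sM (g := fun b v => xF (L v) (e v) (A v + (b + 1)) (P v) *
    RootCH.md ((b + 1) ^ (P v - 1 - K v)) (P v)) (hP.sub Fn.one) hP ?_)).md hP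
  exact (fnF hL.shift he.shift (hA.shift.add ((Fn.var 0).add Fn.one)) hP.shift).mul
    (Fn.powM ((Fn.var 0).add Fn.one) ((hP.shift.sub Fn.one).sub hK.shift) hP.shift)

lemma cast_xD {p : ℕ} [hp : Fact p.Prime] {f : ℤ[X]} {e : ℕ → ℕ → ℕ} (he : Vals f e p) {L : ℕ}
    (hd : f.natDegree ≤ 2 ^ L) (k a : ℕ) (hk : k < p - 1) (hN : NL L < p - 1) :
    ((xD L e k a p : ℕ) : ZMod p) = (hasseDeriv k (FqL f L p)).eval (a : ZMod p) := by
  have hp0 : p ≠ 0 := hp.out.ne_zero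
  unfold xD
  rw [cast_md _ hp0]
  push_cast
  rw [cast_pred hp0, cast_sM hp0,
    hasse_eq_sum p (FqL f L p) (by rw [FqL_natDegree hd]; exact hN) k hk]
  rw [neg_one_mul]
  congr 1
  refine Finset.sum_congr rfl fun b _ => ?_
  push_cast
  rw [cast_xF hp0 he, cast_md _ hp0]
  push_cast
  rfl

/-! ## The test polynomial modulo `p` -/

/-- the list coded by the certificate -/
def lsL (L q K A S : ℕ) : List (ℕ × ℕ × ℤ) :=
  (List.range q).map fun i => (dig (wL L) K i, dig (wL L) A i,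
    (dig (wL L) S i : ℤ) - (2 * (L + 4) : ℕ))

/-- the constant coded by the certificate -/
def csL (L q j : ℕ) : ℤ := (q + 1) * 2 ^ (2 * bigE L) + j

/-- the test polynomial of a certificate -/
noncomputable def tpL (f : ℤ[X]) (L q K A S j : ℕ) : ℤ[X] :=
  gpoly (Fp f L) (bigE L) (lsL L q K A S) (csL L q j)

/-- one term of the test polynomial modulo `p` -/
def xH (L : ℕ) (e : ℕ → ℕ → ℕ) (K A S i a p : ℕ) : ℕ :=
  md (md (2 ^ dig (wL L) A i) p * xD L e (dig (wL L) K i) a p +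
    (p - 1) * (dig (wL L) S i * md (2 ^ bigE L) p) +
    2 * (L + 4) * md (2 ^ bigE L) p) p

lemma fnH {L : (ℕ → ℕ) → ℕ} (hL : FL L) {e : (ℕ → ℕ) → ℕ → ℕ → ℕ} (he : DE e)
    {K A S I X P : (ℕ → ℕ) → ℕ} (hK : Fn K) (hA : Fn A) (hS : Fn S) (hI : Fn I) (hX : Fn X)
    (hP : Fn P) : Fn fun v => xH (L v) (e v) (K v) (A v) (S v) (I v) (X v) (P v) := by
  unfold xH
  have dA := Fn.dig' (fnW hL) hA hI (pbW hL)
  have dK := Fn.dig' (fnW hL) hK hI (pbW hL)
  have dS := Fn.dig' (fnW hL) hS hI (pbW hL)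
  have hE := Fn.powM (Fn.const 2) (fnE hL) hP
  exact ((((Fn.powM (Fn.const 2) dA hP).mul (fnD hL he dK hX hP)).add
    ((hP.sub Fn.one).mul (dS.mul hE))).add (((Fn.const 2).mul (hL.1.add (Fn.const 4))).mul
      hE)).md hP

/-- the test polynomial modulo `p` -/
def xG (L : ℕ) (e : ℕ → ℕ → ℕ) (q K A S j a p : ℕ) : ℕ :=
  md (sM q p (fun i => xH L e K A S i a p * xH L e K A S i a p) +
    (p - 1) * ((q + 1) * md (2 ^ (2 * bigE L)) p + j)) p

lemma fnG {L : (ℕ → ℕ) → ℕ} (hL : FL L) {e : (ℕ → ℕ) → ℕ → ℕ → ℕ} (he : DE e)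
    {Q K A S J X P : (ℕ → ℕ) → ℕ} (hQ : Fn Q) (hK : Fn K) (hA : Fn A) (hS : Fn S) (hJ : Fn J)
    (hX : Fn X) (hP : Fn P) :
    Fn fun v => xG (L v) (e v) (Q v) (K v) (A v) (S v) (J v) (X v) (P v) := by
  unfold xG
  refine ((Fn.sM (g := fun i v => xH (L v) (e v) (K v) (A v) (S v) i (X v) (P v) *
    xH (L v) (e v) (K v) (A v) (S v) i (X v) (P v)) hQ hP ?_).add
    ((hP.sub Fn.one).mul (((hQ.add Fn.one).mul (Fn.powM (Fn.const 2)
      ((Fn.const 2).mul (fnE hL)) hP)).add hJ))).md hP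
  have h := fnH hL.shift he.shift hK.shift hA.shift hS.shift (Fn.var 0) hX.shift hP.shift
  exact h.mul h

lemma cast_xG {p : ℕ} [hp : Fact p.Prime] {f : ℤ[X]} {e : ℕ → ℕ → ℕ} (he : Vals f e p) {L : ℕ}
    (hd : f.natDegree ≤ 2 ^ L) (q K A S j a : ℕ) (hk : 2 ^ wL L < p) (hN : NL L < p - 1) :
    ((xG L e q K A S j a p : ℕ) : ZMod p) =
      ((tpL f L q K A S j).map (Int.castRingHom (ZMod p))).eval (a : ZMod p) := by
  have hp0 : p ≠ 0 := hp.out.ne_zero
  unfold xG tpL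
  rw [map_gpoly, eval_gpoly, cast_md _ hp0]
  push_cast
  rw [cast_sM hp0, cast_pred hp0, cast_md _ hp0]
  unfold lsL csL
  rw [List.map_map, sum_map_range, sub_eq_add_neg]
  congr 1
  · refine Finset.sum_congr rfl fun i _ => ?_
    simp only [Function.comp]
    have h1 : dig (wL L) K i < p - 1 := by
      have := dig_lt (wL L) K i; omega
    unfold xH
    push_cast
    rw [cast_md _ hp0]
    push_cast
    rw [cast_md _ hp0, cast_md _ hp0, cast_pred hp0, cast_xD he hd _ _ h1 hN]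
    unfold FqL
    push_cast
    ring
  · push_cast
    simp

/-! ## The power sums modulo `p` -/

/-- truncated geometric sum modulo `p` -/
def xGeo (L : ℕ) (e : ℕ → ℕ → ℕ) (M a p : ℕ) : ℕ :=
  sM (M + 1) p fun k => md ((md (md (a ^ NL L) p + (p - 1) * xF L e a p) p) ^ k) p *
    md (a ^ (NL L * (M - k))) p

lemma fnGeo {L : (ℕ → ℕ) → ℕ} (hL : FL L) {e : (ℕ → ℕ) → ℕ → ℕ → ℕ} (he : DE e)
    {M A P : (ℕ → ℕ) → ℕ} (hM : Fn M) (hA : Fn A) (hP : Fn P) :
    Fn fun v => xGeo (L v) (e v) (M v) (A v) (P v) := by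
  unfold xGeo
  refine Fn.sM (g := fun k v => RootCH.md ((RootCH.md (RootCH.md (A v ^ NL (L v)) (P v) +
    (P v - 1) * xF (L v) (e v) (A v) (P v)) (P v)) ^ k) (P v) *
    RootCH.md (A v ^ (NL (L v) * (M v - k))) (P v)) (hM.add Fn.one) hP ?_
  have hN1 := fnN hL.shift
  have hM1 := hM.shift
  have hA1 := hA.shift
  have hP1 := hP.shift
  exact (Fn.powM (((Fn.powM hA1 hN1 hP1).add ((hP1.sub Fn.one).mul
    (fnF hL.shift he.shift hA1 hP1))).md hP1) (Fn.var 0) hP1).mul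
    (Fn.powM hA1 (hN1.mul (hM1.sub (Fn.var 0))) hP1)

lemma cast_xGeo {p : ℕ} (hp : p ≠ 0) {f : ℤ[X]} {e : ℕ → ℕ → ℕ} (he : Vals f e p)
    (L M a : ℕ) :
    ((xGeo L e M a p : ℕ) : ZMod p) = (geo (FqL f L p) (NL L) M).eval (a : ZMod p) := by
  unfold xGeo geo
  rw [cast_sM hp, eval_finsetSum]
  refine Finset.sum_congr rfl fun k _ => ?_
  push_cast
  rw [cast_md _ hp, cast_md _ hp]
  push_cast
  rw [cast_md _ hp]
  push_cast
  rw [cast_md _ hp, cast_pred hp, cast_xF hp he]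
  simp only [eval_mul, eval_pow, eval_sub, eval_X]
  push_cast
  rw [← pow_mul]
  ring

/-- the power sums modulo `p` -/
def xP (L : ℕ) (e : ℕ → ℕ → ℕ) (q K A S j m p : ℕ) : ℕ :=
  md ((p - 1) * sM (p - 1) p fun b => md (xG L e q K A S j (b + 1) p ^ m) p *
    xD L e 1 (b + 1) p * xGeo L e (2 * NL L * m) (b + 1) p *
      md ((b + 1) ^ (p - 1 - (NL L * (2 * NL L * m + 1) - 1))) p) p

lemma fnP {L : (ℕ → ℕ) → ℕ} (hL : FL L) {e : (ℕ → ℕ) → ℕ → ℕ → ℕ} (he : DE e)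
    {Q K A S J M P : (ℕ → ℕ) → ℕ} (hQ : Fn Q) (hK : Fn K) (hA : Fn A) (hS : Fn S) (hJ : Fn J)
    (hM : Fn M) (hP : Fn P) :
    Fn fun v => xP (L v) (e v) (Q v) (K v) (A v) (S v) (J v) (M v) (P v) := by
  unfold xP
  refine ((hP.sub Fn.one).mul (Fn.sM (g := fun b v =>
    RootCH.md (xG (L v) (e v) (Q v) (K v) (A v) (S v) (J v) (b + 1) (P v) ^ M v) (P v) *
    xD (L v) (e v) 1 (b + 1) (P v) *
    xGeo (L v) (e v) (2 * NL (L v) * M v) (b + 1) (P v) *
    RootCH.md ((b + 1) ^ (P v - 1 - (NL (L v) * (2 * NL (L v) * M v + 1) - 1)))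
      (P v)) (hP.sub Fn.one) hP ?_)).md hP
  have hL1 := hL.shift
  have he1 := he.shift
  have hM1 := hM.shift
  have hP1 := hP.shift
  have hb : Fn fun v => v 0 + 1 := (Fn.var 0).add Fn.one
  have hNM : Fn fun v => 2 * NL (L (RootCH.tail v)) * M (RootCH.tail v) :=
    ((Fn.const 2).mul (fnN hL1)).mul hM1
  exact (((Fn.powM (fnG hL1 he1 hQ.shift hK.shift hA.shift hS.shift hJ.shift hb hP1) hM1
    hP1).mul (fnD hL1 he1 Fn.one hb hP1)).mul (fnGeo hL1 he1 hNM hb hP1)).mul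
    (Fn.powM hb ((hP1.sub Fn.one).sub (((fnN hL1).mul (hNM.add Fn.one)).sub Fn.one)) hP1)

/-- the test polynomial modulo `p` -/
noncomputable def GqL (f : ℤ[X]) (L q K A S j p : ℕ) : (ZMod p)[X] :=
  (tpL f L q K A S j).map (Int.castRingHom (ZMod p))

lemma GqL_natDegree_le {f : ℤ[X]} {L : ℕ} (hd : f.natDegree ≤ 2 ^ L) (q K A S j p : ℕ) :
    (GqL f L q K A S j p).natDegree ≤ 2 * NL L := by
  unfold GqL
  refine natDegree_map_le.trans ((natDegree_gpoly_le _ _ _ _).trans ?_)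
  rw [Fp_natDegree hd]
  exact le_rfl

lemma cast_xP {p : ℕ} [hp : Fact p.Prime] {f : ℤ[X]} {e : ℕ → ℕ → ℕ} (he : Vals f e p) {L : ℕ}
    (hd : f.natDegree ≤ 2 ^ L) (q K A S j m : ℕ) (hk : 2 ^ wL L < p)
    (hN : 5 * NL L ^ 3 < p - 1) (hm : m ≤ NL L) :
    ((xP L e q K A S j m p : ℕ) : ZMod p) =
      psum (FqL f L p) (GqL f L q K A S j p) (NL L) m := by
  have hp0 : p ≠ 0 := hp.out.ne_zero
  have hN1 := one_le_NL L
  have hcb := cube_bound (NL L) m hN1 hm
  have hNp : NL L < p - 1 := by omega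
  unfold psum
  rw [coeff_eq_sum p]
  · unfold xP
    rw [cast_md _ hp0]
    push_cast
    rw [cast_pred hp0, cast_sM hp0, neg_one_mul]
    congr 1
    refine Finset.sum_congr rfl fun b _ => ?_
    push_cast
    rw [cast_md _ hp0, cast_md _ hp0, cast_xGeo hp0 he]
    push_cast
    rw [cast_xG he hd q K A S j (b + 1) hk hNp, cast_xD he hd 1 (b + 1) (by omega) hNp]
    simp only [eval_mul, eval_pow, hasseDeriv_one, GqL]
    push_cast
    rfl
  · have h1 : (GqL f L q K A S j p ^ m).natDegree ≤ m * (2 * NL L) :=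
      natDegree_pow_le.trans (Nat.mul_le_mul_left _ (GqL_natDegree_le hd q K A S j p))
    have h2 : (derivative (FqL f L p)).natDegree ≤ NL L := by
      refine (natDegree_derivative_le _).trans ?_
      rw [FqL_natDegree hd]; omega
    have h3 := natDegree_geo_le (FqL f L p) (NL L) (2 * NL L * m) (by rw [FqL_natDegree hd])
    have h4 := natDegree_mul_le (p := GqL f L q K A S j p ^ m * derivative (FqL f L p))
      (q := geo (FqL f L p) (NL L) (2 * NL L * m))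
    have h5 := natDegree_mul_le (p := GqL f L q K A S j p ^ m) (q := derivative (FqL f L p))
    omega
  · have : NL L * (2 * NL L * m + 1) - 1 ≤ NL L * (2 * NL L * m) + NL L := by
      rw [mul_add, mul_one]; omega
    omega

/-! ## The resultant modulo `p` -/

/-- value of the logarithmic series modulo `p` -/
def xL (L : ℕ) (e : ℕ → ℕ → ℕ) (q K A S j a p : ℕ) : ℕ :=
  sM (NL L) p fun m => md ((p - 1) ^ m) p * xP L e q K A S j (m + 1) p * invM (m + 1) p *
    md (a ^ (m + 1)) p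

lemma fnLL {L : (ℕ → ℕ) → ℕ} (hL : FL L) {e : (ℕ → ℕ) → ℕ → ℕ → ℕ} (he : DE e)
    {Q K A S J X P : (ℕ → ℕ) → ℕ} (hQ : Fn Q) (hK : Fn K) (hA : Fn A) (hS : Fn S) (hJ : Fn J)
    (hX : Fn X) (hP : Fn P) :
    Fn fun v => xL (L v) (e v) (Q v) (K v) (A v) (S v) (J v) (X v) (P v) := by
  unfold xL
  refine Fn.sM (g := fun m v => RootCH.md ((P v - 1) ^ m) (P v) *
    xP (L v) (e v) (Q v) (K v) (A v) (S v) (J v) (m + 1) (P v) *
    RootCH.invM (m + 1) (P v) * RootCH.md (X v ^ (m + 1)) (P v)) (fnN hL) hP ?_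
  have hm : Fn fun v => v 0 + 1 := (Fn.var 0).add Fn.one
  have hP1 := hP.shift
  exact (((Fn.powM (hP1.sub Fn.one) (Fn.var 0) hP1).mul (fnP hL.shift he.shift hQ.shift
    hK.shift hA.shift hS.shift hJ.shift hm hP1)).mul (Fn.invM hm hP1)).mul
    (Fn.powM hX.shift hm hP1)

lemma cast_xL {p : ℕ} [hp : Fact p.Prime] {f : ℤ[X]} {e : ℕ → ℕ → ℕ} (he : Vals f e p) {L : ℕ}
    (hd : f.natDegree ≤ 2 ^ L) (q K A S j a : ℕ) (hk : 2 ^ wL L < p)
    (hN : 5 * NL L ^ 3 < p - 1) :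
    ((xL L e q K A S j a p : ℕ) : ZMod p) =
      (logser (psum (FqL f L p) (GqL f L q K A S j p) (NL L)) (NL L)).eval (a : ZMod p) := by
  have hp0 : p ≠ 0 := hp.out.ne_zero
  have hN1 := one_le_NL L
  have hNp : NL L < p - 1 := by
    have : NL L ≤ NL L ^ 3 := Nat.le_self_pow (by norm_num) _
    omega
  unfold xL logser
  rw [cast_sM hp0, eval_finsetSum]
  refine Finset.sum_congr rfl fun m hm => ?_
  rw [mem_range] at hm
  push_cast
  rw [cast_md _ hp0, cast_md _ hp0, cast_invM hp.out (natCast_ne_zero (m + 1) (by omega)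
    (by omega)), cast_xP he hd q K A S j (m + 1) hk hN (by omega)]
  push_cast
  rw [cast_pred hp0]
  simp only [eval_mul, eval_pow, eval_X, eval_C]

/-- value of the exponential series modulo `p` -/
def xX (L : ℕ) (e : ℕ → ℕ → ℕ) (q K A S j a p : ℕ) : ℕ :=
  sM (NL L + 1) p fun k => invM (fac k p) p * md (xL L e q K A S j a p ^ k) p

lemma fnX {L : (ℕ → ℕ) → ℕ} (hL : FL L) {e : (ℕ → ℕ) → ℕ → ℕ → ℕ} (he : DE e)
    {Q K A S J X P : (ℕ → ℕ) → ℕ} (hQ : Fn Q) (hK : Fn K) (hA : Fn A) (hS : Fn S) (hJ : Fn J)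
    (hX : Fn X) (hP : Fn P) :
    Fn fun v => xX (L v) (e v) (Q v) (K v) (A v) (S v) (J v) (X v) (P v) := by
  unfold xX
  refine Fn.sM (g := fun k v => RootCH.invM (RootCH.fac k (P v)) (P v) * RootCH.md
    (xL (L v) (e v) (Q v) (K v) (A v) (S v) (J v) (X v) (P v) ^ k) (P v))
    ((fnN hL).add Fn.one) hP ?_
  have hP1 := hP.shift
  exact (Fn.invM (Fn.fac (Fn.var 0) hP1) hP1).mul (Fn.powM (fnLL hL.shift he.shift hQ.shift
    hK.shift hA.shift hS.shift hJ.shift hX.shift hP1) (Fn.var 0) hP1)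

lemma cast_xX {p : ℕ} [hp : Fact p.Prime] {f : ℤ[X]} {e : ℕ → ℕ → ℕ} (he : Vals f e p) {L : ℕ}
    (hd : f.natDegree ≤ 2 ^ L) (q K A S j a : ℕ) (hk : 2 ^ wL L < p)
    (hN : 5 * NL L ^ 3 < p - 1) :
    ((xX L e q K A S j a p : ℕ) : ZMod p) =
      (expser (logser (psum (FqL f L p) (GqL f L q K A S j p) (NL L)) (NL L)) (NL L)).eval
        (a : ZMod p) := by
  have hp0 : p ≠ 0 := hp.out.ne_zero
  have hN1 := one_le_NL L
  have hNp : NL L < p - 1 := by
    have : NL L ≤ NL L ^ 3 := Nat.le_self_pow (by norm_num) _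
    omega
  unfold xX expser
  rw [cast_sM hp0, eval_finsetSum]
  refine Finset.sum_congr rfl fun k hk' => ?_
  rw [mem_range] at hk'
  push_cast
  have h1 : ((fac k p : ℕ) : ZMod p) ≠ 0 := by
    rw [cast_fac hp.out]; exact factorial_ne_zero k (by omega)
  rw [cast_md _ hp0, cast_invM hp.out h1, cast_fac hp.out]
  push_cast
  rw [cast_xL he hd q K A S j a hk hN]
  simp only [eval_mul, eval_pow, eval_C]

/-- the resultant modulo `p` -/
def xR (L : ℕ) (e : ℕ → ℕ → ℕ) (q K A S j p : ℕ) : ℕ :=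
  md ((p - 1) * sM (p - 1) p fun b => xX L e q K A S j (b + 1) p *
    md ((b + 1) ^ (p - 1 - NL L)) p) p

lemma fnR {L : (ℕ → ℕ) → ℕ} (hL : FL L) {e : (ℕ → ℕ) → ℕ → ℕ → ℕ} (he : DE e)
    {Q K A S J P : (ℕ → ℕ) → ℕ} (hQ : Fn Q) (hK : Fn K) (hA : Fn A) (hS : Fn S) (hJ : Fn J)
    (hP : Fn P) : Fn fun v => xR (L v) (e v) (Q v) (K v) (A v) (S v) (J v) (P v) := by
  unfold xR
  refine ((hP.sub Fn.one).mul (Fn.sM (g := fun b v =>
    xX (L v) (e v) (Q v) (K v) (A v) (S v) (J v) (b + 1) (P v) *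
    RootCH.md ((b + 1) ^ (P v - 1 - NL (L v))) (P v)) (hP.sub Fn.one) hP ?_)).md hP
  have hb : Fn fun v => v 0 + 1 := (Fn.var 0).add Fn.one
  have hP1 := hP.shift
  exact (fnX hL.shift he.shift hQ.shift hK.shift hA.shift hS.shift hJ.shift hb hP1).mul
    (Fn.powM hb ((hP1.sub Fn.one).sub (fnN hL.shift)) hP1)

/-- the resultant of a certificate -/
noncomputable def rsL (f : ℤ[X]) (L q K A S j : ℕ) : ℤ :=
  resultant (Fp f L) (tpL f L q K A S j) (NL L) (2 * NL L)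

theorem cast_xR {p : ℕ} [hp : Fact p.Prime] {f : ℤ[X]} {e : ℕ → ℕ → ℕ} (he : Vals f e p)
    {L : ℕ} (hd : f.natDegree ≤ 2 ^ L) (q K A S j : ℕ) (hk : 2 ^ wL L < p)
    (hN : 5 * NL L ^ 3 < p - 1) :
    ((xR L e q K A S j p : ℕ) : ZMod p) = ((rsL f L q K A S j : ℤ) : ZMod p) := by
  have hp0 : p ≠ 0 := hp.out.ne_zero
  have hN1 := one_le_NL L
  have hN3 : NL L ≤ NL L ^ 3 := Nat.le_self_pow (by norm_num) _
  have hN2 : NL L * NL L ≤ NL L ^ 3 := by
    calc NL L * NL L = NL L ^ 2 := by ring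
      _ ≤ _ := Nat.pow_le_pow_right hN1 (by norm_num)
  have hNp : NL L < p - 1 := by omega
  have h1 : ((rsL f L q K A S j : ℤ) : ZMod p) =
      resultant (FqL f L p) (GqL f L q K A S j p) (NL L) (2 * NL L) := by
    unfold rsL FqL GqL
    rw [resultant_map_map]; rfl
  rw [h1, res_eq_coeff p (FqL f L p) (GqL f L q K A S j p) (FqL_monic hd p) (NL L)
    (FqL_natDegree hd p) hN1 (GqL_natDegree_le hd q K A S j p) (by omega), coeff_eq_sum p]
  · unfold xR
    rw [cast_md _ hp0]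
    push_cast
    rw [cast_pred hp0, cast_sM hp0, neg_one_mul]
    congr 1
    refine Finset.sum_congr rfl fun b _ => ?_
    push_cast
    rw [cast_md _ hp0, cast_xX he hd q K A S j (b + 1) hk hN]
    push_cast
    rfl
  · unfold expser
    refine lt_of_le_of_lt (natDegree_sum_le_of_forall_le (n := NL L * NL L) _ _
      fun k hk' => ?_) (by omega)
    rw [mem_range] at hk'
    refine (natDegree_C_mul_le _ _).trans ?_
    refine natDegree_pow_le.trans (Nat.mul_le_mul (by omega) ?_)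
    unfold logser
    refine natDegree_sum_le_of_forall_le _ _ fun m hm => ?_
    rw [mem_range] at hm
    exact (natDegree_C_mul_X_pow_le _ _).trans hm
  · exact hNp

/-! ## Size of the resultant -/

/-- size of the exponent -/
def btL (L q j : ℕ) : ℕ := (18 * bigE L + q + j + 8) * NL L

lemma lsL_bound (L q K A S : ℕ) : ∀ t ∈ lsL L q K A S, t.2.1 ≤ 8 * bigE L ∧
    |(t.2.2 : ℝ)| ≤ 2 ^ bigE L := by
  intro t ht
  unfold lsL at ht
  rw [List.mem_map] at ht
  obtain ⟨i, _, rfl⟩ := ht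
  have hW : 2 ^ wL L = 8 * bigE L := by
    rw [wL, bigE, show 5 * L + 14 = (5 * L + 11) + 3 by ring,
      pow_add 2 _ 3]; ring
  have h8 := eight_bigE_le L
  have hL8 : 2 * (L + 4) ≤ 8 * bigE L := by
    have h1 : L + 4 ≤ 2 ^ (L + 4) := Nat.lt_two_pow_self.le
    have h2 : 2 ^ (L + 4) ≤ bigE L :=
      Nat.pow_le_pow_right (by norm_num) (by omega)
    omega
  have ha : dig (wL L) A i < 2 ^ wL L := dig_lt _ _ _
  have hs : dig (wL L) S i < 2 ^ wL L := dig_lt _ _ _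
  rw [hW] at ha hs
  generalize bigE L = E at *
  generalize dig (wL L) A i = a at *
  generalize dig (wL L) S i = s at *
  generalize 2 * (L + 4) = r at *
  refine ⟨ha.le, ?_⟩
  have h6 : (s : ℝ) ≤ ((2 ^ E : ℕ) : ℝ) := by exact_mod_cast hs.le.trans h8
  have h7 : (r : ℝ) ≤ ((2 ^ E : ℕ) : ℝ) := by exact_mod_cast hL8.trans h8
  push_cast at h6 h7 ⊢
  have h9 : (0 : ℝ) ≤ s := by positivity
  have h10 : (0 : ℝ) ≤ r := by positivity
  rw [abs_le]
  constructor <;> linarith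

theorem rsL_lt {f : ℤ[X]} {L : ℕ} (hdeg : f.natDegree ≤ 2 ^ L) (hn : nrm f ≤ 2 ^ 2 ^ L)
    (q K A S j : ℕ) : |rsL f L q K A S j| < 2 ^ btL L q j := by
  have hm := Fp_monic hdeg
  have hN : (Fp f L).natDegree = NL L := Fp_natDegree hdeg
  have hterm : ∀ z : ℂ, aeval z (Fp f L) = 0 →
      ‖aeval z (tpL f L q K A S j)‖ ≤ 2 ^ (18 * bigE L + q + j + 4) := by
    intro z hz
    refine (gpoly_bound _ z _ _ _ (fun k => derivs_upper hdeg hn k z hz)
      (lsL_bound L q K A S)).trans ?_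
    refine le_trans (le_of_eq ?_) (final_bound (bigE L) q j)
    have h1 : (lsL L q K A S).length = q := by unfold lsL; simp
    rw [h1]
    congr 1
    have h3 : (0 : ℤ) ≤ csL L q j := by unfold csL; positivity
    rw [← Int.cast_abs, abs_of_nonneg h3]
    unfold csL
    push_cast
    ring
  have hfin := res_abs_le (Fp f L) (tpL f L q K A S j) hm (2 * NL L) (by
    unfold tpL
    refine (natDegree_gpoly_le _ _ _ _).trans ?_
    rw [hN]) (2 ^ (18 * bigE L + q + j + 4)) (by positivity) hterm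
  rw [hN, ← pow_mul] at hfin
  have hlt : (2 : ℝ) ^ ((18 * bigE L + q + j + 4) * NL L) < 2 ^ btL L q j := by
    refine pow_lt_pow_right₀ (by norm_num) ?_
    unfold btL
    exact Nat.mul_lt_mul_of_pos_right (by omega) (one_le_NL L)
  have := hfin.trans_lt hlt
  unfold rsL
  exact_mod_cast this

/-! ## The sign of the resultant -/

lemma bound_ok (L p : ℕ) (hlt : 2 ^ (5 * L + 20) < p) :
    2 ^ wL L < p ∧ 5 * NL L ^ 3 < p - 1 := by
  refine ⟨?_, ?_⟩
  · refine lt_of_le_of_lt (Nat.pow_le_pow_right (by norm_num) ?_) hlt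
    unfold wL; omega
  · have h1 : NL L ^ 3 = 2 ^ (3 * L + 6) := by
      unfold NL; rw [← pow_mul]; congr 1; ring
    have h2 : 8 * NL L ^ 3 ≤ 2 ^ (5 * L + 20) := by
      rw [h1]
      calc 8 * 2 ^ (3 * L + 6) = 2 ^ (3 * L + 9) := by
            rw [show 3 * L + 9 = 3 * L + 6 + 3 by ring, pow_add 2 _ 3]; ring
        _ ≤ _ := Nat.pow_le_pow_right (by norm_num) (by omega)
    have h3 : 1 ≤ NL L ^ 3 := Nat.one_le_pow _ _ (one_le_NL _)
    omega

/-- environment: `j, S, A, K, q`, the parameters -/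
theorem chNeg {L A : (ℕ → ℕ) → ℕ} {P : (ℕ → ℕ) → ℤ[X]} {e : (ℕ → ℕ) → ℕ → ℕ → ℕ}
    (hL : FL L) (hA : Fn A) (he : DE e) (hd : ∀ v, (P v).natDegree ≤ 2 ^ L v)
    (hn : ∀ v, nrm (P v) ≤ 2 ^ 2 ^ L v)
    (hv : ∀ v p, p.Prime → A v < p → Vals (P v) (e v) p) {Q K B S J : (ℕ → ℕ) → ℕ}
    (hQ : Fn Q) (hK : Fn K) (hB : Fn B) (hS : Fn S) (hJ : Fn J) :
    CH fun v => rsL (P v) (L v) (Q v) (K v) (B v) (S v) (J v) < 0 := by
  refine CH.neg (Y := fun v => rsL (P v) (L v) (Q v) (K v) (B v) (S v) (J v))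
    (y := fun p v => xR (L v) (e v) (Q v) (K v) (B v) (S v) (J v) p)
    (A := fun v => max (A v) (2 ^ (5 * L v + 20)))
    (N := fun v => btL (L v) (Q v) (J v)) ?_ ?_ ?_ ?_ ?_
  · exact fnR hL.shift he.shift hQ.shift hK.shift hB.shift hS.shift hJ.shift (Fn.var 0)
  · have h20 : Fn fun v => 2 ^ (5 * L v + 20) :=
      (((Fn.const 5).mul hL.1).add (Fn.const 20)).two_pow
        (((PolyB.const 5).mul hL.2).add (PolyB.const 20))
    refine (Fn.ite (CH.le hA h20) h20 hA).congr fun v => ?_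
    split_ifs with h
    · exact (max_eq_right h).symm
    · exact (max_eq_left (not_le.1 h).le).symm
  · unfold btL
    exact (((((Fn.const 18).mul (fnE hL)).add hQ).add hJ).add (Fn.const 8)).mul (fnN hL)
  · intro v p hp hlt
    have := Fact.mk hp
    have h1 : A v < p := lt_of_le_of_lt (le_max_left _ _) hlt
    have h2 := bound_ok (L v) p (lt_of_le_of_lt (le_max_right _ _) hlt)
    exact cast_xR (hv v p hp h1) (hd v) _ _ _ _ _ h2.1 h2.2
  · intro v
    exact rsL_lt (hd v) (hn v) _ _ _ _ _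

/-- the certificate form of the root problem -/
theorem root_iffL {f : ℤ[X]} {L : ℕ} (hdeg : f.natDegree ≤ 2 ^ L)
    (hn : nrm f ≤ 2 ^ 2 ^ L) : (∃ x : ℝ, aeval x f = 0) ↔
    ∃ q < L + 3, ∃ K < 2 ^ (wL L * (L + 2)),
      ∃ A < 2 ^ (wL L * (L + 2)), ∃ S < 2 ^ (wL L * (L + 2)),
      ∃ j < NL L + 1, rsL f L q K A S j < 0 := by
  constructor
  · intro h
    obtain ⟨l, j, h1, h2, h3, h4⟩ := cert_of_root hdeg hn h
    have hW : 2 ^ wL L = 8 * bigE L := by
      rw [wL, bigE, show 5 * L + 14 = (5 * L + 11) + 3 by ring,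
        pow_add 2 _ 3]; ring
    have hNW : 2 ^ (L + 2) < 2 ^ wL L :=
      Nat.pow_lt_pow_right (by norm_num) (by unfold wL; omega)
    have hE0 : 0 < bigE L := by unfold bigE; positivity
    have hL8 : 4 * (L + 4) < 2 ^ wL L := by
      have h5 : L + 4 < 2 ^ (L + 4) := Nat.lt_two_pow_self
      have h6 : 2 ^ (L + 4) * 4 ≤ 2 ^ wL L := by
        rw [show (4 : ℕ) = 2 ^ 2 by norm_num, ← pow_add]
        exact Nat.pow_le_pow_right (by norm_num) (by unfold wL; omega)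
      omega
    have hmem : ∀ i < l.length, l.getD i (0, 0, 0) ∈ l := by
      intro i hi
      rw [List.getD_eq_getElem _ _ hi]
      exact List.getElem_mem hi
    obtain ⟨K, hK1, hK2⟩ := exists_dig (wL L) l.length (fun i => (l.getD i (0, 0, 0)).1)
      (fun i hi => lt_of_le_of_lt (h3 _ (hmem i hi)).2.1 hNW)
    obtain ⟨A, hA1, hA2⟩ := exists_dig (wL L) l.length (fun i => (l.getD i (0, 0, 0)).2.1)
      (fun i hi => by
        have := (h3 _ (hmem i hi)).2.2.1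
        rw [hW]; omega)
    obtain ⟨S, hS1, hS2⟩ := exists_dig (wL L) l.length
      (fun i => ((l.getD i (0, 0, 0)).2.2 + (2 * (L + 4) : ℕ)).toNat)
      (fun i hi => by
        have h5 := (abs_le.1 (h3 _ (hmem i hi)).2.2.2)
        rw [← Int.ofNat_lt, Int.toNat_of_nonneg (by push_cast; linarith [h5.1])]
        have h6 : ((4 * (L + 4) : ℕ) : ℤ) < ((2 ^ wL L : ℕ) : ℤ) := by
          exact_mod_cast hL8
        refine lt_of_le_of_lt ?_ h6
        push_cast
        linarith [h5.2])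
    have hpow : 2 ^ (wL L * l.length) ≤ 2 ^ (wL L * (L + 2)) :=
      Nat.pow_le_pow_right (by norm_num) (Nat.mul_le_mul_left _ h1)
    have hlst : lsL L l.length K A S = l := by
      unfold lsL
      apply List.ext_getElem
      · simp
      · intro i hi1 hi2
        rw [List.getElem_map, List.getElem_range, hK2 i hi2, hA2 i hi2, hS2 i hi2]
        have h5 := (abs_le.1 (h3 _ (hmem i hi2)).2.2.2)
        rw [Int.toNat_of_nonneg (by push_cast; linarith [h5.1])]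
        rw [List.getD_eq_getElem _ _ hi2]
        ext <;> simp
    refine ⟨l.length, by omega, K, lt_of_lt_of_le hK1 hpow, A, lt_of_lt_of_le hA1 hpow, S,
      lt_of_lt_of_le hS1 hpow, j, by unfold NL; omega, ?_⟩
    unfold rsL tpL csL NL
    rw [hlst]
    exact h4
  · rintro ⟨q, _, K, _, A, _, S, _, j, _, h⟩
    refine root_of_res hdeg hn (tpL f L q K A S j) ?_ h
    unfold tpL
    refine (natDegree_gpoly_le _ _ _ _).trans ?_
    rw [Fp_natDegree hdeg]

end GEN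

open GEN in
theorem I_GEN : SGEN := by
  intro L A P e hL bL hA he hd hn hv
  have hFL : FL L := ⟨hL, bL⟩
  have hB : Fn fun v => 2 ^ (wL (L v) * (L v + 2)) :=
    ((fnW hFL).mul (hL.add (Fn.const 2))).two_pow
      ((pbW hFL).mul (bL.add (PolyB.const 2)))
  have key : CH fun v => ∃ q < L v + 3,
      ∃ K < 2 ^ (wL (L v) * (L v + 2)),
      ∃ B < 2 ^ (wL (L v) * (L v + 2)),
      ∃ S < 2 ^ (wL (L v) * (L v + 2)),
      ∃ j < NL (L v) + 1, rsL (P v) (L v) q K B S j < 0 := by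
    refine CH.exB (R := fun q v => ∃ K < 2 ^ (wL (L v) * (L v + 2)),
      ∃ B < 2 ^ (wL (L v) * (L v + 2)),
      ∃ S < 2 ^ (wL (L v) * (L v + 2)),
      ∃ j < NL (L v) + 1, rsL (P v) (L v) q K B S j < 0) (hL.add (Fn.const 3)) ?_
    refine CH.exB (R := fun K w => (fun v => ∃ B < 2 ^ (wL (L v) * (L v + 2)),
      ∃ S < 2 ^ (wL (L v) * (L v + 2)),
      ∃ j < NL (L v) + 1, rsL (P v) (L v) (w 0) K B S j < 0) (RootCH.tail w)) hB.shift ?_
    refine CH.exB (R := fun B w => (fun v => ∃ S < 2 ^ (wL (L v) * (L v + 2)),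
      ∃ j < NL (L v) + 1, rsL (P v) (L v) (w 1) (w 0) B S j < 0)
      (RootCH.tail (RootCH.tail w))) hB.shift.shift ?_
    refine CH.exB (R := fun S w => (fun v => ∃ j < NL (L v) + 1,
      rsL (P v) (L v) (w 2) (w 1) (w 0) S j < 0)
      (RootCH.tail (RootCH.tail (RootCH.tail w)))) hB.shift.shift.shift ?_
    refine CH.exB (R := fun j w => (fun v =>
      rsL (P v) (L v) (w 3) (w 2) (w 1) (w 0) j < 0)
      (RootCH.tail (RootCH.tail (RootCH.tail (RootCH.tail w)))))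
      ((fnN hFL.shift.shift.shift.shift).add Fn.one) ?_
    exact chNeg (P := fun v => P (RootCH.tail (RootCH.tail (RootCH.tail (RootCH.tail
        (RootCH.tail v)))))) hFL.shift.shift.shift.shift.shift
      hA.shift.shift.shift.shift.shift
      (DE.shift (DE.shift (DE.shift (DE.shift (DE.shift he))))) (fun v => hd _)
      (fun v => hn _) (fun v p hp h x => hv _ x p hp h) (Fn.var 4) (Fn.var 3) (Fn.var 2)
      (Fn.var 1) (Fn.var 0)
  exact key.congr fun v => (root_iffL (hd v) (hn v)).symm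

end Pool.Agent.Work.MP_859ada_lc.ER
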