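import Pool.Agent.Work.MP_859ada_lc.ER.Base

/-!
# Real solutions of the deformed system
-/

set_option autoImplicit false

namespace Pool.Agent.Work.MP_859ada_lc.ER

open MvPolynomial

namespace LEV

/-- partial derivative -/
theorem hasDerivAt_eval {m : ℕ} (f : MvPolynomial (Fin m) ℝ) (y : Fin m → ℝ) (i : Fin m) (s : ℝ) :
    HasDerivAt (fun s => eval (Function.update y i s) f)
      (eval (Function.update y i s) (pderiv i f)) s := by
  induction f using MvPolynomial.induction_on with
  | C a => simpa using hasDerivAt_const s a
  | add p q hp hq =>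
    simp only [map_add]
    exact hp.add hq
  | mul_X p j hp =>
    have h1 : HasDerivAt (fun s : ℝ => Function.update y i s j)
        (if j = i then 1 else 0) s := by
      by_cases hj : j = i
      · subst hj
        simp only [Function.update_self, if_true]
        exact hasDerivAt_id s
      · simpa [hj] using hasDerivAt_const s (y j)
    have h2 := hp.mul h1
    have h3 : eval (Function.update y i s) (pderiv i (p * X j)) =
        eval (Function.update y i s) (pderiv i p) * Function.update y i s j +
          eval (Function.update y i s) p * (if j = i then 1 else 0) := by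
      rw [Derivation.leibniz, pderiv_X]
      by_cases hj : j = i
      · subst hj
        simp
        ring
      · have : (Pi.single i 1 : Fin m → MvPolynomial (Fin m) ℝ) j = 0 := by
          rw [Pi.single_apply, if_neg hj]
        rw [this]
        simp [hj]
        ring
    rw [h3]
    simp only [map_mul, eval_X]
    exact h2

/-- the polynomial -/
noncomputable def FP {n : ℕ} (f : MvPolynomial (Fin (n + 1)) ℝ) (h : ℝ) :
    MvPolynomial (Fin (n + 1)) ℝ := C (6 * h) * f + ∑ i, X i ^ 6

theorem eval_FP {n : ℕ} (f : MvPolynomial (Fin (n + 1)) ℝ) (h : ℝ) (y : Fin (n + 1) → ℝ) :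
    eval y (FP f h) = 6 * h * eval y f + ∑ i, y i ^ 6 := by
  unfold FP
  rw [eval_add, eval_mul, eval_C, map_sum]
  simp

theorem pderiv_FP {n : ℕ} (f : MvPolynomial (Fin (n + 1)) ℝ) (h : ℝ) (y : Fin (n + 1) → ℝ)
    (i : Fin (n + 1)) :
    eval y (pderiv i (FP f h)) = 6 * (h * eval y (pderiv i f) + y i ^ 5) := by
  unfold FP
  rw [map_add, pderiv_C_mul, map_sum]
  have h1 : ∑ j : Fin (n + 1), pderiv i ((X j : MvPolynomial (Fin (n + 1)) ℝ) ^ 6) =
      6 * X i ^ 5 := by
    rw [Finset.sum_eq_single i]
    · rw [Derivation.leibniz_pow]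
      simp
    · intro j _ hj
      rw [Derivation.leibniz_pow, pderiv_X_of_ne hj]
      simp
    · intro hi
      exact absurd (Finset.mem_univ i) hi
  rw [h1]
  simp
  ring

/-- the system -/
theorem sys_iff {n : ℕ} (f : MvPolynomial (Fin (n + 1)) ℝ) (h c : ℝ) (y : Fin (n + 1) → ℝ) :
    (∀ i, y i ^ dd n i = eval y (GG f h c i)) ↔
      (eval y (FP f h) = c ∧ ∀ i, i ≠ 0 → h * eval y (pderiv i f) + y i ^ 5 = 0) := by
  have e0 : eval y (GG f h c 0) =
      c - h * (6 * eval y f - ∑ j : Fin (n + 1), if j = 0 then 0 else y j * eval y (pderiv j f)) := by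
    unfold GG
    rw [if_pos rfl, eval_sub, eval_mul, eval_C, eval_C, eval_sub, map_sum]
    congr 3
    · simp
    · apply Finset.sum_congr rfl
      intro j _
      by_cases hj : j = 0
      · simp [hj]
      · simp [hj]
  have ei : ∀ i, i ≠ 0 → eval y (GG f h c i) = - (h * eval y (pderiv i f)) := by
    intro i hi
    unfold GG
    rw [if_neg hi]
    simp
  have d0 : dd n 0 = 6 := by simp [dd]
  have di : ∀ i, i ≠ 0 → dd n i = 5 := fun i hi => by simp [dd, hi]
  have key : (∀ i, i ≠ 0 → h * eval y (pderiv i f) + y i ^ 5 = 0) →
      h * (∑ j : Fin (n + 1), if j = 0 then 0 else y j * eval y (pderiv j f)) =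
        y 0 ^ 6 - ∑ j, y j ^ 6 := by
    intro hd
    have h1 : ∑ j : Fin (n + 1), y j ^ 6 = y 0 ^ 6 +
        ∑ j : Fin (n + 1), if j = 0 then 0 else y j ^ 6 := by
      have : ∀ j : Fin (n + 1), y j ^ 6 = (if j = 0 then y 0 ^ 6 else 0) +
          (if j = 0 then 0 else y j ^ 6) := by
        intro j
        by_cases hj : j = 0
        · simp [hj]
        · simp [hj]
      rw [Finset.sum_congr rfl (fun j _ => this j), Finset.sum_add_distrib]
      simp
    rw [h1, Finset.mul_sum]
    have h2 : ∀ j : Fin (n + 1), h * (if j = 0 then 0 else y j * eval y (pderiv j f)) =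
        -(if j = 0 then 0 else y j ^ 6) := by
      intro j
      by_cases hj : j = 0
      · simp [hj]
      · simp only [hj, if_false]
        have := hd j hj
        linear_combination y j * this
    rw [Finset.sum_congr rfl (fun j _ => h2 j), Finset.sum_neg_distrib]
    ring
  constructor
  · intro hsys
    have hd : ∀ i, i ≠ 0 → h * eval y (pderiv i f) + y i ^ 5 = 0 := by
      intro i hi
      have := hsys i
      rw [ei i hi, di i hi] at this
      linarith
    refine ⟨?_, hd⟩
    have h0 := hsys 0
    rw [e0, d0] at h0
    rw [eval_FP]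
    have hk := key hd
    linear_combination h0 + hk
  · rintro ⟨hF, hd⟩ i
    by_cases hi : i = 0
    · subst hi
      rw [e0, d0]
      rw [eval_FP] at hF
      have hk := key hd
      linear_combination hF - hk
    · rw [ei i hi, di i hi]
      have := hd i hi
      linarith

end LEV

open LEV in
theorem I_LEV : SLEV := by
  intro n f h c hh hc _ hf
  constructor
  · rintro ⟨y, hy⟩
    refine ⟨y, ?_⟩
    rw [← eval_FP, ((sys_iff f h c y).1 hy).1]
  · rintro ⟨y0, hy0⟩
    set K : Set (Fin (n + 1) → ℝ) := {y | eval y (FP f h) ≤ c} with hK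
    have hcont : Continuous fun y : Fin (n + 1) → ℝ => eval y (FP f h) :=
      MvPolynomial.continuous_eval _
    have hKc : IsClosed K := isClosed_le hcont continuous_const
    have hKb : Bornology.IsBounded K := by
      apply (Metric.isBounded_closedBall (x := (0 : Fin (n + 1) → ℝ)) (r := max 1 c)).subset
      intro y hy
      rw [mem_closedBall_zero_iff, pi_norm_le_iff_of_nonneg (le_trans zero_le_one (le_max_left _ _))]
      intro i
      rw [Real.norm_eq_abs]
      have h1 : eval y (FP f h) ≤ c := hy
      rw [eval_FP] at h1
      have h2 : 0 ≤ 6 * h * eval y f := by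
        have := hf y
        positivity
      have h3 : y i ^ 6 ≤ ∑ j, y j ^ 6 :=
        Finset.single_le_sum (f := fun j => y j ^ 6) (fun j _ => by positivity)
          (Finset.mem_univ i)
      have h4 : y i ^ 6 ≤ c := by linarith
      rcases le_total |y i| 1 with h5 | h5
      · exact h5.trans (le_max_left _ _)
      · refine le_trans ?_ (le_max_right _ _)
        refine le_trans ?_ h4
        have h6 : |y i| ^ 6 = y i ^ 6 := by
          rw [← abs_pow, abs_of_nonneg (by positivity)]
        rw [← h6]
        exact le_self_pow₀ h5 (by norm_num)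
    have hKcomp : IsCompact K := Metric.isCompact_of_isClosed_isBounded hKc hKb
    have hKne : K.Nonempty := ⟨y0, by change eval y0 (FP f h) ≤ c; rw [eval_FP]; exact hy0⟩
    obtain ⟨y, hyK, hymax⟩ := hKcomp.exists_isMaxOn hKne (continuous_apply 0).continuousOn
    have hmax : ∀ z, eval z (FP f h) ≤ c → z 0 ≤ y 0 := fun z hz => hymax hz
    -- a maximiser lies on the boundary
    have hbd : ∀ z, eval z (FP f h) ≤ c → z 0 = y 0 → eval z (FP f h) = c := by
      intro z hz hz0
      by_contra hne
      have hlt : eval z (FP f h) < c := lt_of_le_of_ne hz hne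
      have hd := (hasDerivAt_eval (FP f h) z 0 (z 0)).continuousAt
      have hlt' : eval (Function.update z 0 (z 0)) (FP f h) < c := by
        rw [Function.update_eq_self]; exact hlt
      have hev := hd.eventually_lt_const hlt'
      rw [Metric.eventually_nhds_iff] at hev
      obtain ⟨ε, hε, hball⟩ := hev
      have h1 := hball (y := z 0 + ε / 2) (by
        rw [Real.dist_eq]
        rw [show z 0 + ε / 2 - z 0 = ε / 2 by ring, abs_of_pos (by linarith)]
        linarith)
      have h2 := hmax _ h1.le
      rw [Function.update_self] at h2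
      linarith
    have hF := hbd y hyK rfl
    refine ⟨y, (sys_iff f h c y).2 ⟨hF, ?_⟩⟩
    intro i hi
    have hd := hasDerivAt_eval (FP f h) y i (y i)
    rw [Function.update_eq_self, pderiv_FP] at hd
    have hmin : IsLocalMin (fun s => eval (Function.update y i s) (FP f h)) (y i) := by
      apply Filter.Eventually.of_forall
      intro s
      change eval (Function.update y i (y i)) (FP f h) ≤ eval (Function.update y i s) (FP f h)
      rw [Function.update_eq_self, hF]
      by_contra hcon
      push Not at hcon
      have h1 : (Function.update y i s) 0 = y 0 := Function.update_of_ne (Ne.symm hi) _ _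
      have h2 := hbd _ hcon.le h1
      exact absurd h2 hcon.ne
    have := hmin.hasDerivAt_eq_zero hd
    linarith

end Pool.Agent.Work.MP_859ada_lc.ER
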