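import Pool.Agent.Work.MP_859ada_lc.ER.Base

set_option autoImplicit false

namespace Pool.Agent.Work.MP_859ada_lc.ER

open MvPolynomial

namespace MAP

variable {R S : Type} [CommRing R] [CommRing S] {n : ℕ} {d : Fin n → ℕ}

/-- The first column. -/
theorem first (φ : R →+* S) (G : Fin n → MvPolynomial (Fin n) R)
    (M : MvPolynomial (Fin n) R →ₐ[R] Matrix (Box d) (Box d) R)
    (M' : MvPolynomial (Fin n) S →ₐ[S] Matrix (Box d) (Box d) S) (hM : IsMul d G M)
    (hM' : IsMul d (fun i => map φ (G i)) M') (z : Box d) (hz : ∀ i, (z i : ℕ) = 0)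
    (f : MvPolynomial (Fin n) R) : ∀ a, M' (map φ f) a z = φ (M f a z) := by
  refine red_induction (d := d) G hM.deg (fun f => ∀ a, M' (map φ f) a z = φ (M f a z))
    ?_ ?_ ?_ ?_ ?_ f
  · intro a
    simp
  · intro f g hf hg a
    rw [map_add, map_add, map_add, Matrix.add_apply, Matrix.add_apply, hf a, hg a, map_add]
  · intro c f hf a
    rw [map_mul, map_C, ← smul_eq_C_mul, ← smul_eq_C_mul, map_smul, map_smul,
      Matrix.smul_apply, Matrix.smul_apply, smul_eq_mul, smul_eq_mul, hf a, map_mul]
  · intro b a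
    have h1 := hM.col z hz a b
    have h2 := hM'.col z hz a b
    rw [map_monomial, map_one, h1, h2]
    split_ifs <;> simp
  · intro i m hf a
    have h1 : M (X i ^ d i * monomial m 1) = M (G i * monomial m 1) := by
      rw [map_mul, map_mul, hM.rel i]
    have h2 : M' (map φ (X i ^ d i * monomial m 1)) = M' (map φ (G i * monomial m 1)) := by
      rw [map_mul, map_mul, map_mul, map_mul, map_pow, map_X, hM'.rel i]
    rw [h1, h2]
    exact hf a

end MAP

theorem I_MAP (hCOL : SCOL) : SMAP := by
  intro R S _ _ φ n d G M M' hM hM' g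
  have hd : ∀ i, 0 < d i := fun i => lt_of_le_of_lt (Nat.zero_le _) (hM.deg i)
  let z : Box d := fun i => ⟨0, hd i⟩
  have hz : ∀ i, (z i : ℕ) = 0 := fun i => rfl
  ext a b
  rw [Matrix.map_apply, hCOL S n d _ M' hM' z hz (map φ g) a b, hCOL R n d G M hM z hz g a b,
    ← MAP.first φ G M M' hM hM' z hz]
  have e : map φ (g * monomial (bx b) 1) = map φ g * monomial (bx b) 1 := by
    rw [RingHom.map_mul, map_monomial, RingHom.map_one]
  rw [e]

end Pool.Agent.Work.MP_859ada_lc.ER
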