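import Pool.Agent.Work.MP_859ada_lc.ER.Base

/-!
MP_859ada_lc, project ER, item MUL: existence of the multiplication matrices. The monomials of the
box span the quotient by the ideal of the `X i ^ d i - G i` (reduction), and they are linearly
independent because the residue functional kills the ideal and has a unitriangular Gram matrix.
-/

set_option autoImplicit false

namespace Pool.Agent.Work.MP_859ada_lc.ER

open MvPolynomial

namespace MUL

variable {R : Type} [CommRing R] {n : ℕ}

/-- the ideal -/
noncomputable def J (d : Fin n → ℕ) (G : Fin n → MvPolynomial (Fin n) R) :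
    Ideal (MvPolynomial (Fin n) R) :=
  Ideal.span (Set.range fun i => X i ^ d i - G i)

theorem tau_add (d : Fin n → ℕ) (G : Fin n → MvPolynomial (Fin n) R) (K : ℕ)
    (p q : MvPolynomial (Fin n) R) : tau d G K (p + q) = tau d G K p + tau d G K q := by
  unfold tau
  rw [← Finset.sum_add_distrib]
  refine Finset.sum_congr rfl fun k _ => ?_
  rw [add_mul, coeff_add]

theorem tau_C_mul (d : Fin n → ℕ) (G : Fin n → MvPolynomial (Fin n) R) (K : ℕ) (c : R)
    (q : MvPolynomial (Fin n) R) : tau d G K (C c * q) = c * tau d G K q := by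
  unfold tau
  rw [Finset.mul_sum]
  refine Finset.sum_congr rfl fun k _ => ?_
  rw [mul_assoc, coeff_C_mul]

theorem tau_zero (d : Fin n → ℕ) (G : Fin n → MvPolynomial (Fin n) R) (K : ℕ) :
    tau d G K 0 = 0 := by
  unfold tau
  simp

theorem tau_sum {α : Type} (s : Finset α) (d : Fin n → ℕ) (G : Fin n → MvPolynomial (Fin n) R)
    (K : ℕ) (f : α → MvPolynomial (Fin n) R) :
    tau d G K (∑ a ∈ s, f a) = ∑ a ∈ s, tau d G K (f a) := by
  classical
  induction s using Finset.induction_on with
  | empty => simp [tau_zero]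
  | insert a s ha ih => rw [Finset.sum_insert ha, Finset.sum_insert ha, tau_add, ih]

/-- The residue functional kills the ideal. -/
theorem tau_ideal (hTAU : STAU) (d : Fin n → ℕ) (G : Fin n → MvPolynomial (Fin n) R)
    (hG : ∀ i, (G i).totalDegree < d i) {x : MvPolynomial (Fin n) R} (hx : x ∈ J d G) :
    ∃ K, tau d G K x = 0 := by
  obtain ⟨c, rfl⟩ := Ideal.mem_span_range_iff_exists_fun.1 hx
  refine ⟨∑ i, ((c i).totalDegree + d i), ?_⟩
  rw [tau_sum]
  refine Finset.sum_eq_zero fun i _ => ?_
  exact hTAU R n d G _ (c i) i hG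
    (Finset.single_le_sum (f := fun i => (c i).totalDegree + d i) (fun _ _ => Nat.zero_le _)
      (Finset.mem_univ i))

/-- Linear independence modulo the ideal. -/
theorem indep (hTAU : STAU) (hTK : STK) (d : Fin n → ℕ) (G : Fin n → MvPolynomial (Fin n) R)
    (hG : ∀ i, (G i).totalDegree < d i) (c : Box d → R)
    (hc : ∑ a : Box d, C (c a) * monomial (bx a) 1 ∈ J d G) : ∀ a, c a = 0 := by
  classical
  obtain ⟨_, hsmall, htop⟩ := hTK R n d G hG
  have hlt : ∀ (a : Box d) (i : Fin n), (a i : ℕ) < d i := fun a i => (a i).2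
  have hS : ∀ a : Box d, ∑ i, (a i : ℕ) ≤ ∑ i, (d i - 1) := fun a =>
    Finset.sum_le_sum fun i _ => by have := hlt a i; omega
  have key : ∀ (N : ℕ) (b : Box d), (∑ i, (d i - 1)) - ∑ i, (b i : ℕ) < N → c b = 0 := by
    intro N
    induction N with
    | zero => intro b hb; omega
    | succ N ih =>
      intro b hb
      have hx : monomial (ex fun i => d i - 1 - (b i : ℕ)) 1 *
          ∑ a : Box d, C (c a) * monomial (bx a) 1 ∈ J d G := Ideal.mul_mem_left _ _ hc
      obtain ⟨K, hK⟩ := tau_ideal hTAU d G hG hx
      rw [Finset.mul_sum, tau_sum] at hK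
      have hterm : ∀ a : Box d, tau d G K (monomial (ex fun i => d i - 1 - (b i : ℕ)) 1 *
          (C (c a) * monomial (bx a) 1)) =
          c a * tau d G K (monomial ((ex fun i => d i - 1 - (b i : ℕ)) + bx a) 1) := by
        intro a
        rw [mul_left_comm, monomial_mul, one_mul, tau_C_mul]
      have hsum : ∀ a : Box d, ∑ i, ((ex fun i => d i - 1 - (b i : ℕ)) + bx a) i +
          ∑ i, (b i : ℕ) = ∑ i, (d i - 1) + ∑ i, (a i : ℕ) := by
        intro a
        rw [← Finset.sum_add_distrib, ← Finset.sum_add_distrib]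
        refine Finset.sum_congr rfl fun i _ => ?_
        have := hlt b i
        simp only [Finsupp.add_apply, ex_apply, bx_apply]
        omega
      have hne : ∀ a : Box d, a ≠ b → tau d G K (monomial (ex fun i => d i - 1 - (b i : ℕ)) 1 *
          (C (c a) * monomial (bx a) 1)) = 0 := by
        intro a hab
        rw [hterm a]
        have h1 := hsum a
        have h2 := hS a
        have h3 := hS b
        rcases lt_trichotomy (∑ i, (a i : ℕ)) (∑ i, (b i : ℕ)) with hl | he | hg
        · rw [hsmall K _ (Or.inl (by omega)), mul_zero]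
        · have hi : ∃ i, a i ≠ b i := by
            by_contra hcon
            push Not at hcon
            exact hab (funext hcon)
          obtain ⟨i, hi⟩ := hi
          have hi' : (a i : ℕ) ≠ b i := fun h => hi (Fin.ext h)
          have h4 := hlt b i
          rw [hsmall K _ (Or.inr ⟨by omega, i, by
            simp only [Finsupp.add_apply, ex_apply, bx_apply]; omega⟩), mul_zero]
        · rw [ih a (by omega), zero_mul]
      rw [Finset.sum_eq_single b (fun a _ h => hne a h) (by simp), hterm b] at hK
      have he : ((ex fun i => d i - 1 - (b i : ℕ)) + bx b : Fin n →₀ ℕ) =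
          ex fun i => d i - 1 := by
        ext i
        have := hlt b i
        simp only [Finsupp.add_apply, ex_apply, bx_apply]
        omega
      rw [he, htop, mul_one] at hK
      exact hK
  intro a
  exact key _ a (Nat.lt_succ_self _)

/-- The classes of the monomials of the box span the quotient. -/
theorem span_top (d : Fin n → ℕ) (G : Fin n → MvPolynomial (Fin n) R)
    (hG : ∀ i, (G i).totalDegree < d i) (f : MvPolynomial (Fin n) R) :
    Ideal.Quotient.mk (J d G) f ∈ Submodule.span R
      (Set.range fun a : Box d => Ideal.Quotient.mk (J d G) (monomial (bx a) 1)) := by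
  refine red_induction G hG (fun f => Ideal.Quotient.mk (J d G) f ∈ Submodule.span R
      (Set.range fun a : Box d => Ideal.Quotient.mk (J d G) (monomial (bx a) 1)))
      ?_ ?_ ?_ ?_ ?_ f
  · rw [map_zero]
    exact Submodule.zero_mem _
  · intro f g hf hg
    rw [map_add]
    exact Submodule.add_mem _ hf hg
  · intro c f hf
    have e : Ideal.Quotient.mk (J d G) (C c * f) = c • Ideal.Quotient.mk (J d G) f := by
      rw [← smul_eq_C_mul]
      rfl
    rw [e]
    exact Submodule.smul_mem _ _ hf
  · intro b
    exact Submodule.subset_span ⟨b, rfl⟩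
  · intro i m hm
    have e : Ideal.Quotient.mk (J d G) (X i ^ d i * monomial m 1) =
        Ideal.Quotient.mk (J d G) (G i * monomial m 1) := by
      rw [Ideal.Quotient.eq, ← sub_mul]
      exact Ideal.mul_mem_right _ _ (Ideal.subset_span ⟨i, rfl⟩)
    rw [e]
    exact hm

end MUL

theorem I_MUL (hTAU : STAU) (hTK : STK) : SMUL := by
  classical
  intro R _ n d G hG
  have hli : LinearIndependent R
      (fun a : Box d => Ideal.Quotient.mk (MUL.J d G) (monomial (bx a) 1)) := by
    rw [Fintype.linearIndependent_iff]
    intro c hc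
    refine MUL.indep hTAU hTK d G hG c ?_
    rw [← Ideal.Quotient.eq_zero_iff_mem, map_sum, ← hc]
    refine Finset.sum_congr rfl fun a _ => ?_
    rw [← smul_eq_C_mul]
    rfl
  have hsp : ⊤ ≤ Submodule.span R
      (Set.range fun a : Box d => Ideal.Quotient.mk (MUL.J d G) (monomial (bx a) 1)) := by
    intro x _
    obtain ⟨f, rfl⟩ := Ideal.Quotient.mk_surjective x
    exact MUL.span_top d G hG f
  let B := Module.Basis.mk hli hsp
  refine ⟨(Algebra.leftMulMatrix B).comp (Ideal.Quotient.mkₐ R (MUL.J d G)), hG, ?_, ?_⟩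
  · intro i
    have e : Ideal.Quotient.mkₐ R (MUL.J d G) (X i ^ d i) =
        Ideal.Quotient.mkₐ R (MUL.J d G) (G i) := by
      rw [Ideal.Quotient.mkₐ_eq_mk, Ideal.Quotient.eq]
      exact Ideal.subset_span ⟨i, rfl⟩
    rw [AlgHom.comp_apply, AlgHom.comp_apply, e]
  · intro z hz a b
    rw [AlgHom.comp_apply, Algebra.leftMulMatrix_eq_repr_mul]
    have hBz : B z = 1 := by
      have h1 : B z = Ideal.Quotient.mk (MUL.J d G) (monomial (bx z) 1) :=
        Module.Basis.mk_apply hli hsp z
      have h2 : (bx z : Fin n →₀ ℕ) = 0 := by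
        ext i
        simpa using hz i
      rw [h1, h2]
      rfl
    have hBb : Ideal.Quotient.mkₐ R (MUL.J d G) (monomial (bx b) 1) = B b :=
      (Module.Basis.mk_apply hli hsp b).symm
    rw [hBz, mul_one, hBb, Module.Basis.repr_self, Finsupp.single_apply]
    simp only [eq_comm]

end Pool.Agent.Work.MP_859ada_lc.ER
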