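import Pool.Agent.Work.MP_859ada_lc.ER.Base

set_option autoImplicit false

namespace Pool.Agent.Work.MP_859ada_lc.ER

open MvPolynomial

namespace NH

theorem nrm_sum_le {ι : Type} (s : Finset ι) (f : ι → Polynomial ℤ) :
    RootCH.nrm (∑ i ∈ s, f i) ≤ ∑ i ∈ s, RootCH.nrm (f i) := by
  classical
  induction s using Finset.induction_on with
  | empty => simp [RootCH.nrm]
  | insert a s ha ih =>
    rw [Finset.sum_insert ha, Finset.sum_insert ha]
    exact (RootCH.nrm_add_le _ _).trans (Nat.add_le_add_left ih _)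

/-- expansion of `M (g * y ^ m')` -/
theorem expand {n : ℕ} {d : Fin n → ℕ}
    (M : MvPolynomial (Fin n) (Polynomial ℤ) →ₐ[Polynomial ℤ]
      Matrix (Box d) (Box d) (Polynomial ℤ))
    (g : MvPolynomial (Fin n) (Polynomial ℤ)) (m' : Fin n →₀ ℕ) (a z : Box d) :
    M (g * monomial m' 1) a z =
      ∑ μ ∈ g.support, g.coeff μ * M (monomial (μ + m') 1) a z := by
  have h1 : g * monomial m' 1 = ∑ μ ∈ g.support, g.coeff μ • (monomial (μ + m') 1 :
      MvPolynomial (Fin n) (Polynomial ℤ)) := by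
    conv_lhs => rw [MvPolynomial.as_sum g]
    rw [Finset.sum_mul]
    refine Finset.sum_congr rfl fun μ _ => ?_
    rw [monomial_mul, mul_one, smul_monomial, smul_eq_mul, mul_one]
  rw [h1, map_sum, Matrix.sum_apply]
  refine Finset.sum_congr rfl fun μ _ => ?_
  rw [map_smul, Matrix.smul_apply, smul_eq_mul]

/-- one step -/
theorem step {n : ℕ} {d : Fin n → ℕ}
    (M : MvPolynomial (Fin n) (Polynomial ℤ) →ₐ[Polynomial ℤ]
      Matrix (Box d) (Box d) (Polynomial ℤ)) (κ K : ℕ) (z : Box d)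
    (ih : ∀ m : Fin n →₀ ℕ, ∑ j, m j ≤ K →
      ∑ a, RootCH.nrm (M (monomial m 1) a z) ≤ κ ^ K ∧
        ∀ a, (M (monomial m 1) a z).natDegree ≤ K)
    (g : MvPolynomial (Fin n) (Polynomial ℤ)) (m' : Fin n →₀ ℕ)
    (hg : ∀ m, (g.coeff m).natDegree ≤ 1)
    (hK : g.totalDegree + ∑ j, m' j ≤ K) :
    ∑ a, RootCH.nrm (M (g * monomial m' 1) a z) ≤ l2 g * κ ^ K ∧
      ∀ a, (M (g * monomial m' 1) a z).natDegree ≤ 1 + K := by
  have hμ : ∀ μ ∈ g.support, ∑ j, (μ + m') j ≤ K := by
    intro μ hμ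
    have h1 := sum_le_totalDegree (mem_support_iff.1 hμ)
    simp only [Finsupp.add_apply, Finset.sum_add_distrib]
    omega
  constructor
  · calc ∑ a, RootCH.nrm (M (g * monomial m' 1) a z)
        ≤ ∑ a, ∑ μ ∈ g.support, RootCH.nrm (g.coeff μ) *
            RootCH.nrm (M (monomial (μ + m') 1) a z) := by
          refine Finset.sum_le_sum fun a _ => ?_
          rw [expand]
          exact (nrm_sum_le _ _).trans (Finset.sum_le_sum fun μ _ => RootCH.nrm_mul_le _ _)
      _ = ∑ μ ∈ g.support, RootCH.nrm (g.coeff μ) *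
            ∑ a, RootCH.nrm (M (monomial (μ + m') 1) a z) := by
          rw [Finset.sum_comm]
          exact Finset.sum_congr rfl fun μ _ => (Finset.mul_sum _ _ _).symm
      _ ≤ ∑ μ ∈ g.support, RootCH.nrm (g.coeff μ) * κ ^ K :=
          Finset.sum_le_sum fun μ h => Nat.mul_le_mul_left _ (ih _ (hμ μ h)).1
      _ = l2 g * κ ^ K := by rw [l2, Finset.sum_mul]
  · intro a
    rw [expand]
    refine Polynomial.natDegree_sum_le_of_forall_le _ _ fun μ h => ?_
    exact Polynomial.natDegree_mul_le.trans (Nat.add_le_add (hg μ) ((ih _ (hμ μ h)).2 a))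

/-- the monomials -/
theorem mono {n : ℕ} {d : Fin n → ℕ} {G : Fin n → MvPolynomial (Fin n) (Polynomial ℤ)}
    (M : MvPolynomial (Fin n) (Polynomial ℤ) →ₐ[Polynomial ℤ]
      Matrix (Box d) (Box d) (Polynomial ℤ)) (κ : ℕ) (hM : IsMul d G M) (hκ : 1 ≤ κ)
    (hG : ∀ i, l2 (G i) ≤ κ) (hG1 : ∀ i m, ((G i).coeff m).natDegree ≤ 1)
    (z : Box d) (hz : ∀ i, (z i : ℕ) = 0) (K : ℕ) :
    ∀ m : Fin n →₀ ℕ, ∑ j, m j ≤ K →
      ∑ a, RootCH.nrm (M (monomial m 1) a z) ≤ κ ^ K ∧
        ∀ a, (M (monomial m 1) a z).natDegree ≤ K := by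
  classical
  induction K with
  | zero =>
    intro m hm
    rcases box_or (d := d) m with ⟨b, rfl⟩ | ⟨i, m', rfl⟩
    · refine ⟨?_, fun a => ?_⟩
      · have h1 : ∀ a, RootCH.nrm (M (monomial (bx b) 1) a z) = if a = b then 1 else 0 := by
          intro a
          rw [hM.col z hz a b]
          split_ifs
          · have := RootCH.nrm_C 1
            simpa using this
          · simp [RootCH.nrm]
        rw [Finset.sum_congr rfl fun a _ => h1 a, Finset.sum_ite_eq' Finset.univ b]
        simp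
      · rw [hM.col z hz a b]
        split_ifs <;> simp
    · rw [sum_single_add] at hm
      have := hM.deg i
      omega
  | succ K ih =>
    intro m hm
    rcases box_or (d := d) m with ⟨b, rfl⟩ | ⟨i, m', rfl⟩
    · refine ⟨?_, fun a => ?_⟩
      · have h1 : ∀ a, RootCH.nrm (M (monomial (bx b) 1) a z) = if a = b then 1 else 0 := by
          intro a
          rw [hM.col z hz a b]
          split_ifs
          · have := RootCH.nrm_C 1
            simpa using this
          · simp [RootCH.nrm]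
        rw [Finset.sum_congr rfl fun a _ => h1 a, Finset.sum_ite_eq' Finset.univ b]
        simpa using Nat.one_le_pow _ _ hκ
      · rw [hM.col z hz a b]
        split_ifs <;> simp
    · have hd := hM.deg i
      rw [sum_single_add] at hm
      have h1 : M (monomial (Finsupp.single i (d i) + m') 1) = M (G i * monomial m' 1) := by
        rw [monomial_single_add, map_mul, map_mul, hM.rel i]
      rw [h1]
      obtain ⟨h2, h3⟩ := step M κ K z ih (G i) m' (hG1 i) (by omega)
      refine ⟨h2.trans ?_, fun a => (h3 a).trans (by omega)⟩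
      rw [pow_succ, mul_comm (κ ^ K)]
      exact Nat.mul_le_mul_right _ (hG i)

end NH

theorem I_NH (hCOL : SCOL) : SNH := by
  intro n d G M κ hM hκ hG hG1 g hg
  have hd : ∀ i, 0 < d i := fun i => lt_of_le_of_lt (Nat.zero_le _) (hM.deg i)
  let z : Box d := fun i => ⟨0, hd i⟩
  have hz : ∀ i, (z i : ℕ) = 0 := fun i => rfl
  have hst : ∀ b : Box d,
      ∑ a, RootCH.nrm (M (g * monomial (bx b) 1) a z) ≤ l2 g * κ ^ (g.totalDegree + ∑ i, d i) ∧
      ∀ a, (M (g * monomial (bx b) 1) a z).natDegree ≤ 1 + (g.totalDegree + ∑ i, d i) := by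
    intro b
    refine NH.step M κ (g.totalDegree + ∑ i, d i) z
      (NH.mono M κ hM hκ hG hG1 z hz _) g (bx b) hg ?_
    have : ∑ j, (bx b) j ≤ ∑ i, d i := Finset.sum_le_sum fun j _ => (b j).isLt.le
    omega
  refine ⟨fun b => ?_, fun a b => ?_⟩
  · rw [Finset.sum_congr rfl fun a _ => by rw [hCOL _ n d G M hM z hz g a b]]
    exact (hst b).1
  · rw [hCOL _ n d G M hM z hz g a b]
    exact (hst b).2 a

end Pool.Agent.Work.MP_859ada_lc.ER
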