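import Pool.Agent.Work.MP_859ada_lc.ER.Base

/-!
# Item NUM: the number of solutions
-/

set_option autoImplicit false

namespace Pool.Agent.Work.MP_859ada_lc.ER

open MvPolynomial

namespace NUM

lemma evals_li {n : ℕ} (Y : Finset (Fin n → ℂ)) :
    LinearIndependent ℂ (fun y : Y => fun f : MvPolynomial (Fin n) ℂ => eval (y : Fin n → ℂ) f) := by
  have h := linearIndependent_monoidHom (MvPolynomial (Fin n) ℂ) ℂ
  have hinj : Function.Injective (fun y : Y =>
      ((eval (y : Fin n → ℂ) : MvPolynomial (Fin n) ℂ →+* ℂ) : MvPolynomial (Fin n) ℂ →* ℂ)) := by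
    intro y y' hyy
    apply Subtype.ext
    funext i
    have h1 := DFunLike.congr_fun hyy (X i : MvPolynomial (Fin n) ℂ)
    simpa using h1
  exact h.comp _ hinj

end NUM

theorem I_NUM (hMUL : SMUL) (hCOL : SCOL) (hEVL : SEVL) : SNUM := by
  intro n d G hd Y hY
  obtain ⟨M, hM⟩ := hMUL ℂ n d G hd
  have _ := hCOL
  have hpos : ∀ i, 0 < d i := fun i => lt_of_le_of_lt (Nat.zero_le _) (hd i)
  let z : Box d := fun i => ⟨0, hpos i⟩
  let v : Y → (Box d → ℂ) := fun y a => ∏ i, (y : Fin n → ℂ) i ^ (a i : ℕ)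
  have h2 : ∀ (y : Y) (f : MvPolynomial (Fin n) ℂ),
      eval (y : Fin n → ℂ) f = ∑ a, v y a * M f a z := by
    intro y f
    have h3 := hEVL ℂ ℂ (RingHom.id ℂ) n d G M (y : Fin n → ℂ) hM (fun i => hY y y.2 i) f z
    have h4 : ∏ i, (y : Fin n → ℂ) i ^ (z i : ℕ) = 1 := by simp [z]
    rw [h4, mul_one] at h3
    exact h3.symm
  have hli : LinearIndependent ℂ v := by
    have h1 := NUM.evals_li Y
    rw [Fintype.linearIndependent_iff] at h1 ⊢
    intro c hc
    apply h1 c
    funext f
    rw [Finset.sum_apply]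
    simp only [Pi.smul_apply, smul_eq_mul, Pi.zero_apply]
    have h5 : ∑ y : Y, c y * eval (y : Fin n → ℂ) f = ∑ a, (∑ y : Y, c y * v y a) * M f a z := by
      simp_rw [h2, Finset.mul_sum, Finset.sum_mul]
      rw [Finset.sum_comm]
      refine Finset.sum_congr rfl fun a _ => Finset.sum_congr rfl fun y _ => ?_
      ring
    rw [h5]
    refine Finset.sum_eq_zero fun a _ => ?_
    have h6 := congrFun hc a
    rw [Finset.sum_apply] at h6
    simp only [Pi.smul_apply, smul_eq_mul, Pi.zero_apply] at h6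
    rw [h6, zero_mul]
  have h7 := hli.fintype_card_le_finrank
  rw [Module.finrank_fintype_fun_eq_card, Fintype.card_pi] at h7
  simpa using h7

end Pool.Agent.Work.MP_859ada_lc.ER
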