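import Pool.Agent.Work.MP_859ada_lc.ER.CDefs

/-!
# MP_859ada_lc, project ER: definability of the Newton step
-/

set_option autoImplicit false

namespace Pool.Agent.Work.MP_859ada_lc.ER

open RootCH

namespace NWF

/-- the renaming which skips the place `1` -/
def skp : ℕ → ℕ
  | 0 => 0
  | k + 1 => k + 2

lemma shiftP {P : ℕ → (ℕ → ℕ) → ℕ} (hP : Fn fun v => P (v 0) (RootCH.tail v)) :
    Fn fun v => P (v 0) (RootCH.tail (RootCH.tail v)) := hP.rename skp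

lemma succP {P : ℕ → (ℕ → ℕ) → ℕ} (hP : Fn fun v => P (v 0) (RootCH.tail v)) :
    Fn fun v => P (v 0 + 1) (RootCH.tail v) :=
  (shiftP hP).subst ((Fn.var 0).add Fn.one)

lemma fnL {N p A : (ℕ → ℕ) → ℕ} {P : ℕ → (ℕ → ℕ) → ℕ} (hN : Fn N) (hp : Fn p) (hA : Fn A)
    (hP : Fn fun v => P (v 0) (RootCH.tail v)) :
    Fn fun v => nwL (N v) (p v) (A v) (fun m => P m v) := by
  unfold nwL
  refine Fn.sM (g := fun m v => RootCH.md ((p v - 1) ^ m) (p v) * P (m + 1) v *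
    RootCH.invM (m + 1) (p v) * RootCH.md (A v ^ (m + 1)) (p v)) hN hp ?_
  have hm : Fn fun v => v 0 + 1 := (Fn.var 0).add Fn.one
  have hp1 := hp.shift
  exact (((Fn.powM (hp1.sub Fn.one) (Fn.var 0) hp1).mul (succP hP)).mul (Fn.invM hm hp1)).mul
    (Fn.powM hA.shift hm hp1)

lemma fnX {N p A : (ℕ → ℕ) → ℕ} {P : ℕ → (ℕ → ℕ) → ℕ} (hN : Fn N) (hp : Fn p) (hA : Fn A)
    (hP : Fn fun v => P (v 0) (RootCH.tail v)) :
    Fn fun v => nwX (N v) (p v) (A v) (fun m => P m v) := by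
  unfold nwX
  refine Fn.sM (g := fun k v => RootCH.invM (RootCH.fac k (p v)) (p v) * RootCH.md
    (nwL (N v) (p v) (A v) (fun m => P m v) ^ k) (p v)) (hN.add Fn.one) hp ?_
  have hp1 := hp.shift
  exact (Fn.invM (Fn.fac (Fn.var 0) hp1) hp1).mul (Fn.powM
    (fnL (P := fun m v => P m (RootCH.tail v)) hN.shift hp1 hA.shift (shiftP hP))
    (Fn.var 0) hp1)

end NWF

open NWF in
theorem I_NWF : SNWF := by
  intro N p P hN hp hP
  unfold nwR
  refine ((hp.sub Fn.one).mul (Fn.sM (g := fun b v =>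
    nwX (N v) (p v) (b + 1) (fun m => P m v) *
    RootCH.md ((b + 1) ^ (p v - 1 - N v)) (p v)) (hp.sub Fn.one) hp ?_)).md hp
  have hb : Fn fun v => v 0 + 1 := (Fn.var 0).add Fn.one
  have hp1 := hp.shift
  exact (fnX (P := fun m v => P m (RootCH.tail v)) hN.shift hp1 hb (shiftP hP)).mul
    (Fn.powM hb ((hp1.sub Fn.one).sub hN.shift) hp1)

end Pool.Agent.Work.MP_859ada_lc.ER
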