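import Pool.Agent.Work.MP_859ada_lc.ER.Base

set_option autoImplicit false

namespace Pool.Agent.Work.MP_859ada_lc.ER

namespace PHI

open MvPolynomial

theorem nrm_zero : RootCH.nrm 0 = 0 := by simp [RootCH.nrm]

theorem l2_eq {n : ℕ} (g : MvPolynomial (Fin n) (Polynomial ℤ)) (S : Finset (Fin n →₀ ℕ))
    (h : g.support ⊆ S) : l2 g = ∑ m ∈ S, RootCH.nrm (g.coeff m) := by
  unfold l2
  refine Finset.sum_subset h fun m _ hm => ?_
  rw [notMem_support_iff.1 hm, nrm_zero]

theorem l2_add {n : ℕ} (g g' : MvPolynomial (Fin n) (Polynomial ℤ)) :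
    l2 (g + g') ≤ l2 g + l2 g' := by
  classical
  rw [l2_eq (g + g') (g.support ∪ g'.support) support_add,
    l2_eq g (g.support ∪ g'.support) Finset.subset_union_left,
    l2_eq g' (g.support ∪ g'.support) Finset.subset_union_right, ← Finset.sum_add_distrib]
  refine Finset.sum_le_sum fun m _ => ?_
  rw [coeff_add]
  exact RootCH.nrm_add_le _ _

theorem l2_zero {n : ℕ} : l2 (0 : MvPolynomial (Fin n) (Polynomial ℤ)) = 0 := by simp [l2]

theorem l2_neg {n : ℕ} (g : MvPolynomial (Fin n) (Polynomial ℤ)) : l2 (-g) = l2 g := by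
  unfold l2
  rw [support_neg]
  refine Finset.sum_congr rfl fun m _ => ?_
  rw [coeff_neg, RootCH.nrm_neg]

theorem l2_sum {n : ℕ} {ι : Type} (s : Finset ι)
    (g : ι → MvPolynomial (Fin n) (Polynomial ℤ)) : l2 (∑ i ∈ s, g i) ≤ ∑ i ∈ s, l2 (g i) := by
  classical
  induction s using Finset.induction_on with
  | empty => simp [l2_zero]
  | insert a s ha ih =>
    rw [Finset.sum_insert ha, Finset.sum_insert ha]
    exact (l2_add _ _).trans (by omega)

theorem l2_monomial {n : ℕ} (m : Fin n →₀ ℕ) :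
    l2 (monomial m (1 : Polynomial ℤ)) ≤ 1 := by
  rw [l2_eq _ {m} support_monomial_subset, Finset.sum_singleton, coeff_monomial, if_pos rfl,
    ← Polynomial.C_1, RootCH.nrm_C]
  simp

theorem nrm_X_C (k a : ℤ) : RootCH.nrm (Polynomial.C k * Polynomial.X * Polynomial.C a) ≤
    k.natAbs * a.natAbs := by
  refine (RootCH.nrm_mul_le _ _).trans ?_
  rw [RootCH.nrm_C]
  refine Nat.mul_le_mul_right _ ?_
  refine (RootCH.nrm_mul_le _ _).trans ?_
  rw [RootCH.nrm_C, RootCH.nrm_X, mul_one]

theorem coeff_kX {n : ℕ} (k : ℤ) (f : MvPolynomial (Fin n) ℤ) (m : Fin n →₀ ℕ) :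
    coeff m (C (Polynomial.C k * Polynomial.X) * map (Polynomial.C : ℤ →+* Polynomial ℤ) f) =
      Polynomial.C k * Polynomial.X * Polynomial.C (coeff m f) := by
  rw [coeff_C_mul, coeff_map]

theorem l2_kX {n : ℕ} (k : ℤ) (f : MvPolynomial (Fin n) ℤ) :
    l2 (C (Polynomial.C k * Polynomial.X) * map (Polynomial.C : ℤ →+* Polynomial ℤ) f) ≤
      k.natAbs * l1 f := by
  have hs : (C (Polynomial.C k * Polynomial.X) *
      map (Polynomial.C : ℤ →+* Polynomial ℤ) f).support ⊆ f.support := by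
    intro m hm
    rw [mem_support_iff, coeff_kX] at hm
    rw [mem_support_iff]
    intro h
    apply hm
    rw [h, Polynomial.C_0, mul_zero]
  rw [l2_eq _ _ hs]
  unfold l1
  rw [Finset.mul_sum]
  refine Finset.sum_le_sum fun m _ => ?_
  rw [coeff_kX]
  exact nrm_X_C _ _

theorem l1_pderiv {n : ℕ} (f : MvPolynomial (Fin n) ℤ) (D : ℕ) (hf : f.totalDegree ≤ D)
    (i : Fin n) : l1 (pderiv i f) ≤ D * l1 f := by
  classical
  unfold l1
  rw [Finset.mul_sum]
  have hinj : Function.Injective (fun m : Fin n →₀ ℕ => m + Finsupp.single i 1) :=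
    fun a b h => add_right_cancel h
  calc ∑ m ∈ (pderiv i f).support, ((pderiv i f).coeff m).natAbs
      ≤ ∑ m ∈ (pderiv i f).support, D * (f.coeff (m + Finsupp.single i 1)).natAbs := by
        refine Finset.sum_le_sum fun m hm => ?_
        rw [mem_support_iff, coeff_pderiv] at hm
        rw [coeff_pderiv, Int.natAbs_mul, mul_comm]
        refine Nat.mul_le_mul_right _ ?_
        have h1 : coeff (m + Finsupp.single i 1) f ≠ 0 := left_ne_zero_of_mul hm
        have h2 := sum_le_totalDegree h1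
        have h3 : (m + Finsupp.single i 1 : Fin n →₀ ℕ) i ≤
            ∑ j, (m + Finsupp.single i 1 : Fin n →₀ ℕ) j :=
          Finset.single_le_sum (f := fun j => (m + Finsupp.single i 1 : Fin n →₀ ℕ) j)
            (fun _ _ => Nat.zero_le _) (Finset.mem_univ i)
        rw [Finsupp.add_apply, Finsupp.single_eq_same] at h3
        have h4 : ((m i : ℤ) + 1).natAbs = m i + 1 := by omega
        rw [h4]
        omega
    _ = ∑ m ∈ (pderiv i f).support.map ⟨_, hinj⟩, D * (f.coeff m).natAbs := by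
        rw [Finset.sum_map]; rfl
    _ ≤ ∑ m ∈ f.support, D * (f.coeff m).natAbs := by
        refine Finset.sum_le_sum_of_subset fun m hm => ?_
        rw [Finset.mem_map] at hm
        obtain ⟨m', hm', rfl⟩ := hm
        rw [mem_support_iff, coeff_pderiv] at hm'
        rw [mem_support_iff]
        exact left_ne_zero_of_mul hm'

theorem deg_pderiv {n : ℕ} (f : MvPolynomial (Fin n) ℤ) (D : ℕ) (hf : f.totalDegree ≤ D + 1)
    (i : Fin n) : (pderiv i f).totalDegree ≤ D := by
  refine Finset.sup_le fun m hm => ?_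
  rw [Finsupp.sum_fintype _ _ (fun _ => rfl)]
  rw [mem_support_iff, coeff_pderiv] at hm
  have h1 : coeff (m + Finsupp.single i 1) f ≠ 0 := left_ne_zero_of_mul hm
  have h2 := sum_le_totalDegree h1
  rw [add_comm, sum_single_add] at h2
  omega

end PHI

open MvPolynomial in
theorem I_PHI (hMUL : SMUL) (hRT : SRT) (hNH : SNH) (hCH : SCH) : SPHI := by
  classical
  intro n F f hF hdeg hl
  set φ : ℤ →+* Polynomial ℤ := Polynomial.C with hφ
  set G : Fin (n + 1) → MvPolynomial (Fin (n + 1)) (Polynomial ℤ) := fun i =>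
    -(C (Polynomial.C 1 * Polynomial.X) * map φ (pderiv i f)) with hG
  set g : MvPolynomial (Fin (n + 1)) (Polynomial ℤ) :=
    C (Polynomial.C 6 * Polynomial.X) * map φ f + ∑ i, X i ^ 6 with hg
  set d : Fin (n + 1) → ℕ := fun _ => 5 with hd
  have hsum : ∑ i, d i = 5 * (n + 1) := by
    simp [hd]; ring
  have hmapdeg : ∀ q : MvPolynomial (Fin (n + 1)) ℤ, (map φ q).totalDegree ≤ q.totalDegree :=
    fun q => Finset.sup_le fun m hm => le_totalDegree (support_map_subset _ _ hm)
  have hCdeg : ∀ (c : Polynomial ℤ) (q : MvPolynomial (Fin (n + 1)) (Polynomial ℤ)),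
      (C c * q).totalDegree ≤ q.totalDegree := by
    intro c q
    have := totalDegree_mul (C c) q
    rw [totalDegree_C, zero_add] at this
    exact this
  have hGdeg : ∀ i, (G i).totalDegree < d i := by
    intro i
    rw [hG]
    simp only [totalDegree_neg]
    have h1 := PHI.deg_pderiv f 3 (by omega) i
    have h2 := hmapdeg (pderiv i f)
    have h3 := hCdeg (Polynomial.C 1 * Polynomial.X) (map φ (pderiv i f))
    show _ < 5
    omega
  obtain ⟨M, hM⟩ := hMUL (Polynomial ℤ) (n + 1) d G hGdeg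
  have hκ : ∀ i, l2 (G i) ≤ 4 * F := by
    intro i
    rw [hG]
    simp only
    rw [PHI.l2_neg]
    refine (PHI.l2_kX 1 _).trans ?_
    have := PHI.l1_pderiv f 4 hdeg i
    have h2 : 4 * l1 f ≤ 4 * F := Nat.mul_le_mul_left _ hl
    simp only [Int.natAbs_one, one_mul]
    omega
  have hcard : Fintype.card (Box d) = 5 ^ (n + 1) := by
    simp [Box, hd]
  have hXX : ∀ (k a : ℤ), (Polynomial.C k * Polynomial.X * Polynomial.C a).natDegree ≤ 1 := by
    intro k a
    refine (Polynomial.natDegree_mul_C_le _ _).trans ?_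
    exact (Polynomial.natDegree_C_mul_le _ _).trans Polynomial.natDegree_X_le
  have hGnat : ∀ i m, ((G i).coeff m).natDegree ≤ 1 := by
    intro i m
    rw [hG]
    simp only [coeff_neg, Polynomial.natDegree_neg]
    rw [PHI.coeff_kX]
    exact hXX _ _
  have hgnat : ∀ m, (g.coeff m).natDegree ≤ 1 := by
    intro m
    rw [hg, coeff_add, PHI.coeff_kX]
    refine (Polynomial.natDegree_add_le _ _).trans (max_le (hXX _ _) ?_)
    rw [coeff_sum]
    refine Polynomial.natDegree_sum_le_of_forall_le _ _ fun i _ => ?_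
    rw [coeff_X_pow]
    split_ifs <;> simp
  have hgl : l2 g ≤ 6 * F + (n + 1) := by
    rw [hg]
    refine (PHI.l2_add _ _).trans (add_le_add ?_ ?_)
    · refine (PHI.l2_kX 6 f).trans ?_
      show 6 * l1 f ≤ 6 * F
      exact Nat.mul_le_mul_left _ hl
    · refine (PHI.l2_sum _ _).trans ?_
      calc ∑ i : Fin (n + 1), l2 (X i ^ 6 : MvPolynomial (Fin (n + 1)) (Polynomial ℤ))
          ≤ ∑ _i : Fin (n + 1), 1 := by
            refine Finset.sum_le_sum fun i _ => ?_
            rw [X_pow_eq_monomial]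
            exact PHI.l2_monomial _
        _ = n + 1 := by simp
  have hgdeg : g.totalDegree ≤ 6 := by
    rw [hg]
    refine (totalDegree_add _ _).trans (max_le ?_ ?_)
    · exact ((hCdeg _ _).trans (hmapdeg f)).trans (by omega)
    · refine totalDegree_finsetSum_le fun i _ => ?_
      rw [totalDegree_X_pow]
  have hκ1 : 1 ≤ 4 * F := by omega
  obtain ⟨hcol, hnat⟩ := hNH (n + 1) d G M (4 * F) hM hκ1 hκ hGnat g hgnat
  have hpow : g.totalDegree + ∑ i, d i ≤ 5 * (n + 1) + 6 := by rw [hsum]; omega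
  have hB : ∀ b, ∑ a, RootCH.nrm (M g a b) ≤
      (6 * F + (n + 1)) * (4 * F) ^ (5 * (n + 1) + 6) := fun b =>
    (hcol b).trans (Nat.mul_le_mul hgl (Nat.pow_le_pow_right hκ1 hpow))
  have hE : ∀ a b, (M g a b).natDegree ≤ 5 * (n + 1) + 7 := fun a b =>
    (hnat a b).trans (by omega)
  have hfin := hCH (Box d) (M g) _ _ hB hE
  rw [hcard] at hfin
  refine ⟨(M g).charpoly, Matrix.charpoly_monic _, ?_, fun i j => (hfin i j).1,
    fun j => (hfin 0 j).2, ?_⟩
  · rw [Matrix.charpoly_natDegree_eq_dim, hcard]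
  · intro h y _ hy
    set ψ : Polynomial ℤ →+* ℝ := Polynomial.eval₂RingHom (Int.castRingHom ℝ) h with hψ
    have hψφ : ψ.comp φ = Int.castRingHom ℝ := by
      ext; simp
    have hmap : ∀ q : MvPolynomial (Fin (n + 1)) ℤ,
        eval₂ ψ y (map φ q) = eval₂ (Int.castRingHom ℝ) y q := by
      intro q
      rw [eval₂_map, hψφ]
    have hψX : ∀ k : ℤ, ψ (Polynomial.C k * Polynomial.X) = k * h := by
      intro k
      rw [hψ, Polynomial.coe_eval₂RingHom, Polynomial.eval₂_mul, Polynomial.eval₂_C,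
        Polynomial.eval₂_X]
      rfl
    have hsol : ∀ i, y i ^ d i = eval₂ ψ y (G i) := by
      intro i
      rw [hG]
      simp only [eval₂_neg, eval₂_mul, eval₂_C, hψX, hmap]
      have := hy i
      push_cast
      show y i ^ 5 = _
      linarith
    have hroot := hRT (Polynomial ℤ) ℝ ψ (n + 1) d G M y hM hsol g
    rw [Polynomial.eval₂_eq_eval_map] at hroot
    have hval : eval₂ ψ y g = 6 * h * eval₂ (Int.castRingHom ℝ) y f + ∑ i, y i ^ 6 := by
      rw [hg]
      simp only [eval₂_add, eval₂_mul, eval₂_C, hψX, hmap, eval₂_sum, eval₂_pow, eval₂_X]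
      push_cast
      ring
    rw [hval] at hroot
    exact hroot

end Pool.Agent.Work.MP_859ada_lc.ER
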