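import Pool.Agent.Work.MP_859ada_lc.ER.Base

/-!
# Projection to lines

A system without solutions at infinity has a real solution if and only if the characteristic
polynomials of all the linear forms `∑ u ^ i y_i`, `u < U`, have real roots.
-/

set_option autoImplicit false

namespace Pool.Agent.Work.MP_859ada_lc.ER

open MvPolynomial

namespace PRJ

theorem eval₂_lin {R S : Type} [CommRing R] [CommRing S] (φ : R →+* S) {n : ℕ} (u : R)
    (y : Fin n → S) : eval₂ φ y (lin u) = ∑ i : Fin n, φ u ^ (i : ℕ) * y i := by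
  unfold lin
  rw [eval₂_sum]
  refine Finset.sum_congr rfl fun i _ => ?_
  rw [eval₂_mul, eval₂_C, eval₂_X, map_pow]

theorem map_lin {R S : Type} [CommRing R] [CommRing S] (φ : R →+* S) {n : ℕ} (u : R) :
    map φ (lin u : MvPolynomial (Fin n) R) = lin (φ u) := by
  unfold lin
  rw [map_sum]
  refine Finset.sum_congr rfl fun i _ => ?_
  rw [map_mul, map_C, map_X, map_pow]

/-- few zeros of a nonzero real combination of powers -/
theorem card_bad {n U : ℕ} (c : Fin n → ℝ) (hc : ∃ i, c i ≠ 0) :
    ((Finset.range U).filter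
      (fun u : ℕ => ∑ i : Fin n, (u : ℝ) ^ (i : ℕ) * c i = 0)).card ≤ n := by
  classical
  obtain ⟨i₀, hi₀⟩ := hc
  let P : Polynomial ℝ := ∑ i : Fin n, Polynomial.C (c i) * Polynomial.X ^ (i : ℕ)
  have hP : P ≠ 0 := by
    intro hP0
    apply hi₀
    have h1 : P.coeff (i₀ : ℕ) = c i₀ := by
      simp only [P, Polynomial.finsetSum_coeff, Polynomial.coeff_C_mul, Polynomial.coeff_X_pow]
      rw [Finset.sum_eq_single i₀]
      · simp
      · intro b _ hb
        rw [if_neg, mul_zero]
        intro h
        exact hb (Fin.ext h.symm)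
      · intro h
        exact absurd (Finset.mem_univ _) h
    rw [← h1, hP0, Polynomial.coeff_zero]
  have hdeg : P.natDegree ≤ n := by
    refine Polynomial.natDegree_sum_le_of_forall_le _ _ fun i _ => ?_
    exact (Polynomial.natDegree_C_mul_X_pow_le _ _).trans i.2.le
  have h2 : ((Finset.range U).filter
      (fun u : ℕ => ∑ i : Fin n, (u : ℝ) ^ (i : ℕ) * c i = 0)).card ≤
      P.roots.toFinset.card := by
    refine Finset.card_le_card_of_injOn (fun u : ℕ => (u : ℝ)) ?_ ?_
    · intro u hu
      have hu' := (Finset.mem_filter.1 hu).2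
      rw [Finset.mem_coe, Multiset.mem_toFinset, Polynomial.mem_roots hP, Polynomial.IsRoot.def]
      simp only [P, Polynomial.eval_finsetSum, Polynomial.eval_mul, Polynomial.eval_C,
        Polynomial.eval_pow, Polynomial.eval_X]
      rw [← hu']
      exact Finset.sum_congr rfl fun i _ => mul_comm _ _
    · intro a _ b _ hab
      exact Nat.cast_injective hab
  exact h2.trans ((Multiset.toFinset_card_le _).trans ((Polynomial.card_roots' P).trans hdeg))

end PRJ

open PRJ in
theorem I_PRJ (hMUL : SMUL) (hMAP : SMAP) (hRT : SRT) (hSOL : SSOL) (hNUM : SNUM) : SPRJ := by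
  classical
  intro n d G M U hM hU
  constructor
  · rintro ⟨y, hy⟩ u _
    refine ⟨∑ i : Fin n, (u : ℝ) ^ (i : ℕ) * y i, ?_⟩
    have h := hRT ℤ ℝ (Int.castRingHom ℝ) n d G M y hM hy (lin (u : ℤ))
    rw [eval₂_lin] at h
    rw [Polynomial.aeval_def]
    simpa using h
  · intro h
    by_contra hno
    let G' : Fin n → MvPolynomial (Fin n) ℂ := fun i => map (Int.castRingHom ℂ) (G i)
    have hdeg' : ∀ i, (G' i).totalDegree < d i := fun i =>
      (Finset.sup_mono (support_map_subset _ _)).trans_lt (hM.deg i)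
    obtain ⟨M', hM'⟩ := hMUL ℂ n d G' hdeg'
    let Z : Set (Fin n → ℂ) := {y | ∀ i, y i ^ d i = eval y (G' i)}
    have hfin : Z.Finite := by
      by_contra hinf
      obtain ⟨Y, hYsub, hYcard⟩ := Set.Infinite.exists_subset_card_eq hinf (∏ i, d i + 1)
      have := hNUM n d G' hdeg' Y (fun y hy => hYsub hy)
      omega
    have hcard : hfin.toFinset.card ≤ ∏ i, d i :=
      hNUM n d G' hdeg' _ (fun y hy => (hfin.mem_toFinset.1 hy))
    have him : ∀ y ∈ Z, ∃ i, (y i).im ≠ 0 := by
      intro y hy
      by_contra hreal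
      push Not at hreal
      apply hno
      refine ⟨fun i => (y i).re, fun i => ?_⟩
      have hyr : y = Complex.ofRealHom ∘ (fun i => (y i).re) := by
        funext i
        exact Complex.ext rfl (by simpa using hreal i)
      have h1 : y i ^ d i = eval y (G' i) := hy i
      apply Complex.ofRealHom.injective
      rw [map_pow, eval₂_comp_left]
      have h2 : Complex.ofRealHom.comp (Int.castRingHom ℝ) = Int.castRingHom ℂ :=
        RingHom.ext_int _ _
      rw [h2, ← hyr]
      have h3 : Complex.ofRealHom (y i).re = y i := (congrFun hyr i).symm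
      rw [h3, h1]
      exact eval_map _ _ _
    have hgood : ∃ u < U, ∀ y ∈ Z, (∑ i : Fin n, (u : ℝ) ^ (i : ℕ) * (y i).im) ≠ 0 := by
      by_contra hcon
      push Not at hcon
      let bad : (Fin n → ℂ) → Finset ℕ := fun y => (Finset.range U).filter
        (fun u : ℕ => ∑ i : Fin n, (u : ℝ) ^ (i : ℕ) * (y i).im = 0)
      have hsub : Finset.range U ⊆ hfin.toFinset.biUnion bad := by
        intro u hu
        obtain ⟨y, hy, hy0⟩ := hcon u (Finset.mem_range.1 hu)
        exact Finset.mem_biUnion.2 ⟨y, hfin.mem_toFinset.2 hy, Finset.mem_filter.2 ⟨hu, hy0⟩⟩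
      have h1 := Finset.card_le_card hsub
      have h2 : (hfin.toFinset.biUnion bad).card ≤ hfin.toFinset.card * n :=
        Finset.card_biUnion_le_card_mul _ _ _ fun y hy =>
          card_bad (fun i => (y i).im) (him y (hfin.mem_toFinset.1 hy))
      rw [Finset.card_range] at h1
      have h3 : hfin.toFinset.card * n ≤ n * ∏ i, d i := by
        rw [mul_comm]
        exact Nat.mul_le_mul_left _ hcard
      omega
    obtain ⟨u, huU, hgu⟩ := hgood
    obtain ⟨x, hx⟩ := h u huU
    have h3 : (M' (lin (u : ℂ))).charpoly.eval (x : ℂ) = 0 := by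
      have hlin : map (Int.castRingHom ℂ) (lin (u : ℤ) : MvPolynomial (Fin n) ℤ) =
          lin (u : ℂ) := by
        rw [map_lin]
        simp
      rw [← hlin, hMAP ℤ ℂ (Int.castRingHom ℂ) n d G M M' hM hM' _, Matrix.charpoly_map,
        Polynomial.eval_map]
      have h4 := congrArg Complex.ofRealHom hx
      rw [Polynomial.aeval_def, Polynomial.hom_eval₂, map_zero] at h4
      have h2 : Complex.ofRealHom.comp (algebraMap ℤ ℝ) = Int.castRingHom ℂ :=
        RingHom.ext_int _ _
      rw [h2] at h4
      exact h4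
    obtain ⟨y, hyZ, hyx⟩ := hSOL n d G' M' hM' (lin (u : ℂ)) x h3
    apply hgu y hyZ
    have h5 : eval y (lin (u : ℂ) : MvPolynomial (Fin n) ℂ) =
        ∑ i : Fin n, (u : ℂ) ^ (i : ℕ) * y i := by
      have h6 := eval₂_lin (RingHom.id ℂ) (u : ℂ) y
      rw [eval₂_id] at h6
      exact h6
    rw [h5] at hyx
    have h7 := congrArg Complex.im hyx
    rw [Complex.ofReal_im, Complex.im_sum] at h7
    rw [← h7]
    refine Finset.sum_congr rfl fun i _ => ?_
    have h8 : ((u : ℂ) ^ (i : ℕ)) = (((u : ℝ) ^ (i : ℕ) : ℝ) : ℂ) := by push_cast; rfl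
    rw [h8, Complex.im_ofReal_mul]

end Pool.Agent.Work.MP_859ada_lc.ER
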