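import Pool.Agent.Work.MP_859ada_lc.ER.Base

set_option autoImplicit false

namespace Pool.Agent.Work.MP_859ada_lc.ER

open MvPolynomial

namespace RED

theorem map_GG {R S : Type} [CommRing R] [CommRing S] (φ : R →+* S) {n : ℕ}
    (f : MvPolynomial (Fin (n + 1)) R) (h c : R) (i : Fin (n + 1)) :
    map φ (GG f h c i) = GG (map φ f) (φ h) (φ c) i := by
  unfold GG
  split_ifs with hi
  · rw [map_sub, map_mul, map_sub, map_mul, map_sum, map_C, map_C]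
    congr 3
    · rw [map_ofNat]
    · refine Finset.sum_congr rfl fun j _ => ?_
      split_ifs with hj
      · rw [map_zero]
      · rw [map_mul, map_X, pderiv_map]
  · rw [map_neg, map_mul, map_C, pderiv_map]

theorem pow5 (n : ℕ) : 5 ^ (n + 1) ≤ 2 ^ (3 * n + 3) := by
  calc 5 ^ (n + 1) ≤ 8 ^ (n + 1) := Nat.pow_le_pow_left (by norm_num) _
    _ = 2 ^ (3 * n + 3) := by
      rw [show (8 : ℕ) = 2 ^ 3 by norm_num, ← pow_mul]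
      congr 1

theorem lin_le (n a b : ℕ) (h : a ≤ 2 ^ b) : a * (n + 1) ≤ 2 ^ (n + b) := by
  have h1 : n + 1 ≤ 2 ^ n := Nat.lt_two_pow_self
  calc a * (n + 1) ≤ 2 ^ b * 2 ^ n := Nat.mul_le_mul h h1
    _ = 2 ^ (n + b) := by rw [← pow_add, add_comm]

/-- the bound for the coefficients -/
theorem B_le (n : ℕ) : (1 + (6 * (9 * (n + 1)) + (n + 1)) * (4 * (9 * (n + 1))) ^ (5 * (n + 1) + 6))
    ^ 5 ^ (n + 1) ≤ 2 ^ 2 ^ (5 * n + 10) := by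
  have h1 : 6 * (9 * (n + 1)) + (n + 1) ≤ 2 ^ (n + 6) := by
    have := lin_le n 55 6 (by norm_num)
    calc _ = 55 * (n + 1) := by ring
      _ ≤ _ := this
  have h2 : 4 * (9 * (n + 1)) ≤ 2 ^ (n + 6) := by
    have := lin_le n 36 6 (by norm_num)
    calc _ = 36 * (n + 1) := by ring
      _ ≤ _ := this
  set e := 5 * (n + 1) + 6 with he
  have h3 : (4 * (9 * (n + 1))) ^ e ≤ 2 ^ ((n + 6) * e) := by
    rw [pow_mul]
    exact Nat.pow_le_pow_left h2 e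
  have h4 : 1 + (6 * (9 * (n + 1)) + (n + 1)) * (4 * (9 * (n + 1))) ^ e ≤
      2 ^ ((n + 6) * (e + 1) + 1) := by
    have h5 : (6 * (9 * (n + 1)) + (n + 1)) * (4 * (9 * (n + 1))) ^ e ≤
        2 ^ ((n + 6) * (e + 1)) := by
      calc _ ≤ 2 ^ (n + 6) * 2 ^ ((n + 6) * e) := Nat.mul_le_mul h1 h3
        _ = 2 ^ ((n + 6) * (e + 1)) := by rw [← pow_add]; congr 1; ring
    have h6 : 1 ≤ 2 ^ ((n + 6) * (e + 1)) := Nat.one_le_two_pow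
    calc _ ≤ 2 ^ ((n + 6) * (e + 1)) + 2 ^ ((n + 6) * (e + 1)) := Nat.add_le_add h6 h5
      _ = 2 ^ ((n + 6) * (e + 1) + 1) := by rw [pow_succ]; ring
  have h7 : (n + 6) * (e + 1) + 1 ≤ 2 ^ (2 * n + 7) := by
    have h8 : n + 1 ≤ 2 ^ n := Nat.lt_two_pow_self
    have h9 : (n + 1) * (n + 1) ≤ 2 ^ n * 2 ^ n := Nat.mul_le_mul h8 h8
    calc (n + 6) * (e + 1) + 1 ≤ 2 ^ 7 * ((n + 1) * (n + 1)) := by rw [he]; nlinarith
      _ ≤ 2 ^ 7 * (2 ^ n * 2 ^ n) := Nat.mul_le_mul_left _ h9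
      _ = 2 ^ (2 * n + 7) := by rw [← pow_add, ← pow_add]; congr 1; ring
  calc _ ≤ (2 ^ ((n + 6) * (e + 1) + 1)) ^ 5 ^ (n + 1) := Nat.pow_le_pow_left h4 _
    _ = 2 ^ (((n + 6) * (e + 1) + 1) * 5 ^ (n + 1)) := by rw [← pow_mul]
    _ ≤ 2 ^ 2 ^ (5 * n + 10) := by
        refine Nat.pow_le_pow_right (by norm_num) ?_
        calc ((n + 6) * (e + 1) + 1) * 5 ^ (n + 1) ≤ 2 ^ (2 * n + 7) * 2 ^ (3 * n + 3) :=
              Nat.mul_le_mul h7 (pow5 n)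
          _ = 2 ^ (5 * n + 10) := by
              rw [← pow_add]
              congr 1
              ring

theorem two_pow_two_pow {a b c : ℕ} (h : a + b = c) : (2 : ℕ) ^ (2 ^ a * 2 ^ b) = 2 ^ 2 ^ c := by
  rw [← pow_add, h]

theorem num_a (n B : ℕ) (hB : B ≤ 2 ^ 2 ^ (5 * n + 10)) : 2 * B + 1 ≤ c0 n := by
  unfold c0
  obtain ⟨x, hx⟩ : ∃ x : ℕ, x = 2 ^ (5 * n + 10) := ⟨_, rfl⟩
  obtain ⟨y, hy⟩ : ∃ y : ℕ, y = 2 ^ (8 * n + 30) := ⟨_, rfl⟩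
  rw [← hx] at hB
  rw [← hy]
  have h1 : 2 ≤ x := by
    rw [hx]
    calc 2 = 2 ^ 1 := by norm_num
      _ ≤ _ := Nat.pow_le_pow_right (by norm_num) (by omega)
  have h2 : x + 2 ≤ y := by
    calc x + 2 ≤ x * 2 := by omega
      _ = 2 ^ (5 * n + 10 + 1) := by rw [pow_succ, hx]
      _ ≤ y := by rw [hy]; exact Nat.pow_le_pow_right (by norm_num) (by omega)
  have h3 : 1 ≤ 2 ^ x := Nat.one_le_two_pow
  calc 2 * B + 1 ≤ 2 ^ x * 2 ^ 2 := by omega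
    _ = 2 ^ (x + 2) := by rw [pow_add]
    _ ≤ 2 ^ y := Nat.pow_le_pow_right (by norm_num) h2

theorem num_b (n B : ℕ) (hB : B ≤ 2 ^ 2 ^ (5 * n + 10)) :
    2 * ((5 * (n + 1) + 7) * 5 ^ (n + 1)) * B * (5 ^ (n + 1) + 1) * (2 * c0 n) ^ 5 ^ (n + 1) <
      h0 n := by
  unfold c0 h0
  have hE : (5 * (n + 1) + 7) * 5 ^ (n + 1) ≤ 2 ^ (4 * n + 7) := by
    have h1 := lin_le n 12 4 (by norm_num)
    calc (5 * (n + 1) + 7) * 5 ^ (n + 1) ≤ (12 * (n + 1)) * 2 ^ (3 * n + 3) :=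
          Nat.mul_le_mul (by omega) (pow5 n)
      _ ≤ 2 ^ (n + 4) * 2 ^ (3 * n + 3) := Nat.mul_le_mul_right _ h1
      _ = 2 ^ (4 * n + 7) := by rw [← pow_add]; congr 1; ring
  have hN : 5 ^ (n + 1) + 1 ≤ 2 ^ (3 * n + 4) := by
    have h1 := pow5 n
    have h2 : 1 ≤ 2 ^ (3 * n + 3) := Nat.one_le_two_pow
    calc 5 ^ (n + 1) + 1 ≤ 2 ^ (3 * n + 3) * 2 := by omega
      _ = 2 ^ (3 * n + 4) := by rw [← pow_succ]
  have h8 : 2 ^ (8 * n + 30) + 1 ≤ 2 ^ (8 * n + 31) := by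
    have : 1 ≤ 2 ^ (8 * n + 30) := Nat.one_le_two_pow
    calc 2 ^ (8 * n + 30) + 1 ≤ 2 ^ (8 * n + 30) * 2 := by omega
      _ = 2 ^ (8 * n + 31) := by rw [← pow_succ]
  have h81 : 2 ^ (8 * n + 31) * 2 ^ (3 * n + 3) = 2 ^ (11 * n + 34) := by
    rw [← pow_add]
    congr 1
    ring
  have hexp : 1 + (4 * n + 7) + 2 ^ (5 * n + 10) + (3 * n + 4) + 2 ^ (11 * n + 34) <
      2 ^ (12 * n + 50) := by
    have h1 := lin_le n 12 4 (by norm_num)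
    have h2 : 2 ^ (n + 4) ≤ 2 ^ (11 * n + 34) := Nat.pow_le_pow_right (by norm_num) (by omega)
    have h3 : 2 ^ (5 * n + 10) ≤ 2 ^ (11 * n + 34) := Nat.pow_le_pow_right (by norm_num) (by omega)
    have h4 : 2 ^ (11 * n + 34) * 2 ^ 2 = 2 ^ (11 * n + 36) := by rw [← pow_add]
    have h5 : 2 ^ (11 * n + 36) ≤ 2 ^ (12 * n + 50) := Nat.pow_le_pow_right (by norm_num) (by omega)
    have h6 : 0 < 2 ^ (11 * n + 34) := by positivity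
    omega
  obtain ⟨x, hx⟩ : ∃ x : ℕ, x = 2 ^ (5 * n + 10) := ⟨_, rfl⟩
  obtain ⟨y, hy⟩ : ∃ y : ℕ, y = 2 ^ (8 * n + 30) := ⟨_, rfl⟩
  obtain ⟨z, hz⟩ : ∃ z : ℕ, z = 2 ^ (11 * n + 34) := ⟨_, rfl⟩
  obtain ⟨w, hw⟩ : ∃ w : ℕ, w = 2 ^ (12 * n + 50) := ⟨_, rfl⟩
  rw [← hx, ← hz, ← hw] at hexp
  rw [← hx] at hB
  rw [← hy] at h8
  rw [← hz] at h81
  rw [← hy, ← hw]
  have hc : (2 * 2 ^ y) ^ 5 ^ (n + 1) ≤ 2 ^ z := by
    have h1 : 2 * 2 ^ y = 2 ^ (y + 1) := by rw [pow_succ]; ring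
    rw [h1, ← pow_mul]
    refine Nat.pow_le_pow_right (by norm_num) ?_
    calc (y + 1) * 5 ^ (n + 1) ≤ 2 ^ (8 * n + 31) * 2 ^ (3 * n + 3) := Nat.mul_le_mul h8 (pow5 n)
      _ = z := h81
  calc 2 * ((5 * (n + 1) + 7) * 5 ^ (n + 1)) * B * (5 ^ (n + 1) + 1) * (2 * 2 ^ y) ^ 5 ^ (n + 1)
      ≤ 2 * 2 ^ (4 * n + 7) * 2 ^ x * 2 ^ (3 * n + 4) * 2 ^ z := by
        refine Nat.mul_le_mul (Nat.mul_le_mul (Nat.mul_le_mul (Nat.mul_le_mul le_rfl hE) hB) hN) hc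
    _ = 2 ^ (1 + (4 * n + 7) + x + (3 * n + 4) + z) := by
        rw [pow_add 2 (1 + (4 * n + 7) + x + (3 * n + 4)), pow_add 2 (1 + (4 * n + 7) + x),
          pow_add 2 (1 + (4 * n + 7)), pow_add 2 1, pow_one]
    _ < 2 ^ w := Nat.pow_lt_pow_right (by norm_num) hexp

end RED

open RED in
theorem I_RED (hPHI : SPHI) (hGAP : SGAP) (hLEV : SLEV) : SRED := by
  intro n f hdeg hl hpos
  obtain ⟨B, hB⟩ : ∃ B : ℕ, B = (1 + (6 * (9 * (n + 1)) + (n + 1)) *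
    (4 * (9 * (n + 1))) ^ (5 * (n + 1) + 6)) ^ 5 ^ (n + 1) := ⟨_, rfl⟩
  have hBle : B ≤ 2 ^ 2 ^ (5 * n + 10) := by rw [hB]; exact B_le n
  obtain ⟨P, hPm, hPd, hPc, hPe, hPv⟩ := hPHI n (9 * (n + 1)) f (by omega) hdeg hl
  rw [← hB] at hPc
  set f' : MvPolynomial (Fin (n + 1)) ℝ := map (Int.castRingHom ℝ) f with hf'
  have hev : ∀ (y : Fin (n + 1) → ℝ) (g : MvPolynomial (Fin (n + 1)) ℤ),
      eval y (map (Int.castRingHom ℝ) g) = eval₂ (Int.castRingHom ℝ) y g := by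
    intro y g
    rw [eval_map]
  have hdeg' : f'.totalDegree ≤ 4 := (Finset.sup_mono (support_map_subset _ _)).trans hdeg
  have hpos' : ∀ y, 0 ≤ eval y f' := fun y => by rw [hf', hev]; exact hpos y
  have hB1 : 1 ≤ B := by rw [hB]; exact Nat.one_le_pow _ _ (by omega)
  have hE1 : 1 ≤ (5 * (n + 1) + 7) * 5 ^ (n + 1) :=
    Nat.mul_pos (by omega) (pow_pos (by norm_num) _)
  have ha := num_a n B hBle
  have hb := num_b n B hBle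
  have ha' : 2 * (B : ℝ) + 1 ≤ (c0 n : ℝ) := by exact_mod_cast ha
  have hb' : 2 * (((5 * (n + 1) + 7) * 5 ^ (n + 1) : ℕ) : ℝ) * (B : ℝ) *
      (((5 ^ (n + 1) : ℕ) : ℝ) + 1) * (2 * (c0 n : ℝ)) ^ 5 ^ (n + 1) < (h0 n : ℝ) := by
    exact_mod_cast hb
  have h1 := hGAP n B ((5 * (n + 1) + 7) * 5 ^ (n + 1)) (5 ^ (n + 1)) f' P (h0 n : ℝ) (c0 n : ℝ)
    hdeg' hpos' hPm hPd hB1 hE1 hPc hPe (by
      intro h y hh hy
      rw [hf', hev]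
      apply hPv h y hh
      intro i
      have := hy i
      rw [hf', pderiv_map, hev] at this
      exact this) ha' hb'
  have hh0 : (0 : ℝ) < (h0 n : ℝ) := by
    unfold h0
    positivity
  have hc0 : (0 : ℝ) < (c0 n : ℝ) := by
    unfold c0
    positivity
  have h2 := hLEV n f' (h0 n : ℝ) (c0 n : ℝ) hh0 hc0 hdeg' hpos'
  have h3 : ∀ (y : Fin (n + 1) → ℝ) (i : Fin (n + 1)),
      eval y (GG f' (h0 n : ℝ) (c0 n : ℝ) i) =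
        eval₂ (Int.castRingHom ℝ) y (GG f (h0 n : ℤ) (c0 n : ℤ) i) := by
    intro y i
    rw [← hev, map_GG, hf']
    congr 2 <;> simp
  have h4 : (∃ y : Fin (n + 1) → ℝ, eval₂ (Int.castRingHom ℝ) y f = 0) ↔
      ∃ y, eval y f' = 0 := by
    simp only [hf', hev]
  rw [h4, h1, ← h2]
  simp only [h3]

end Pool.Agent.Work.MP_859ada_lc.ER
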