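import Pool.Agent.Work.MP_859ada_lc.ER.Base

set_option autoImplicit false

namespace Pool.Agent.Work.MP_859ada_lc.ER

open MvPolynomial

theorem I_RT (hEVL : SEVL) : SRT := by
  intro R S _ _ _ φ n d G M y hM hy g
  classical
  have hz : ∀ i, 0 < d i := fun i => lt_of_le_of_lt (Nat.zero_le _) (hM.deg i)
  let v : Box d → S := fun a => ∏ i, y i ^ (a i : ℕ)
  let t : S := eval₂ φ y g
  let A : Matrix (Box d) (Box d) S := (M g).map φ
  have hv : v ≠ 0 := by
    intro h
    have h1 := congrFun h (fun i => ⟨0, hz i⟩)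
    simp [v] at h1
  have h1 : Matrix.vecMul v (Matrix.scalar (Box d) t - A) = 0 := by
    rw [Matrix.vecMul_sub]
    funext b
    have h2 := hEVL R S φ n d G M y hM hy g b
    have h3 : Matrix.vecMul v A b = t * v b := h2
    rw [Pi.sub_apply, h3, Matrix.scalar_apply, Matrix.vecMul_diagonal, Pi.zero_apply, mul_comm,
      sub_self]
  have h2 : (Matrix.scalar (Box d) t - A).det = 0 := Matrix.exists_vecMul_eq_zero_iff.1 ⟨v, hv, h1⟩
  have h3 : (M g).charpoly.eval₂ φ t = (A.charpoly).eval t := by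
    rw [← Polynomial.eval_map, ← Matrix.charpoly_map]
  rw [h3, Matrix.eval_charpoly]
  exact h2

end Pool.Agent.Work.MP_859ada_lc.ER
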