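import Pool.Agent.Work.MP_859ada_lc.ER.SDefs

/-!
# MP_859ada_lc, project ER: item SEM, solvability of the whole system
-/

set_option autoImplicit false

namespace Pool.Agent.Work.MP_859ada_lc.ER

namespace SEM

theorem le_sum {l : List ℕ} {a : ℕ} (h : a ∈ l) : a ≤ l.sum := by
  induction l with
  | nil => simp at h
  | cons b l ih =>
    rcases List.mem_cons.1 h with h | h
    · subst h; simp
    · have := ih h; simp only [List.sum_cons]; omega

theorem len_le (E P : List (List Gate)) (q : List Gate) (h : q ∈ E ++ P) :
    q.length + 3 ≤ blW E P := by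
  unfold blW
  have : q.length ≤ ((E ++ P).map fun q => q.length).sum :=
    le_sum (List.mem_map.2 ⟨q, h, rfl⟩)
  omega

theorem var_lt (E P : List (List Gate)) (q : List Gate) (h : q ∈ E ++ P) (g : Gate) (hg : g ∈ q)
    (k : ℕ) (e : g = Gate.var k) : k < inK E P := by
  unfold inK
  have h1 : k ≤ (q.map fun g => g.code.2.1).sum :=
    le_sum (List.mem_map.2 ⟨g, hg, by subst e; rfl⟩)
  have h2 : (q.map fun g => g.code.2.1).sum ≤
      ((E ++ P).map fun q => (q.map fun g => g.code.2.1).sum).sum :=
    le_sum (List.mem_map.2 ⟨q, h, rfl⟩)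
  omega

theorem blW_pos (E P : List (List Gate)) : 0 < blW E P := by unfold blW; omega

theorem inK_pos (E P : List (List Gate)) : 0 < inK E P := by unfold inK; omega

theorem div_eq (W r s : ℕ) (h : s < W) : (r * W + s) / W = r := by
  rw [mul_comm, Nat.mul_add_div (by omega), Nat.div_eq_of_lt h, add_zero]

theorem mod_eq (W r s : ℕ) (h : s < W) : (r * W + s) % W = s := by
  rw [mul_comm, Nat.mul_add_mod, Nat.mod_eq_of_lt h]

theorem eqn_blk (E P : List (List Gate)) (r s : ℕ) (hs : s < blW E P) :
    eqn E P (2 + inK E P + r * blW E P + s) =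
      blkEq (decide (r < E.length)) (2 + inK E P + r * blW E P) s ((E ++ P).getD r []) := by
  have e : 2 + inK E P + r * blW E P + s - (2 + inK E P) = r * blW E P + s := by omega
  have h0 : ¬ 2 + inK E P + r * blW E P + s = 0 := by omega
  have h1 : ¬ 2 + inK E P + r * blW E P + s = 1 := by omega
  have h2 : ¬ 2 + inK E P + r * blW E P + s < 2 + inK E P := by omega
  unfold eqn
  rw [if_neg h0, if_neg h1, if_neg h2, e, div_eq _ _ _ hs, mod_eq _ _ _ hs]

theorem lt_nQ (E P : List (List Gate)) (r s : ℕ) (hr : r < (E ++ P).length)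
    (hs : s < blW E P) : 2 + inK E P + r * blW E P + s < nQ E P := by
  unfold nQ
  have h : (r + 1) * blW E P ≤ (E ++ P).length * blW E P := Nat.mul_le_mul_right _ hr
  have h' : (r + 1) * blW E P = r * blW E P + blW E P := by ring
  omega

theorem getD_mem (l : List (List Gate)) (r : ℕ) (h : r < l.length) : l.getD r [] ∈ l := by
  rw [List.getD_eq_getElem _ _ h]; exact List.getElem_mem h

theorem split (E P : List (List Gate)) (m : ℕ) (h : 2 + inK E P ≤ m) (h' : m < nQ E P) :
    ∃ r s, r < (E ++ P).length ∧ s < blW E P ∧ m = 2 + inK E P + r * blW E P + s := by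
  refine ⟨(m - (2 + inK E P)) / blW E P, (m - (2 + inK E P)) % blW E P, ?_,
    Nat.mod_lt _ (blW_pos E P), ?_⟩
  · rw [Nat.div_lt_iff_lt_mul (blW_pos E P)]
    unfold nQ at h'
    omega
  · have := Nat.div_add_mod (m - (2 + inK E P)) (blW E P)
    have e : blW E P * ((m - (2 + inK E P)) / blW E P) =
      (m - (2 + inK E P)) / blW E P * blW E P := mul_comm _ _
    omega

theorem getD_left (E P : List (List Gate)) (r : ℕ) (h : r < E.length) :
    (E ++ P).getD r [] = E[r] := by
  rw [List.getD_eq_getElem _ _ (by simp; omega), List.getElem_append_left h]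

theorem getD_right (E P : List (List Gate)) (r : ℕ) (h : r < P.length) :
    (E ++ P).getD (E.length + r) [] = P[r] := by
  rw [List.getD_eq_getElem _ _ (by simp; omega), List.getElem_append_right (by omega)]
  simp

end SEM

open SEM in
theorem I_SEM (hBLK : SBLK) (hBLK2 : SBLK2) : SSEM := by
  intro E P
  constructor
  · rintro ⟨y, hy⟩
    have y0 : y 0 = 0 := by
      have h := hy 0 (by unfold nQ; omega)
      simpa [eqn, hold] using h
    have y1 : y 1 = 1 := by
      have h := hy 1 (by unfold nQ; omega)
      simpa [eqn, hold] using h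
    have key : ∀ r < (E ++ P).length,
        (decide (r < E.length) = true → value (fun k => y (2 + k)) ((E ++ P).getD r []) = 0) ∧
        (decide (r < E.length) = false →
          0 < value (fun k => y (2 + k)) ((E ++ P).getD r [])) := by
      intro r hr
      have h := hBLK ((E ++ P).getD r []) (decide (r < E.length)) (2 + inK E P + r * blW E P)
        (blW E P) y (len_le E P _ (getD_mem _ r hr)) y0 y1 (fun s hs => by
          rw [← eqn_blk E P r s hs]
          exact hy _ (lt_nQ E P r s hr hs))
      exact h.2
    refine ⟨fun k => y (2 + k), ?_, ?_⟩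
    · intro q hq
      obtain ⟨r, hr, rfl⟩ := List.getElem_of_mem hq
      have h := (key r (by simp; omega)).1 (by simpa using hr)
      rwa [getD_left E P r hr] at h
    · intro q hq
      obtain ⟨r, hr, rfl⟩ := List.getElem_of_mem hq
      have h := (key (E.length + r) (by simp; omega)).2 (by simp)
      rwa [getD_right E P r hr] at h
  · rintro ⟨z, hE, hP⟩
    have H : ∀ r, ∃ a : ℕ → ℝ, r < (E ++ P).length → ∀ y : ℕ → ℝ, y 0 = 0 → y 1 = 1 →
        (∀ g ∈ (E ++ P).getD r [], ∀ k, g = Gate.var k → y (2 + k) = z k) →
        (∀ s < blW E P, y (2 + inK E P + r * blW E P + s) = a s) →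
        ∀ s < blW E P, hold (blkEq (decide (r < E.length)) (2 + inK E P + r * blW E P) s
          ((E ++ P).getD r [])) y := by
      intro r
      by_cases hr : r < (E ++ P).length
      · obtain ⟨a, ha⟩ := hBLK2 ((E ++ P).getD r []) (decide (r < E.length))
          (2 + inK E P + r * blW E P) (blW E P) z (len_le E P _ (getD_mem _ r hr))
          (by
            intro h
            have h' : r < E.length := by simpa using h
            rw [getD_left E P r h']
            exact hE _ (List.getElem_mem h'))
          (by
            intro h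
            have h' : E.length ≤ r := by simpa using h
            obtain ⟨r', rfl⟩ := Nat.exists_eq_add_of_le h'
            have h2 : r' < P.length := by simpa using hr
            rw [getD_right E P r' h2]
            exact hP _ (List.getElem_mem h2))
        exact ⟨a, fun _ => ha⟩
      · exact ⟨fun _ => 0, fun h => absurd h hr⟩
    choose a ha using H
    let y : ℕ → ℝ := fun m => if m = 0 then 0 else if m = 1 then 1 else
      if m < 2 + inK E P then z (m - 2) else
        a ((m - (2 + inK E P)) / blW E P) ((m - (2 + inK E P)) % blW E P)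
    have y0 : y 0 = 0 := by simp [y]
    have y1 : y 1 = 1 := by simp [y]
    have yz : ∀ k < inK E P, y (2 + k) = z k := by
      intro k hk
      have h0 : ¬ 2 + k = 0 := by omega
      have h1 : ¬ 2 + k = 1 := by omega
      have h2 : 2 + k < 2 + inK E P := by omega
      simp only [y]
      rw [if_neg h0, if_neg h1, if_pos h2, Nat.add_sub_cancel_left]
    have ya : ∀ r s, s < blW E P → y (2 + inK E P + r * blW E P + s) = a r s := by
      intro r s hs
      have e : 2 + inK E P + r * blW E P + s - (2 + inK E P) = r * blW E P + s := by omega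
      have h0 : ¬ 2 + inK E P + r * blW E P + s = 0 := by omega
      have h1 : ¬ 2 + inK E P + r * blW E P + s = 1 := by omega
      have h2 : ¬ 2 + inK E P + r * blW E P + s < 2 + inK E P := by omega
      simp only [y]
      rw [if_neg h0, if_neg h1, if_neg h2, e, div_eq _ _ _ hs, mod_eq _ _ _ hs]
    refine ⟨y, fun m hm => ?_⟩
    by_cases h0 : m = 0
    · subst h0
      simp [eqn, hold, y0]
    by_cases h1 : m = 1
    · subst h1
      simp [eqn, hold, y1]
    by_cases h2 : m < 2 + inK E P
    · simp [eqn, hold, h0, h1, h2, y0]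
    · obtain ⟨r, s, hr, hs, rfl⟩ := split E P m (by omega) hm
      rw [eqn_blk E P r s hs]
      refine ha r hr y y0 y1 ?_ (fun s hs => ya r s hs) s hs
      intro g hg k e
      exact yz k (var_lt E P _ (getD_mem _ r hr) g hg k e)

end Pool.Agent.Work.MP_859ada_lc.ER
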