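import Pool.Agent.Work.MP_859ada_lc.ER.Base

set_option autoImplicit false

namespace Pool.Agent.Work.MP_859ada_lc.ER

open MvPolynomial

theorem I_SOL : SSOL := by
  classical
  intro n d G M hM g t ht
  let A : Matrix (Box d) (Box d) ℂ := M (g - C t)
  have hA : A = M g - Matrix.scalar (Box d) t := by
    show M (g - C t) = M g - Matrix.scalar (Box d) t
    rw [map_sub]
    congr 1
    have h1 := M.commutes t
    rw [MvPolynomial.algebraMap_eq] at h1
    rw [h1]
    rfl
  have hnot : ¬ IsUnit A := by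
    rw [Matrix.isUnit_iff_isUnit_det, isUnit_iff_ne_zero, not_not, hA]
    rw [Matrix.eval_charpoly] at ht
    have h2 : M g - Matrix.scalar (Box d) t = -(Matrix.scalar (Box d) t - M g) := by
      rw [neg_sub]
    rw [h2, Matrix.det_neg, ht, mul_zero]
  let I : Ideal (MvPolynomial (Fin n) ℂ) :=
    Ideal.span (Set.range (fun i => X i ^ d i - G i) ∪ {g - C t})
  have hI : ∀ f ∈ I, ∃ B : Matrix (Box d) (Box d) ℂ, M f = B * A := by
    intro f hf
    refine Submodule.span_induction (p := fun f _ => ∃ B : Matrix (Box d) (Box d) ℂ,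
      M f = B * A) ?_ ?_ ?_ ?_ hf
    · intro x hx
      rcases hx with ⟨i, rfl⟩ | hx
      · refine ⟨0, ?_⟩
        rw [map_sub, hM.rel i, sub_self, zero_mul]
      · rw [Set.mem_singleton_iff] at hx
        subst hx
        exact ⟨1, by rw [one_mul]⟩
    · exact ⟨0, by rw [map_zero, zero_mul]⟩
    · rintro x y _ _ ⟨B, hB⟩ ⟨B', hB'⟩
      exact ⟨B + B', by rw [map_add, hB, hB', add_mul]⟩
    · rintro a x _ ⟨B, hB⟩
      exact ⟨M a * B, by rw [smul_eq_mul, map_mul, hB, mul_assoc]⟩
  have hne : I ≠ ⊤ := by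
    intro htop
    have h1 : (1 : MvPolynomial (Fin n) ℂ) ∈ I := by rw [htop]; trivial
    obtain ⟨B, hB⟩ := hI 1 h1
    rw [map_one] at hB
    exact hnot (IsUnit.of_mul_eq_one B (by
      exact (mul_eq_one_comm.1 hB.symm)))
  obtain ⟨J, hJ, hIJ⟩ := Ideal.exists_le_maximal I hne
  obtain ⟨y, hy⟩ := (MvPolynomial.isMaximal_iff_eq_vanishingIdeal_singleton
    (σ := Fin n) (K := ℂ)).1 hJ
  have hev : ∀ f ∈ I, eval y f = 0 := by
    intro f hf
    have h1 := hIJ hf
    rw [hy, MvPolynomial.mem_vanishingIdeal_singleton_iff] at h1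
    simpa using h1
  refine ⟨y, ?_, ?_⟩
  · intro i
    have h1 := hev (X i ^ d i - G i) (Ideal.subset_span (Or.inl ⟨i, rfl⟩))
    rw [map_sub, map_pow, eval_X, sub_eq_zero] at h1
    exact h1
  · have h1 := hev (g - C t) (Ideal.subset_span (Or.inr rfl))
    rw [map_sub, eval_C, sub_eq_zero] at h1
    exact h1

end Pool.Agent.Work.MP_859ada_lc.ER
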