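import Pool.Agent.Work.MP_859ada_lc.ER.Base

set_option autoImplicit false

namespace Pool.Agent.Work.MP_859ada_lc.ER

open MvPolynomial

namespace TAU

section
variable {R : Type} [CommRing R] {n : ℕ} {d : Fin n → ℕ}

theorem prod_deg (G : Fin n → MvPolynomial (Fin n) R) (hG : ∀ i, (G i).totalDegree < d i)
    (k : Fin n → ℕ) : (∏ i, G i ^ k i).totalDegree ≤ ∑ i, k i * (d i - 1) := by
  refine (totalDegree_finsetProd _ _).trans (Finset.sum_le_sum fun i _ => ?_)
  refine (totalDegree_pow _ _).trans (Nat.mul_le_mul_left _ ?_)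
  have := hG i
  omega

theorem B_zero (G : Fin n → MvPolynomial (Fin n) R) (hG : ∀ i, (G i).totalDegree < d i)
    (K : ℕ) (q : MvPolynomial (Fin n) R) (j : Fin n) (hq : q.totalDegree + d j ≤ K)
    (k : Fin n → ℕ) (hk : k j = K) :
    coeff (ex fun i => d i * (k i + 1) - 1) (q * G j * ∏ i, G i ^ k i) = 0 := by
  by_contra h
  have h1 := sum_le_totalDegree h
  simp only [ex_apply] at h1
  have h2 := totalDegree_mul (q * G j) (∏ i, G i ^ k i)
  have h3 := totalDegree_mul q (G j)
  have h4 := prod_deg G hG k
  have h5 := hG j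
  have h6 : ∑ i, k i * (d i - 1) + (K + (d j - 1)) ≤ ∑ i, (d i * (k i + 1) - 1) := by
    have h7 : ∀ i, d i * (k i + 1) - 1 = k i * (d i - 1) + (k i + (d i - 1)) := by
      intro i
      have := hG i
      obtain ⟨e, he⟩ : ∃ e, d i = e + 1 := ⟨d i - 1, by omega⟩
      rw [he, Nat.add_sub_cancel]
      have : (e + 1) * (k i + 1) = k i * e + (k i + e) + 1 := by ring
      rw [this]; rfl
    rw [Finset.sum_congr rfl fun i _ => h7 i, Finset.sum_add_distrib]
    refine Nat.add_le_add_left ?_ _
    have h8 := Finset.single_le_sum (f := fun i => k i + (d i - 1)) (fun i _ => Nat.zero_le _)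
      (Finset.mem_univ j)
    simp only [hk] at h8
    exact h8
  omega

theorem A_zero (G : Fin n → MvPolynomial (Fin n) R) (hG : ∀ i, (G i).totalDegree < d i)
    (q : MvPolynomial (Fin n) R) (j : Fin n) (k : Fin n → ℕ) (hk : k j = 0) :
    coeff (ex fun i => d i * (k i + 1) - 1) (q * X j ^ d j * ∏ i, G i ^ k i) = 0 := by
  rw [mul_right_comm, X_pow_eq_monomial, coeff_mul_monomial', if_neg]
  intro h
  have h1 := h j
  have := hG j
  simp only [Finsupp.single_eq_same, ex_apply, hk] at h1
  omega

theorem A_eq (G : Fin n → MvPolynomial (Fin n) R) (hG : ∀ i, (G i).totalDegree < d i)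
    (q : MvPolynomial (Fin n) R) (j : Fin n) (k : Fin n → ℕ) :
    coeff (ex fun i => d i * (Function.update k j (k j + 1) i + 1) - 1)
      (q * X j ^ d j * ∏ i, G i ^ Function.update k j (k j + 1) i) =
    coeff (ex fun i => d i * (k i + 1) - 1) (q * G j * ∏ i, G i ^ k i) := by
  have hP : ∏ i, G i ^ Function.update k j (k j + 1) i = G j * ∏ i, G i ^ k i := by
    rw [← Finset.mul_prod_erase _ _ (Finset.mem_univ j),
      ← Finset.mul_prod_erase _ (fun i => G i ^ k i) (Finset.mem_univ j),
      Function.update_self, pow_succ', mul_assoc]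
    congr 2
    refine Finset.prod_congr rfl fun i hi => ?_
    rw [Function.update_of_ne (Finset.ne_of_mem_erase hi)]
  have hE : (ex fun i => d i * (Function.update k j (k j + 1) i + 1) - 1) =
      Finsupp.single j (d j) + ex fun i => d i * (k i + 1) - 1 := by
    ext i
    simp only [Finsupp.add_apply, ex_apply]
    by_cases hi : i = j
    · subst hi
      rw [Function.update_self, Finsupp.single_eq_same]
      have := hG i
      have h2 : 0 < d i * (k i + 1) := Nat.mul_pos (by omega) (by omega)
      have h3 : d i * (k i + 1 + 1) = d i + d i * (k i + 1) := by ring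
      omega
    · rw [Function.update_of_ne hi, Finsupp.single_eq_of_ne (by tauto), zero_add]
  rw [hP, hE, ← mul_assoc, show q * X j ^ d j * G j * ∏ i, G i ^ k i =
    monomial (Finsupp.single j (d j)) 1 * (q * G j * ∏ i, G i ^ k i) by
      rw [← X_pow_eq_monomial]; ring, coeff_monomial_mul, one_mul]

end

end TAU

theorem I_TAU : STAU := by
  intro R _ n d G K q j hG hq
  classical
  have hsub : ∀ k : Fin n → ℕ, coeff (ex fun i => d i * (k i + 1) - 1)
      (q * (X j ^ d j - G j) * ∏ i, G i ^ k i) =
      coeff (ex fun i => d i * (k i + 1) - 1) (q * X j ^ d j * ∏ i, G i ^ k i) -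
      coeff (ex fun i => d i * (k i + 1) - 1) (q * G j * ∏ i, G i ^ k i) := by
    intro k
    rw [mul_sub, sub_mul, coeff_sub]
  unfold tau
  rw [Finset.sum_congr rfl fun k _ => hsub k, Finset.sum_sub_distrib, sub_eq_zero]
  set S := Fintype.piFinset (fun _ : Fin n => Finset.range (K + 1)) with hS
  have hA : ∑ k ∈ S, coeff (ex fun i => d i * (k i + 1) - 1) (q * X j ^ d j * ∏ i, G i ^ k i) =
      ∑ k ∈ S.filter (fun k => k j ≠ 0),
        coeff (ex fun i => d i * (k i + 1) - 1) (q * X j ^ d j * ∏ i, G i ^ k i) := by
    symm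
    refine Finset.sum_filter_of_ne fun k _ hne h0 => hne (TAU.A_zero G hG q j k h0)
  have hB : ∑ k ∈ S, coeff (ex fun i => d i * (k i + 1) - 1) (q * G j * ∏ i, G i ^ k i) =
      ∑ k ∈ S.filter (fun k => k j ≠ K),
        coeff (ex fun i => d i * (k i + 1) - 1) (q * G j * ∏ i, G i ^ k i) := by
    symm
    refine Finset.sum_filter_of_ne fun k _ hne h0 => hne (TAU.B_zero G hG K q j hq k h0)
  rw [hA, hB]
  symm
  refine Finset.sum_nbij' (fun k => Function.update k j (k j + 1))
    (fun k => Function.update k j (k j - 1)) ?_ ?_ ?_ ?_ ?_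
  · intro k hk
    simp only [hS, Finset.mem_filter, Fintype.mem_piFinset, Finset.mem_range] at hk ⊢
    refine ⟨fun i => ?_, by rw [Function.update_self]; omega⟩
    by_cases hi : i = j
    · subst hi
      have := hk.1 i
      rw [Function.update_self]
      omega
    · rw [Function.update_of_ne hi]
      exact hk.1 i
  · intro k hk
    simp only [hS, Finset.mem_filter, Fintype.mem_piFinset, Finset.mem_range] at hk ⊢
    refine ⟨fun i => ?_, ?_⟩
    · by_cases hi : i = j
      · subst hi
        have := hk.1 i
        rw [Function.update_self]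
        omega
      · rw [Function.update_of_ne hi]
        exact hk.1 i
    · rw [Function.update_self]
      have := hk.1 j
      omega
  · intro k _
    funext i
    by_cases hi : i = j
    · subst hi
      simp
    · simp [Function.update_of_ne hi]
  · intro k hk
    simp only [Finset.mem_filter] at hk
    funext i
    by_cases hi : i = j
    · subst hi
      simp only [Function.update_self]
      have := hk.2
      omega
    · simp [Function.update_of_ne hi]
  · intro k _
    exact (TAU.A_eq G hG q j k).symm

end Pool.Agent.Work.MP_859ada_lc.ER
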