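import Pool.Agent.Work.MP_859ada_lc.ER.Base

set_option autoImplicit false

namespace Pool.Agent.Work.MP_859ada_lc.ER

open MvPolynomial

namespace TK

section
variable {R : Type} [CommRing R] {n : ℕ} {d : Fin n → ℕ}

/-- The key lemma: terms of small degree vanish. -/
theorem key (G : Fin n → MvPolynomial (Fin n) R) (hG : ∀ i, (G i).totalDegree < d i)
    (k : Fin n → ℕ) (q : MvPolynomial (Fin n) R)
    (hq : q.totalDegree < ∑ i, k i + ∑ i, (d i - 1)) :
    coeff (ex fun i => d i * (k i + 1) - 1) (q * ∏ i, G i ^ k i) = 0 := by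
  by_contra hne
  have h1 := sum_le_totalDegree hne
  have h2 : (q * ∏ i, G i ^ k i).totalDegree ≤ q.totalDegree + ∑ i, k i * (d i - 1) := by
    refine (totalDegree_mul _ _).trans (Nat.add_le_add_left ?_ _)
    refine (totalDegree_finsetProd _ _).trans (Finset.sum_le_sum fun i _ => ?_)
    refine (totalDegree_pow _ _).trans (Nat.mul_le_mul_left _ ?_)
    have := hG i
    omega
  have h3 : ∑ j, (ex fun i => d i * (k i + 1) - 1) j =
      ∑ i, k i * (d i - 1) + (∑ i, k i + ∑ i, (d i - 1)) := by
    rw [← Finset.sum_add_distrib, ← Finset.sum_add_distrib]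
    refine Finset.sum_congr rfl fun j _ => ?_
    rw [ex_apply]
    have h4 := hG j
    obtain ⟨e, he⟩ : ∃ e, d j = e + 1 := ⟨d j - 1, by omega⟩
    rw [he]
    simp only [Nat.add_sub_cancel]
    have h5 : (e + 1) * (k j + 1) = (k j * e + (k j + e)) + 1 := by ring
    rw [h5]
    omega
  omega

theorem zero_term (G : Fin n → MvPolynomial (Fin n) R) (k : Fin n → ℕ) (hk : ∀ i, k i = 0)
    (m : Fin n →₀ ℕ) :
    coeff (ex fun i => d i * (k i + 1) - 1) (monomial m 1 * ∏ i, G i ^ k i) =
      if m = ex (fun i => d i - 1) then 1 else 0 := by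
  classical
  have h1 : (∏ i, G i ^ k i) = 1 := Finset.prod_eq_one fun i _ => by rw [hk i, pow_zero]
  have h2 : (ex fun i => d i * (k i + 1) - 1) = ex (fun i => d i - 1) := by
    ext i
    rw [ex_apply, ex_apply, hk i, zero_add, mul_one]
  rw [h1, mul_one, h2, coeff_monomial]

theorem exists_pos {k : Fin n → ℕ} (h : ¬ ∀ i, k i = 0) : 1 ≤ ∑ i, k i := by
  push Not at h
  obtain ⟨j, hj⟩ := h
  have := Finset.single_le_sum (f := k) (fun i _ => Nat.zero_le _) (Finset.mem_univ j)
  omega

end

end TK

open TK in
theorem I_TK : STK := by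
  classical
  intro R _ n d G hG
  refine ⟨?_, ?_, ?_⟩
  · intro K L q hq hKL
    unfold tau
    refine Finset.sum_subset ?_ ?_
    · intro k hk
      rw [Fintype.mem_piFinset] at hk ⊢
      intro i
      have := Finset.mem_range.1 (hk i)
      exact Finset.mem_range.2 (by omega)
    · intro k _ hk
      rw [Fintype.mem_piFinset] at hk
      push Not at hk
      obtain ⟨j, hj⟩ := hk
      rw [Finset.mem_range, not_lt] at hj
      have h1 := Finset.single_le_sum (f := k) (fun i _ => Nat.zero_le _) (Finset.mem_univ j)
      exact key G hG k q (by omega)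
  · intro K m hm
    unfold tau
    refine Finset.sum_eq_zero fun k _ => ?_
    have h1 := totalDegree_monomial_le' (R := R) m 1
    rcases hm with hm | ⟨hm, i, hi⟩
    · exact key G hG k _ (by omega)
    · by_cases hk : ∀ i, k i = 0
      · rw [zero_term G k hk, if_neg]
        intro he
        apply hi
        rw [he, ex_apply]
      · have := exists_pos hk
        exact key G hG k _ (by omega)
  · intro K
    unfold tau
    rw [Finset.sum_eq_single (fun _ => 0)]
    · rw [zero_term G _ (fun _ => rfl), if_pos rfl]
    · intro k _ hk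
      have hk' : ¬ ∀ i, k i = 0 := fun h => hk (funext h)
      have h1 := totalDegree_monomial_le' (R := R) (ex fun i => d i - 1) 1
      have h2 := exists_pos hk'
      simp only [ex_apply] at h1
      exact key G hG k _ (by omega)
    · intro h
      exfalso
      apply h
      rw [Fintype.mem_piFinset]
      intro i
      exact Finset.mem_range.2 (by omega)

end Pool.Agent.Work.MP_859ada_lc.ER
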