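import Pool.Agent.Work.MP_859ada_lc.ER.Base

set_option autoImplicit false

namespace Pool.Agent.Work.MP_859ada_lc.ER

open MvPolynomial

namespace TR

section
variable {R : Type} [CommRing R] {n : ℕ} {d : Fin n → ℕ} {G : Fin n → MvPolynomial (Fin n) R}

theorem tau_add (K : ℕ) (p q : MvPolynomial (Fin n) R) :
    tau d G K (p + q) = tau d G K p + tau d G K q := by
  simp only [tau, add_mul, coeff_add, Finset.sum_add_distrib]

theorem tau_smul (K : ℕ) (c : R) (q : MvPolynomial (Fin n) R) :
    tau d G K (c • q) = c * tau d G K q := by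
  simp only [tau, smul_mul_assoc, coeff_smul, smul_eq_mul, Finset.mul_sum]

/-- the residue functional -/
noncomputable def T (hTK : STK) (d : Fin n → ℕ) (G : Fin n → MvPolynomial (Fin n) R)
    (hG : ∀ i, (G i).totalDegree < d i) : MvPolynomial (Fin n) R →ₗ[R] R where
  toFun q := tau d G q.totalDegree q
  map_add' p q := by
    have h1 := (hTK R n d G hG).1
    have e1 := h1 p.totalDegree (max (p + q).totalDegree (max p.totalDegree q.totalDegree)) p
      le_rfl (le_trans (le_max_left _ _) (le_max_right _ _))
    have e2 := h1 q.totalDegree (max (p + q).totalDegree (max p.totalDegree q.totalDegree)) q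
      le_rfl (le_trans (le_max_right _ _) (le_max_right _ _))
    have e3 := h1 (p + q).totalDegree (max (p + q).totalDegree (max p.totalDegree q.totalDegree))
      (p + q) le_rfl (le_max_left _ _)
    rw [e1, e2, e3, tau_add]
  map_smul' c q := by
    have h1 := (hTK R n d G hG).1
    have e1 := h1 q.totalDegree (max (c • q).totalDegree q.totalDegree) q
      le_rfl (le_max_right _ _)
    have e3 := h1 (c • q).totalDegree (max (c • q).totalDegree q.totalDegree)
      (c • q) le_rfl (le_max_left _ _)
    rw [e1, e3, tau_smul]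
    simp

theorem T_eq (hTK : STK) (hG : ∀ i, (G i).totalDegree < d i) (q : MvPolynomial (Fin n) R)
    (K : ℕ) (hK : q.totalDegree ≤ K) : T hTK d G hG q = tau d G K q :=
  (hTK R n d G hG).1 q.totalDegree K q le_rfl hK

/-- the ideal -/
noncomputable def II (d : Fin n → ℕ) (G : Fin n → MvPolynomial (Fin n) R) : Ideal (MvPolynomial (Fin n) R) :=
  Ideal.span (Set.range (fun i => X i ^ d i - G i))

theorem T_rel (hTAU : STAU) (hTK : STK) (hG : ∀ i, (G i).totalDegree < d i)
    (q : MvPolynomial (Fin n) R) (j : Fin n) : T hTK d G hG (q * (X j ^ d j - G j)) = 0 := by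
  rw [T_eq hTK hG _ (max (q * (X j ^ d j - G j)).totalDegree (q.totalDegree + d j))
    (le_max_left _ _)]
  exact hTAU R n d G _ q j hG (le_max_right _ _)

theorem T_ideal (hTAU : STAU) (hTK : STK) (hG : ∀ i, (G i).totalDegree < d i)
    {q : MvPolynomial (Fin n) R} (hq : q ∈ II d G) : T hTK d G hG q = 0 := by
  have key : ∀ r : MvPolynomial (Fin n) R, T hTK d G hG (r * q) = 0 := by
    refine Submodule.span_induction (p := fun q _ => ∀ r, T hTK d G hG (r * q) = 0)
      ?_ ?_ ?_ ?_ hq
    · rintro x ⟨i, rfl⟩ r
      exact T_rel hTAU hTK hG r i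
    · intro r; simp
    · intro x y _ _ hx hy r
      rw [mul_add, map_add, hx, hy, add_zero]
    · intro a x _ hx r
      rw [smul_eq_mul, ← mul_assoc]
      exact hx _
  simpa using key 1

theorem M_ideal {M : MvPolynomial (Fin n) R →ₐ[R] Matrix (Box d) (Box d) R} (hM : IsMul d G M)
    {q : MvPolynomial (Fin n) R} (hq : q ∈ II d G) : M q = 0 := by
  refine Submodule.span_induction (p := fun q _ => M q = 0) ?_ ?_ ?_ ?_ hq
  · rintro x ⟨i, rfl⟩
    show M (X i ^ d i - G i) = 0
    rw [map_sub, hM.rel, sub_self]
  · simp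
  · intro x y _ _ hx hy
    rw [map_add, hx, hy, add_zero]
  · intro a x _ hx
    rw [smul_eq_mul, map_mul, hx, mul_zero]

/-- the normal form -/
theorem normal {M : MvPolynomial (Fin n) R →ₐ[R] Matrix (Box d) (Box d) R} (hM : IsMul d G M)
    (z : Box d) (hz : ∀ i, (z i : ℕ) = 0) (f : MvPolynomial (Fin n) R) :
    f - ∑ a : Box d, C (M f a z) * monomial (bx a) 1 ∈ II d G := by
  classical
  refine red_induction G hM.deg
    (fun f => f - ∑ a : Box d, C (M f a z) * monomial (bx a) 1 ∈ II d G) ?_ ?_ ?_ ?_ ?_ f
  · simp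
  · intro f g hf hg
    have h := (II d G).add_mem hf hg
    convert h using 1
    simp only [map_add, Matrix.add_apply, add_mul, Finset.sum_add_distrib]
    ring
  · intro c f hf
    have h := (II d G).mul_mem_left (C c) hf
    convert h using 1
    rw [mul_sub, Finset.mul_sum]
    congr 1
    refine Finset.sum_congr rfl fun a _ => ?_
    have e : M (C c * f) a z = c * M f a z := by
      rw [C_mul', map_smul, Matrix.smul_apply, smul_eq_mul]
    rw [e, C_mul, mul_assoc]
  · intro b
    have h : ∑ a : Box d, C (M (monomial (bx b) 1) a z) * monomial (bx a) 1 =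
        (monomial (bx b) 1 : MvPolynomial (Fin n) R) := by
      rw [Finset.sum_eq_single b]
      · rw [hM.col z hz, if_pos rfl, C_1, one_mul]
      · intro a _ hab
        rw [hM.col z hz, if_neg hab, C_0, zero_mul]
      · intro h; exact absurd (Finset.mem_univ _) h
    rw [h, sub_self]
    exact (II d G).zero_mem
  · intro i m h
    have h1 : (X i ^ d i - G i) * monomial m 1 ∈ II d G :=
      (II d G).mul_mem_right _ (Ideal.subset_span ⟨i, rfl⟩)
    have h2 := (II d G).add_mem h h1
    convert h2 using 1
    have h3 : M (X i ^ d i * monomial m 1) = M (G i * monomial m 1) := by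
      rw [map_mul, map_mul, hM.rel]
    rw [h3]
    ring

/-- base change of the residue functional -/
theorem T_map (hTK : STK) (hG : ∀ i, (G i).totalDegree < d i)
    (hG' : ∀ i, (map (C : R →+* MvPolynomial (Fin n) R) (G i)).totalDegree < d i)
    (q : MvPolynomial (Fin n) R) :
    T hTK d (fun i => map (C : R →+* MvPolynomial (Fin n) R) (G i)) hG' (map C q) =
      C (T hTK d G hG q) := by
  rw [T_eq hTK hG q (max q.totalDegree (map (C : R →+* MvPolynomial (Fin n) R) q).totalDegree)
    (le_max_left _ _), T_eq hTK hG' (map C q) (max q.totalDegree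
    (map (C : R →+* MvPolynomial (Fin n) R) q).totalDegree) (le_max_right _ _)]
  simp only [tau, map_sum]
  refine Finset.sum_congr rfl fun k _ => ?_
  rw [← coeff_map, map_mul, map_prod]
  simp only [map_pow]

theorem map_monomial_one (m : Fin n →₀ ℕ) :
    map (C : R →+* MvPolynomial (Fin n) R) (monomial m 1) = monomial m 1 := by
  rw [map_monomial, C_1]

/-- the difference times the Bezoutian -/
theorem diff_mem (D : MvPolynomial (Fin n) (MvPolynomial (Fin n) R))
    (J : Ideal (MvPolynomial (Fin n) (MvPolynomial (Fin n) R)))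
    (hD : ∀ j, (X j - C (X j)) * D ∈ J) (q : MvPolynomial (Fin n) R) :
    (map C q - C q) * D ∈ J := by
  induction q using MvPolynomial.induction_on with
  | C a => simp
  | add p q hp hq =>
    have h := J.add_mem hp hq
    convert h using 1
    simp only [map_add]
    ring
  | mul_X p j hp =>
    have h := J.add_mem (J.mul_mem_left (X j) hp) (J.mul_mem_left (C p) (hD j))
    convert h using 1
    simp only [map_mul, map_X]
    ring

theorem totalDegree_map_le' (q : MvPolynomial (Fin n) R) :
    (map (C : R →+* MvPolynomial (Fin n) R) q).totalDegree ≤ q.totalDegree :=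
  Finset.sup_mono (support_map_subset _ _)

/-- claim 1 -/
theorem claim1 (hTAU : STAU) (hTK : STK) (hG : ∀ i, (G i).totalDegree < d i)
    (hG' : ∀ i, (map (C : R →+* MvPolynomial (Fin n) R) (G i)).totalDegree < d i)
    (D : MvPolynomial (Fin n) (MvPolynomial (Fin n) R))
    (hD : ∀ j, (X j - C (X j)) * D ∈ Ideal.span (Set.range (fun i => map C (X i ^ d i - G i)) ∪
      Set.range (fun i => C (X i ^ d i - G i))))
    (hD1 : ∀ K, tau d (fun i => map C (G i)) K D = 1)
    (c : Box d → MvPolynomial (Fin n) R)
    (hc : D - ∑ a : Box d, C (c a) * monomial (bx a) 1 ∈ II d (fun i => map C (G i)))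
    (q : MvPolynomial (Fin n) R) :
    q - ∑ a : Box d, C (T hTK d G hG (q * monomial (bx a) 1)) * c a ∈ II d G := by
  -- values on `J`
  have hJ : ∀ s ∈ Ideal.span (Set.range (fun i => map C (X i ^ d i - G i)) ∪
      Set.range (fun i => C (X i ^ d i - G i))), ∀ r : MvPolynomial (Fin n) (MvPolynomial (Fin n) R),
      T hTK d (fun i => map (C : R →+* MvPolynomial (Fin n) R) (G i)) hG' (r * s) ∈ II d G := by
    intro s hs
    refine Submodule.span_induction (p := fun s _ => ∀ r : MvPolynomial (Fin n)
      (MvPolynomial (Fin n) R), T hTK d (fun i => map (C : R →+* MvPolynomial (Fin n) R) (G i)) hG'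
        (r * s) ∈ II d G) ?_ ?_ ?_ ?_ hs
    · rintro x (⟨i, rfl⟩ | ⟨i, rfl⟩) r
      · have h := T_rel hTAU hTK hG' r i
        have e : map (C : R →+* MvPolynomial (Fin n) R) (X i ^ d i - G i) =
            X i ^ d i - map C (G i) := by simp
        simp only [e]
        rw [h]
        exact (II d G).zero_mem
      · show T hTK d (fun i => map (C : R →+* MvPolynomial (Fin n) R) (G i)) hG'
          (r * C (X i ^ d i - G i)) ∈ II d G
        rw [mul_comm, C_mul', map_smul, smul_eq_mul, mul_comm]
        exact (II d G).mul_mem_left _ (Ideal.subset_span ⟨i, rfl⟩)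
    · intro r
      rw [mul_zero, map_zero]
      exact (II d G).zero_mem
    · intro x y _ _ hx hy r
      rw [mul_add, map_add]
      exact (II d G).add_mem (hx r) (hy r)
    · intro a x _ hx r
      rw [smul_eq_mul, ← mul_assoc]
      exact hx _
  have h1 := hJ _ (diff_mem D _ hD q) 1
  rw [one_mul, sub_mul, map_sub, C_mul', map_smul, smul_eq_mul] at h1
  have hTD : T hTK d (fun i => map (C : R →+* MvPolynomial (Fin n) R) (G i)) hG' D = 1 := hD1 _
  rw [hTD, mul_one] at h1
  have h2 : T hTK d (fun i => map (C : R →+* MvPolynomial (Fin n) R) (G i)) hG' (map C q * D) =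
      ∑ a : Box d, C (T hTK d G hG (q * monomial (bx a) 1)) * c a := by
    have e1 : map C q * D = map C q * (D - ∑ a : Box d, C (c a) * monomial (bx a) 1) +
        ∑ a : Box d, c a • map C (q * monomial (bx a) 1) := by
      rw [mul_sub, Finset.mul_sum]
      have : ∑ a : Box d, map C q * (C (c a) * monomial (bx a) 1) =
          ∑ a : Box d, c a • map (C : R →+* MvPolynomial (Fin n) R) (q * monomial (bx a) 1) := by
        refine Finset.sum_congr rfl fun a _ => ?_
        rw [← C_mul', map_mul, map_monomial_one]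
        ring
      rw [this]
      ring
    rw [e1, map_add, T_ideal hTAU hTK hG' ((II d fun i => map C (G i)).mul_mem_left _ hc),
      zero_add, map_sum]
    refine Finset.sum_congr rfl fun a _ => ?_
    rw [map_smul, smul_eq_mul, T_map hTK hG hG', mul_comm]
  rw [h2] at h1
  have h3 := (II d G).neg_mem h1
  convert h3 using 1
  ring

theorem eval_ideal (s : MvPolynomial (Fin n) (MvPolynomial (Fin n) R))
    (hs : s ∈ II d (fun i => map (C : R →+* MvPolynomial (Fin n) R) (G i))) :
    eval X s ∈ II d G := by
  refine Submodule.span_induction (p := fun s _ => eval X s ∈ II d G) ?_ ?_ ?_ ?_ hs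
  · rintro x ⟨i, rfl⟩
    show eval X (X i ^ d i - map (C : R →+* MvPolynomial (Fin n) R) (G i)) ∈ II d G
    rw [map_sub, map_pow, eval_X, eval_map, eval₂_eta]
    exact Ideal.subset_span ⟨i, rfl⟩
  · rw [map_zero]; exact (II d G).zero_mem
  · intro x y _ _ hx hy
    rw [map_add]
    exact (II d G).add_mem hx hy
  · intro a x _ hx
    rw [smul_eq_mul, map_mul]
    exact (II d G).mul_mem_left _ hx

theorem eval_monomial_bx (a : Box d) :
    eval X (monomial (bx a) (1 : MvPolynomial (Fin n) R)) = monomial (bx a) 1 := by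
  rw [← map_monomial_one, eval_map, eval₂_eta]

end

end TR

open TR in
theorem I_TR (hMUL : SMUL) (hCOL : SCOL) (hTAU : STAU) (hTK : STK) (hDEL : SDEL) : STR := by
  intro R _ n d G M g K hM hK
  have hG := hM.deg
  have hG' : ∀ i, (map (C : R →+* MvPolynomial (Fin n) R) (G i)).totalDegree < d i := fun i =>
    lt_of_le_of_lt (totalDegree_map_le' _) (hG i)
  obtain ⟨D, hD, hDj, hD1⟩ := hDEL R n d G hG
  obtain ⟨M', hM'⟩ := hMUL (MvPolynomial (Fin n) R) n d (fun i => map C (G i)) hG'
  let z : Box d := fun i => ⟨0, lt_of_le_of_lt (Nat.zero_le _) (hG i)⟩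
  have hz : ∀ i, (z i : ℕ) = 0 := fun i => rfl
  set c : Box d → MvPolynomial (Fin n) R := fun a => M' D a z with hc_def
  have hc : D - ∑ a : Box d, C (c a) * monomial (bx a) 1 ∈ II d (fun i => map C (G i)) :=
    normal hM' z hz D
  have h1 : ∀ q, q - ∑ a : Box d, C (T hTK d G hG (q * monomial (bx a) 1)) * c a ∈ II d G :=
    claim1 hTAU hTK hG hG' D hD hD1 c hc
  have h2 : ∀ q, M q = ∑ a : Box d, T hTK d G hG (q * monomial (bx a) 1) • M (c a) := by
    intro q
    have h := M_ideal hM (h1 q)
    rw [map_sub, sub_eq_zero, map_sum] at h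
    rw [h]
    refine Finset.sum_congr rfl fun a _ => ?_
    rw [C_mul', map_smul]
  have h3 : ∀ b : Box d, M g b b = ∑ a : Box d,
      T hTK d G hG (g * monomial (bx b) 1 * monomial (bx a) 1) * M (c a) b z := by
    intro b
    rw [hCOL R n d G M hM z hz, h2, Matrix.sum_apply]
    refine Finset.sum_congr rfl fun a _ => ?_
    rw [Matrix.smul_apply, smul_eq_mul]
  have h4 : ∀ a : Box d, ∑ b : Box d,
      T hTK d G hG (g * monomial (bx b) 1 * monomial (bx a) 1) * M (c a) b z =
      T hTK d G hG (g * monomial (bx a) 1 * c a) := by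
    intro a
    have h := T_ideal hTAU hTK hG ((II d G).mul_mem_left (g * monomial (bx a) 1)
      (normal hM z hz (c a)))
    rw [mul_sub, map_sub, sub_eq_zero] at h
    rw [h, Finset.mul_sum, map_sum]
    refine Finset.sum_congr rfl fun b _ => ?_
    have e : g * monomial (bx a) 1 * (C (M (c a) b z) * monomial (bx b) 1) =
        M (c a) b z • (g * monomial (bx b) 1 * monomial (bx a) 1) := by
      rw [← C_mul']
      ring
    rw [e, map_smul, smul_eq_mul, mul_comm]
  have h5 : (M g).trace = T hTK d G hG (g * ∑ a : Box d, monomial (bx a) 1 * c a) := by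
    rw [Matrix.trace]
    simp only [Matrix.diag_apply]
    rw [Finset.sum_congr rfl fun b _ => h3 b, Finset.sum_comm, Finset.sum_congr rfl fun a _ => h4 a,
      Finset.mul_sum, map_sum]
    refine Finset.sum_congr rfl fun a _ => ?_
    rw [mul_assoc]
  have h6 : jac d G - ∑ a : Box d, monomial (bx a) 1 * c a ∈ II d G := by
    have h := eval_ideal _ hc
    rw [map_sub, hDj, map_sum] at h
    convert h using 2
    refine Finset.sum_congr rfl fun a _ => ?_
    rw [map_mul, eval_C, eval_monomial_bx, mul_comm]
  have h7 : T hTK d G hG (g * jac d G) = T hTK d G hG (g * ∑ a : Box d, monomial (bx a) 1 * c a) := by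
    have h := T_ideal hTAU hTK hG ((II d G).mul_mem_left g h6)
    rwa [mul_sub, map_sub, sub_eq_zero] at h
  rw [h5, ← h7, T_eq hTK hG _ K hK]

end Pool.Agent.Work.MP_859ada_lc.ER
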