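import Pool.Agent.Work.MP_859ada_lc.ER.Base

/-!
MP_859ada_lc, project ER, item TRP: traces of powers of a matrix over an algebraically closed
field. First `det (q A)` is the product of the values of `q` at the roots of the characteristic
polynomial; with `q = t - X ^ m` this gives the characteristic polynomial of `A ^ m`.
-/

set_option autoImplicit false

namespace Pool.Agent.Work.MP_859ada_lc.ER

namespace TRP

open Polynomial

variable {K : Type} [Field K] [IsAlgClosed K] {ι : Type} [Fintype ι] [DecidableEq ι]

/-- `q ↦ det (q A)` -/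
noncomputable def phi (A : Matrix ι ι K) : K[X] →* K :=
  Matrix.detMonoidHom.comp ((aeval A : K[X] →ₐ[K] Matrix ι ι K) : K[X] →* Matrix ι ι K)

/-- `q ↦ ∏ q x`, `x` the roots of the characteristic polynomial -/
noncomputable def psi (A : Matrix ι ι K) : K[X] →* K where
  toFun q := (A.charpoly.roots.map (fun x => q.eval x)).prod
  map_one' := by simp
  map_mul' p q := by
    simp only [eval_mul]
    exact Multiset.prod_map_mul

theorem card_roots (A : Matrix ι ι K) : A.charpoly.roots.card = Fintype.card ι := by
  rw [IsAlgClosed.card_roots_eq_natDegree, Matrix.charpoly_natDegree_eq_dim]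

theorem phi_C (A : Matrix ι ι K) (c : K) : phi A (C c) = psi A (C c) := by
  change (aeval A (C c)).det = (A.charpoly.roots.map (fun x => (C c).eval x)).prod
  rw [aeval_C, Algebra.algebraMap_eq_smul_one]
  simp [card_roots]

theorem phi_X_sub_C (A : Matrix ι ι K) (r : K) : phi A (X - C r) = psi A (X - C r) := by
  change (aeval A (X - C r)).det = (A.charpoly.roots.map (fun x => (X - C r).eval x)).prod
  have h1 : (aeval A (X - C r) : Matrix ι ι K) = -(Matrix.scalar ι r - A) := by
    rw [map_sub, aeval_X, aeval_C, neg_sub]
    rfl
  rw [h1, Matrix.det_neg, ← Matrix.eval_charpoly,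
    (IsAlgClosed.splits A.charpoly).eval_eq_prod_roots_of_monic A.charpoly_monic]
  have h2 : (A.charpoly.roots.map (fun x => (X - C r).eval x)) =
      (A.charpoly.roots.map (fun x => (-1) * (r - x))) := by
    refine Multiset.map_congr rfl fun x _ => ?_
    simp
  rw [h2, Multiset.prod_map_mul]
  simp [card_roots]

theorem phi_eq_psi (A : Matrix ι ι K) (q : K[X]) : phi A q = psi A q := by
  rw [(IsAlgClosed.splits q).eq_prod_roots, map_mul, map_mul, phi_C, map_multiset_prod,
    map_multiset_prod, Multiset.map_map, Multiset.map_map]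
  congr 2
  refine Multiset.map_congr rfl fun r _ => ?_
  exact phi_X_sub_C A r

theorem charpoly_pow (A : Matrix ι ι K) (m : ℕ) :
    (A ^ m).charpoly = (A.charpoly.roots.map (fun x => X - C (x ^ m))).prod := by
  have : Infinite K := inferInstance
  refine Polynomial.funext fun t => ?_
  rw [Matrix.eval_charpoly, eval_multiset_prod, Multiset.map_map]
  have h := phi_eq_psi A (C t - X ^ m)
  change (aeval A (C t - X ^ m)).det = (A.charpoly.roots.map (fun x => (C t - X ^ m).eval x)).prod at h
  have h1 : (aeval A (C t - X ^ m) : Matrix ι ι K) = Matrix.scalar ι t - A ^ m := by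
    rw [map_sub, aeval_C, map_pow, aeval_X]
    rfl
  rw [h1] at h
  rw [h]
  congr 1
  refine Multiset.map_congr rfl fun x _ => ?_
  simp

end TRP

theorem I_TRP : STRP := by
  intro K _ _ ι _ _ A m
  rw [Matrix.trace_eq_sum_roots_charpoly, TRP.charpoly_pow]
  have h : (A.charpoly.roots.map (fun x => Polynomial.X - Polynomial.C (x ^ m))).prod =
      ((A.charpoly.roots.map (fun x => x ^ m)).map
        (fun y => Polynomial.X - Polynomial.C y)).prod := by
    rw [Multiset.map_map]
    rfl
  rw [h, Polynomial.roots_multiset_prod_X_sub_C]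

end Pool.Agent.Work.MP_859ada_lc.ER
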