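import Pool.Agent.Work.MP_859ada_lc.ER.Base

set_option autoImplicit false

namespace Pool.Agent.Work.MP_859ada_lc.ER.VAL

open MvPolynomial

theorem deg_map {R S : Type} [CommRing R] [CommRing S] {n : ℕ} (f : R →+* S)
    (g : MvPolynomial (Fin n) R) : (map f g).totalDegree ≤ g.totalDegree :=
  Finset.sup_mono (support_map_subset f g)

theorem deg_pderiv {R : Type} [CommRing R] {n : ℕ} (f : MvPolynomial (Fin n) R) (D : ℕ)
    (hf : f.totalDegree ≤ D) (i : Fin n) : (pderiv i f).totalDegree ≤ D := by
  rw [MvPolynomial.as_sum f, map_sum]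
  refine totalDegree_finsetSum_le fun m hm => ?_
  rw [pderiv_monomial]
  refine (totalDegree_monomial_le' _ _).trans ?_
  have h1 := sum_le_totalDegree (mem_support_iff.1 hm)
  refine le_trans (Finset.sum_le_sum fun j _ => ?_) (h1.trans hf)
  simp

theorem deg_jac {R : Type} [CommRing R] {n : ℕ} (d : Fin n → ℕ) (G : Fin n → MvPolynomial (Fin n) R)
    (hG : ∀ i, (G i).totalDegree < d i) : (jac d G).totalDegree ≤ ∑ i, d i := by
  unfold jac
  rw [Matrix.det_apply]
  refine totalDegree_finsetSum_le fun s _ => ?_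
  have h1 : (∏ i, (Matrix.of fun i j => pderiv j (X i ^ d i - G i)) (s i) i).totalDegree ≤
      ∑ i, d i := by
    refine (totalDegree_finsetProd _ _).trans ?_
    have h2 : ∑ i, d i = ∑ i, d (s i) := (Equiv.sum_comp s d).symm
    rw [h2]
    refine Finset.sum_le_sum fun i _ => ?_
    refine deg_pderiv _ _ ?_ _
    refine (totalDegree_sub _ _).trans (max_le ?_ (hG _).le)
    rw [X_pow_eq_monomial]
    refine (totalDegree_monomial_le' _ _).trans ?_
    simp
  rcases Int.units_eq_one_or (Equiv.Perm.sign s) with h | h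
  · rw [h, one_smul]; exact h1
  · rw [h, Units.neg_smul, one_smul, totalDegree_neg]; exact h1

theorem card_box {n : ℕ} (d : Fin n → ℕ) : Fintype.card (Box d) = ∏ i, d i := by
  simp [Box, Fintype.card_pi]

end Pool.Agent.Work.MP_859ada_lc.ER.VAL

namespace Pool.Agent.Work.MP_859ada_lc.ER

open MvPolynomial in
theorem I_VAL (hMUL : SMUL) (hMAP : SMAP) (hTR : STR) (hFP : SFP) (hDET : SDET) : SVAL := by
  intro n d G M g x p _ N K hM hg hN hK hp
  have hG' : ∀ i, (map (Int.castRingHom (ZMod p)) (G i)).totalDegree < d i := fun i =>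
    (VAL.deg_map _ _).trans_lt (hM.deg i)
  obtain ⟨M', hM'⟩ := hMUL (ZMod p) n d (fun i => map (Int.castRingHom (ZMod p)) (G i)) hG'
  have hmap := hMAP ℤ (ZMod p) (Int.castRingHom (ZMod p)) n d G M M' hM hM' g
  set q : MvPolynomial (Fin n) (ZMod p) := C (x : ZMod p) - map (Int.castRingHom (ZMod p)) g with hq
  have hqd : q.totalDegree ≤ 1 := by
    refine (totalDegree_sub _ _).trans (max_le ?_ ((VAL.deg_map _ _).trans hg))
    rw [totalDegree_C]; exact Nat.zero_le _
  have hL : ((M g).charpoly.map (Int.castRingHom (ZMod p))).eval (x : ZMod p) = (M' q).det := by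
    rw [← Matrix.charpoly_map, Matrix.eval_charpoly]
    congr 1
    rw [hq, map_sub, hmap]
    congr 1
    have h1 : (C (x : ZMod p) : MvPolynomial (Fin n) (ZMod p)) =
      algebraMap (ZMod p) (MvPolynomial (Fin n) (ZMod p)) (x : ZMod p) := rfl
    rw [h1, AlgHom.commutes]
    rfl
  rw [hL]
  symm
  have hpN : N < p := by omega
  refine hDET (ZMod p) (Box d) (M' q) N _ (by rw [VAL.card_box, hN]) ?_ ?_
  · intro k hk1 hk2 h0
    rw [ZMod.natCast_eq_zero_iff] at h0
    have := Nat.le_of_dvd (by omega) h0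
    omega
  · intro m hm1 hm2
    have hqm : (q ^ m).totalDegree ≤ m := by
      refine (totalDegree_pow _ _).trans ?_
      calc m * q.totalDegree ≤ m * 1 := Nat.mul_le_mul_left _ hqd
        _ = m := by ring
    have hdeg : (q ^ m * jac d (fun i => map (Int.castRingHom (ZMod p)) (G i))).totalDegree ≤ K := by
      refine (totalDegree_mul _ _).trans ?_
      have := VAL.deg_jac d _ hG'
      omega
    rw [← map_pow, hTR (ZMod p) n d _ M' (q ^ m) K hM' hdeg, hFP p n d _ K _ hG' (by omega)]
    congr 1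
    refine Finset.sum_congr rfl fun y _ => ?_
    congr 1
    rw [map_mul, map_pow, hq, map_sub, eval_C]
    congr 1
    unfold jac
    rw [RingHom.map_det]
    rfl

end Pool.Agent.Work.MP_859ada_lc.ER
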