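import Pool.Agent.Work.MP_859ada_lc.ER.A_QS
import Pool.Agent.Work.MP_859ada_lc.ER.A_FIN
import Pool.Agent.Work.MP_859ada_lc.ER.P_MUL
import Pool.Agent.Work.MP_859ada_lc.ER.P_COL
import Pool.Agent.Work.MP_859ada_lc.ER.P_MAP
import Pool.Agent.Work.MP_859ada_lc.ER.P_EVL
import Pool.Agent.Work.MP_859ada_lc.ER.P_RT
import Pool.Agent.Work.MP_859ada_lc.ER.P_SOL
import Pool.Agent.Work.MP_859ada_lc.ER.P_NUM
import Pool.Agent.Work.MP_859ada_lc.ER.P_NB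
import Pool.Agent.Work.MP_859ada_lc.ER.P_NH
import Pool.Agent.Work.MP_859ada_lc.ER.P_CHP
import Pool.Agent.Work.MP_859ada_lc.ER.P_TAU
import Pool.Agent.Work.MP_859ada_lc.ER.P_TK
import Pool.Agent.Work.MP_859ada_lc.ER.P_BEZ
import Pool.Agent.Work.MP_859ada_lc.ER.P_DEL
import Pool.Agent.Work.MP_859ada_lc.ER.P_TR
import Pool.Agent.Work.MP_859ada_lc.ER.P_FP
import Pool.Agent.Work.MP_859ada_lc.ER.P_TRP
import Pool.Agent.Work.MP_859ada_lc.ER.P_DET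
import Pool.Agent.Work.MP_859ada_lc.ER.P_GD
import Pool.Agent.Work.MP_859ada_lc.ER.P_LEV
import Pool.Agent.Work.MP_859ada_lc.ER.P_PHI
import Pool.Agent.Work.MP_859ada_lc.ER.P_GAP
import Pool.Agent.Work.MP_859ada_lc.ER.P_RED
import Pool.Agent.Work.MP_859ada_lc.ER.P_PRJ
import Pool.Agent.Work.MP_859ada_lc.ER.P_VAL
import Pool.Agent.Work.MP_859ada_lc.ER.P_GEN
import Pool.Agent.Work.MP_859ada_lc.ER.P_NWF
import Pool.Agent.Work.MP_859ada_lc.ER.P_NWC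
import Pool.Agent.Work.MP_859ada_lc.ER.P_DTF
import Pool.Agent.Work.MP_859ada_lc.ER.P_DTC
import Pool.Agent.Work.MP_859ada_lc.ER.P_CODE
import Pool.Agent.Work.MP_859ada_lc.ER.P_FP0
import Pool.Agent.Work.MP_859ada_lc.ER.P_FE
import Pool.Agent.Work.MP_859ada_lc.ER.P_FF
import Pool.Agent.Work.MP_859ada_lc.ER.P_FN
import Pool.Agent.Work.MP_859ada_lc.ER.P_FG
import Pool.Agent.Work.MP_859ada_lc.ER.P_FX
import Pool.Agent.Work.MP_859ada_lc.ER.P_CF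
import Pool.Agent.Work.MP_859ada_lc.ER.P_CG
import Pool.Agent.Work.MP_859ada_lc.ER.P_CPS
import Pool.Agent.Work.MP_859ada_lc.ER.P_CX
import Pool.Agent.Work.MP_859ada_lc.ER.P_BD
import Pool.Agent.Work.MP_859ada_lc.ER.P_BLK
import Pool.Agent.Work.MP_859ada_lc.ER.P_BLK2
import Pool.Agent.Work.MP_859ada_lc.ER.P_SEM
import Pool.Agent.Work.MP_859ada_lc.ER.P_ENT
import Pool.Agent.Work.MP_859ada_lc.ER.P_ENV
import Pool.Agent.Work.MP_859ada_lc.ER.P_PTF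
import Pool.Agent.Work.MP_859ada_lc.ER.P_EXW

/-!
# The existential theory of the reals is in the counting hierarchy: assembly
-/

set_option autoImplicit false

namespace Pool.Agent.Work.MP_859ada_lc.ER

theorem c_MUL : SMUL := I_MUL I_TAU I_TK
theorem c_MAP : SMAP := I_MAP I_COL
theorem c_EVL : SEVL := I_EVL I_COL
theorem c_RT : SRT := I_RT c_EVL
theorem c_NUM : SNUM := I_NUM c_MUL I_COL c_EVL
theorem c_DEL : SDEL := I_DEL I_BEZ I_TK
theorem c_TR : STR := I_TR c_MUL I_COL I_TAU I_TK c_DEL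
theorem c_DET : SDET := I_DET I_TRP
theorem c_VAL : SVAL := I_VAL c_MUL c_MAP c_TR I_FP c_DET
theorem c_PHI : SPHI := I_PHI c_MUL c_RT (I_NH I_COL) I_CHP
theorem c_RED : SRED := I_RED c_PHI I_GAP I_LEV
theorem c_PRJ : SPRJ := I_PRJ c_MUL c_MAP c_RT I_SOL c_NUM
theorem c_DTC : SDTC := I_DTC I_CODE
theorem c_FF : SFF := I_FF I_FE
theorem c_FN : SFN := I_FN I_FE
theorem c_FG : SFG := I_FG I_FE c_FF c_FN
theorem c_FX : SFX := I_FX I_FE c_FN c_FG I_DTF I_NWF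
theorem c_CPS : SCPS := I_CPS I_CODE c_DTC (I_CG I_CF)
theorem c_CX : SCX := I_CX c_VAL c_CPS I_NWC
theorem c_BD : SBD := I_BD (I_NB I_COL) I_FP0
theorem c_QS : SQS := A_QS c_MUL I_GD c_RED c_PRJ I_FP0 I_GEN c_FX c_FN c_CX c_BD

/-- **The existential theory of the reals is in the counting hierarchy.** -/
theorem existsR_inCH : SFIN :=
  A_FIN c_QS (I_SEM I_BLK I_BLK2) (I_ENV I_ENT) I_PTF I_EXW

end Pool.Agent.Work.MP_859ada_lc.ER
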