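import Pool.Agent.Work.MP_859ada_lc.ER.Defs

set_option autoImplicit false

namespace Pool.Agent.Work.MP_859ada_lc.ER

open MvPolynomial

section
variable {R : Type} [CommRing R] {n : ℕ} {d : Fin n → ℕ}

@[simp] theorem ex_apply (m : Fin n → ℕ) (i : Fin n) : ex m i = m i := rfl

@[simp] theorem bx_apply (b : Box d) (i : Fin n) : bx b i = (b i : ℕ) := rfl

theorem bx_injective : Function.Injective (bx (d := d)) := by
  intro a b h
  funext i
  exact Fin.ext (DFunLike.congr_fun h i)

/-- A monomial is in the box or divisible by some `X i ^ d i`. -/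
theorem box_or (m : Fin n →₀ ℕ) : (∃ b : Box d, m = bx b) ∨
    ∃ (i : Fin n) (m' : Fin n →₀ ℕ), m = Finsupp.single i (d i) + m' := by
  by_cases h : ∀ i, m i < d i
  · exact Or.inl ⟨fun i => ⟨m i, h i⟩, by ext i; simp⟩
  · push Not at h
    obtain ⟨i, hi⟩ := h
    refine Or.inr ⟨i, m - Finsupp.single i (d i), ?_⟩
    ext j
    simp only [Finsupp.add_apply, Finsupp.tsub_apply, Finsupp.single_apply]
    split_ifs with hj
    · subst hj; omega
    · omega

theorem monomial_single_add (i : Fin n) (k : ℕ) (m : Fin n →₀ ℕ) :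
    (monomial (Finsupp.single i k + m) 1 : MvPolynomial (Fin n) R) =
      X i ^ k * monomial m 1 := by
  rw [X_pow_eq_monomial, monomial_mul, one_mul]

theorem sum_single_add (i : Fin n) (k : ℕ) (m : Fin n →₀ ℕ) :
    ∑ j, (Finsupp.single i k + m) j = k + ∑ j, m j := by
  simp only [Finsupp.add_apply, Finset.sum_add_distrib, Finsupp.single_apply,
    Finset.sum_ite_eq, Finset.mem_univ, if_true]

theorem sum_le_totalDegree {f : MvPolynomial (Fin n) R} {m : Fin n →₀ ℕ} (h : coeff m f ≠ 0) :
    ∑ j, m j ≤ f.totalDegree := by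
  have := le_totalDegree (mem_support_iff.2 h)
  rwa [Finsupp.sum_fintype _ _ (fun _ => rfl)] at this

theorem totalDegree_monomial_le' (m : Fin n →₀ ℕ) (c : R) :
    (monomial m c).totalDegree ≤ ∑ j, m j := by
  refine (totalDegree_monomial_le m c).trans ?_
  rw [Finsupp.sum_fintype _ _ (fun _ => rfl)]
  exact le_rfl

/-- Induction along the reductions `X i ^ d i ↦ G i`. -/
theorem red_induction (G : Fin n → MvPolynomial (Fin n) R) (hG : ∀ i, (G i).totalDegree < d i)
    (P : MvPolynomial (Fin n) R → Prop) (h0 : P 0) (hadd : ∀ f g, P f → P g → P (f + g))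
    (hC : ∀ c f, P f → P (C c * f)) (hbox : ∀ b : Box d, P (monomial (bx b) 1))
    (hred : ∀ i (m : Fin n →₀ ℕ), P (G i * monomial m 1) → P (X i ^ d i * monomial m 1))
    (f : MvPolynomial (Fin n) R) : P f := by
  classical
  have key : ∀ k : ℕ, ∀ m : Fin n →₀ ℕ, ∑ j, m j < k → P (monomial m 1) := by
    intro k
    induction k with
    | zero => intro m hm; omega
    | succ k ih =>
      intro m hm
      rcases box_or (d := d) m with ⟨b, rfl⟩ | ⟨i, m', rfl⟩
      · exact hbox b
      · rw [monomial_single_add]
        apply hred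
        rw [sum_single_add] at hm
        have hdeg : (G i * monomial m' 1).totalDegree < k := by
          have h1 := totalDegree_mul (G i) (monomial m' 1)
          have h2 := totalDegree_monomial_le' (R := R) m' 1
          have h3 := hG i
          omega
        rw [MvPolynomial.as_sum (G i * monomial m' 1)]
        refine Finset.sum_induction _ P hadd h0 fun m hm => ?_
        have h4 := sum_le_totalDegree (mem_support_iff.1 hm)
        have h5 := hC (coeff m (G i * monomial m' 1)) _ (ih m (by omega))
        rwa [C_mul_monomial, mul_one] at h5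
  rw [MvPolynomial.as_sum f]
  refine Finset.sum_induction _ P hadd h0 fun m _ => ?_
  have h5 := hC (coeff m f) _ (key _ m (Nat.lt_succ_self _))
  rwa [C_mul_monomial, mul_one] at h5

end

end Pool.Agent.Work.MP_859ada_lc.ER
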