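import Pool.Agent.Work.MP_859ada_lc.ER.Defs
import Pool.Agent.Work.MP_859ada_lc.CH.Final

/-!
# MP_859ada_lc, project ER: definability in the counting hierarchy

Systems of quadratic equations with a code, the values modulo `p` of the characteristic
polynomials, and the statements about their definability.
-/

set_option autoImplicit false

namespace Pool.Agent.Work.MP_859ada_lc.ER

open RootCH

/-! ## Root existence for definable polynomials -/

def SGEN : Prop := ∀ (L A : (ℕ → ℕ) → ℕ) (P : (ℕ → ℕ) → Polynomial ℤ)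
  (e : (ℕ → ℕ) → ℕ → ℕ → ℕ), Fn L → PolyB L → Fn A →
  Fn (fun w => e (RootCH.tail (RootCH.tail w)) (w 0) (w 1)) →
  (∀ v, (P v).natDegree ≤ 2 ^ L v) → (∀ v, nrm (P v) ≤ 2 ^ 2 ^ L v) →
  (∀ v x p, p.Prime → A v < p → ((e v x p : ℕ) : ZMod p) =
    ((P v).map (Int.castRingHom (ZMod p))).eval (x : ZMod p)) →
  CH fun v => ∃ x : ℝ, Polynomial.aeval x (P v) = 0

/-! ## From power sums to the determinant -/

/-- value at `a` of the logarithmic series with the power sums `P`, modulo `p` -/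
def nwL (N p a : ℕ) (P : ℕ → ℕ) : ℕ :=
  sM N p fun m => md ((p - 1) ^ m) p * P (m + 1) * invM (m + 1) p * md (a ^ (m + 1)) p

/-- value at `a` of the exponential series -/
def nwX (N p a : ℕ) (P : ℕ → ℕ) : ℕ :=
  sM (N + 1) p fun k => invM (fac k p) p * md (nwL N p a P ^ k) p

/-- coefficient of degree `N` -/
def nwR (N p : ℕ) (P : ℕ → ℕ) : ℕ :=
  md ((p - 1) * sM (p - 1) p fun b => nwX N p (b + 1) P * md ((b + 1) ^ (p - 1 - N)) p) p

def SNWF : Prop := ∀ (N p : (ℕ → ℕ) → ℕ) (P : ℕ → (ℕ → ℕ) → ℕ), Fn N → Fn p →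
  Fn (fun v => P (v 0) (RootCH.tail v)) → Fn fun v => nwR (N v) (p v) (fun m => P m v)

def SNWC : Prop := ∀ (N p : ℕ) [Fact p.Prime] (P : ℕ → ℕ), 1 ≤ N → N * N < p - 1 →
  ((nwR N p P : ℕ) : ZMod p) =
    (expser (logser (fun m => ((P m : ℕ) : ZMod p)) N) N).coeff N

/-! ## Determinants of small size -/

/-- the sign of the map coded by `g` in base `2 ^ m` (`0` if it is not injective), modulo `p` -/
def sgM (m p g : ℕ) : ℕ :=
  if p.Prime then md (∏ q ∈ Finset.range (m * m), if q / m < q % m then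
    (if dig m g (q / m) < dig m g (q % m) then 1
      else if dig m g (q % m) < dig m g (q / m) then p - 1 else 0) else 1) p else 0

/-- the determinant of an `m × m` matrix, modulo `p` (Leibniz) -/
def detM (m p : ℕ) (A : ℕ → ℕ → ℕ) : ℕ :=
  sM (2 ^ (m * m)) p fun g => if ∀ i < m, dig m g i < m then
    sgM m p g * (if p.Prime then md (∏ i ∈ Finset.range m, A (dig m g i) i) p else 0) else 0

def SDTF : Prop := ∀ (m p : (ℕ → ℕ) → ℕ) (A : ℕ → ℕ → (ℕ → ℕ) → ℕ), Fn m → PolyB m → Fn p →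
  Fn (fun v => A (v 0) (v 1) (RootCH.tail (RootCH.tail v))) →
  Fn fun v => detM (m v) (p v) (fun i j => A i j v)

def SDTC : Prop := ∀ (m p : ℕ) [Fact p.Prime] (A : ℕ → ℕ → ℕ), ((detM m p A : ℕ) : ZMod p) =
  Matrix.det (Matrix.of fun i j : Fin m => ((A i j : ℕ) : ZMod p))

/-- sums over codes are sums over maps -/
def SCODE : Prop := ∀ (K : Type) [AddCommMonoid K] (w m b : ℕ) (F : (ℕ → ℕ) → K), b ≤ 2 ^ w →
  (∀ a a' : ℕ → ℕ, (∀ i < m, a i = a' i) → F a = F a') →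
  ∑ s ∈ Finset.range (2 ^ (w * m)),
      (if ∀ i < m, dig w s i < b then F (fun i => dig w s i) else 0) =
    ∑ g : Fin m → Fin b, F (fun i => if h : i < m then (g ⟨i, h⟩ : ℕ) else 0)

/-! ## Coded systems of quadratic equations -/

/-- the number of the variables and of the equations -/
def nv (u : ℕ) : ℕ := Nat.size u + 1

/-- the entries of the `k`-th equation: type, and three variables -/
def ent (u c k a : ℕ) : ℕ := dig (nv u) c (4 * k + a)

/-- the variables in the `k`-th equation -/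
def vi (u c k a : ℕ) : ℕ := ent u c k a % nv u

/-- the `k`-th equation -/
def Eqn (u c k : ℕ) (y : ℕ → ℝ) : Prop :=
  if ent u c k 0 = 0 then y (vi u c k 1) = 1
  else if ent u c k 0 = 1 then y (vi u c k 1) + y (vi u c k 2) = y (vi u c k 3)
  else y (vi u c k 1) * y (vi u c k 2) = y (vi u c k 3)

/-- the system with code `(u, c)` has a real solution -/
def QS (u c : ℕ) : Prop := ∃ y : ℕ → ℝ, ∀ k < nv u, Eqn u c k y

/-- the variables as polynomials -/
noncomputable def xv (u c k a : ℕ) : MvPolynomial (Fin (Nat.size u + 1)) ℤ :=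
  MvPolynomial.X ⟨vi u c k a, Nat.mod_lt _ (Nat.succ_pos _)⟩

/-- the difference of the two sides of the `k`-th equation -/
noncomputable def qp (u c k : ℕ) : MvPolynomial (Fin (Nat.size u + 1)) ℤ :=
  if ent u c k 0 = 0 then xv u c k 1 - 1
  else if ent u c k 0 = 1 then xv u c k 1 + xv u c k 2 - xv u c k 3
  else xv u c k 1 * xv u c k 2 - xv u c k 3

/-- the sum of the squares -/
noncomputable def fp (u c : ℕ) : MvPolynomial (Fin (Nat.size u + 1)) ℤ :=
  ∑ k ∈ Finset.range (nv u), qp u c k ^ 2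

def SFP0 : Prop := ∀ u c : ℕ, (fp u c).totalDegree ≤ 4 ∧ l1 (fp u c) ≤ 9 * (Nat.size u + 1) ∧
  (∀ y : Fin (Nat.size u + 1) → ℝ,
    0 ≤ MvPolynomial.eval₂ (Int.castRingHom ℝ) y (fp u c)) ∧
  ((∃ y : Fin (Nat.size u + 1) → ℝ,
    MvPolynomial.eval₂ (Int.castRingHom ℝ) y (fp u c) = 0) ↔ QS u c)

/-! ## Values modulo `p` -/

/-- the coordinates of the point coded by `s` -/
def pt (p s i : ℕ) : ℕ := dig (Nat.size p) s i + 1

def dl (a b : ℕ) : ℕ := if a = b then 1 else 0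

/-- `q_k` -/
def eQ (u c k s p : ℕ) : ℕ :=
  if ent u c k 0 = 0 then pt p s (vi u c k 1) + (p - 1)
  else if ent u c k 0 = 1 then
    pt p s (vi u c k 1) + pt p s (vi u c k 2) + (p - 1) * pt p s (vi u c k 3)
  else pt p s (vi u c k 1) * pt p s (vi u c k 2) + (p - 1) * pt p s (vi u c k 3)

/-- `∂_j q_k` -/
def eQ1 (u c k j s p : ℕ) : ℕ :=
  if ent u c k 0 = 0 then dl (vi u c k 1) j
  else if ent u c k 0 = 1 then
    dl (vi u c k 1) j + dl (vi u c k 2) j + (p - 1) * dl (vi u c k 3) j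
  else dl (vi u c k 1) j * pt p s (vi u c k 2) + pt p s (vi u c k 1) * dl (vi u c k 2) j +
    (p - 1) * dl (vi u c k 3) j

/-- `∂_i ∂_j q_k` -/
def eQ2 (u c k i j : ℕ) : ℕ :=
  if ent u c k 0 = 0 then 0 else if ent u c k 0 = 1 then 0
  else dl (vi u c k 1) i * dl (vi u c k 2) j + dl (vi u c k 1) j * dl (vi u c k 2) i

/-- `f` -/
def eF (u c s p : ℕ) : ℕ := sM (nv u) p fun k => eQ u c k s p * eQ u c k s p

/-- `∂_j f` -/
def eF1 (u c j s p : ℕ) : ℕ := sM (nv u) p fun k => 2 * (eQ u c k s p * eQ1 u c k j s p)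

/-- `∂_i ∂_j f` -/
def eF2 (u c i j s p : ℕ) : ℕ :=
  sM (nv u) p fun k => 2 * (eQ1 u c k i s p * eQ1 u c k j s p + eQ u c k s p * eQ2 u c k i j)

/-- the weight -/
def hM (u p : ℕ) : ℕ := md (2 ^ 2 ^ (12 * Nat.size u + 50)) p

/-- the level -/
def cM (u p : ℕ) : ℕ := md (2 ^ 2 ^ (8 * Nat.size u + 30)) p

/-- `G_i` -/
def eG (u c i s p : ℕ) : ℕ :=
  if i = 0 then cM u p + (p - 1) * (hM u p * (6 * eF u c s p +
    (p - 1) * sM (nv u) p fun j => if j = 0 then 0 else pt p s j * eF1 u c j s p))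
  else (p - 1) * (hM u p * eF1 u c i s p)

/-- `∂_j (y_i ^ d_i - G_i)` -/
def eJ (u c i j s p : ℕ) : ℕ :=
  if i = 0 then dl i j * (6 * md (pt p s j ^ 5) p) + hM u p * (6 * eF1 u c j s p +
    (p - 1) * ((if j = 0 then 0 else eF1 u c j s p) +
      sM (nv u) p fun l => if l = 0 then 0 else pt p s l * eF2 u c l j s p))
  else dl i j * (5 * md (pt p s j ^ 4) p) + hM u p * eF2 u c i j s p

/-- the number of the solutions -/
def nN (u : ℕ) : ℕ := 6 * 5 ^ Nat.size u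

/-- the truncation -/
def kK (u : ℕ) : ℕ := 2 ^ (3 * Nat.size u + 10)

/-- the primes used are larger than this -/
def aA (u : ℕ) : ℕ := 2 ^ (7 * Nat.size u + 50)

/-- the exponents `6, 5, …, 5` -/
def dI (i : ℕ) : ℕ := if i = 0 then 6 else 5

/-- the truncated geometric series -/
def eS (u c i s p : ℕ) : ℕ :=
  sM (kK u + 1) p fun k => md (eG u c i s p ^ k) p *
    md (invM (pt p s i) p ^ (dI i * (k + 1) - 1)) p

/-- the linear form -/
def eL (u t s p : ℕ) : ℕ := sM (nv u) p fun i => md (t ^ i) p * pt p s i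

/-- the traces of the powers of `x - ℓ_t` -/
def ePS (u c t x m p : ℕ) : ℕ :=
  md ((p - 1) ^ nv u) p * sM (2 ^ (Nat.size p * nv u)) p fun s =>
    if ∀ i < nv u, dig (Nat.size p) s i < p - 1 then
      md ((x + (p - 1) * eL u t s p) ^ m) p * detM (nv u) p (fun i j => eJ u c i j s p) *
        (if p.Prime then md (∏ i ∈ Finset.range (nv u), eS u c i s p) p else 0)
    else 0

/-- the value at `x` of the characteristic polynomial of `ℓ_t` -/
def eX (u c t x p : ℕ) : ℕ := nwR (nN u) p fun m => ePS u c t x m p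

/-! ### definability -/

def SFE : Prop := Fn (fun v => ent (v 0) (v 1) (v 2) (v 3)) ∧
  Fn (fun v => vi (v 0) (v 1) (v 2) (v 3)) ∧ Fn (fun v => pt (v 0) (v 1) (v 2)) ∧
  Fn (fun v => dl (v 0) (v 1)) ∧ Fn (fun v => eQ (v 0) (v 1) (v 2) (v 3) (v 4)) ∧
  Fn (fun v => eQ1 (v 0) (v 1) (v 2) (v 3) (v 4) (v 5)) ∧
  Fn (fun v => eQ2 (v 0) (v 1) (v 2) (v 3) (v 4))

def SFF : Prop := Fn (fun v => eF (v 0) (v 1) (v 2) (v 3)) ∧
  Fn (fun v => eF1 (v 0) (v 1) (v 2) (v 3) (v 4)) ∧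
  Fn (fun v => eF2 (v 0) (v 1) (v 2) (v 3) (v 4) (v 5))

def SFN : Prop := Fn (fun v => hM (v 0) (v 1)) ∧ Fn (fun v => cM (v 0) (v 1)) ∧
  Fn (fun v => nN (v 0)) ∧ Fn (fun v => kK (v 0)) ∧ Fn (fun v => aA (v 0)) ∧
  Fn (fun v => dI (v 0)) ∧ Fn (fun v => eL (v 0) (v 1) (v 2) (v 3))

def SFG : Prop := Fn (fun v => eG (v 0) (v 1) (v 2) (v 3) (v 4)) ∧
  Fn (fun v => eJ (v 0) (v 1) (v 2) (v 3) (v 4) (v 5)) ∧
  Fn (fun v => eS (v 0) (v 1) (v 2) (v 3) (v 4))

def SFX : Prop := Fn (fun v => ePS (v 0) (v 1) (v 2) (v 3) (v 4) (v 5)) ∧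
  Fn (fun v => eX (v 0) (v 1) (v 2) (v 3) (v 4))

/-! ### correctness -/

/-- the point coded by `s` -/
def py (u p s : ℕ) : Fin (Nat.size u + 1) → ZMod p := fun i => ((pt p s i : ℕ) : ZMod p)

/-- reduction modulo `p` -/
noncomputable def rd (p : ℕ) {n : ℕ} (f : MvPolynomial (Fin n) ℤ) :
    MvPolynomial (Fin n) (ZMod p) :=
  MvPolynomial.map (Int.castRingHom (ZMod p)) f

def SCF : Prop := ∀ (u c s p : ℕ) [Fact p.Prime],
  ((eF u c s p : ℕ) : ZMod p) = MvPolynomial.eval (py u p s) (rd p (fp u c)) ∧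
  (∀ j : Fin (Nat.size u + 1), ((eF1 u c j s p : ℕ) : ZMod p) =
    MvPolynomial.eval (py u p s) (MvPolynomial.pderiv j (rd p (fp u c)))) ∧
  ∀ i j : Fin (Nat.size u + 1), ((eF2 u c i j s p : ℕ) : ZMod p) =
    MvPolynomial.eval (py u p s)
      (MvPolynomial.pderiv i (MvPolynomial.pderiv j (rd p (fp u c))))

def SCG : Prop := ∀ (u c s p : ℕ) [Fact p.Prime],
  (∀ i : Fin (Nat.size u + 1), ((eG u c i s p : ℕ) : ZMod p) = MvPolynomial.eval (py u p s)
    (rd p (GG (fp u c) (h0 (Nat.size u) : ℤ) (c0 (Nat.size u) : ℤ) i))) ∧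
  ∀ i j : Fin (Nat.size u + 1), ((eJ u c i j s p : ℕ) : ZMod p) =
    MvPolynomial.eval (py u p s) (MvPolynomial.pderiv j (MvPolynomial.X i ^ dd (Nat.size u) i -
      rd p (GG (fp u c) (h0 (Nat.size u) : ℤ) (c0 (Nat.size u) : ℤ) i)))

def SCPS : Prop := ∀ (u c t x m p : ℕ) [Fact p.Prime], ((ePS u c t x m p : ℕ) : ZMod p) =
  (-1) ^ (Nat.size u + 1) * ∑ y : Fin (Nat.size u + 1) → (ZMod p)ˣ,
    ((x : ZMod p) - MvPolynomial.eval (fun i => (y i : ZMod p)) (rd p (lin (t : ℤ)))) ^ m *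
    Matrix.det (Matrix.of fun i j : Fin (Nat.size u + 1) =>
      MvPolynomial.eval (fun i => (y i : ZMod p)) (MvPolynomial.pderiv j
        (MvPolynomial.X i ^ dd (Nat.size u) i -
          rd p (GG (fp u c) (h0 (Nat.size u) : ℤ) (c0 (Nat.size u) : ℤ) i)))) *
    ∏ i, ∑ k ∈ Finset.range (kK u + 1), MvPolynomial.eval (fun i => (y i : ZMod p))
      (rd p (GG (fp u c) (h0 (Nat.size u) : ℤ) (c0 (Nat.size u) : ℤ) i)) ^ k *
      (((y i)⁻¹ : (ZMod p)ˣ) : ZMod p) ^ (dd (Nat.size u) i * (k + 1) - 1)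

/-- the characteristic polynomial modulo `p` -/
def SCX : Prop := ∀ (u c t x p : ℕ) [Fact p.Prime]
  (M : MvPolynomial (Fin (Nat.size u + 1)) ℤ →ₐ[ℤ]
    Matrix (Box (dd (Nat.size u))) (Box (dd (Nat.size u))) ℤ),
  IsMul (dd (Nat.size u)) (GG (fp u c) (h0 (Nat.size u) : ℤ) (c0 (Nat.size u) : ℤ)) M →
  aA u < p → ((eX u c t x p : ℕ) : ZMod p) =
    ((M (lin (t : ℤ))).charpoly.map (Int.castRingHom (ZMod p))).eval (x : ZMod p)

/-- degree and norm of the characteristic polynomials -/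
def SBD : Prop := ∀ (u c t : ℕ)
  (M : MvPolynomial (Fin (Nat.size u + 1)) ℤ →ₐ[ℤ]
    Matrix (Box (dd (Nat.size u))) (Box (dd (Nat.size u))) ℤ),
  IsMul (dd (Nat.size u)) (GG (fp u c) (h0 (Nat.size u) : ℤ) (c0 (Nat.size u) : ℤ)) M →
  (M (lin (t : ℤ))).charpoly.natDegree ≤ 2 ^ (20 * Nat.size u + Nat.size t + 100) ∧
  nrm (M (lin (t : ℤ))).charpoly ≤ 2 ^ 2 ^ (20 * Nat.size u + Nat.size t + 100)

/-- solvability of coded systems is in `CH` -/
def SQS : Prop := CH fun v => QS (v 0) (v 1)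

end Pool.Agent.Work.MP_859ada_lc.ER
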