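import Mathlib
import Pool.Agent.Work.MP_859ada_lc.CH.NI
import Pool.Agent.Work.MP_859ada_lc.CH.Norm

/-!
# MP_859ada_lc, project ER: the existential theory of the reals is in the counting hierarchy

Algebraic and analytic part. Systems `y_i ^ d_i = G_i (y)` with `deg G_i < d_i` have no solutions
at infinity; the multiplication matrices of the quotient algebra, the residue formula for their
traces, and the reduction of `f = 0` (`f ≥ 0` of degree at most `4`) to such a system.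
-/

set_option autoImplicit false

namespace Pool.Agent.Work.MP_859ada_lc.ER

open MvPolynomial

/-! ## Systems without solutions at infinity -/

/-- exponents below `d` -/
abbrev Box {n : ℕ} (d : Fin n → ℕ) : Type := ∀ i, Fin (d i)

/-- exponent vectors -/
noncomputable def ex {n : ℕ} (m : Fin n → ℕ) : Fin n →₀ ℕ := Finsupp.equivFunOnFinite.symm m

/-- the exponent vector of an element of the box -/
noncomputable def bx {n : ℕ} {d : Fin n → ℕ} (a : Box d) : Fin n →₀ ℕ := ex fun i => (a i : ℕ)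

/-- `M g` is the matrix of multiplication by `g` on `R[y] / (y_i ^ d_i - G_i)`, basis `y ^ a`,
`a_i < d_i` -/
structure IsMul {R : Type} [CommRing R] {n : ℕ} (d : Fin n → ℕ)
    (G : Fin n → MvPolynomial (Fin n) R)
    (M : MvPolynomial (Fin n) R →ₐ[R] Matrix (Box d) (Box d) R) : Prop where
  deg : ∀ i, (G i).totalDegree < d i
  rel : ∀ i, M (X i ^ d i) = M (G i)
  col : ∀ z : Box d, (∀ i, (z i : ℕ) = 0) → ∀ a b, M (monomial (bx b) 1) a z = if a = b then 1 else 0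

/-- existence of the multiplication matrices -/
def SMUL : Prop := ∀ (R : Type) [CommRing R] (n : ℕ) (d : Fin n → ℕ)
  (G : Fin n → MvPolynomial (Fin n) R), (∀ i, (G i).totalDegree < d i) → ∃ M, IsMul d G M

/-- columns -/
def SCOL : Prop := ∀ (R : Type) [CommRing R] (n : ℕ) (d : Fin n → ℕ)
  (G : Fin n → MvPolynomial (Fin n) R) (M : MvPolynomial (Fin n) R →ₐ[R] Matrix (Box d) (Box d) R),
  IsMul d G M → ∀ z : Box d, (∀ i, (z i : ℕ) = 0) → ∀ g a b,
    M g a b = M (g * monomial (bx b) 1) a z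

/-- base change -/
def SMAP : Prop := ∀ (R S : Type) [CommRing R] [CommRing S] (φ : R →+* S) (n : ℕ) (d : Fin n → ℕ)
  (G : Fin n → MvPolynomial (Fin n) R) (M : MvPolynomial (Fin n) R →ₐ[R] Matrix (Box d) (Box d) R)
  (M' : MvPolynomial (Fin n) S →ₐ[S] Matrix (Box d) (Box d) S), IsMul d G M →
  IsMul d (fun i => map φ (G i)) M' → ∀ g, M' (map φ g) = (M g).map φ

/-- a solution gives a left eigenvector -/
def SEVL : Prop := ∀ (R S : Type) [CommRing R] [CommRing S] (φ : R →+* S) (n : ℕ) (d : Fin n → ℕ)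
  (G : Fin n → MvPolynomial (Fin n) R) (M : MvPolynomial (Fin n) R →ₐ[R] Matrix (Box d) (Box d) R)
  (y : Fin n → S), IsMul d G M → (∀ i, y i ^ d i = eval₂ φ y (G i)) → ∀ g b,
    ∑ a : Box d, (∏ i, y i ^ (a i : ℕ)) * φ (M g a b) = eval₂ φ y g * ∏ i, y i ^ (b i : ℕ)

/-- a solution gives a root of the characteristic polynomial -/
def SRT : Prop := ∀ (R S : Type) [CommRing R] [CommRing S] [IsDomain S] (φ : R →+* S) (n : ℕ)
  (d : Fin n → ℕ) (G : Fin n → MvPolynomial (Fin n) R)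
  (M : MvPolynomial (Fin n) R →ₐ[R] Matrix (Box d) (Box d) R)
  (y : Fin n → S), IsMul d G M → (∀ i, y i ^ d i = eval₂ φ y (G i)) → ∀ g,
    (M g).charpoly.eval₂ φ (eval₂ φ y g) = 0

/-- roots of the characteristic polynomial come from solutions -/
def SSOL : Prop := ∀ (n : ℕ) (d : Fin n → ℕ) (G : Fin n → MvPolynomial (Fin n) ℂ)
  (M : MvPolynomial (Fin n) ℂ →ₐ[ℂ] Matrix (Box d) (Box d) ℂ), IsMul d G M → ∀ g (t : ℂ),
  (M g).charpoly.eval t = 0 → ∃ y : Fin n → ℂ, (∀ i, y i ^ d i = eval y (G i)) ∧ eval y g = t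

/-- number of solutions -/
def SNUM : Prop := ∀ (n : ℕ) (d : Fin n → ℕ) (G : Fin n → MvPolynomial (Fin n) ℂ),
  (∀ i, (G i).totalDegree < d i) → ∀ Y : Finset (Fin n → ℂ),
  (∀ y ∈ Y, ∀ i, y i ^ d i = eval y (G i)) → Y.card ≤ ∏ i, d i

/-! ## Norms -/

/-- the sum of the absolute values of the coefficients -/
noncomputable def l1 {n : ℕ} (g : MvPolynomial (Fin n) ℤ) : ℕ :=
  ∑ m ∈ g.support, (g.coeff m).natAbs

/-- the same for coefficients in `ℤ[h]` -/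
noncomputable def l2 {n : ℕ} (g : MvPolynomial (Fin n) (Polynomial ℤ)) : ℕ :=
  ∑ m ∈ g.support, RootCH.nrm (g.coeff m)

/-- norm of the characteristic polynomials -/
def SNB : Prop := ∀ (n : ℕ) (d : Fin n → ℕ) (G : Fin n → MvPolynomial (Fin n) ℤ)
  (M : MvPolynomial (Fin n) ℤ →ₐ[ℤ] Matrix (Box d) (Box d) ℤ) (κ : ℕ), IsMul d G M → 1 ≤ κ →
  (∀ i, l1 (G i) ≤ κ) → ∀ g, RootCH.nrm (M g).charpoly ≤
    (1 + l1 g * κ ^ (g.totalDegree + ∑ i, d i)) ^ (∏ i, d i)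

/-- coefficients of the matrices over `ℤ[h]` -/
def SNH : Prop := ∀ (n : ℕ) (d : Fin n → ℕ) (G : Fin n → MvPolynomial (Fin n) (Polynomial ℤ))
  (M : MvPolynomial (Fin n) (Polynomial ℤ) →ₐ[Polynomial ℤ]
    Matrix (Box d) (Box d) (Polynomial ℤ)) (κ : ℕ), IsMul d G M → 1 ≤ κ →
  (∀ i, l2 (G i) ≤ κ) → (∀ i m, ((G i).coeff m).natDegree ≤ 1) → ∀ g,
  (∀ m, (g.coeff m).natDegree ≤ 1) →
  (∀ b, ∑ a, RootCH.nrm (M g a b) ≤ l2 g * κ ^ (g.totalDegree + ∑ i, d i)) ∧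
    ∀ a b, (M g a b).natDegree ≤ 1 + (g.totalDegree + ∑ i, d i)

/-- characteristic polynomials of matrices over `ℤ[h]` -/
def SCH : Prop := ∀ (ι : Type) [Fintype ι] [DecidableEq ι] (A : Matrix ι ι (Polynomial ℤ))
  (B E : ℕ), (∀ b, ∑ a, RootCH.nrm (A a b) ≤ B) → (∀ a b, (A a b).natDegree ≤ E) → ∀ i j,
  ((A.charpoly.coeff j).coeff i).natAbs ≤ (1 + B) ^ Fintype.card ι ∧
    (A.charpoly.coeff j).natDegree ≤ E * Fintype.card ι

/-! ## The residue formula -/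

/-- the residue functional, truncated -/
noncomputable def tau {R : Type} [CommRing R] {n : ℕ} (d : Fin n → ℕ)
    (G : Fin n → MvPolynomial (Fin n) R) (K : ℕ) (q : MvPolynomial (Fin n) R) : R :=
  ∑ k ∈ Fintype.piFinset (fun _ : Fin n => Finset.range (K + 1)),
    coeff (ex fun i => d i * (k i + 1) - 1) (q * ∏ i, G i ^ k i)

/-- the Jacobian -/
noncomputable def jac {R : Type} [CommRing R] {n : ℕ} (d : Fin n → ℕ)
    (G : Fin n → MvPolynomial (Fin n) R) : MvPolynomial (Fin n) R :=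
  Matrix.det (Matrix.of fun i j => pderiv j (X i ^ d i - G i))

/-- the residue functional vanishes on the ideal -/
def STAU : Prop := ∀ (R : Type) [CommRing R] (n : ℕ) (d : Fin n → ℕ)
  (G : Fin n → MvPolynomial (Fin n) R) (K : ℕ) (q : MvPolynomial (Fin n) R) (j : Fin n),
  (∀ i, (G i).totalDegree < d i) → q.totalDegree + d j ≤ K → tau d G K (q * (X j ^ d j - G j)) = 0

/-- the truncation does not matter; small degrees give zero; the top monomial -/
def STK : Prop := ∀ (R : Type) [CommRing R] (n : ℕ) (d : Fin n → ℕ)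
  (G : Fin n → MvPolynomial (Fin n) R), (∀ i, (G i).totalDegree < d i) →
  (∀ (K L : ℕ) (q : MvPolynomial (Fin n) R), q.totalDegree ≤ K → K ≤ L →
    tau d G K q = tau d G L q) ∧
  (∀ (K : ℕ) (m : Fin n →₀ ℕ), (∑ i, m i < ∑ i, (d i - 1)) ∨
    (∑ i, m i = ∑ i, (d i - 1) ∧ ∃ i, m i ≠ d i - 1) → tau d G K (monomial m 1) = 0) ∧
  ∀ K : ℕ, tau d G K (monomial (ex fun i => d i - 1) 1) = 1

/-- polynomials in `y` with coefficients in `R[z]`: every term has joint degree at most `m` -/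
def Jd {R : Type} [CommRing R] {n : ℕ} (m : ℕ)
    (a : MvPolynomial (Fin n) (MvPolynomial (Fin n) R)) : Prop :=
  ∀ b, coeff b a ≠ 0 → (coeff b a).totalDegree + ∑ i, b i ≤ m

/-- difference quotients -/
def SBEZ : Prop := ∀ (R : Type) [CommRing R] (n : ℕ) (h : MvPolynomial (Fin n) R),
  ∃ a : Fin n → MvPolynomial (Fin n) (MvPolynomial (Fin n) R),
    map C h - C h = ∑ j, a j * (X j - C (X j)) ∧ (∀ j, eval X (a j) = pderiv j h) ∧
    ∀ j, Jd (h.totalDegree - 1) (a j) ∧ (h.totalDegree = 0 → a j = 0)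

/-- the Bezoutian -/
def SDEL : Prop := ∀ (R : Type) [CommRing R] (n : ℕ) (d : Fin n → ℕ)
  (G : Fin n → MvPolynomial (Fin n) R), (∀ i, (G i).totalDegree < d i) →
  ∃ D : MvPolynomial (Fin n) (MvPolynomial (Fin n) R),
    (∀ j, (X j - C (X j)) * D ∈ Ideal.span (Set.range (fun i => map C (X i ^ d i - G i)) ∪
      Set.range (fun i => C (X i ^ d i - G i)))) ∧
    eval X D = jac d G ∧
    ∀ K, tau d (fun i => map C (G i)) K D = 1

/-- trace formula (Euler, Jacobi) -/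
def STR : Prop := ∀ (R : Type) [CommRing R] (n : ℕ) (d : Fin n → ℕ)
  (G : Fin n → MvPolynomial (Fin n) R) (M : MvPolynomial (Fin n) R →ₐ[R] Matrix (Box d) (Box d) R)
  (g : MvPolynomial (Fin n) R) (K : ℕ), IsMul d G M → (g * jac d G).totalDegree ≤ K →
    (M g).trace = tau d G K (g * jac d G)

/-- the residue functional as a sum over the units of a prime field -/
def SFP : Prop := ∀ (p : ℕ) [Fact p.Prime] (n : ℕ) (d : Fin n → ℕ)
  (G : Fin n → MvPolynomial (Fin n) (ZMod p)) (K : ℕ) (q : MvPolynomial (Fin n) (ZMod p)),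
  (∀ i, (G i).totalDegree < d i) → q.totalDegree + (K + 1) * ∑ i, d i < p - 1 →
  tau d G K q = (-1) ^ n * ∑ y : Fin n → (ZMod p)ˣ, eval (fun i => (y i : ZMod p)) q *
    ∏ i, ∑ k ∈ Finset.range (K + 1), eval (fun i => (y i : ZMod p)) (G i) ^ k *
      (((y i)⁻¹ : (ZMod p)ˣ) : ZMod p) ^ (d i * (k + 1) - 1)

/-- traces of powers -/
def STRP : Prop := ∀ (K : Type) [Field K] [IsAlgClosed K] (ι : Type) [Fintype ι] [DecidableEq ι]
  (A : Matrix ι ι K) (m : ℕ), (A ^ m).trace = (A.charpoly.roots.map (fun x => x ^ m)).sum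

/-- determinant from the traces of the powers -/
def SDET : Prop := ∀ (K : Type) [Field K] (ι : Type) [Fintype ι] [DecidableEq ι]
  (A : Matrix ι ι K) (N : ℕ) (P : ℕ → K), Fintype.card ι = N →
  (∀ k : ℕ, 1 ≤ k → k ≤ N → (k : K) ≠ 0) → (∀ m, 1 ≤ m → m ≤ N → P m = (A ^ m).trace) →
  (RootCH.expser (RootCH.logser P N) N).coeff N = A.det

/-! ## The deformation -/

/-- the exponents `6, 5, …, 5` -/
def dd (n : ℕ) : Fin (n + 1) → ℕ := fun i => if i = 0 then 6 else 5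

/-- the right hand sides: level set of `6 h f + ∑ y_i ^ 6` at height `c`, critical for `y_0` -/
noncomputable def GG {R : Type} [CommRing R] {n : ℕ} (f : MvPolynomial (Fin (n + 1)) R) (h c : R) :
    Fin (n + 1) → MvPolynomial (Fin (n + 1)) R := fun i =>
  if i = 0 then C c - C h * (6 * f - ∑ j : Fin (n + 1), if j = 0 then 0 else X j * pderiv j f)
  else - (C h * pderiv i f)

/-- degrees -/
def SGD : Prop := ∀ (R : Type) [CommRing R] (n : ℕ) (f : MvPolynomial (Fin (n + 1)) R) (h c : R),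
  f.totalDegree ≤ 4 → ∀ i, (GG f h c i).totalDegree < dd n i

/-- real solutions of the system -/
def SLEV : Prop := ∀ (n : ℕ) (f : MvPolynomial (Fin (n + 1)) ℝ) (h c : ℝ), 0 < h → 0 < c →
  f.totalDegree ≤ 4 → (∀ y, 0 ≤ eval y f) →
  ((∃ y : Fin (n + 1) → ℝ, ∀ i, y i ^ dd n i = eval y (GG f h c i)) ↔
    ∃ y : Fin (n + 1) → ℝ, 6 * h * eval y f + ∑ i, y i ^ 6 ≤ c)

/-- the polynomial of the critical values -/
def SPHI : Prop := ∀ (n F : ℕ) (f : MvPolynomial (Fin (n + 1)) ℤ), 1 ≤ F → f.totalDegree ≤ 4 →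
  l1 f ≤ F → ∃ P : Polynomial (Polynomial ℤ), P.Monic ∧ P.natDegree = 5 ^ (n + 1) ∧
    (∀ i j, ((P.coeff j).coeff i).natAbs ≤
      (1 + (6 * F + (n + 1)) * (4 * F) ^ (5 * (n + 1) + 6)) ^ 5 ^ (n + 1)) ∧
    (∀ j, (P.coeff j).natDegree ≤ (5 * (n + 1) + 7) * 5 ^ (n + 1)) ∧
    ∀ (h : ℝ) (y : Fin (n + 1) → ℝ), 0 < h →
      (∀ i, y i ^ 5 + h * eval₂ (Int.castRingHom ℝ) y (pderiv i f) = 0) →
      ((P.map (Polynomial.eval₂RingHom (Int.castRingHom ℝ) h)).eval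
        (6 * h * eval₂ (Int.castRingHom ℝ) y f + ∑ i, y i ^ 6)) = 0

/-- gap theorem -/
def SGAP : Prop := ∀ (n B E N : ℕ) (f : MvPolynomial (Fin (n + 1)) ℝ)
  (P : Polynomial (Polynomial ℤ)) (h c : ℝ), f.totalDegree ≤ 4 → (∀ y, 0 ≤ eval y f) →
  P.Monic → P.natDegree = N → 1 ≤ B → 1 ≤ E →
  (∀ i j, ((P.coeff j).coeff i).natAbs ≤ B) → (∀ j, (P.coeff j).natDegree ≤ E) →
  (∀ (h : ℝ) (y : Fin (n + 1) → ℝ), 0 < h → (∀ i, y i ^ 5 + h * eval y (pderiv i f) = 0) →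
    ((P.map (Polynomial.eval₂RingHom (Int.castRingHom ℝ) h)).eval
      (6 * h * eval y f + ∑ i, y i ^ 6)) = 0) →
  2 * B + 1 ≤ c → 2 * E * B * (N + 1) * (2 * c) ^ N < h →
  ((∃ y, eval y f = 0) ↔ ∃ y : Fin (n + 1) → ℝ, 6 * h * eval y f + ∑ i, y i ^ 6 ≤ c)

/-- the level -/
def c0 (n : ℕ) : ℕ := 2 ^ 2 ^ (8 * n + 30)

/-- the weight -/
def h0 (n : ℕ) : ℕ := 2 ^ 2 ^ (12 * n + 50)

/-- real zeros of `f` and real solutions of the system -/
def SRED : Prop := ∀ (n : ℕ) (f : MvPolynomial (Fin (n + 1)) ℤ), f.totalDegree ≤ 4 →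
  l1 f ≤ 9 * (n + 1) → (∀ y : Fin (n + 1) → ℝ, 0 ≤ eval₂ (Int.castRingHom ℝ) y f) →
  ((∃ y : Fin (n + 1) → ℝ, eval₂ (Int.castRingHom ℝ) y f = 0) ↔
    ∃ y : Fin (n + 1) → ℝ, ∀ i, y i ^ dd n i =
      eval₂ (Int.castRingHom ℝ) y (GG f (h0 n : ℤ) (c0 n : ℤ) i))

/-- the linear form `∑ u ^ i y_i` -/
noncomputable def lin {R : Type} [CommRing R] {n : ℕ} (u : R) : MvPolynomial (Fin n) R :=
  ∑ i : Fin n, C (u ^ (i : ℕ)) * X i

/-- projection to a line -/
def SPRJ : Prop := ∀ (n : ℕ) (d : Fin n → ℕ) (G : Fin n → MvPolynomial (Fin n) ℤ)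
  (M : MvPolynomial (Fin n) ℤ →ₐ[ℤ] Matrix (Box d) (Box d) ℤ) (U : ℕ), IsMul d G M →
  n * ∏ i, d i < U →
  ((∃ y : Fin n → ℝ, ∀ i, y i ^ d i = eval₂ (Int.castRingHom ℝ) y (G i)) ↔
    ∀ u < U, ∃ x : ℝ, Polynomial.aeval x (M (lin (u : ℤ))).charpoly = 0)

/-- values of the characteristic polynomials modulo `p` -/
def SVAL : Prop := ∀ (n : ℕ) (d : Fin n → ℕ) (G : Fin n → MvPolynomial (Fin n) ℤ)
  (M : MvPolynomial (Fin n) ℤ →ₐ[ℤ] Matrix (Box d) (Box d) ℤ) (g : MvPolynomial (Fin n) ℤ)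
  (x : ℤ) (p : ℕ) [Fact p.Prime] (N K : ℕ), IsMul d G M → g.totalDegree ≤ 1 → N = ∏ i, d i →
  N + ∑ i, d i ≤ K → K + (K + 1) * ∑ i, d i < p - 1 →
  ((M g).charpoly.map (Int.castRingHom (ZMod p))).eval (x : ZMod p) =
    (RootCH.expser (RootCH.logser (fun m => (-1) ^ n * ∑ y : Fin n → (ZMod p)ˣ,
      ((x : ZMod p) - eval (fun i => (y i : ZMod p)) (map (Int.castRingHom (ZMod p)) g)) ^ m *
      Matrix.det (Matrix.of fun i j : Fin n => eval (fun i => (y i : ZMod p))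
        (pderiv j (X i ^ d i - map (Int.castRingHom (ZMod p)) (G i)))) *
      ∏ i, ∑ k ∈ Finset.range (K + 1),
        eval (fun i => (y i : ZMod p)) (map (Int.castRingHom (ZMod p)) (G i)) ^ k *
        (((y i)⁻¹ : (ZMod p)ˣ) : ZMod p) ^ (d i * (k + 1) - 1)) N) N).coeff N

end Pool.Agent.Work.MP_859ada_lc.ER
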