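import Pool.Agent.Work.MP_859ada_lc.Std.Defs

/-!
# MP_859ada_lc: the existential theory of the reals

Terms built from `0`, `1` and variables with `+`, `-`, `*`; quantifier-free formulas (Boolean
combinations of comparisons of terms); the set of the existential sentences which are true over
the real numbers.
-/

set_option autoImplicit false

namespace Pool.Agent.Work.MP_859ada_lc

/-- Terms. -/
inductive RTerm
  | zero : RTerm
  | one : RTerm
  | var (i : ℕ) : RTerm
  | add (s t : RTerm) : RTerm
  | sub (s t : RTerm) : RTerm
  | mul (s t : RTerm) : RTerm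

/-- The value of a term at a real point. -/
def RTerm.val (y : ℕ → ℝ) : RTerm → ℝ
  | .zero => 0
  | .one => 1
  | .var i => y i
  | .add s t => s.val y + t.val y
  | .sub s t => s.val y - t.val y
  | .mul s t => s.val y * t.val y

/-- Quantifier-free formulas. -/
inductive RForm
  | lt (s t : RTerm) : RForm
  | le (s t : RTerm) : RForm
  | eq (s t : RTerm) : RForm
  | ge (s t : RTerm) : RForm
  | gt (s t : RTerm) : RForm
  | and (f g : RForm) : RForm
  | or (f g : RForm) : RForm
  | not (f : RForm) : RForm

/-- The formula holds at a real point. -/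
def RForm.Holds (y : ℕ → ℝ) : RForm → Prop
  | .lt s t => s.val y < t.val y
  | .le s t => s.val y ≤ t.val y
  | .eq s t => s.val y = t.val y
  | .ge s t => s.val y ≥ t.val y
  | .gt s t => s.val y > t.val y
  | .and f g => f.Holds y ∧ g.Holds y
  | .or f g => f.Holds y ∨ g.Holds y
  | .not f => ¬ f.Holds y

/-- Polish notation of a term; the symbols are numbers. -/
def RTerm.toks : RTerm → List ℕ
  | .zero => [0]
  | .one => [1]
  | .add s t => 2 :: (s.toks ++ t.toks)
  | .sub s t => 3 :: (s.toks ++ t.toks)
  | .mul s t => 4 :: (s.toks ++ t.toks)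
  | .var i => [13 + i]

/-- Polish notation of a formula. -/
def RForm.toks : RForm → List ℕ
  | .lt s t => 5 :: (s.toks ++ t.toks)
  | .le s t => 6 :: (s.toks ++ t.toks)
  | .eq s t => 7 :: (s.toks ++ t.toks)
  | .ge s t => 8 :: (s.toks ++ t.toks)
  | .gt s t => 9 :: (s.toks ++ t.toks)
  | .and f g => 10 :: (f.toks ++ g.toks)
  | .or f g => 11 :: (f.toks ++ g.toks)
  | .not f => 12 :: f.toks

/-- The existential theory of the reals: the quantifier-free formulas which hold at some real
point, in Polish notation (all variables are existentially quantified). -/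
def ETRL : List Bool → Prop :=
  Lang (fun f : RForm => encNums f.toks) (fun f => ∃ y : ℕ → ℝ, f.Holds y)

end Pool.Agent.Work.MP_859ada_lc
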