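import Pool.Agent.Work.MP_859ada_lc.ER.CDefs

set_option autoImplicit false
set_option linter.unusedSectionVars false

namespace Pool.Agent.Work.MP_859ada_lc.ER

open RootCH MvPolynomial

namespace CF

section
variable {u c s p : ℕ} [hp : Fact p.Prime]

theorem rd_xv (k a : ℕ) : rd p (xv u c k a) =
    X (⟨vi u c k a, Nat.mod_lt _ (Nat.succ_pos _)⟩ : Fin (Nat.size u + 1)) := by
  simp [rd, xv]

theorem eval_rd_xv (k a : ℕ) : eval (py u p s) (rd p (xv u c k a)) =
    ((pt p s (vi u c k a) : ℕ) : ZMod p) := by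
  rw [rd_xv, eval_X]; rfl

theorem dl_cast (a : ℕ) (j : Fin (Nat.size u + 1)) (ha : a < Nat.size u + 1) :
    ((dl a (j : ℕ) : ℕ) : ZMod p) = if (⟨a, ha⟩ : Fin (Nat.size u + 1)) = j then 1 else 0 := by
  unfold dl
  simp only [Fin.ext_iff]
  split_ifs <;> simp

theorem pd_rd_xv (k a : ℕ) (j : Fin (Nat.size u + 1)) :
    pderiv j (rd p (xv u c k a)) = C ((dl (vi u c k a) (j : ℕ) : ℕ) : ZMod p) := by
  have hv : vi u c k a < Nat.size u + 1 := Nat.mod_lt _ (Nat.succ_pos _)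
  rw [rd_xv, pderiv_X, dl_cast (vi u c k a) j hv, Pi.single_apply]
  by_cases h : (⟨vi u c k a, Nat.mod_lt _ (Nat.succ_pos _)⟩ : Fin (Nat.size u + 1)) = j
  · simp [h]
  · simp [h]

theorem rd_sub {n : ℕ} (f g : MvPolynomial (Fin n) ℤ) : rd p (f - g) = rd p f - rd p g := by
  simp [rd]
theorem rd_add {n : ℕ} (f g : MvPolynomial (Fin n) ℤ) : rd p (f + g) = rd p f + rd p g := by
  simp [rd]
theorem rd_mul {n : ℕ} (f g : MvPolynomial (Fin n) ℤ) : rd p (f * g) = rd p f * rd p g := by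
  simp [rd]
theorem rd_one {n : ℕ} : rd p (1 : MvPolynomial (Fin n) ℤ) = 1 := by
  simp [rd]

theorem q0 (k : ℕ) : ((eQ u c k s p : ℕ) : ZMod p) = eval (py u p s) (rd p (qp u c k)) := by
  unfold eQ qp
  split_ifs
  · rw [rd_sub, rd_one, map_sub, eval_rd_xv, map_one]
    push_cast [cast_pred hp.out.ne_zero]
    ring
  · rw [rd_sub, rd_add, map_sub, map_add, eval_rd_xv, eval_rd_xv, eval_rd_xv]
    push_cast [cast_pred hp.out.ne_zero]
    ring
  · rw [rd_sub, rd_mul, map_sub, map_mul, eval_rd_xv, eval_rd_xv, eval_rd_xv]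
    push_cast [cast_pred hp.out.ne_zero]
    ring

theorem q1 (k : ℕ) (j : Fin (Nat.size u + 1)) : ((eQ1 u c k j s p : ℕ) : ZMod p) =
    eval (py u p s) (pderiv j (rd p (qp u c k))) := by
  unfold eQ1 qp
  split_ifs
  · rw [rd_sub, rd_one, map_sub, pd_rd_xv, pderiv_one, sub_zero, eval_C]
  · rw [rd_sub, rd_add, map_sub, map_add, pd_rd_xv, pd_rd_xv, pd_rd_xv]
    simp only [map_sub, map_add, eval_C]
    push_cast [cast_pred hp.out.ne_zero]
    ring
  · rw [rd_sub, rd_mul, map_sub, pderiv_mul, pd_rd_xv, pd_rd_xv, pd_rd_xv]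
    simp only [map_sub, map_add, map_mul, eval_C, eval_rd_xv]
    push_cast [cast_pred hp.out.ne_zero]
    ring

theorem q2 (k : ℕ) (i j : Fin (Nat.size u + 1)) : ((eQ2 u c k i j : ℕ) : ZMod p) =
    eval (py u p s) (pderiv i (pderiv j (rd p (qp u c k)))) := by
  unfold eQ2 qp
  split_ifs
  · rw [rd_sub, rd_one, map_sub, pd_rd_xv, pderiv_one, sub_zero, pderiv_C, map_zero, Nat.cast_zero]
  · rw [rd_sub, rd_add, map_sub, map_add, pd_rd_xv, pd_rd_xv, pd_rd_xv]
    simp
  · rw [rd_sub, rd_mul, map_sub, pderiv_mul, pd_rd_xv, pd_rd_xv, pd_rd_xv]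
    simp only [map_sub, map_add, pderiv_mul, pderiv_C, pd_rd_xv, map_mul, eval_C, map_zero]
    push_cast
    ring

theorem rd_fp : rd p (fp u c) = ∑ k ∈ Finset.range (nv u), rd p (qp u c k) ^ 2 := by
  simp [rd, fp]

end

end CF

open CF in
theorem I_CF : SCF := by
  intro u c s p hp
  have hp0 := hp.out.ne_zero
  refine ⟨?_, ?_, ?_⟩
  · unfold eF
    rw [cast_sM hp0, rd_fp, map_sum]
    refine Finset.sum_congr rfl fun k _ => ?_
    rw [map_pow, ← q0]
    push_cast
    ring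
  · intro j
    unfold eF1
    rw [cast_sM hp0, rd_fp, map_sum, map_sum]
    refine Finset.sum_congr rfl fun k _ => ?_
    rw [sq, pderiv_mul, map_add, map_mul, map_mul, ← q0, ← q1]
    push_cast
    ring
  · intro i j
    unfold eF2
    rw [cast_sM hp0, rd_fp, map_sum, map_sum, map_sum]
    refine Finset.sum_congr rfl fun k _ => ?_
    rw [sq, pderiv_mul, map_add, pderiv_mul, pderiv_mul]
    simp only [map_add, map_mul]
    rw [← q0, ← q1, ← q1, ← q2]
    push_cast
    ring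

end Pool.Agent.Work.MP_859ada_lc.ER
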