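import Pool.Agent.Work.MP_859ada_lc.ER.Base
import Pool.Agent.Work.MP_859ada_lc.CH.ModRes

/-!
# MP_859ada_lc, project ER: the determinant from the traces of the powers
-/

set_option autoImplicit false

namespace Pool.Agent.Work.MP_859ada_lc.ER

open Finset Polynomial RootCH

theorem I_DET (hTRP : STRP) : SDET := by
  intro K _ ι _ _ A N P hcard hch hP
  classical
  set φ := algebraMap K (AlgebraicClosure K) with hφ
  apply φ.injective
  rw [← coeff_map, map_expser, map_logser, RingHom.map_det]
  set A' : Matrix ι ι (AlgebraicClosure K) := φ.mapMatrix A with hA'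
  have hs : A'.charpoly.Splits := IsAlgClosed.splits _
  have hdeg : A'.charpoly.natDegree = N := by
    rw [Matrix.charpoly_natDegree_eq_dim, hcard]
  have hcd : Multiset.card A'.charpoly.roots = N := by
    rw [← hs.natDegree_eq_card_roots, hdeg]
  obtain ⟨l, hl⟩ : ∃ l : List (AlgebraicClosure K), (l : Multiset _) = A'.charpoly.roots :=
    ⟨_, Multiset.coe_toList _⟩
  have hll : l.length = N := by
    rw [← hcd, ← hl, Multiset.coe_card]
  subst hll
  have hfin : ∀ h : AlgebraicClosure K → AlgebraicClosure K,
      A'.charpoly.roots.map h = (univ.val.map fun i : Fin l.length => h (l.get i)) := by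
    intro h
    rw [← hl, Multiset.map_coe, Fin.univ_val_map]
    congr 1
    conv_lhs => rw [← List.ofFn_get l]
    rw [List.map_ofFn]; rfl
  have hch' : ∀ k, 1 ≤ k → k ≤ l.length → ((k : ℕ) : AlgebraicClosure K) ≠ 0 := by
    intro k h1 h2 h3
    refine hch k h1 h2 ?_
    apply φ.injective
    rw [map_natCast, h3, map_zero]
  have key := prod_eq_coeff_exp l.length (fun i => l.get i) hch' (fun m => φ (P m)) ?_
  · rw [key]
    have hdet := Matrix.det_eq_prod_roots_charpoly (A := A')
    rw [hdet]
    have := hfin id
    rw [Multiset.map_id] at this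
    rw [this]
    rfl
  · intro m hm1 hm2
    have h1 : φ (P m) = (A' ^ m).trace := by
      rw [hP m hm1 hm2, hA', ← map_pow]
      simp [Matrix.trace, RingHom.mapMatrix_apply]
    rw [h1, hTRP (AlgebraicClosure K) ι A' m, hfin]
    rfl

end Pool.Agent.Work.MP_859ada_lc.ER
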