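import Pool.Agent.Work.MP_859ada_lc.ER.Base

/-!
# MP_859ada_lc, project ER, item NB: norm of the characteristic polynomials
-/

set_option autoImplicit false

namespace Pool.Agent.Work.MP_859ada_lc.ER

open MvPolynomial

namespace NB

theorem nrm_zero' : RootCH.nrm (0 : Polynomial ℤ) = 0 := by
  simp [RootCH.nrm]

theorem nrm_one' : RootCH.nrm (1 : Polynomial ℤ) = 1 := by
  have := RootCH.nrm_C 1
  simpa using this

theorem nrm_sum_le {ι : Type} (s : Finset ι) (f : ι → Polynomial ℤ) :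
    RootCH.nrm (∑ i ∈ s, f i) ≤ ∑ i ∈ s, RootCH.nrm (f i) := by
  classical
  induction s using Finset.induction_on with
  | empty => simp [nrm_zero']
  | insert a s ha ih =>
    rw [Finset.sum_insert ha, Finset.sum_insert ha]
    exact (RootCH.nrm_add_le _ _).trans (Nat.add_le_add_left ih _)

theorem nrm_prod_le {ι : Type} (s : Finset ι) (f : ι → Polynomial ℤ) :
    RootCH.nrm (∏ i ∈ s, f i) ≤ ∏ i ∈ s, RootCH.nrm (f i) := by
  classical
  induction s using Finset.induction_on with
  | empty => simp [nrm_one']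
  | insert a s ha ih =>
    rw [Finset.prod_insert ha, Finset.prod_insert ha]
    exact (RootCH.nrm_mul_le _ _).trans (Nat.mul_le_mul_left _ ih)

theorem nrm_det_le {ι : Type} [Fintype ι] [DecidableEq ι] (A : Matrix ι ι (Polynomial ℤ)) :
    RootCH.nrm A.det ≤ ∏ b, ∑ a, RootCH.nrm (A a b) := by
  classical
  rw [Matrix.det_apply]
  refine (nrm_sum_le _ _).trans ?_
  have h1 : ∀ σ : Equiv.Perm ι, RootCH.nrm (Equiv.Perm.sign σ • ∏ i, A (σ i) i) ≤
      ∏ i, RootCH.nrm (A (σ i) i) := by
    intro σ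
    rcases Int.units_eq_one_or (Equiv.Perm.sign σ) with h | h
    · rw [h, one_smul]; exact nrm_prod_le _ _
    · rw [h, Units.neg_smul, one_smul, RootCH.nrm_neg]; exact nrm_prod_le _ _
  refine (Finset.sum_le_sum fun σ _ => h1 σ).trans ?_
  have e : ∏ b, ∑ a, RootCH.nrm (A a b) = ∑ f : ι → ι, ∏ b, RootCH.nrm (A (f b) b) := by
    rw [Finset.prod_univ_sum, Fintype.piFinset_univ]
  rw [e]
  have hinj : Function.Injective (fun σ : Equiv.Perm ι => (fun b => σ b : ι → ι)) := by
    intro σ τ h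
    exact Equiv.ext fun b => congrFun h b
  have e2 : ∑ σ : Equiv.Perm ι, ∏ i, RootCH.nrm (A (σ i) i) =
      ∑ f ∈ Finset.univ.image (fun σ : Equiv.Perm ι => (fun b => σ b : ι → ι)),
        ∏ b, RootCH.nrm (A (f b) b) := by
    rw [Finset.sum_image]
    intro σ _ τ _ h
    exact hinj h
  rw [e2]
  exact Finset.sum_le_sum_of_subset (Finset.subset_univ _)

section
variable {n : ℕ} {d : Fin n → ℕ} {G : Fin n → MvPolynomial (Fin n) ℤ}
  {M : MvPolynomial (Fin n) ℤ →ₐ[ℤ] Matrix (Box d) (Box d) ℤ}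

/-- column sums of `M (g * y ^ m)` -/
theorem col_mul_le (M : MvPolynomial (Fin n) ℤ →ₐ[ℤ] Matrix (Box d) (Box d) ℤ)
    (g : MvPolynomial (Fin n) ℤ) (m : Fin n →₀ ℕ) (z : Box d) :
    ∑ a, (M (g * monomial m 1) a z).natAbs ≤ ∑ μ ∈ g.support, (g.coeff μ).natAbs *
      ∑ a, (M (monomial (μ + m) 1) a z).natAbs := by
  have h1 : g * monomial m 1 = ∑ μ ∈ g.support, g.coeff μ • monomial (μ + m) (1 : ℤ) := by
    conv_lhs => rw [MvPolynomial.as_sum g]
    rw [Finset.sum_mul]
    apply Finset.sum_congr rfl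
    intro μ _
    rw [monomial_mul, smul_monomial, smul_eq_mul]
  have h2 : ∀ a, M (g * monomial m 1) a z =
      ∑ μ ∈ g.support, g.coeff μ * M (monomial (μ + m) 1) a z := by
    intro a
    rw [h1, map_sum, Matrix.sum_apply]
    apply Finset.sum_congr rfl
    intro μ _
    rw [map_smul, Matrix.smul_apply, smul_eq_mul]
  calc ∑ a, (M (g * monomial m 1) a z).natAbs
      ≤ ∑ a, ∑ μ ∈ g.support, (g.coeff μ).natAbs * (M (monomial (μ + m) 1) a z).natAbs := by
        apply Finset.sum_le_sum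
        intro a _
        rw [h2 a]
        refine (Int.natAbs_sum_le _ _).trans (Finset.sum_le_sum fun μ _ => ?_)
        rw [Int.natAbs_mul]
    _ = _ := by
        rw [Finset.sum_comm]
        apply Finset.sum_congr rfl
        intro μ _
        rw [Finset.mul_sum]

theorem col_mono (hM : IsMul d G M) {κ : ℕ} (hκ : 1 ≤ κ) (hG : ∀ i, l1 (G i) ≤ κ) (z : Box d)
    (hz : ∀ i, (z i : ℕ) = 0) : ∀ (k : ℕ) (m : Fin n →₀ ℕ), ∑ j, m j = k →
      ∑ a, (M (monomial m 1) a z).natAbs ≤ κ ^ k := by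
  intro k
  induction k using Nat.strong_induction_on with
  | _ k ih =>
  intro m hm
  rcases box_or (d := d) m with ⟨b, rfl⟩ | ⟨i, m', rfl⟩
  · have h1 : ∀ a, (M (monomial (bx b) 1) a z).natAbs = if a = b then 1 else 0 := by
      intro a
      rw [hM.col z hz a b]
      split_ifs <;> rfl
    rw [Finset.sum_congr rfl fun a _ => h1 a, Finset.sum_ite_eq' Finset.univ b]
    simp only [Finset.mem_univ, if_true]
    exact Nat.one_le_pow _ _ hκ
  · rw [sum_single_add] at hm
    have hd := hM.deg i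
    have e : M (monomial (Finsupp.single i (d i) + m') 1) = M (G i * monomial m' 1) := by
      rw [monomial_single_add, map_mul, hM.rel i, map_mul]
    rw [e]
    refine (col_mul_le M (G i) m' z).trans ?_
    have hk : k = (k - 1) + 1 := by omega
    calc ∑ μ ∈ (G i).support, ((G i).coeff μ).natAbs *
          ∑ a, (M (monomial (μ + m') 1) a z).natAbs
        ≤ ∑ μ ∈ (G i).support, ((G i).coeff μ).natAbs * κ ^ (k - 1) := by
          apply Finset.sum_le_sum
          intro μ hμ
          apply Nat.mul_le_mul_left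
          have h3 := sum_le_totalDegree (mem_support_iff.1 hμ)
          have h4 : ∑ j, (μ + m') j = ∑ j, μ j + ∑ j, m' j := by
            simp only [Finsupp.add_apply, Finset.sum_add_distrib]
          refine (ih (∑ j, (μ + m') j) (by omega) (μ + m') rfl).trans ?_
          exact Nat.pow_le_pow_right hκ (by omega)
      _ = l1 (G i) * κ ^ (k - 1) := by
          rw [← Finset.sum_mul]; rfl
      _ ≤ κ * κ ^ (k - 1) := Nat.mul_le_mul_right _ (hG i)
      _ = κ ^ k := by
          conv_rhs => rw [hk, pow_succ']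

theorem col_sum (hCOL : SCOL) (hM : IsMul d G M) {κ : ℕ} (hκ : 1 ≤ κ) (hG : ∀ i, l1 (G i) ≤ κ)
    (g : MvPolynomial (Fin n) ℤ) (b : Box d) :
    ∑ a, (M g a b).natAbs ≤ l1 g * κ ^ (g.totalDegree + ∑ i, d i) := by
  obtain ⟨z, hz⟩ : ∃ z : Box d, ∀ i, (z i : ℕ) = 0 :=
    ⟨fun i => ⟨0, by have := hM.deg i; omega⟩, fun i => rfl⟩
  have h1 : ∀ a, M g a b = M (g * monomial (bx b) 1) a z := fun a => hCOL ℤ n d G M hM z hz g a b
  rw [Finset.sum_congr rfl fun a _ => by rw [h1 a]]
  refine (col_mul_le M g (bx b) z).trans ?_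
  unfold l1
  rw [Finset.sum_mul]
  apply Finset.sum_le_sum
  intro μ hμ
  apply Nat.mul_le_mul_left
  refine (col_mono hM hκ hG z hz _ (μ + bx b) rfl).trans ?_
  apply Nat.pow_le_pow_right hκ
  have h3 := sum_le_totalDegree (mem_support_iff.1 hμ)
  have h4 : ∑ j, (μ + bx b) j = ∑ j, μ j + ∑ j, (b j : ℕ) := by
    simp only [Finsupp.add_apply, Finset.sum_add_distrib, bx_apply]
  have h5 : ∑ j, (b j : ℕ) ≤ ∑ j, d j := Finset.sum_le_sum fun j _ => (b j).isLt.le
  omega

end

end NB

open NB in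
theorem I_NB (hCOL : SCOL) : SNB := by
  intro n d G M κ hM hκ hG g
  classical
  have h1 : RootCH.nrm (M g).charpoly ≤ ∏ b : Box d, ∑ a, RootCH.nrm ((M g).charmatrix a b) :=
    nrm_det_le _
  refine h1.trans ?_
  have h2 : ∀ b : Box d, ∑ a, RootCH.nrm ((M g).charmatrix a b) ≤
      1 + l1 g * κ ^ (g.totalDegree + ∑ i, d i) := by
    intro b
    have h3 : ∀ a, RootCH.nrm ((M g).charmatrix a b) ≤
        (if a = b then 1 else 0) + (M g a b).natAbs := by
      intro a
      rw [Matrix.charmatrix_apply]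
      refine (RootCH.nrm_sub_le _ _).trans ?_
      rw [RootCH.nrm_C]
      apply Nat.add_le_add_right
      rw [Matrix.diagonal_apply]
      split_ifs
      · rw [RootCH.nrm_X]
      · rw [nrm_zero']
    refine (Finset.sum_le_sum fun a _ => h3 a).trans ?_
    rw [Finset.sum_add_distrib, Finset.sum_ite_eq' Finset.univ b]
    simp only [Finset.mem_univ, if_true]
    exact Nat.add_le_add_left (col_sum hCOL hM hκ hG g b) _
  refine (Finset.prod_le_prod' fun b _ => h2 b).trans ?_
  rw [Finset.prod_const, Finset.card_univ, Fintype.card_pi]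
  simp only [Fintype.card_fin]
  exact le_rfl

end Pool.Agent.Work.MP_859ada_lc.ER
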