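import Pool.Agent.Work.MP_859ada_lc.ER.CDefs

set_option autoImplicit false

namespace Pool.Agent.Work.MP_859ada_lc.ER

open RootCH

namespace NWC

open Finset Polynomial

theorem cast_nwL {p : ℕ} [hp : Fact p.Prime] (N a : ℕ) (P : ℕ → ℕ) (hN : N < p) :
    ((nwL N p a P : ℕ) : ZMod p) =
      (logser (fun m => ((P m : ℕ) : ZMod p)) N).eval (a : ZMod p) := by
  have hp0 : p ≠ 0 := hp.out.ne_zero
  unfold nwL logser
  rw [cast_sM hp0, eval_finsetSum]
  refine Finset.sum_congr rfl fun m hm => ?_
  rw [mem_range] at hm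
  push_cast
  rw [cast_md _ hp0, cast_md _ hp0, cast_invM hp.out (natCast_ne_zero (m + 1) (by omega)
    (by omega))]
  push_cast
  rw [cast_pred hp0]
  simp only [eval_mul, eval_pow, eval_X, eval_C]

theorem cast_nwX {p : ℕ} [hp : Fact p.Prime] (N a : ℕ) (P : ℕ → ℕ) (hN : N < p) :
    ((nwX N p a P : ℕ) : ZMod p) =
      (expser (logser (fun m => ((P m : ℕ) : ZMod p)) N) N).eval (a : ZMod p) := by
  have hp0 : p ≠ 0 := hp.out.ne_zero
  unfold nwX expser
  rw [cast_sM hp0, eval_finsetSum]
  refine Finset.sum_congr rfl fun k hk' => ?_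
  rw [mem_range] at hk'
  push_cast
  have h1 : ((fac k p : ℕ) : ZMod p) ≠ 0 := by
    rw [cast_fac hp.out]; exact factorial_ne_zero k (by omega)
  rw [cast_md _ hp0, cast_invM hp.out h1, cast_fac hp.out]
  push_cast
  rw [cast_nwL N a P hN]
  simp only [eval_mul, eval_pow, eval_C]

end NWC

open Finset Polynomial in
theorem I_NWC : SNWC := by
  intro N p hp P hN1 hN
  have hp0 : p ≠ 0 := hp.out.ne_zero
  have hN2 : N ≤ N * N := Nat.le_mul_self N
  have hNp : N < p - 1 := by omega
  rw [coeff_eq_sum p]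
  · unfold nwR
    rw [cast_md _ hp0]
    push_cast
    rw [cast_pred hp0, cast_sM hp0, neg_one_mul]
    congr 1
    refine Finset.sum_congr rfl fun b _ => ?_
    push_cast
    rw [cast_md _ hp0, NWC.cast_nwX N (b + 1) P (by omega)]
    push_cast
    rfl
  · unfold expser
    refine lt_of_le_of_lt (natDegree_sum_le_of_forall_le (n := N * N) _ _
      fun k hk' => ?_) (by omega)
    rw [mem_range] at hk'
    refine (natDegree_C_mul_le _ _).trans ?_
    refine natDegree_pow_le.trans (Nat.mul_le_mul (by omega) ?_)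
    unfold logser
    refine natDegree_sum_le_of_forall_le _ _ fun m hm => ?_
    rw [mem_range] at hm
    exact (natDegree_C_mul_X_pow_le _ _).trans hm
  · exact hNp

end Pool.Agent.Work.MP_859ada_lc.ER
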