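import Pool.Agent.Work.MP_859ada_lc.ER.SDefs

/-!
# MP_859ada_lc, project ER: the code of the system is polynomial-time computable
-/

set_option autoImplicit false

namespace Pool.Agent.Work.MP_859ada_lc.ER

open Pool.Agent.PT Pool.Agent.Work.MP_46935e_lc

namespace PTF

section
variable {α : Type} [Enc α]

@[local fun_prop]
theorem ptf_inK {E P : α → List (List Gate)} (hE : Pool.Agent.PT.PTF E)
    (hP : Pool.Agent.PT.PTF P) : Pool.Agent.PT.PTF (fun x => inK (E x) (P x)) := by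
  unfold inK
  fun_prop

@[local fun_prop]
theorem ptf_blW {E P : α → List (List Gate)} (hE : Pool.Agent.PT.PTF E)
    (hP : Pool.Agent.PT.PTF P) : Pool.Agent.PT.PTF (fun x => blW (E x) (P x)) := by
  unfold blW
  fun_prop

@[local fun_prop]
theorem ptf_nQ {E P : α → List (List Gate)} (hE : Pool.Agent.PT.PTF E)
    (hP : Pool.Agent.PT.PTF P) : Pool.Agent.PT.PTF (fun x => nQ (E x) (P x)) := by
  unfold nQ
  fun_prop

@[local fun_prop]
theorem ptf_rf {o s i : α → ℕ} (ho : Pool.Agent.PT.PTF o) (hs : Pool.Agent.PT.PTF s)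
    (hi : Pool.Agent.PT.PTF i) : Pool.Agent.PT.PTF (fun x => rf (o x) (s x) (i x)) := by
  unfold rf
  fun_prop

@[local fun_prop]
theorem ptf_lastv {o l : α → ℕ} (ho : Pool.Agent.PT.PTF o) (hl : Pool.Agent.PT.PTF l) :
    Pool.Agent.PT.PTF (fun x => lastv (o x) (l x)) := by
  unfold lastv
  fun_prop

theorem gateEq_code (o s : ℕ) (g : Gate) : gateEq o s g =
    if g.code.1 = 0 then (0, o + s, 0, 0)
    else if g.code.1 = 1 then (1, 0, 2 + g.code.2.1, o + s)
    else if g.code.1 = 2 then (1, rf o s g.code.2.1, rf o s g.code.2.2, o + s)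
    else if g.code.1 = 3 then (1, o + s, rf o s g.code.2.2, rf o s g.code.2.1)
    else (2, rf o s g.code.2.1, rf o s g.code.2.2, o + s) := by
  cases g <;> rfl

@[local fun_prop]
theorem ptf_gateEq {o s : α → ℕ} {g : α → Gate} (ho : Pool.Agent.PT.PTF o)
    (hs : Pool.Agent.PT.PTF s) (hg : Pool.Agent.PT.PTF g) :
    Pool.Agent.PT.PTF (fun x => gateEq (o x) (s x) (g x)) := by
  simp only [gateEq_code]
  fun_prop

@[local fun_prop]
theorem ptf_blkEq {b : α → Bool} {o s : α → ℕ} {q : α → List Gate} (hb : Pool.Agent.PT.PTF b)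
    (ho : Pool.Agent.PT.PTF o) (hs : Pool.Agent.PT.PTF s) (hq : Pool.Agent.PT.PTF q) :
    Pool.Agent.PT.PTF (fun x => blkEq (b x) (o x) (s x) (q x)) := by
  unfold blkEq
  fun_prop

@[local fun_prop]
theorem ptf_eqn {E P : α → List (List Gate)} {m : α → ℕ} (hE : Pool.Agent.PT.PTF E)
    (hP : Pool.Agent.PT.PTF P) (hm : Pool.Agent.PT.PTF m) :
    Pool.Agent.PT.PTF (fun x => eqn (E x) (P x) (m x)) := by
  unfold eqn
  fun_prop

theorem ptf_sbits {E P : α → List (List Gate)} (hE : Pool.Agent.PT.PTF E)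
    (hP : Pool.Agent.PT.PTF P) : Pool.Agent.PT.PTF (fun x => sbits (E x) (P x)) := by
  unfold sbits
  refine Pool.Agent.PT.PTF.flatMap' (f := fun x m =>
    toB (nQ (E x) (P x)) (eqn (E x) (P x) m).1 ++ toB (nQ (E x) (P x)) (eqn (E x) (P x) m).2.1 ++
    toB (nQ (E x) (P x)) (eqn (E x) (P x) m).2.2.1 ++
    toB (nQ (E x) (P x)) (eqn (E x) (P x) m).2.2.2) ?_ (by fun_prop)
  exact (((Pool.Agent.Work.MP_859ada_lc.PTF.toB (by fun_prop) (by fun_prop)).append
    (Pool.Agent.Work.MP_859ada_lc.PTF.toB (by fun_prop) (by fun_prop))).append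
    (Pool.Agent.Work.MP_859ada_lc.PTF.toB (by fun_prop) (by fun_prop))).append
    (Pool.Agent.Work.MP_859ada_lc.PTF.toB (by fun_prop) (by fun_prop))

theorem ptf_senv {E P : α → List (List Gate)} (hE : Pool.Agent.PT.PTF E)
    (hP : Pool.Agent.PT.PTF P) : Pool.Agent.PT.PTF (fun x => senv (E x) (P x)) := by
  unfold senv
  refine ptf_encPair.comp ((ptf_encPair.comp ((Pool.Agent.PT.PTF.const []).pair
    (ptf_sbits hE hP))).pair ?_)
  fun_prop

end

end PTF

theorem I_PTF : SPTF := PTF.ptf_senv Pool.Agent.PT.PTF.fst Pool.Agent.PT.PTF.snd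

end Pool.Agent.Work.MP_859ada_lc.ER
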