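import Pool.Agent.Work.MP_859ada_lc.ER.MDefs
import Pool.Agent.Work.MP_859ada_lc.ER.CDefs
import Pool.Agent.Work.MP_859ada_lc.Std.Root

/-!
# MP_859ada_lc, project ER: from lists of straight-line programs to coded quadratic systems
-/

set_option autoImplicit false

namespace Pool.Agent.Work.MP_859ada_lc.ER

open Pool.Agent.PT Pool.Agent.Work.MP_46935e_lc

/-- the number of input variables -/
def inK (E P : List (List Gate)) : ℕ :=
  ((E ++ P).map fun q => (q.map fun g => g.code.2.1).sum).sum + 1

/-- the width of the blocks -/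
def blW (E P : List (List Gate)) : ℕ := ((E ++ P).map fun q => q.length).sum + 3

/-- the number of variables and of equations -/
def nQ (E P : List (List Gate)) : ℕ := 2 + inK E P + (E ++ P).length * blW E P

/-- the variable of the `i`-th gate, seen from the gate `s` of the block which starts at `o` -/
def rf (o s i : ℕ) : ℕ := if i < s then o + i else 0

/-- the equation of a gate -/
def gateEq (o s : ℕ) : Gate → ℕ × ℕ × ℕ × ℕ
  | .one => (0, o + s, 0, 0)
  | .var k => (1, 0, 2 + k, o + s)
  | .add i j => (1, rf o s i, rf o s j, o + s)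
  | .sub i j => (1, o + s, rf o s j, rf o s i)
  | .mul i j => (2, rf o s i, rf o s j, o + s)

/-- the variable of the last gate of a block of length `l` -/
def lastv (o l : ℕ) : ℕ := if l = 0 then 0 else o + (l - 1)

/-- the equation `s` of the block of the program `q` which starts at `o`; `b` says that `q` must
vanish -/
def blkEq (b : Bool) (o s : ℕ) (q : List Gate) : ℕ × ℕ × ℕ × ℕ :=
  if s < q.length then gateEq o s (q.getD s .one)
  else if s = q.length then (if b = true then (1, lastv o q.length, 0, 0) else (1, 0, 0, 0))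
  else if b = true then (1, 0, 0, 0)
  else if s = q.length + 1 then (2, o + q.length, o + q.length, o + q.length + 1)
  else if s = q.length + 2 then (2, lastv o q.length, o + q.length + 1, 1)
  else (1, 0, 0, 0)

/-- the equations -/
def eqn (E P : List (List Gate)) (m : ℕ) : ℕ × ℕ × ℕ × ℕ :=
  if m = 0 then (1, 0, 0, 0) else if m = 1 then (0, 1, 0, 0)
  else if m < 2 + inK E P then (1, 0, 0, 0)
  else blkEq (decide ((m - (2 + inK E P)) / blW E P < E.length))
    (2 + inK E P + (m - (2 + inK E P)) / blW E P * blW E P) ((m - (2 + inK E P)) % blW E P)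
    ((E ++ P).getD ((m - (2 + inK E P)) / blW E P) [])

/-- an equation holds -/
def hold (e : ℕ × ℕ × ℕ × ℕ) (y : ℕ → ℝ) : Prop :=
  if e.1 = 0 then y e.2.1 = 1
  else if e.1 = 1 then y e.2.1 + y e.2.2.1 = y e.2.2.2
  else y e.2.1 * y e.2.2.1 = y e.2.2.2

/-- blocks -/
def SBLK : Prop := ∀ (q : List Gate) (b : Bool) (o W : ℕ) (y : ℕ → ℝ), q.length + 3 ≤ W →
  y 0 = 0 → y 1 = 1 → (∀ s < W, hold (blkEq b o s q) y) →
  (∀ s < q.length, y (o + s) = (vals (fun k => y (2 + k)) q).getD s 0) ∧
  (b = true → value (fun k => y (2 + k)) q = 0) ∧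
  (b = false → 0 < value (fun k => y (2 + k)) q)

/-- solutions of blocks -/
def SBLK2 : Prop := ∀ (q : List Gate) (b : Bool) (o W : ℕ) (z : ℕ → ℝ), q.length + 3 ≤ W →
  (b = true → value z q = 0) → (b = false → 0 < value z q) →
  ∃ a : ℕ → ℝ, ∀ y : ℕ → ℝ, y 0 = 0 → y 1 = 1 →
    (∀ g ∈ q, ∀ k, g = Gate.var k → y (2 + k) = z k) → (∀ s < W, y (o + s) = a s) →
    ∀ s < W, hold (blkEq b o s q) y

/-- solvability of the whole system -/
def SSEM : Prop := ∀ E P : List (List Gate), (∃ y : ℕ → ℝ, ∀ m < nQ E P, hold (eqn E P m) y) ↔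
  ∃ z : ℕ → ℝ, (∀ q ∈ E, value z q = 0) ∧ ∀ q ∈ P, 0 < value z q

/-- size of the entries -/
def SENT : Prop := ∀ (E P : List (List Gate)), ∀ m < nQ E P, (eqn E P m).1 ≤ 2 ∧
  (eqn E P m).2.1 < nQ E P ∧ (eqn E P m).2.2.1 < nQ E P ∧ (eqn E P m).2.2.2 < nQ E P

/-- the binary code of the equations -/
def sbits (E P : List (List Gate)) : List Bool := (List.range (nQ E P)).flatMap fun m =>
  toB (nQ E P) (eqn E P m).1 ++ toB (nQ E P) (eqn E P m).2.1 ++
    toB (nQ E P) (eqn E P m).2.2.1 ++ toB (nQ E P) (eqn E P m).2.2.2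

/-- the environment of the system -/
def senv (E P : List (List Gate)) : List Bool :=
  encPair (encPair ([], sbits E P), List.replicate (nQ E P - 1) true)

def SENV : Prop := ∀ E P : List (List Gate), QS (env (senv E P) 0) (env (senv E P) 1) ↔
  ∃ y : ℕ → ℝ, ∀ m < nQ E P, hold (eqn E P m) y

def SPTF : Prop := PTF (fun z : List (List Gate) × List (List Gate) => senv z.1 z.2)

/-- closure under polynomially bounded existential quantification -/
def SEXW : Prop := ∀ (k : ℕ) (A : List Bool → Prop) (p : Polynomial ℕ), CLevel k A →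
  CLevel (k + 1) (fun x => ∃ w : List Bool, w.length ≤ p.eval x.length ∧ A (encPair (x, w)))

/-- the theorem -/
def SFIN : Prop := ∃ k : ℕ, ∀ L : List Bool → Prop, ManyReal L → CLevel k L

end Pool.Agent.Work.MP_859ada_lc.ER
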